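import Pool.Agent.H.MP_701cec_lc.LB

/-!
Adjacency facts of the graph of the reduction.
-/

namespace Pool.Agent.H.MP_701cec_lc

variable {P : Par} {I : Inst}

theorem adj_def (u v : Vx P) : (GG P I).Adj u v ↔
    u ≠ v ∧ valid I u ∧ valid I v ∧ (rule I u v ∨ rule I v u) := Iff.rfl

theorem adj_XY {u v : Vx P} {j : Fin P.M} (hu : cls u.1 = some (.X j)) (hv : cls v.1 = some (.Y j))
    (h1 : valid I u) (h2 : valid I v) : (GG P I).Adj u v := by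
  refine ⟨?_, h1, h2, Or.inl (Or.inl ⟨j, hu, hv⟩)⟩
  rintro rfl
  rw [hu] at hv
  cases hv

theorem adj_KY {u v : Vx P} {k : Fin P.p} (hu : cls u.1 = some (.K k))
    (hv : cls v.1 = some (.Y (kY k)))
    (h1 : valid I u) (h2 : valid I v) : (GG P I).Adj u v := by
  refine ⟨?_, h1, h2, Or.inl (Or.inr (Or.inl ⟨k, hu, hv⟩))⟩
  rintro rfl
  rw [hu] at hv
  cases hv

theorem adj_col {τ : Bool × ℕ} {u v : Vx P} (hu : inCol I τ u) (hv : inCol I τ v) (hne : u ≠ v)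
    (hF : ¬ (isF u.1 = true ∧ isF v.1 = true)) : (GG P I).Adj u v := by
  obtain ⟨a1, a2, a3⟩ := hu
  obtain ⟨b1, b2, b3⟩ := hv
  refine ⟨hne, a3, b3, Or.inl (Or.inr (Or.inr (Or.inl ⟨?_, ?_, ?_, hF⟩)))⟩
  · rw [a1]; simp
  · rw [a1, b1]
  · rw [a2, b2]

/-- a vertex of a column is adjacent to the vertex `X_j` of column `0` only if it is of class
`Y_j` -/
theorem adj_X0 {τ : Bool × ℕ} (hτ : isCol I τ) {w : Vx P} (hw : inCol I τ w) {j : Fin P.M}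
    (h : (GG P I).Adj w (.X j false, 0)) : cls w.1 = some (.Y j) := by
  obtain ⟨k, s⟩ := w
  obtain ⟨b, t⟩ := τ
  obtain ⟨h1, h2, h3⟩ := hw
  obtain ⟨g1, g2, g3, g4⟩ := h
  rcases k with ⟨j', _ | _⟩ | ⟨j', _ | _⟩ | i | i | i | b' | ⟨e, i⟩ | ⟨e, b'⟩ | _ | ⟨o, q⟩ | ⟨k, s'⟩ | ⟨e, s'⟩ <;>
    simp_all [rule, cls, side, isF, isCol, l0, valid] <;> omega

theorem adj_Y0 {τ : Bool × ℕ} (hτ : isCol I τ) {w : Vx P} (hw : inCol I τ w) {j : Fin P.M}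
    (h : (GG P I).Adj w (.Y j false, 0)) :
    cls w.1 = some (.X j) ∨ ∃ k : Fin P.p, kY k = j ∧ cls w.1 = some (.K k) := by
  obtain ⟨k, s⟩ := w
  obtain ⟨b, t⟩ := τ
  obtain ⟨h1, h2, h3⟩ := hw
  obtain ⟨g1, g2, g3, g4⟩ := h
  rcases k with ⟨j', _ | _⟩ | ⟨j', _ | _⟩ | i | i | i | b' | ⟨e, i⟩ | ⟨e, b'⟩ | _ | ⟨o, q⟩ | ⟨k, s'⟩ | ⟨e, s'⟩ <;>
    simp_all [rule, cls, side, isF, isCol, l0, valid] <;> try omega

theorem adj_S0 {v : Vx P} (hv : valid I v) {k : Fin P.p} (hc : cls v.1 = some (.K k))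
    (q : Fin (P.δ + 1)) : (GG P I).Adj (.Ob .S0 q, 0) v ↔ ∀ i, v.1 ≠ .R0 i := by
  obtain ⟨k, s⟩ := v
  rcases k with ⟨j', _ | _⟩ | ⟨j', _ | _⟩ | i | i | i | b' | ⟨e, i⟩ | ⟨e, b'⟩ | _ | ⟨o, q⟩ | ⟨k, s'⟩ | ⟨e, s'⟩ <;>
    simp_all [adj_def, rule, cls, side, isF, l0, valid]

theorem adj_Mu {v : Vx P} (hv : valid I v) {a : Cls P} (hc : cls v.1 = some a)
    (q : Fin (P.δ + 1)) : (GG P I).Adj (.Ob .Mu q, 0) v ↔ (∃ i, v.1 = .A i) ∨ (∃ b, v.1 = .H b) := by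
  obtain ⟨k, s⟩ := v
  rcases k with ⟨j', _ | _⟩ | ⟨j', _ | _⟩ | i | i | i | b' | ⟨e, i⟩ | ⟨e, b'⟩ | _ | ⟨o, q⟩ | ⟨k, s'⟩ | ⟨e, s'⟩ <;>
    simp_all [adj_def, rule, cls, side, isF, l0, valid]

theorem adj_ThA {b : Fin 5} {q : Fin (P.δ + 1)} {i : Fin P.p} {s : ℕ} :
    (GG P I).Adj (.Ob (.Th b) q, 0) (.A i, s) ↔ s ≤ I.n ∧ I.ul (s + 1) = b.val := by
  simp_all [adj_def, rule, cls, side, isF, l0, valid]

theorem adj_ThC {b : Fin 5} {q : Fin (P.δ + 1)} {e : Bool} {i : Fin P.p} {s : ℕ} :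
    (GG P I).Adj (.Ob (.Th b) q, 0) (.C e i, s) ↔ s < I.W ∧ I.wl s = b.val := by
  simp_all [adj_def, rule, cls, side, isF, l0, valid]

theorem adj_SR0 {t s : ℕ} {i : Fin P.p} :
    (GG P I).Adj (.S, t) (.R0 i, s) ↔ 1 ≤ t ∧ t ≤ I.n ∧ s ≤ t := by
  simp [adj_def, rule, cls, side, isF, l0, valid]
  omega

theorem adj_SR1 {t s : ℕ} {i : Fin P.p} :
    (GG P I).Adj (.S, t) (.R1 i, s) ↔ 1 ≤ t ∧ t ≤ I.n ∧ s ≤ I.n ∧ s ≠ t := by
  simp [adj_def, rule, cls, side, isF, l0, valid]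
  omega

theorem adj_SA {t s : ℕ} {i : Fin P.p} :
    (GG P I).Adj (.S, t) (.A i, s) ↔ 1 ≤ t ∧ t ≤ I.n ∧ s ≤ I.n ∧ s + 1 ≠ t := by
  simp [adj_def, rule, cls, side, isF, l0, valid]
  omega

theorem adj_SC {t s : ℕ} {e : Bool} {i : Fin P.p} :
    (GG P I).Adj (.S, t) (.C e i, s) ↔ 1 ≤ t ∧ t ≤ I.n ∧ s < I.W := by
  simp [adj_def, rule, cls, side, isF, l0, valid]
  omega

theorem adj_LaC {k : Fin P.ml} {x : Finset (L0 P)} {e : Bool} {i : Fin P.p} {s : ℕ} :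
    (GG P I).Adj (.La k x, 0) (.C e i, s) ↔
      s < I.W ∧ Nat.testBit (2 * (s % (P.c + 1)) + e.toNat) k.val = true := by
  have h : ∀ y : L0 P, l0 y ≠ (.C e i, s) := by
    intro y; cases y <;> simp [l0]
  simp [adj_def, rule, cls, side, isF, isCol, valid, h]

theorem adj_LaA {k : Fin P.ml} {x : Finset (L0 P)} {i : Fin P.p} {s : ℕ} (hs : 1 ≤ s) :
    (GG P I).Adj (.La k x, 0) (.A i, s) ↔ s ≤ I.n := by
  have h : ∀ y : L0 P, l0 y ≠ (.A i, s) := by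
    intro y; cases y <;> simp [l0]; omega
  simp [adj_def, rule, cls, side, isF, isCol, valid, h]
  omega

theorem l0_inj : Function.Injective (l0 : L0 P → Vx P) := by
  intro x y h
  cases x <;> cases y <;> simp_all [l0]

theorem valid_l0 (x : L0 P) : valid I (l0 x) := by
  cases x <;> simp [l0, valid]

theorem adj_LaL0 {k : Fin P.ml} {x : Finset (L0 P)} {y : L0 P} :
    (GG P I).Adj (.La k x, 0) (l0 y) ↔ y ∈ x := by
  have h : ∀ z ∈ x, l0 z = l0 y → y ∈ x := fun z hz h => l0_inj h ▸ hz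
  have h' : (∃ z ∈ x, l0 z = l0 y) ↔ y ∈ x := ⟨fun ⟨z, hz, h1⟩ => h z hz h1, fun h => ⟨y, h, rfl⟩⟩
  cases y <;> simp [adj_def, rule, cls, side, isF, isCol, valid, l0] <;> simpa [l0] using h'

theorem adj_Om {e : Bool} {s : Finset (Cls P)} {v : Vx P} (hv : valid I v) {a : Cls P}
    (hc : cls v.1 = some a) : (GG P I).Adj (.Om e s, 0) v ↔
      a ∈ s ∧ ¬ (e = true ∧ isA v.1 = true ∧ v.2 = I.n) := by
  obtain ⟨k, s⟩ := v
  rcases k with ⟨j', _ | _⟩ | ⟨j', _ | _⟩ | i | i | i | b' | ⟨e, i⟩ | ⟨e, b'⟩ | _ | ⟨o, q⟩ | ⟨k, s'⟩ | ⟨e, s'⟩ <;>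
    simp_all [adj_def, rule, cls, side, isF, isA, isCol, l0, valid]

theorem adj_Om_none {e : Bool} {s : Finset (Cls P)} {v : Vx P}
    (hc : cls v.1 = none) : ¬ (GG P I).Adj (.Om e s, 0) v := by
  have h : ∀ y : L0 P, l0 y ≠ (.Om e s, 0) := by
    intro y; cases y <;> simp [l0]
  obtain ⟨k, s⟩ := v
  rcases k with ⟨j', _ | _⟩ | ⟨j', _ | _⟩ | i | i | i | b' | ⟨e, i⟩ | ⟨e, b'⟩ | _ | ⟨o, q⟩ | ⟨k, s'⟩ | ⟨e, s'⟩ <;>
    simp_all [adj_def, rule, cls, side, isF, isA, isCol, valid]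

theorem adj_FF {e e' : Bool} {b b' : Fin P.g} {s s' : ℕ} :
    (GG P I).Adj (.F e b, s) (.F e' b', s') ↔ s < I.W ∧ s' < I.W ∧ b = b' ∧
      ((e = true ∧ e' = false ∧ s' = s + 1 ∧ I.jb s' = I.jb s) ∨
       (e = false ∧ e' = true ∧ s = s' + 1 ∧ I.jb s = I.jb s')) := by
  cases e <;> cases e' <;> simp [adj_def, rule, cls, side, isF, isA, isCol, l0, valid] <;> grind

/-- a thread vertex has only thread vertices as neighbours outside of its column -/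
theorem adj_F_nonF {e : Bool} {b : Fin P.g} {s : ℕ} {v : Vx P} (hv : isF v.1 = false)
    (h : (GG P I).Adj (.F e b, s) v) : inCol I (true, s) v := by
  have h' : ∀ y : L0 P, l0 y ≠ (.F e b, s) := by
    intro y; cases y <;> simp [l0]
  obtain ⟨k, s⟩ := v
  obtain ⟨g1, g2, g3, g4⟩ := h
  rcases k with ⟨j', _ | _⟩ | ⟨j', _ | _⟩ | i | i | i | b' | ⟨e, i⟩ | ⟨e, b'⟩ | _ | ⟨o, q⟩ | ⟨k, s'⟩ | ⟨e, s'⟩ <;>
    simp_all [rule, cls, side, isF, isA, valid, inCol] <;> omega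

end Pool.Agent.H.MP_701cec_lc
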