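import Pool.Agent.H.MP_701cec_lc.Blk

/-!
Schedules of block instances give schedules.
-/

namespace Pool.Agent.H.MP_701cec_lc

theorem b1_step {K : ℕ} (hK : 0 < K) (ω : ℕ) :
    ((ω + 1) / K = ω / K ∧ (ω + 1) % K = ω % K + 1 ∧ ω % K + 1 < K) ∨
    ((ω + 1) / K = ω / K + 1 ∧ (ω + 1) % K = 0 ∧ ω % K + 1 = K) := by
  have h1 := Nat.div_add_mod ω K
  have h2 := Nat.mod_lt ω hK
  by_cases h : ω % K + 1 < K
  · left
    have h3 : ω + 1 = K * (ω / K) + (ω % K + 1) := by omega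
    refine ⟨?_, ?_, h⟩
    · rw [h3, Nat.mul_add_div hK, Nat.div_eq_of_lt h, add_zero]
    · rw [h3, Nat.mul_add_mod, Nat.mod_eq_of_lt h]
  · right
    have h4 : ω % K + 1 = K := by omega
    have h3 : ω + 1 = K * (ω / K + 1) := by rw [Nat.mul_add]; omega
    refine ⟨?_, ?_, h4⟩
    · rw [h3, Nat.mul_div_cancel_left _ hK]
    · rw [h3, Nat.mul_mod_right]

theorem b1_lt {K a b r : ℕ} (hr : r < K) (h : K * a ≤ K * b + r) : a ≤ b := by
  by_contra hc
  have h1 : b + 1 ≤ a := by omega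
  have h2 := Nat.mul_le_mul_left K h1
  rw [Nat.mul_add] at h2
  omega

theorem sched_of_bsched (X : BI) {K : ℕ} (hK : 0 < K) (s : BSched X) :
    Nonempty (Sched (X.blow K)) := by
  have hz : ∀ ω, ω < K * X.wb → ω / K < X.wb := fun ω h => Nat.div_lt_of_lt_mul h
  have hr : ∀ ω, ω % K < K := fun ω => Nat.mod_lt ω hK
  -- the position
  let pos : ℕ → ℕ := fun ω => 2 + K * s.pos (ω / K) + ω % K
  have hinj : ∀ ω < K * X.wb, ∀ ω' < K * X.wb, pos ω = pos ω' → ω = ω' := by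
    intro ω h ω' h' e
    have e' : 2 + K * s.pos (ω / K) + ω % K = 2 + K * s.pos (ω' / K) + ω' % K := e
    have e1 : s.pos (ω / K) ≤ s.pos (ω' / K) := b1_lt (hr ω') (by omega)
    have e2 : s.pos (ω' / K) ≤ s.pos (ω / K) := b1_lt (hr ω) (by omega)
    have e3 : s.pos (ω / K) = s.pos (ω' / K) := le_antisymm e1 e2
    have e4 := s.inj _ (hz ω h) _ (hz ω' h') e3
    rw [e3] at e'
    have h1 := Nat.div_add_mod ω K
    have h2 := Nat.div_add_mod ω' K
    rw [e4] at h1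
    omega
  -- a segment does not contain other columns
  have hgap : ∀ ω, ω + 1 < K * X.wb → X.jbb ((ω + 1) / K) = X.jbb (ω / K) → ∀ ω' < K * X.wb,
      pos ω < pos ω' → pos ω' < pos (ω + 1) → False := by
    intro ω h hj ω' h' l1 l2
    have l1' : 2 + K * s.pos (ω / K) + ω % K < 2 + K * s.pos (ω' / K) + ω' % K := l1
    have l2' : 2 + K * s.pos (ω' / K) + ω' % K
        < 2 + K * s.pos ((ω + 1) / K) + (ω + 1) % K := l2
    rcases b1_step hK ω with ⟨a1, a2, a3⟩ | ⟨a1, a2, a3⟩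
    · rw [a1, a2] at l2'
      omega
    · have hz1 := hz _ h
      rw [a1] at l2' hj hz1
      rw [a2] at l2'
      refine s.gap (ω / K) hz1 hj (ω' / K) (hz ω' h') ?_ ?_
      · have h1 : K * (s.pos (ω / K) + 1) ≤ K * s.pos (ω' / K) + ω' % K := by
          rw [Nat.mul_add]; omega
        exact b1_lt (hr ω') h1
      · by_contra hc
        have h2 := Nat.mul_le_mul_left K (not_lt.1 hc)
        omega
  have hord : ∀ ω, ω + 1 < K * X.wb → X.jbb ((ω + 1) / K) = X.jbb (ω / K) →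
      pos ω < pos (ω + 1) := by
    intro ω h hj
    show 2 + K * s.pos (ω / K) + ω % K < 2 + K * s.pos ((ω + 1) / K) + (ω + 1) % K
    rcases b1_step hK ω with ⟨a1, a2, a3⟩ | ⟨a1, a2, a3⟩
    · rw [a1, a2]
      omega
    · have hz1 := hz _ h
      rw [a1] at hj hz1
      rw [a1, a2]
      have h1 := Nat.mul_le_mul_left K (s.ord (ω / K) hz1 hj)
      rw [Nat.succ_eq_add_one, Nat.mul_add] at h1
      omega
  refine ⟨⟨pos, ?_, ?_, hinj, ?_, ?_, ?_, ?_⟩⟩
  · intro ω _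
    show 2 ≤ 2 + K * s.pos (ω / K) + ω % K
    omega
  · intro ω h
    show 2 + K * s.pos (ω / K) + ω % K ≤ 1 + K * X.nb
    have h1 := Nat.mul_le_mul_left K (s.lt _ (hz ω h))
    have h2 := hr ω
    rw [Nat.succ_eq_add_one, Nat.mul_add] at h1
    omega
  · intro ω h
    show (if 2 + K * s.pos (ω / K) + ω % K < 2 then 5
      else X.ub ((2 + K * s.pos (ω / K) + ω % K - 2) / K)) = X.wlb (ω / K)
    rw [if_neg (by omega)]
    have h1 : 2 + K * s.pos (ω / K) + ω % K - 2 = K * s.pos (ω / K) + ω % K := by omega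
    rw [h1, Nat.mul_add_div hK, Nat.div_eq_of_lt (hr ω), add_zero]
    exact s.letter _ (hz ω h)
  · intro ω h
    exact hord ω h.1 h.2
  · intro ω ω' h h' hne
    have k1 : ω < K * X.wb := lt_trans (Nat.lt_succ_self _) h.1
    have k2 : ω' < K * X.wb := lt_trans (Nat.lt_succ_self _) h'.1
    rcases lt_trichotomy (pos ω) (pos ω') with hlt | heq | hgt
    · left
      by_contra hc
      exact hgap ω h.1 h.2 ω' k2 hlt (not_le.1 hc)
    · exact absurd (hinj ω k1 ω' k2 heq) hne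
    · right
      by_contra hc
      exact hgap ω' h'.1 h'.2 ω k1 hgt (not_le.1 hc)
  · intro ω h β hβ l1 l2
    obtain ⟨b1, b2, b3⟩ := hβ
    have hj : X.jbb ((ω + 1) / K) = X.jbb (ω / K) := h.2
    have l1' : 2 + K * s.pos (ω / K) + ω % K ≤ β := l1
    have l2' : β < 2 + K * s.pos ((ω + 1) / K) + (ω + 1) % K := l2
    rcases b1_step hK ω with ⟨a1, a2, a3⟩ | ⟨a1, a2, a3⟩
    · rw [a1, a2] at l2'
      have h1 : β - 1 = K * s.pos (ω / K) + (ω % K + 1) := by omega
      rw [h1, Nat.mul_add_mod, Nat.mod_eq_of_lt a3] at b2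
      omega
    · have hz1 := hz _ h.1
      rw [a1] at l2' hj hz1
      rw [a2] at l2'
      refine s.bnd (ω / K) hz1 hj ((β - 2) / K) b3 ?_ ?_
      · rw [Nat.le_div_iff_mul_le hK, Nat.mul_comm]
        omega
      · exact Nat.div_lt_of_lt_mul (by omega)

end Pool.Agent.H.MP_701cec_lc
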