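import Pool.Agent.H.MP_701cec_lc.UB

/-!
Block instances: every letter is repeated `K` times. Definitions of block instances, of their
schedules and weak schedules, and the block instance of a formula in conjunctive normal form.
-/

namespace Pool.Agent.H.MP_701cec_lc

/-- A block instance: `nb` tick blocks with letters `ub y`, a boundary after the tick blocks `y`
with `bdb y`; `wb` W-blocks with letters `wlb z`, divided into jobs `jbb z`. -/
structure BI where
  nb : ℕ
  wb : ℕ
  ub : ℕ → ℕ
  wlb : ℕ → ℕ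
  bdb : ℕ → Prop
  jbb : ℕ → ℕ

/-- The instance in which every block is repeated `K` times. The ticks of block `y` are
`2 + K y + r` with `r < K`. -/
def BI.blow (X : BI) (K : ℕ) : Inst where
  n := 1 + K * X.nb
  W := K * X.wb
  ul t := if t < 2 then 5 else X.ub ((t - 2) / K)
  wl ω := X.wlb (ω / K)
  bd β := 2 ≤ β ∧ (β - 1) % K = 0 ∧ X.bdb ((β - 2) / K)
  jb ω := X.jbb (ω / K)

/-- schedules of block instances -/
structure BSched (X : BI) where
  pos : ℕ → ℕ
  lt : ∀ z < X.wb, pos z < X.nb
  inj : ∀ z < X.wb, ∀ z' < X.wb, pos z = pos z' → z = z'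
  letter : ∀ z < X.wb, X.ub (pos z) = X.wlb z
  ord : ∀ z, z + 1 < X.wb → X.jbb (z + 1) = X.jbb z → pos z < pos (z + 1)
  gap : ∀ z, z + 1 < X.wb → X.jbb (z + 1) = X.jbb z → ∀ z' < X.wb,
    pos z < pos z' → pos z' < pos (z + 1) → False
  bnd : ∀ z, z + 1 < X.wb → X.jbb (z + 1) = X.jbb z → ∀ y, X.bdb y → pos z ≤ y →
    y < pos (z + 1) → False

/-- the number of blocks of the job `J` with letter `b` -/
def BI.cnt (X : BI) (J b : ℕ) : ℕ :=
  ((Finset.range X.wb).filter fun z => X.jbb z = J ∧ X.wlb z = b).card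

/-- the number of blocks of the job `J` -/
def BI.len (X : BI) (J : ℕ) : ℕ := ((Finset.range X.wb).filter fun z => X.jbb z = J).card

/-- Weak schedules of block instances: `H J` is the set of the tick blocks which are used by proper
columns of the job `J`. -/
structure BW (X : BI) where
  H : ℕ → Finset ℕ
  lt : ∀ J, ∀ y ∈ H J, y < X.nb
  letr : ∀ J, ∀ y ∈ H J, ∃ z < X.wb, X.jbb z = J ∧ X.wlb z = X.ub y
  cnt : ∀ J b, X.cnt J b ≤ ((H J).filter fun y => X.ub y = b).card
  two : ∀ J J', J ≠ J' → X.len J + X.len J' ≤ (H J ∪ H J').card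
  alone : ∀ J J', J ≠ J' → ∀ y₁ ∈ H J, ∀ y₂ ∈ H J, ∀ y ∈ H J', y₁ < y → y < y₂ → False
  bnd : ∀ J, ∀ y₁ ∈ H J, ∀ y₂ ∈ H J, ∀ y, X.bdb y → y₁ ≤ y → y < y₂ → False

/-- A formula in conjunctive normal form: `N` variables, `m` clauses, `occ v s j`: the literal
`(v, s)` occurs in the clause `j`. -/
structure CF where
  N : ℕ
  m : ℕ
  occ : ℕ → Bool → ℕ → Prop

/-- satisfiability -/
def CF.Sat (F : CF) : Prop := ∃ τ : ℕ → Bool, ∀ j < F.m, ∃ v < F.N, ∃ s, F.occ v s j ∧ τ v = s

namespace CF
variable (F : CF)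

/-- the number of frames -/
def N' : ℕ := F.N * F.m

/-- the number of tick blocks of a frame -/
def B : ℕ := 3 + 2 * F.N' + 2 * F.m

/-- the previous frame in the wheel of the variable -/
def prev (f : ℕ) : ℕ := F.m * (f / F.m) + (f % F.m + F.m - 1) % F.m

/-- the next frame in the wheel of the variable -/
def next (f : ℕ) : ℕ := F.m * (f / F.m) + (f % F.m + 1) % F.m

open Classical in
/-- the code of the clause slot of the frame `f` in the region with sign `s` -/
noncomputable def dd (f : ℕ) (s : Bool) : ℕ := if F.occ (f / F.m) s (f % F.m) then f % F.m else F.m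

/-- the letter of the tick block `b` of the frame `f` -/
noncomputable def let' (f b : ℕ) : ℕ :=
  if b = 0 then 4
  else if b < 1 + F.N' then (if b - 1 < F.prev f then 0 else 1)
  else if b < 1 + F.N' + F.m then (if b - 1 - F.N' < F.dd f true then 2 else 3)
  else if b = 1 + F.N' + F.m then 4
  else if b < 2 + 2 * F.N' + F.m then (if b - 2 - F.N' - F.m < f then 0 else 1)
  else if b < 2 + 2 * F.N' + 2 * F.m then (if b - 2 - 2 * F.N' - F.m < F.dd f false then 2 else 3)
  else 4

/-- The block instance: jobs `f < N'` are the fillers (blocks `2 f`, `2 f + 1`), jobs `N' + e` with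
`e < N'` are the link jobs (blocks `2 N' + N' e + q`, `q < N'`), jobs `2 N' + j` with `j < m` are
the clause jobs (blocks `2 N' + N' N' + m j + q`, `q < m`). -/
noncomputable def bi : BI where
  nb := F.B * F.N'
  wb := 2 * F.N' + F.N' * F.N' + F.m * F.m
  ub y := F.let' (y / F.B) (y % F.B)
  wlb z :=
    if z < 2 * F.N' then 4
    else if z < 2 * F.N' + F.N' * F.N' then
      (if (z - 2 * F.N') % F.N' < (z - 2 * F.N') / F.N' then 0 else 1)
    else (if (z - 2 * F.N' - F.N' * F.N') % F.m < (z - 2 * F.N' - F.N' * F.N') / F.m then 2 else 3)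
  bdb y := (y + 1) % F.B = 0
  jbb z :=
    if z < 2 * F.N' then z / 2
    else if z < 2 * F.N' + F.N' * F.N' then F.N' + (z - 2 * F.N') / F.N'
    else 2 * F.N' + (z - 2 * F.N' - F.N' * F.N') / F.m

end CF

/-- the number of columns of a job which may be not proper -/
def Par.err (P : Par) : ℕ := P.r1 + 5

/-- the length of the blocks -/
def Par.K (P : Par) : ℕ := (P.c + 1) * (2 * P.err + 1)

end Pool.Agent.H.MP_701cec_lc
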