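import Pool.Agent.H.MP_701cec_lc.LB
import Pool.Agent.H.MP_701cec_lc.Blk

/-!
Weak schedules give weak schedules of block instances.
-/

namespace Pool.Agent.H.MP_701cec_lc

namespace B2

theorem card_blow {K wb : ℕ} (hK : 0 < K) (p : ℕ → Prop) [DecidablePred p] :
    K * ((Finset.range wb).filter p).card ≤
      ((Finset.range (K * wb)).filter fun ω => p (ω / K)).card := by
  classical
  have h1 : (((Finset.range wb).filter p ×ˢ Finset.range K).image fun x => K * x.1 + x.2) ⊆
      (Finset.range (K * wb)).filter fun ω => p (ω / K) := by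
    intro ω hω
    rw [Finset.mem_image] at hω
    obtain ⟨⟨z, q⟩, hx, rfl⟩ := hω
    rw [Finset.mem_product, Finset.mem_filter, Finset.mem_range, Finset.mem_range] at hx
    obtain ⟨⟨hz, hp⟩, hq⟩ := hx
    dsimp only at hz hp hq ⊢
    rw [Finset.mem_filter, Finset.mem_range]
    have e : (K * z + q) / K = z := by
      rw [Nat.mul_add_div hK, Nat.div_eq_of_lt hq, add_zero]
    refine ⟨?_, by rw [e]; exact hp⟩
    calc K * z + q < K * z + K := by omega
      _ = K * (z + 1) := by ring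
      _ ≤ K * wb := Nat.mul_le_mul_left K hz
  have h2 := Finset.card_le_card h1
  rw [Finset.card_image_of_injOn, Finset.card_product, Finset.card_range] at h2
  · rw [mul_comm]; exact h2
  · rintro ⟨z, q⟩ hx ⟨z', q'⟩ hx' he
    have hq : q < K := Finset.mem_range.1 (Finset.mem_product.1 hx).2
    have hq' : q' < K := Finset.mem_range.1 (Finset.mem_product.1 hx').2
    dsimp only at he
    have e1 : (K * z + q) / K = z := by
      rw [Nat.mul_add_div hK, Nat.div_eq_of_lt hq, add_zero]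
    have e2 : (K * z' + q') / K = z' := by
      rw [Nat.mul_add_div hK, Nat.div_eq_of_lt hq', add_zero]
    have e3 : z = z' := by rw [← e1, ← e2, he]
    subst e3
    have e4 : q = q' := by omega
    rw [e4]

theorem card_le_blocks {K : ℕ} (hK : 0 < K) (S B : Finset ℕ) (tk : ℕ → ℕ)
    (h2 : ∀ ω ∈ S, 2 ≤ tk ω) (hinj : ∀ ω ∈ S, ∀ ω' ∈ S, tk ω = tk ω' → ω = ω')
    (hB : ∀ ω ∈ S, (tk ω - 2) / K ∈ B) : S.card ≤ K * B.card := by
  classical
  have h1 : S.card ≤ (B ×ˢ Finset.range K).card := by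
    refine Finset.card_le_card_of_injOn (fun ω => ((tk ω - 2) / K, (tk ω - 2) % K)) ?_ ?_
    · intro ω hω
      rw [Finset.mem_coe] at hω
      rw [Finset.mem_coe, Finset.mem_product]
      exact ⟨hB ω hω, Finset.mem_range.2 (Nat.mod_lt _ hK)⟩
    · intro ω hω ω' hω' he
      rw [Finset.mem_coe] at hω hω'
      have e1 : (tk ω - 2) / K = (tk ω' - 2) / K := congrArg Prod.fst he
      have e2 : (tk ω - 2) % K = (tk ω' - 2) % K := congrArg Prod.snd he
      have e3 : tk ω - 2 = tk ω' - 2 := by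
        rw [← Nat.div_add_mod (tk ω - 2) K, ← Nat.div_add_mod (tk ω' - 2) K, e1, e2]
      have a1 := h2 ω hω
      have a2 := h2 ω' hω'
      exact hinj ω hω ω' hω' (by omega)
  rw [Finset.card_product, Finset.card_range, mul_comm] at h1
  exact h1

section
variable {X : BI} {K r : ℕ}

/-- proper columns -/
def Proper (s : WSched (X.blow K) r) (ω : ℕ) : Prop :=
  ω < K * X.wb ∧ 1 ≤ s.a ω ∧ interior (X.blow K) ω ∧
    ∃ σ < K * X.wb, X.jbb (σ / K) = X.jbb (ω / K) ∧ s.a σ < s.a ω

open Classical in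
/-- the proper columns of the job `J` -/
noncomputable def PJ (s : WSched (X.blow K) r) (J : ℕ) : Finset ℕ :=
  (Finset.range (K * X.wb)).filter fun ω => X.jbb (ω / K) = J ∧ Proper s ω

theorem mem_PJ {s : WSched (X.blow K) r} {J ω : ℕ} :
    ω ∈ PJ s J ↔ X.jbb (ω / K) = J ∧ Proper s ω := by
  classical
  unfold PJ
  simp only [Finset.mem_filter, Finset.mem_range]
  exact ⟨fun h => h.2, fun h => ⟨h.2.1, h⟩⟩

theorem div_lt (_ : 0 < K) {ω : ℕ} (h : ω < K * X.wb) : ω / K < X.wb :=
  Nat.div_lt_of_lt_mul h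

theorem tk_two (hK : 0 < K) (hwl : ∀ z < X.wb, X.wlb z < 5) (s : WSched (X.blow K) r) {ω : ℕ}
    (h : Proper s ω) : 2 ≤ s.tk ω ∧ X.ub ((s.tk ω - 2) / K) = X.wlb (ω / K) ∧
      (s.tk ω - 2) / K < X.nb := by
  obtain ⟨h1, h2, h3, h4⟩ := h
  have hl := s.letter ω h1 h2
  have hp := s.tk_pos ω h1 h2
  have hn : (X.blow K).n = 1 + K * X.nb := rfl
  rw [hn] at hp
  simp only [BI.blow] at hl
  split_ifs at hl with h5
  · have := hwl _ (div_lt hK h1)
    omega
  · refine ⟨by omega, hl, ?_⟩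
    apply Nat.div_lt_of_lt_mul
    omega

theorem a_of_tk (s : WSched (X.blow K) r) {ω ω' : ℕ} (h : ω < K * X.wb)
    (h' : ω' < K * X.wb) (h1' : 1 ≤ s.a ω') (hlt : s.tk ω < s.tk ω') :
    s.a ω < s.a ω' := by
  by_contra hcon
  push Not at hcon
  rcases hcon.eq_or_lt with e | e
  · have := s.tk_eq ω' h' ω h h1' e
    omega
  · have := s.tk_lt ω' h' ω h h1' e
    omega

theorem tk_inj (s : WSched (X.blow K) r) {ω ω' : ℕ} (h : Proper s ω) (h' : Proper s ω')
    (he : s.tk ω = s.tk ω') : ω = ω' := by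
  have e : s.a ω = s.a ω' := by
    rcases lt_trichotomy (s.a ω) (s.a ω') with e | e | e
    · have := s.tk_lt ω h.1 ω' h'.1 h.2.1 e
      omega
    · exact e
    · have := s.tk_lt ω' h'.1 ω h.1 h'.2.1 e
      omega
  exact s.uniq ω' h'.1 h'.2.1 h'.2.2.1 h'.2.2.2 ω h.1 e

/-- columns which are not interior -/
theorem ends_card (hmono : ∀ z z', z ≤ z' → z' < X.wb → X.jbb z ≤ X.jbb z') (hK : 0 < K) (J : ℕ)
    (T : Finset ℕ) (hT : ∀ ω ∈ T, ω < K * X.wb ∧ X.jbb (ω / K) = J ∧
      ¬ interior (X.blow K) ω) : T.card ≤ 2 := by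
  classical
  by_cases hne : T.Nonempty
  · have hsub : T ⊆ {T.min' hne, T.max' hne} := by
      intro ω hω
      rw [Finset.mem_insert, Finset.mem_singleton]
      by_contra hcon
      push Not at hcon
      obtain ⟨c1, c2⟩ := hcon
      have l1 : T.min' hne < ω := lt_of_le_of_ne (T.min'_le ω hω) (Ne.symm c1)
      have l2 : ω < T.max' hne := lt_of_le_of_ne (T.le_max' ω hω) c2
      obtain ⟨a1, a2, -⟩ := hT _ (T.min'_mem hne)
      obtain ⟨b1, b2, -⟩ := hT _ (T.max'_mem hne)
      obtain ⟨d1, d2, d3⟩ := hT ω hω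
      apply d3
      refine ⟨by omega, ?_, ?_, ?_⟩
      · show ω + 1 < K * X.wb
        omega
      · show X.jbb ((ω - 1) / K) = X.jbb (ω / K)
        apply le_antisymm
        · exact hmono _ _ (Nat.div_le_div_right (by omega)) (div_lt hK d1)
        · rw [d2, ← a2]
          exact hmono _ _ (Nat.div_le_div_right (by omega)) (div_lt hK (by omega))
      · show X.jbb ((ω + 1) / K) = X.jbb (ω / K)
        apply le_antisymm
        · rw [d2, ← b2]
          exact hmono _ _ (Nat.div_le_div_right (by omega)) (div_lt hK b1)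
        · exact hmono _ _ (Nat.div_le_div_right (by omega)) (div_lt hK (by omega))
    exact (Finset.card_le_card hsub).trans Finset.card_le_two
  · rw [Finset.not_nonempty_iff_eq_empty] at hne
    rw [hne]
    simp

/-- at most `r + 5` columns of a job are not proper -/
theorem not_proper_card (hmono : ∀ z z', z ≤ z' → z' < X.wb → X.jbb z ≤ X.jbb z') (hK : 0 < K)
    (s : WSched (X.blow K) r) (J : ℕ) (T : Finset ℕ)
    (hT : ∀ ω ∈ T, ω < K * X.wb ∧ X.jbb (ω / K) = J ∧ ¬ Proper s ω) : T.card ≤ r + 5 := by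
  classical
  set A0 := (Finset.range (K * X.wb)).filter fun ω => s.a ω = 0 with hA0
  set E := T.filter fun ω => ¬ interior (X.blow K) ω with hE
  set M := T.filter fun ω => 1 ≤ s.a ω ∧
    ∀ σ < K * X.wb, X.jbb (σ / K) = X.jbb (ω / K) → s.a ω ≤ s.a σ with hM
  have h1 : A0.card ≤ r := s.pre
  have h2 : E.card ≤ 2 := by
    refine ends_card hmono hK J E ?_
    intro ω hω
    rw [hE, Finset.mem_filter] at hω
    obtain ⟨a1, a2, -⟩ := hT ω hω.1
    exact ⟨a1, a2, hω.2⟩
  have h3 : M.card ≤ 3 := by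
    by_cases hne : M.Nonempty
    · obtain ⟨ω₀, hω₀⟩ := hne
      rw [hM, Finset.mem_filter] at hω₀
      obtain ⟨b1, b2, b3⟩ := hω₀
      obtain ⟨c1, c2, -⟩ := hT ω₀ b1
      have h4 := s.three ω₀ c1 b2
      refine le_trans (Finset.card_le_card ?_) h4
      intro ω hω
      rw [hM, Finset.mem_filter] at hω
      obtain ⟨d1, d2, d3⟩ := hω
      obtain ⟨e1, e2, -⟩ := hT ω d1
      rw [Finset.mem_filter, Finset.mem_range]
      refine ⟨e1, le_antisymm ?_ ?_⟩
      · exact d3 ω₀ c1 (by rw [c2, e2])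
      · exact b3 ω e1 (by rw [c2, e2])
    · rw [Finset.not_nonempty_iff_eq_empty] at hne
      rw [hne]
      simp
  have hsub : T ⊆ (A0 ∪ E) ∪ M := by
    intro ω hω
    obtain ⟨a1, a2, a3⟩ := hT ω hω
    rw [Finset.mem_union, Finset.mem_union]
    by_cases c1 : s.a ω = 0
    · left; left
      rw [hA0, Finset.mem_filter, Finset.mem_range]
      exact ⟨a1, c1⟩
    · by_cases c2 : interior (X.blow K) ω
      · right
        rw [hM, Finset.mem_filter]
        refine ⟨hω, by omega, ?_⟩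
        intro σ hσ hj
        by_contra hcon
        push Not at hcon
        exact a3 ⟨a1, by omega, c2, σ, hσ, hj, hcon⟩
      · left; right
        rw [hE, Finset.mem_filter]
        exact ⟨hω, c2⟩
  have h5 := Finset.card_le_card hsub
  have h6 := Finset.card_union_le (A0 ∪ E) M
  have h7 := Finset.card_union_le A0 E
  omega

/-- many columns of a job with a property of their blocks are proper -/
theorem proper_card (hmono : ∀ z z', z ≤ z' → z' < X.wb → X.jbb z ≤ X.jbb z') (hK : 0 < K)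
    (s : WSched (X.blow K) r) (J : ℕ) (p : ℕ → Prop) [DecidablePred p] :
    K * ((Finset.range X.wb).filter fun z => X.jbb z = J ∧ p z).card ≤
      ((PJ s J).filter fun ω => p (ω / K)).card + (r + 5) := by
  classical
  have h1 := card_blow (wb := X.wb) hK fun z => X.jbb z = J ∧ p z
  have h2 := Finset.card_filter_add_card_filter_not
    (s := (Finset.range (K * X.wb)).filter fun ω => X.jbb (ω / K) = J ∧ p (ω / K))
    (fun ω => Proper s ω)
  have h3 : (((Finset.range (K * X.wb)).filter fun ω => X.jbb (ω / K) = J ∧ p (ω / K)).filter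
      fun ω => Proper s ω).card ≤ ((PJ s J).filter fun ω => p (ω / K)).card := by
    apply Finset.card_le_card
    intro ω hω
    rw [Finset.mem_filter, Finset.mem_filter] at hω
    rw [Finset.mem_filter, mem_PJ]
    exact ⟨⟨hω.1.2.1, hω.2⟩, hω.1.2.2⟩
  have h4 : (((Finset.range (K * X.wb)).filter fun ω => X.jbb (ω / K) = J ∧ p (ω / K)).filter
      fun ω => ¬ Proper s ω).card ≤ r + 5 := by
    refine not_proper_card hmono hK s J _ ?_
    intro ω hω
    rw [Finset.mem_filter, Finset.mem_filter, Finset.mem_range] at hω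
    exact ⟨hω.1.1, hω.1.2.1, hω.2⟩
  omega

end

end B2

open B2 in
theorem bw_of_wsched (X : BI) {K r : ℕ} (hK : 2 * (r + 5) < K)
    (hwl : ∀ z < X.wb, X.wlb z < 5)
    (hmono : ∀ z z', z ≤ z' → z' < X.wb → X.jbb z ≤ X.jbb z') (s : WSched (X.blow K) r) :
    Nonempty (BW X) := by
  classical
  have hK0 : 0 < K := by omega
  have hmem : ∀ J y, y ∈ (PJ s J).image (fun ω => (s.tk ω - 2) / K) ↔
      ∃ ω, X.jbb (ω / K) = J ∧ Proper s ω ∧ (s.tk ω - 2) / K = y := by
    intro J y
    rw [Finset.mem_image]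
    constructor
    · rintro ⟨ω, hω, h⟩
      rw [mem_PJ] at hω
      exact ⟨ω, hω.1, hω.2, h⟩
    · rintro ⟨ω, h1, h2, h3⟩
      exact ⟨ω, mem_PJ.2 ⟨h1, h2⟩, h3⟩
  refine ⟨{
    H := fun J => (PJ s J).image fun ω => (s.tk ω - 2) / K
    lt := ?_
    letr := ?_
    cnt := ?_
    two := ?_
    alone := ?_
    bnd := ?_ }⟩
  · intro J y hy
    rw [hmem] at hy
    obtain ⟨ω, h1, h2, rfl⟩ := hy
    exact (tk_two hK0 hwl s h2).2.2
  · intro J y hy
    rw [hmem] at hy
    obtain ⟨ω, h1, h2, rfl⟩ := hy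
    exact ⟨ω / K, div_lt hK0 h2.1, h1, (tk_two hK0 hwl s h2).2.1.symm⟩
  · intro J b
    have h1 := proper_card hmono hK0 s J (fun z => X.wlb z = b)
    have h2 := card_le_blocks hK0 ((PJ s J).filter fun ω => X.wlb (ω / K) = b)
      (((PJ s J).image fun ω => (s.tk ω - 2) / K).filter fun y => X.ub y = b) s.tk
      (fun ω hω => (tk_two hK0 hwl s (mem_PJ.1 (Finset.mem_filter.1 hω).1).2).1)
      (fun ω hω ω' hω' he => tk_inj s (mem_PJ.1 (Finset.mem_filter.1 hω).1).2
        (mem_PJ.1 (Finset.mem_filter.1 hω').1).2 he)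
      (fun ω hω => by
        rw [Finset.mem_filter] at hω
        rw [Finset.mem_filter, hmem]
        have h3 := mem_PJ.1 hω.1
        exact ⟨⟨ω, h3.1, h3.2, rfl⟩, by rw [(tk_two hK0 hwl s h3.2).2.1]; exact hω.2⟩)
    have h3 : K * X.cnt J b < K *
        ((((PJ s J).image fun ω => (s.tk ω - 2) / K).filter fun y => X.ub y = b).card + 1) := by
      have h4 : X.cnt J b = ((Finset.range X.wb).filter fun z => X.jbb z = J ∧ X.wlb z = b).card :=
        rfl
      rw [h4, mul_add, mul_one]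
      omega
    have h5 := Nat.lt_of_mul_lt_mul_left h3
    omega
  · intro J J' hJ
    have h1 := proper_card hmono hK0 s J (fun _ => True)
    have h1' := proper_card hmono hK0 s J' (fun _ => True)
    simp only [and_true, Finset.filter_true] at h1 h1'
    have hd : Disjoint (PJ s J) (PJ s J') := by
      rw [Finset.disjoint_left]
      intro ω hω hω'
      exact hJ ((mem_PJ.1 hω).1.symm.trans (mem_PJ.1 hω').1)
    have hP : ∀ ω ∈ PJ s J ∪ PJ s J', Proper s ω := by
      intro ω hω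
      rw [Finset.mem_union] at hω
      rcases hω with h | h
      · exact (mem_PJ.1 h).2
      · exact (mem_PJ.1 h).2
    have h2 := card_le_blocks hK0 (PJ s J ∪ PJ s J')
      ((PJ s J).image (fun ω => (s.tk ω - 2) / K) ∪ (PJ s J').image fun ω => (s.tk ω - 2) / K) s.tk
      (fun ω hω => (tk_two hK0 hwl s (hP ω hω)).1)
      (fun ω hω ω' hω' he => tk_inj s (hP ω hω) (hP ω' hω') he)
      (fun ω hω => by
        rw [Finset.mem_union] at hω ⊢
        rcases hω with h | h
        · left; exact Finset.mem_image_of_mem _ h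
        · right; exact Finset.mem_image_of_mem _ h)
    rw [Finset.card_union_of_disjoint hd] at h2
    have h3 : K * (X.len J + X.len J') < K *
        (((PJ s J).image (fun ω => (s.tk ω - 2) / K) ∪
          (PJ s J').image fun ω => (s.tk ω - 2) / K).card + 1) := by
      unfold BI.len
      rw [mul_add, mul_add, mul_one]
      omega
    have h5 := Nat.lt_of_mul_lt_mul_left h3
    omega
  · intro J J' hJ y₁ hy₁ y₂ hy₂ y hy h1 h2
    rw [hmem] at hy₁ hy₂ hy
    obtain ⟨ρ, a1, a2, rfl⟩ := hy₁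
    obtain ⟨ρ', b1, b2, rfl⟩ := hy₂
    obtain ⟨ω, c1, c2, rfl⟩ := hy
    have d1 : s.tk ρ < s.tk ω := by
      by_contra hcon
      push Not at hcon
      have := Nat.div_le_div_right (c := K) (Nat.sub_le_sub_right hcon 2)
      omega
    have d2 : s.tk ω < s.tk ρ' := by
      by_contra hcon
      push Not at hcon
      have := Nat.div_le_div_right (c := K) (Nat.sub_le_sub_right hcon 2)
      omega
    refine s.alone ω c2.1 c2.2.1 c2.2.2.1 c2.2.2.2 ρ a2.1 ρ' b2.1 ?_ ?_ ?_ ?_
    · show X.jbb (ρ / K) = X.jbb (ρ' / K)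
      rw [a1, b1]
    · show X.jbb (ρ / K) ≠ X.jbb (ω / K)
      rw [a1, c1]
      exact hJ
    · exact a_of_tk s a2.1 c2.1 c2.2.1 d1
    · exact a_of_tk s c2.1 b2.1 b2.2.1 d2
  · intro J y₁ hy₁ y₂ hy₂ y hb h1 h2
    rw [hmem] at hy₁ hy₂
    obtain ⟨ρ, a1, a2, rfl⟩ := hy₁
    obtain ⟨ρ', b1, b2, rfl⟩ := hy₂
    have e1 : (1 + K * (y + 1) - 2) / K = y := by
      have : 1 + K * (y + 1) - 2 = K * y + (K - 1) := by
        rw [mul_add, mul_one]; omega
      rw [this, Nat.mul_add_div hK0, Nat.div_eq_of_lt (by omega), add_zero]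
    have e2 : (1 + K * (y + 1) - 1) % K = 0 := by
      rw [Nat.add_sub_cancel_left]
      exact Nat.mul_mod_right K (y + 1)
    have e3 : K ≤ K * (y + 1) := Nat.le_mul_of_pos_right K (by omega)
    refine s.bnd ρ a2.1 ρ' b2.1 ?_ a2.2.1 b2.2.1 (1 + K * (y + 1)) ⟨by omega, e2, by rw [e1]; exact hb⟩
      ?_ ?_
    · show X.jbb (ρ / K) = X.jbb (ρ' / K)
      rw [a1, b1]
    · have h3 : s.tk ρ - 2 < K * (y + 1) := by
        by_contra hcon
        push Not at hcon
        rw [mul_comm] at hcon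
        have h4 := (Nat.le_div_iff_mul_le hK0).2 hcon
        omega
      omega
    · have h3 : K * (y + 1) ≤ s.tk ρ' - 2 := by
        have h4 : y + 1 ≤ (s.tk ρ' - 2) / K := h2
        calc K * (y + 1) ≤ K * ((s.tk ρ' - 2) / K) := Nat.mul_le_mul_left K h4
          _ ≤ s.tk ρ' - 2 := Nat.mul_div_le _ _
      omega

end Pool.Agent.H.MP_701cec_lc
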