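import Pool.Agent.H.MP_701cec_lc.Graph
import Pool.Agent.H.MP_701cec_lc.Blk

/-!
The instance of a formula satisfies the conditions for the lower bound.
-/

namespace Pool.Agent.H.MP_701cec_lc

theorem bi_mono (F : CF) (hN : 0 < F.N) (hm : 0 < F.m) :
    ∀ z z', z ≤ z' → z' < F.bi.wb → F.bi.jbb z ≤ F.bi.jbb z' := by
  intro z z' hzz hz'
  have hN' : 0 < F.N' := Nat.mul_pos hN hm
  have h1 : ∀ z, 2 * F.N' ≤ z → z < 2 * F.N' + F.N' * F.N' →
      (z - 2 * F.N') / F.N' < F.N' := by
    intro z g1 g2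
    exact Nat.div_lt_of_lt_mul (by omega)
  have h2 := Nat.zero_le ((z' - 2 * F.N') / F.N')
  have h3 := Nat.zero_le ((z' - 2 * F.N' - F.N' * F.N') / F.m)
  simp only [CF.bi]
  split_ifs with a1 a2 a3 a4 a5 a6 a7 a8
  · omega
  · have := h1 z' (by omega) a3
    omega
  · omega
  · omega
  · have := h1 z (by omega) a4
    have : (z - 2 * F.N') / F.N' ≤ (z' - 2 * F.N') / F.N' := Nat.div_le_div_right (by omega)
    omega
  · have := h1 z (by omega) a4
    omega
  · omega
  · omega
  · have : (z - 2 * F.N' - F.N' * F.N') / F.m ≤ (z' - 2 * F.N' - F.N' * F.N') / F.m :=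
      Nat.div_le_div_right (by omega)
    omega

theorem bi_wl (F : CF) : ∀ z, F.bi.wlb z < 5 := by
  intro z
  simp only [CF.bi]
  split_ifs <;> omega

theorem ok_blow (P : Par) (F : CF) (hN : 0 < F.N) (hm : 0 < F.m) : (F.bi.blow P.K).Ok P := by
  have hN' : 0 < F.N' := Nat.mul_pos hN hm
  have hwb : 0 < F.bi.wb := by
    simp only [CF.bi]
    omega
  have hK1 : 2 * P.err + 1 ≤ P.K := by
    unfold Par.K
    exact Nat.le_mul_of_pos_left _ (by omega)
  have hdiv : ∀ x, x / P.K = x / (P.c + 1) / (2 * P.err + 1) := by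
    intro x
    unfold Par.K
    rw [Nat.div_div_eq_div_mul]
  constructor
  · simp [BI.blow]
  · simp [BI.blow]
  · intro ω _
    exact bi_wl F _
  · have h2 : P.K ≤ P.K * F.bi.wb := Nat.le_mul_of_pos_right _ hwb
    simp only [BI.blow]
    unfold Par.err at hK1
    omega
  · simp only [BI.blow]
    unfold Par.K
    rw [Nat.mul_assoc]
    exact Nat.mul_mod_right _ _
  · intro ω _
    simp only [BI.blow]
    rw [hdiv ω, hdiv ((P.c + 1) * (ω / (P.c + 1))), Nat.mul_div_cancel_left _ (by omega)]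
  · intro ω ω' h1 h2
    simp only [BI.blow] at h2 ⊢
    exact bi_mono F hN hm _ _ (Nat.div_le_div_right h1) (Nat.div_lt_of_lt_mul h2)

end Pool.Agent.H.MP_701cec_lc
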