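import Pool.Agent.H.MP_701cec_lc.Blk

/-!
A weak schedule of the block instance of a formula gives a satisfying assignment.
-/

namespace Pool.Agent.H.MP_701cec_lc

namespace CF
variable (F : CF)

/-! ### Letters of the tick blocks -/

theorem B_pos : 0 < F.B := by unfold B; omega

theorem let_four {f b : ℕ} (h : F.let' f b = 4) (hb : b < F.B) :
    b = 0 ∨ b = 1 + F.N' + F.m ∨ b + 1 = F.B := by
  unfold let' at h
  unfold B at hb ⊢
  split_ifs at h <;> omega

theorem let_zero {f b : ℕ} (h : F.let' f b = 0) :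
    (1 ≤ b ∧ b < 1 + F.prev f ∧ b < 1 + F.N') ∨
    (2 + F.N' + F.m ≤ b ∧ b < 2 + F.N' + F.m + f ∧ b < 2 + 2 * F.N' + F.m) := by
  unfold let' at h
  split_ifs at h <;> omega

theorem let_one {f b : ℕ} (h : F.let' f b = 1) :
    (1 ≤ b ∧ 1 + F.prev f ≤ b ∧ b < 1 + F.N') ∨
    (2 + F.N' + F.m ≤ b ∧ 2 + F.N' + F.m + f ≤ b ∧ b < 2 + 2 * F.N' + F.m) := by
  unfold let' at h
  split_ifs at h <;> omega

theorem let_two {f b : ℕ} (h : F.let' f b = 2) :
    (1 + F.N' ≤ b ∧ b < 1 + F.N' + F.dd f true ∧ b < 1 + F.N' + F.m) ∨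
    (2 + 2 * F.N' + F.m ≤ b ∧ b < 2 + 2 * F.N' + F.m + F.dd f false ∧
      b < 2 + 2 * F.N' + 2 * F.m) := by
  unfold let' at h
  split_ifs at h <;> omega

theorem let_three {f b : ℕ} (h : F.let' f b = 3) :
    (1 + F.N' ≤ b ∧ 1 + F.N' + F.dd f true ≤ b ∧ b < 1 + F.N' + F.m) ∨
    (2 + 2 * F.N' + F.m ≤ b ∧ 2 + 2 * F.N' + F.m + F.dd f false ≤ b ∧
      b < 2 + 2 * F.N' + 2 * F.m) := by
  unfold let' at h
  split_ifs at h <;> omega

/-! ### Jobs -/

theorem jb_filler {z J : ℕ} (hJ : J < F.N') (h : F.bi.jbb z = J) : F.bi.wlb z = 4 := by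
  unfold bi at h ⊢
  dsimp only at h ⊢
  split_ifs at h with h1 h2
  · rw [if_pos h1]
  · exfalso
    generalize (z - 2 * F.N') / F.N' = q at h
    omega
  · exfalso
    generalize (z - 2 * F.N' - F.N' * F.N') / F.m = q at h
    omega

theorem jb_link {z e : ℕ} (he : e < F.N') (h : F.bi.jbb z = F.N' + e) :
    F.bi.wlb z = 0 ∨ F.bi.wlb z = 1 := by
  unfold bi at h ⊢
  dsimp only at h ⊢
  split_ifs at h with h1 h2
  · omega
  · rw [if_neg h1, if_pos h2]
    split_ifs
    · exact Or.inl rfl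
    · exact Or.inr rfl
  · exfalso
    generalize (z - 2 * F.N' - F.N' * F.N') / F.m = q at h
    omega

theorem jb_clause {z j : ℕ} (h : F.bi.jbb z = 2 * F.N' + j) :
    F.bi.wlb z = 2 ∨ F.bi.wlb z = 3 := by
  unfold bi at h ⊢
  dsimp only at h ⊢
  split_ifs at h with h1 h2
  · omega
  · exfalso
    have h3 : z - 2 * F.N' < F.N' * F.N' := by omega
    have h4 : (z - 2 * F.N') / F.N' < F.N' := Nat.div_lt_of_lt_mul h3
    omega
  · rw [if_neg h1, if_neg h2]
    split_ifs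
    · exact Or.inl rfl
    · exact Or.inr rfl

theorem cnt_filler {J : ℕ} (hJ : J < F.N') : 2 ≤ F.bi.cnt J 4 := by
  unfold BI.cnt
  have h : (Finset.Ico (2 * J) (2 * J + 2)) ⊆
      (Finset.range F.bi.wb).filter fun z => F.bi.jbb z = J ∧ F.bi.wlb z = 4 := by
    intro z hz
    rw [Finset.mem_Ico] at hz
    have h1 : z < 2 * F.N' := by omega
    have h2 : z / 2 = J := by omega
    rw [Finset.mem_filter, Finset.mem_range]
    unfold bi
    dsimp only
    rw [if_pos h1, if_pos h1]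
    refine ⟨?_, h2, rfl⟩
    have := Nat.zero_le (F.N' * F.N')
    have := Nat.zero_le (F.m * F.m)
    omega
  have := Finset.card_le_card h
  rw [Nat.card_Ico] at this
  omega

theorem len_filler {J : ℕ} (hJ : J < F.N') : 2 ≤ F.bi.len J := by
  refine (F.cnt_filler hJ).trans ?_
  unfold BI.cnt BI.len
  apply Finset.card_le_card
  intro z hz
  rw [Finset.mem_filter] at hz ⊢
  exact ⟨hz.1, hz.2.1⟩

/-- the blocks of a link job -/
theorem link_spec {e q : ℕ} (he : e < F.N') (hq : q < F.N') :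
    2 * F.N' + (F.N' * e + q) < F.bi.wb ∧
    F.bi.jbb (2 * F.N' + (F.N' * e + q)) = F.N' + e ∧
    F.bi.wlb (2 * F.N' + (F.N' * e + q)) = if q < e then 0 else 1 := by
  have h0 : F.N' * e + q < F.N' * F.N' := by
    have : F.N' * (e + 1) ≤ F.N' * F.N' := Nat.mul_le_mul_left _ he
    rw [Nat.mul_add, Nat.mul_one] at this
    omega
  have hd : (F.N' * e + q) / F.N' = e := by
    rw [Nat.mul_add_div (by omega), Nat.div_eq_of_lt hq, Nat.add_zero]
  have hm : (F.N' * e + q) % F.N' = q := by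
    rw [Nat.mul_add_mod, Nat.mod_eq_of_lt hq]
  have h1 : ¬ 2 * F.N' + (F.N' * e + q) < 2 * F.N' := by omega
  have h2 : 2 * F.N' + (F.N' * e + q) < 2 * F.N' + F.N' * F.N' := by omega
  have h3 : 2 * F.N' + (F.N' * e + q) - 2 * F.N' = F.N' * e + q := by omega
  unfold bi
  dsimp only
  rw [if_neg h1, if_pos h2, if_neg h1, if_pos h2, h3, hd, hm]
  refine ⟨?_, rfl, rfl⟩
  have := Nat.zero_le (F.m * F.m)
  omega

/-- the blocks of a clause job -/
theorem clause_spec {j q : ℕ} (hj : j < F.m) (hq : q < F.m) :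
    2 * F.N' + F.N' * F.N' + (F.m * j + q) < F.bi.wb ∧
    F.bi.jbb (2 * F.N' + F.N' * F.N' + (F.m * j + q)) = 2 * F.N' + j ∧
    F.bi.wlb (2 * F.N' + F.N' * F.N' + (F.m * j + q)) = if q < j then 2 else 3 := by
  have h0 : F.m * j + q < F.m * F.m := by
    have : F.m * (j + 1) ≤ F.m * F.m := Nat.mul_le_mul_left _ hj
    rw [Nat.mul_add, Nat.mul_one] at this
    omega
  have hd : (F.m * j + q) / F.m = j := by
    rw [Nat.mul_add_div (by omega), Nat.div_eq_of_lt hq, Nat.add_zero]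
  have hm : (F.m * j + q) % F.m = q := by
    rw [Nat.mul_add_mod, Nat.mod_eq_of_lt hq]
  have h1 : ¬ 2 * F.N' + F.N' * F.N' + (F.m * j + q) < 2 * F.N' := by omega
  have h2 : ¬ 2 * F.N' + F.N' * F.N' + (F.m * j + q) < 2 * F.N' + F.N' * F.N' := by omega
  have h3 : 2 * F.N' + F.N' * F.N' + (F.m * j + q) - 2 * F.N' - F.N' * F.N' = F.m * j + q := by
    omega
  unfold bi
  dsimp only
  rw [if_neg h1, if_neg h2, if_neg h1, if_neg h2, h3, hd, hm]
  exact ⟨by omega, rfl, rfl⟩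

theorem le_cnt {X : BI} {J b a k : ℕ} (h : ∀ z, a ≤ z → z < a + k →
    z < X.wb ∧ X.jbb z = J ∧ X.wlb z = b) : k ≤ X.cnt J b := by
  unfold BI.cnt
  have h1 : Finset.Ico a (a + k) ⊆
      (Finset.range X.wb).filter fun z => X.jbb z = J ∧ X.wlb z = b := by
    intro z hz
    rw [Finset.mem_Ico] at hz
    rw [Finset.mem_filter, Finset.mem_range]
    exact h z hz.1 hz.2
  have := Finset.card_le_card h1
  rw [Nat.card_Ico] at this
  omega

theorem cnt_link_zero {e : ℕ} (he : e < F.N') : e ≤ F.bi.cnt (F.N' + e) 0 := by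
  apply le_cnt (a := 2 * F.N' + F.N' * e)
  intro z h1 h2
  obtain ⟨q, rfl⟩ : ∃ q, z = 2 * F.N' + (F.N' * e + q) := ⟨z - 2 * F.N' - F.N' * e, by omega⟩
  obtain ⟨a1, a2, a3⟩ := F.link_spec he (q := q) (by omega)
  exact ⟨a1, a2, by rw [a3, if_pos (by omega)]⟩

theorem cnt_link_one {e : ℕ} (he : e < F.N') : F.N' - e ≤ F.bi.cnt (F.N' + e) 1 := by
  apply le_cnt (a := 2 * F.N' + F.N' * e + e)
  intro z h1 h2
  obtain ⟨q, rfl⟩ : ∃ q, z = 2 * F.N' + (F.N' * e + q) := ⟨z - 2 * F.N' - F.N' * e, by omega⟩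
  obtain ⟨a1, a2, a3⟩ := F.link_spec he (q := q) (by omega)
  exact ⟨a1, a2, by rw [a3, if_neg (by omega)]⟩

theorem cnt_clause_two {j : ℕ} (hj : j < F.m) : j ≤ F.bi.cnt (2 * F.N' + j) 2 := by
  apply le_cnt (a := 2 * F.N' + F.N' * F.N' + F.m * j)
  intro z h1 h2
  obtain ⟨q, rfl⟩ : ∃ q, z = 2 * F.N' + F.N' * F.N' + (F.m * j + q) :=
    ⟨z - 2 * F.N' - F.N' * F.N' - F.m * j, by omega⟩
  obtain ⟨a1, a2, a3⟩ := F.clause_spec hj (q := q) (by omega)
  exact ⟨a1, a2, by rw [a3, if_pos (by omega)]⟩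

theorem cnt_clause_three {j : ℕ} (hj : j < F.m) : F.m - j ≤ F.bi.cnt (2 * F.N' + j) 3 := by
  apply le_cnt (a := 2 * F.N' + F.N' * F.N' + F.m * j + j)
  intro z h1 h2
  obtain ⟨q, rfl⟩ : ∃ q, z = 2 * F.N' + F.N' * F.N' + (F.m * j + q) :=
    ⟨z - 2 * F.N' - F.N' * F.N' - F.m * j, by omega⟩
  obtain ⟨a1, a2, a3⟩ := F.clause_spec hj (q := q) (by omega)
  exact ⟨a1, a2, by rw [a3, if_neg (by omega)]⟩

theorem dd_le (f : ℕ) (s : Bool) (hm : 0 < F.m) : F.dd f s ≤ F.m := by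
  unfold dd
  split_ifs
  · exact (Nat.mod_lt _ hm).le
  · exact le_rfl

theorem prev_lt {f : ℕ} (hf : f < F.N') (hm : 0 < F.m) : F.prev f < F.N' := by
  unfold prev N' at *
  have h1 : f / F.m < F.N := Nat.div_lt_of_lt_mul (by rw [Nat.mul_comm]; exact hf)
  have h2 : (f % F.m + F.m - 1) % F.m < F.m := Nat.mod_lt _ hm
  have h3 : F.m * (f / F.m + 1) ≤ F.m * F.N := Nat.mul_le_mul_left _ h1
  rw [Nat.mul_add, Nat.mul_one] at h3
  rw [Nat.mul_comm F.N F.m]
  omega

end CF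

section
variable {F : CF} (w : BW F.bi)

theorem frame_lt {J y₁ y₂ : ℕ} (h1 : y₁ ∈ w.H J) (h2 : y₂ ∈ w.H J) :
    ¬ y₁ / F.B < y₂ / F.B := by
  intro h
  have hB := F.B_pos
  have a1 := Nat.div_add_mod y₁ F.B
  have a2 := Nat.div_add_mod y₂ F.B
  have a3 := Nat.mod_lt y₁ hB
  have a4 : F.B * (y₁ / F.B + 1) ≤ F.B * (y₂ / F.B) := Nat.mul_le_mul_left _ h
  rw [Nat.mul_add, Nat.mul_one] at a4
  refine w.bnd J y₁ h1 y₂ h2 (F.B * (y₁ / F.B) + (F.B - 1)) ?_ (by omega) (by omega)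
  show (F.B * (y₁ / F.B) + (F.B - 1) + 1) % F.B = 0
  have : F.B * (y₁ / F.B) + (F.B - 1) + 1 = F.B * (y₁ / F.B + 1) := by
    rw [Nat.mul_add, Nat.mul_one]
    omega
  rw [this, Nat.mul_mod_right]

theorem frame_eq {J y₁ y₂ : ℕ} (h1 : y₁ ∈ w.H J) (h2 : y₂ ∈ w.H J) :
    y₁ / F.B = y₂ / F.B := by
  have := frame_lt w h1 h2
  have := frame_lt w h2 h1
  omega

theorem frame_N' {J y : ℕ} (h : y ∈ w.H J) : y / F.B < F.N' :=
  Nat.div_lt_of_lt_mul (w.lt J y h)

/-- the filler of a frame -/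
theorem filler_spec {J : ℕ} (hJ : J < F.N') : ∃ f < F.N', (∀ y ∈ w.H J,
    y = F.B * f ∨ y = F.B * f + (1 + F.N' + F.m) ∨ y + 1 = F.B * f + F.B) ∧
    ∃ y₁ ∈ w.H J, ∃ y₂ ∈ w.H J, y₁ < y₂ := by
  have h1 := (F.cnt_filler hJ).trans (w.cnt J 4)
  obtain ⟨a, ha, b, hb, hab⟩ := Finset.one_lt_card.1 (show 1 < _ from h1)
  rw [Finset.mem_filter] at ha hb
  refine ⟨a / F.B, frame_N' w ha.1, ?_, ?_⟩
  · intro y hy
    have e := frame_eq w ha.1 hy
    obtain ⟨z, -, hz, hz'⟩ := w.letr J y hy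
    rw [F.jb_filler hJ hz] at hz'
    have hl : F.let' (y / F.B) (y % F.B) = 4 := hz'.symm
    have a1 := Nat.div_add_mod y F.B
    rw [e]
    rcases F.let_four hl (Nat.mod_lt _ F.B_pos) with h | h | h <;> omega
  · rcases Nat.lt_or_gt_of_ne hab with h | h
    · exact ⟨a, ha.1, b, hb.1, h⟩
    · exact ⟨b, hb.1, a, ha.1, h⟩

/-- each frame has a filler -/
theorem exists_filler {f : ℕ} (hf : f < F.N') : ∃ J < F.N', (∀ y ∈ w.H J,
    y = F.B * f ∨ y = F.B * f + (1 + F.N' + F.m) ∨ y + 1 = F.B * f + F.B) ∧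
    ∃ y₁ ∈ w.H J, ∃ y₂ ∈ w.H J, y₁ < y₂ := by
  classical
  choose g hg1 hg2 hg3 using fun J : Fin F.N' => filler_spec w J.2
  have hinj : Function.Injective fun J : Fin F.N' => (⟨g J, hg1 J⟩ : Fin F.N') := by
    intro J J' h
    have h' : g J = g J' := by simpa using h
    by_contra hne
    have hne' : (J : ℕ) ≠ (J' : ℕ) := fun h => hne (Fin.ext h)
    have h1 := w.two J J' hne'
    have h2 := F.len_filler J.2
    have h3 := F.len_filler J'.2
    have h4 : w.H J ∪ w.H J' ⊆ {F.B * g J, F.B * g J + (1 + F.N' + F.m),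
        F.B * g J + F.B - 1} := by
      intro y hy
      rw [Finset.mem_union] at hy
      simp only [Finset.mem_insert, Finset.mem_singleton]
      have hB := F.B_pos
      rcases hy with hy | hy
      · rcases hg2 J y hy with h | h | h <;> omega
      · rcases hg2 J' y hy with h | h | h <;> rw [← h'] at h <;> omega
    have h5 := (Finset.card_le_card h4).trans Finset.card_le_three
    omega
  obtain ⟨J, hJ⟩ := (Finite.injective_iff_surjective.1 hinj) ⟨f, hf⟩
  have hJ' : g J = f := by simpa using hJ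
  refine ⟨J, J.2, ?_, hg3 J⟩
  rw [← hJ']
  exact hg2 J

/-- the first region of the frame `f` is blocked -/
def blP (f : ℕ) : Prop := ∃ J < F.N', ∃ y₁ ∈ w.H J, ∃ y₂ ∈ w.H J,
  y₁ ≤ F.B * f ∧ F.B * f + (1 + F.N' + F.m) ≤ y₂

/-- the second region of the frame `f` is blocked -/
def blN (f : ℕ) : Prop := ∃ J < F.N', ∃ y₁ ∈ w.H J, ∃ y₂ ∈ w.H J,
  y₁ ≤ F.B * f + (1 + F.N' + F.m) ∧ F.B * f + F.B ≤ y₂ + 1

theorem blP_or_blN {f : ℕ} (hf : f < F.N') : blP w f ∨ blN w f := by
  obtain ⟨J, hJ, h1, y₁, hy₁, y₂, hy₂, h2⟩ := exists_filler w hf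
  have hB : F.B = 3 + 2 * F.N' + 2 * F.m := rfl
  rcases h1 y₁ hy₁ with a | a | a <;> rcases h1 y₂ hy₂ with b | b | b
  · omega
  · exact Or.inl ⟨J, hJ, y₁, hy₁, y₂, hy₂, by omega, by omega⟩
  · exact Or.inl ⟨J, hJ, y₁, hy₁, y₂, hy₂, by omega, by omega⟩
  · omega
  · omega
  · exact Or.inr ⟨J, hJ, y₁, hy₁, y₂, hy₂, by omega, by omega⟩
  · omega
  · omega
  · omega

theorem not_P {f : ℕ} (h : blP w f) {J y : ℕ} (hJ : F.N' ≤ J) (hy : y ∈ w.H J) :
    ¬ (F.B * f < y ∧ y < F.B * f + (1 + F.N' + F.m)) := by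
  rintro ⟨h1, h2⟩
  obtain ⟨J', hJ', y₁, hy₁, y₂, hy₂, h3, h4⟩ := h
  exact w.alone J' J (by omega) y₁ hy₁ y₂ hy₂ y hy (by omega) (by omega)

theorem not_N {f : ℕ} (h : blN w f) {J y : ℕ} (hJ : F.N' ≤ J) (hy : y ∈ w.H J) :
    ¬ (F.B * f + (1 + F.N' + F.m) < y ∧ y + 1 < F.B * f + F.B) := by
  rintro ⟨h1, h2⟩
  obtain ⟨J', hJ', y₁, hy₁, y₂, hy₂, h3, h4⟩ := h
  exact w.alone J' J (by omega) y₁ hy₁ y₂ hy₂ y hy (by omega) (by omega)

theorem cnt_le {J b a k : ℕ} (h : ∀ y ∈ w.H J, F.let' (y / F.B) (y % F.B) = b →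
    a ≤ y ∧ y < a + k) : F.bi.cnt J b ≤ k := by
  refine (w.cnt J b).trans ?_
  have h1 : (w.H J).filter (fun y => F.bi.ub y = b) ⊆ Finset.Ico a (a + k) := by
    intro y hy
    rw [Finset.mem_filter] at hy
    rw [Finset.mem_Ico]
    exact h y hy.1 hy.2
  have := Finset.card_le_card h1
  rw [Nat.card_Ico] at this
  omega

/-- the position of a link job -/
theorem link_pos (hN' : 0 < F.N') (hm : 0 < F.m) {e : ℕ} (he : e < F.N') :
    ∃ f < F.N', (f = e ∧ ¬ blN w f) ∨ (F.prev f = e ∧ ¬ blP w f) := by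
  have c0 := F.cnt_link_zero he
  have c1 := F.cnt_link_one he
  -- some block of the job
  obtain ⟨y₀, hy₀⟩ : ∃ y, y ∈ w.H (F.N' + e) := by
    by_contra hcon
    push Not at hcon
    have h0 := w.cnt (F.N' + e) 0
    have h1 := w.cnt (F.N' + e) 1
    have : w.H (F.N' + e) = ∅ := Finset.eq_empty_of_forall_notMem hcon
    rw [this] at h0 h1
    simp at h0 h1
    omega
  set f := y₀ / F.B with hfd
  have hf : f < F.N' := frame_N' w hy₀
  have hfr : ∀ y ∈ w.H (F.N' + e), y / F.B = f ∧ F.B * f + y % F.B = y := by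
    intro y hy
    have h1 : y / F.B = f := frame_eq w hy hy₀
    refine ⟨h1, ?_⟩
    rw [← h1]
    exact Nat.div_add_mod y F.B
  have hlt : ∀ y ∈ w.H (F.N' + e), F.let' f (y % F.B) = 0 ∨ F.let' f (y % F.B) = 1 := by
    intro y hy
    obtain ⟨z, -, hz, hz'⟩ := w.letr _ y hy
    have h1 : F.let' (y / F.B) (y % F.B) = F.bi.wlb z := hz'.symm
    rw [(hfr y hy).1] at h1
    rw [h1]
    exact F.jb_link he hz
  have hB : F.B = 3 + 2 * F.N' + 2 * F.m := rfl
  refine ⟨f, hf, ?_⟩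
  have hprev := F.prev_lt hf hm
  by_cases hP : blP w f
  · left
    have hnot : ∀ y ∈ w.H (F.N' + e), F.B * f + (1 + F.N' + F.m) ≤ y ∨ y ≤ F.B * f := by
      intro y hy
      have := not_P w hP (Nat.le_add_right _ _) hy
      omega
    have hN0 : F.bi.cnt (F.N' + e) 0 ≤ f := by
      apply cnt_le w (a := F.B * f + (2 + F.N' + F.m))
      intro y hy hl
      obtain ⟨h1, h2⟩ := hfr y hy
      rw [h1] at hl
      have := hnot y hy
      rcases F.let_zero hl with h | h <;> omega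
    have hN1 : F.bi.cnt (F.N' + e) 1 ≤ F.N' - f := by
      apply cnt_le w (a := F.B * f + (2 + F.N' + F.m) + f)
      intro y hy hl
      obtain ⟨h1, h2⟩ := hfr y hy
      rw [h1] at hl
      have := hnot y hy
      rcases F.let_one hl with h | h <;> omega
    refine ⟨by omega, fun hN => ?_⟩
    have h3 := not_N w hN (Nat.le_add_right _ _) hy₀
    have h4 := hnot y₀ hy₀
    obtain ⟨h1, h2⟩ := hfr y₀ hy₀
    rcases hlt y₀ hy₀ with h | h
    · rcases F.let_zero h with h | h <;> omega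
    · rcases F.let_one h with h | h <;> omega
  · right
    have hN : blN w f := (blP_or_blN w hf).resolve_left hP
    have hnot : ∀ y ∈ w.H (F.N' + e), y ≤ F.B * f + (1 + F.N' + F.m) ∨
        F.B * f + F.B ≤ y + 1 := by
      intro y hy
      have := not_N w hN (Nat.le_add_right _ _) hy
      omega
    have hN0 : F.bi.cnt (F.N' + e) 0 ≤ F.prev f := by
      apply cnt_le w (a := F.B * f + 1)
      intro y hy hl
      obtain ⟨h1, h2⟩ := hfr y hy
      rw [h1] at hl
      have := hnot y hy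
      rcases F.let_zero hl with h | h <;> omega
    have hN1 : F.bi.cnt (F.N' + e) 1 ≤ F.N' - F.prev f := by
      apply cnt_le w (a := F.B * f + 1 + F.prev f)
      intro y hy hl
      obtain ⟨h1, h2⟩ := hfr y hy
      rw [h1] at hl
      have := hnot y hy
      rcases F.let_one hl with h | h <;> omega
    exact ⟨by omega, hP⟩

/-- the position of a clause job -/
theorem clause_pos (hm : 0 < F.m) {j : ℕ} (hj : j < F.m) :
    ∃ f < F.N', (F.dd f false = j ∧ ¬ blN w f) ∨ (F.dd f true = j ∧ ¬ blP w f) := by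
  have c0 := F.cnt_clause_two hj
  have c1 := F.cnt_clause_three hj
  obtain ⟨y₀, hy₀⟩ : ∃ y, y ∈ w.H (2 * F.N' + j) := by
    by_contra hcon
    push Not at hcon
    have h0 := w.cnt (2 * F.N' + j) 2
    have h1 := w.cnt (2 * F.N' + j) 3
    have : w.H (2 * F.N' + j) = ∅ := Finset.eq_empty_of_forall_notMem hcon
    rw [this] at h0 h1
    simp at h0 h1
    omega
  set f := y₀ / F.B with hfd
  have hf : f < F.N' := frame_N' w hy₀
  have hfr : ∀ y ∈ w.H (2 * F.N' + j), y / F.B = f ∧ F.B * f + y % F.B = y := by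
    intro y hy
    have h1 : y / F.B = f := frame_eq w hy hy₀
    refine ⟨h1, ?_⟩
    rw [← h1]
    exact Nat.div_add_mod y F.B
  have hlt : ∀ y ∈ w.H (2 * F.N' + j), F.let' f (y % F.B) = 2 ∨ F.let' f (y % F.B) = 3 := by
    intro y hy
    obtain ⟨z, -, hz, hz'⟩ := w.letr _ y hy
    have h1 : F.let' (y / F.B) (y % F.B) = F.bi.wlb z := hz'.symm
    rw [(hfr y hy).1] at h1
    rw [h1]
    exact F.jb_clause hz
  have hB : F.B = 3 + 2 * F.N' + 2 * F.m := rfl
  have hge : F.N' ≤ 2 * F.N' + j := by omega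
  refine ⟨f, hf, ?_⟩
  have hd1 := F.dd_le f true hm
  have hd2 := F.dd_le f false hm
  by_cases hP : blP w f
  · left
    have hnot : ∀ y ∈ w.H (2 * F.N' + j), F.B * f + (1 + F.N' + F.m) ≤ y ∨ y ≤ F.B * f := by
      intro y hy
      have := not_P w hP hge hy
      omega
    have hN0 : F.bi.cnt (2 * F.N' + j) 2 ≤ F.dd f false := by
      apply cnt_le w (a := F.B * f + (2 + 2 * F.N' + F.m))
      intro y hy hl
      obtain ⟨h1, h2⟩ := hfr y hy
      rw [h1] at hl
      have := hnot y hy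
      rcases F.let_two hl with h | h <;> omega
    have hN1 : F.bi.cnt (2 * F.N' + j) 3 ≤ F.m - F.dd f false := by
      apply cnt_le w (a := F.B * f + (2 + 2 * F.N' + F.m) + F.dd f false)
      intro y hy hl
      obtain ⟨h1, h2⟩ := hfr y hy
      rw [h1] at hl
      have := hnot y hy
      rcases F.let_three hl with h | h <;> omega
    refine ⟨by omega, fun hN => ?_⟩
    have h3 := not_N w hN hge hy₀
    have h4 := hnot y₀ hy₀
    obtain ⟨h1, h2⟩ := hfr y₀ hy₀
    rcases hlt y₀ hy₀ with h | h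
    · rcases F.let_two h with h | h <;> omega
    · rcases F.let_three h with h | h <;> omega
  · right
    have hN : blN w f := (blP_or_blN w hf).resolve_left hP
    have hnot : ∀ y ∈ w.H (2 * F.N' + j), y ≤ F.B * f + (1 + F.N' + F.m) ∨
        F.B * f + F.B ≤ y + 1 := by
      intro y hy
      have := not_N w hN hge hy
      omega
    have hN0 : F.bi.cnt (2 * F.N' + j) 2 ≤ F.dd f true := by
      apply cnt_le w (a := F.B * f + (1 + F.N'))
      intro y hy hl
      obtain ⟨h1, h2⟩ := hfr y hy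
      rw [h1] at hl
      have := hnot y hy
      rcases F.let_two hl with h | h <;> omega
    have hN1 : F.bi.cnt (2 * F.N' + j) 3 ≤ F.m - F.dd f true := by
      apply cnt_le w (a := F.B * f + (1 + F.N') + F.dd f true)
      intro y hy hl
      obtain ⟨h1, h2⟩ := hfr y hy
      rw [h1] at hl
      have := hnot y hy
      rcases F.let_three hl with h | h <;> omega
    exact ⟨by omega, hP⟩

/-- one step around the wheel -/
theorem blN_next (hN' : 0 < F.N') (hm : 0 < F.m) {e : ℕ} (he : e < F.N') (h : blN w e) :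
    blN w (F.next e) := by
  obtain ⟨f, hf, h1 | h1⟩ := link_pos w hN' hm he
  · exact absurd (h1.1 ▸ h) h1.2
  · have h2 : blN w f := (blP_or_blN w hf).resolve_left h1.2
    have h3 : F.next e = f := by
      have hp := h1.1
      unfold CF.prev at hp
      unfold CF.next
      have hr : (f % F.m + F.m - 1) % F.m < F.m := Nat.mod_lt _ hm
      have e1 : e / F.m = f / F.m := by
        rw [← hp, Nat.mul_add_div hm, Nat.div_eq_of_lt hr, Nat.add_zero]
      have e2 : e % F.m = (f % F.m + F.m - 1) % F.m := by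
        rw [← hp, Nat.mul_add_mod, Nat.mod_mod]
      have e3 : (e % F.m + 1) % F.m = f % F.m := by
        have hfm := Nat.mod_lt f hm
        rw [e2, Nat.mod_add_mod]
        have : f % F.m + F.m - 1 + 1 = f % F.m + F.m := by omega
        rw [this, Nat.add_mod_right, Nat.mod_mod]
      rw [e1, e3]
      exact Nat.div_add_mod f F.m
    rw [h3]
    exact h2

theorem blN_wheel (hN' : 0 < F.N') (hm : 0 < F.m) {v j : ℕ} (hv : v < F.N) (hj : j < F.m)
    (h : blN w (F.m * v + j)) (k : ℕ) : blN w (F.m * v + (j + k) % F.m) := by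
  induction k with
  | zero => rw [Nat.add_zero, Nat.mod_eq_of_lt hj]; exact h
  | succ k ih =>
    have hr : (j + k) % F.m < F.m := Nat.mod_lt _ hm
    have hlt : F.m * v + (j + k) % F.m < F.N' := by
      unfold CF.N'
      have h3 : F.m * (v + 1) ≤ F.m * F.N := Nat.mul_le_mul_left _ hv
      rw [Nat.mul_add, Nat.mul_one] at h3
      rw [Nat.mul_comm F.N F.m]
      omega
    have h1 := blN_next w hN' hm hlt ih
    have h2 : F.next (F.m * v + (j + k) % F.m) = F.m * v + (j + (k + 1)) % F.m := by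
      unfold CF.next
      rw [Nat.mul_add_div hm, Nat.div_eq_of_lt hr, Nat.add_zero, Nat.mul_add_mod, Nat.mod_mod,
        Nat.mod_add_mod, Nat.add_assoc]
    rw [h2] at h1
    exact h1

end

theorem sat_of_bw (F : CF) (hN : 0 < F.N) (hm : 0 < F.m) (w : BW F.bi) : F.Sat := by
  classical
  have hN' : 0 < F.N' := Nat.mul_pos hN hm
  have key : ∀ f < F.N', (blN w f ↔ blN w (F.m * (f / F.m))) := by
    intro f hf
    have hv : f / F.m < F.N :=
      Nat.div_lt_of_lt_mul (by unfold CF.N' at hf; rw [Nat.mul_comm]; exact hf)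
    have hj := Nat.mod_lt f hm
    have hdm := Nat.div_add_mod f F.m
    constructor
    · intro h
      rw [← hdm] at h
      have := blN_wheel w hN' hm hv hj h (F.m - f % F.m)
      have e : (f % F.m + (F.m - f % F.m)) % F.m = 0 := by
        rw [Nat.add_sub_cancel' hj.le, Nat.mod_self]
      rw [e, Nat.add_zero] at this
      exact this
    · intro h
      have := blN_wheel w hN' hm hv (j := 0) hm (by simpa using h) (f % F.m)
      rw [Nat.zero_add, Nat.mod_mod, hdm] at this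
      exact this
  refine ⟨fun v => decide (blN w (F.m * v)), fun j hj => ?_⟩
  obtain ⟨f, hf, h | h⟩ := clause_pos w hm hj
  · have hv : f / F.m < F.N :=
      Nat.div_lt_of_lt_mul (by unfold CF.N' at hf; rw [Nat.mul_comm]; exact hf)
    refine ⟨f / F.m, hv, false, ?_, ?_⟩
    · have h1 := h.1
      unfold CF.dd at h1
      split_ifs at h1 with h2
      · rw [h1] at h2
        exact h2
      · omega
    · have : ¬ blN w (F.m * (f / F.m)) := fun h3 => h.2 ((key f hf).2 h3)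
      simpa using this
  · have hv : f / F.m < F.N :=
      Nat.div_lt_of_lt_mul (by unfold CF.N' at hf; rw [Nat.mul_comm]; exact hf)
    refine ⟨f / F.m, hv, true, ?_, ?_⟩
    · have h1 := h.1
      unfold CF.dd at h1
      split_ifs at h1 with h2
      · rw [h1] at h2
        exact h2
      · omega
    · have h3 : blN w f := (blP_or_blN w hf).resolve_left h.2
      have : blN w (F.m * (f / F.m)) := (key f hf).1 h3
      simpa using this

end Pool.Agent.H.MP_701cec_lc
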