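import Pool.Agent.H.MP_701cec_lc.Blk

/-!
A satisfying assignment gives a schedule of the block instance.
-/

namespace Pool.Agent.H.MP_701cec_lc

namespace B5

section
variable (F : CF) (τ : ℕ → Bool) (cv : ℕ → ℕ)

/-- the frame of a W-block -/
def fr (z : ℕ) : ℕ :=
  if z < 2 * F.N' then z / 2
  else if z < 2 * F.N' + F.N' * F.N' then
    (if τ ((z - 2 * F.N') / F.N' / F.m) = true then F.next ((z - 2 * F.N') / F.N')
      else (z - 2 * F.N') / F.N')
  else F.m * cv ((z - 2 * F.N' - F.N' * F.N') / F.m) + (z - 2 * F.N' - F.N' * F.N') / F.m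

/-- the position of a W-block inside of its frame -/
def off (z : ℕ) : ℕ :=
  if z < 2 * F.N' then
    (if τ (z / 2 / F.m) = true then
      (if z % 2 = 0 then 1 + F.N' + F.m else 2 + 2 * F.N' + 2 * F.m)
     else (if z % 2 = 0 then 0 else 1 + F.N' + F.m))
  else if z < 2 * F.N' + F.N' * F.N' then
    (if τ ((z - 2 * F.N') / F.N' / F.m) = true then 1 + (z - 2 * F.N') % F.N'
      else 2 + F.N' + F.m + (z - 2 * F.N') % F.N')
  else
    (if τ (cv ((z - 2 * F.N' - F.N' * F.N') / F.m)) = true then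
      1 + F.N' + (z - 2 * F.N' - F.N' * F.N') % F.m
     else 2 + 2 * F.N' + F.m + (z - 2 * F.N' - F.N' * F.N') % F.m)

end

variable {F : CF} {τ : ℕ → Bool} {cv : ℕ → ℕ}

/-- `z` is block `r` of the filler `f` -/
def isFi (F : CF) (z f r : ℕ) : Prop := f < F.N' ∧ r < 2 ∧ z = 2 * f + r
/-- `z` is block `q` of the link job `e` -/
def isLi (F : CF) (z e q : ℕ) : Prop := e < F.N' ∧ q < F.N' ∧ z = 2 * F.N' + (F.N' * e + q)
/-- `z` is block `q` of the clause job `j` -/
def isCl (F : CF) (z j q : ℕ) : Prop :=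
  j < F.m ∧ q < F.m ∧ z = 2 * F.N' + F.N' * F.N' + (F.m * j + q)

theorem form (hm : 0 < F.m) (hn : 0 < F.N') {z : ℕ} (hz : z < F.bi.wb) :
    (∃ f r, isFi F z f r) ∨ (∃ e q, isLi F z e q) ∨ (∃ j q, isCl F z j q) := by
  change z < 2 * F.N' + F.N' * F.N' + F.m * F.m at hz
  by_cases h1 : z < 2 * F.N'
  · exact Or.inl ⟨z / 2, z % 2, by omega, by omega, by omega⟩
  by_cases h2 : z < 2 * F.N' + F.N' * F.N'
  · refine Or.inr (Or.inl ⟨(z - 2 * F.N') / F.N', (z - 2 * F.N') % F.N', ?_, Nat.mod_lt _ hn, ?_⟩)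
    · rw [Nat.div_lt_iff_lt_mul hn]; omega
    · rw [Nat.div_add_mod]; omega
  · refine Or.inr (Or.inr ⟨(z - 2 * F.N' - F.N' * F.N') / F.m,
      (z - 2 * F.N' - F.N' * F.N') % F.m, ?_, Nat.mod_lt _ hm, ?_⟩)
    · rw [Nat.div_lt_iff_lt_mul hm]; omega
    · rw [Nat.div_add_mod]; omega

theorem li_lt {e q : ℕ} (he : e < F.N') (hq : q < F.N') : F.N' * e + q < F.N' * F.N' := by
  calc F.N' * e + q < F.N' * (e + 1) := by rw [Nat.mul_add]; omega
    _ ≤ F.N' * F.N' := Nat.mul_le_mul_left _ he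

theorem fi_val {z f r : ℕ} (h : isFi F z f r) :
    fr F τ cv z = f ∧ off F τ cv z = (if τ (f / F.m) = true then
      (if r = 0 then 1 + F.N' + F.m else 2 + 2 * F.N' + 2 * F.m)
      else (if r = 0 then 0 else 1 + F.N' + F.m)) ∧ F.bi.jbb z = f ∧ F.bi.wlb z = 4 := by
  obtain ⟨h1, h2, rfl⟩ := h
  have e0 : 2 * f + r < 2 * F.N' := by omega
  have e1 : (2 * f + r) / 2 = f := by omega
  have e2 : (2 * f + r) % 2 = r := by omega
  refine ⟨?_, ?_, ?_, ?_⟩
  · unfold fr; rw [if_pos e0, e1]
  · unfold off; rw [if_pos e0, e1, e2]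
  · unfold CF.bi; simp only; rw [if_pos e0, e1]
  · unfold CF.bi; simp only; rw [if_pos e0]

theorem li_val {z e q : ℕ} (h : isLi F z e q) :
    fr F τ cv z = (if τ (e / F.m) = true then F.next e else e) ∧
    off F τ cv z = (if τ (e / F.m) = true then 1 + q else 2 + F.N' + F.m + q) ∧
    F.bi.jbb z = F.N' + e ∧ F.bi.wlb z = if q < e then 0 else 1 := by
  obtain ⟨h1, h2, rfl⟩ := h
  have h3 := li_lt h1 h2
  have e0 : ¬ 2 * F.N' + (F.N' * e + q) < 2 * F.N' := by omega
  have e1 : 2 * F.N' + (F.N' * e + q) < 2 * F.N' + F.N' * F.N' := by omega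
  have e2 : (2 * F.N' + (F.N' * e + q) - 2 * F.N') = F.N' * e + q := by omega
  have e3 : (F.N' * e + q) / F.N' = e := by
    rw [Nat.mul_add_div (by omega), Nat.div_eq_of_lt h2]; omega
  have e4 : (F.N' * e + q) % F.N' = q := by
    rw [Nat.mul_add_mod, Nat.mod_eq_of_lt h2]
  refine ⟨?_, ?_, ?_, ?_⟩
  · unfold fr; rw [if_neg e0, if_pos e1, e2, e3]
  · unfold off; rw [if_neg e0, if_pos e1, e2, e3, e4]
  · unfold CF.bi; simp only; rw [if_neg e0, if_pos e1, e2, e3]
  · unfold CF.bi; simp only; rw [if_neg e0, if_pos e1, e2, e3, e4]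

theorem cl_val {z j q : ℕ} (h : isCl F z j q) :
    fr F τ cv z = F.m * cv j + j ∧
    off F τ cv z = (if τ (cv j) = true then 1 + F.N' + q else 2 + 2 * F.N' + F.m + q) ∧
    F.bi.jbb z = 2 * F.N' + j ∧ F.bi.wlb z = if q < j then 2 else 3 := by
  obtain ⟨h1, h2, rfl⟩ := h
  have e0 : ¬ 2 * F.N' + F.N' * F.N' + (F.m * j + q) < 2 * F.N' := by omega
  have e1 : ¬ 2 * F.N' + F.N' * F.N' + (F.m * j + q) < 2 * F.N' + F.N' * F.N' := by omega
  have e2 : (2 * F.N' + F.N' * F.N' + (F.m * j + q) - 2 * F.N' - F.N' * F.N') = F.m * j + q := by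
    omega
  have e3 : (F.m * j + q) / F.m = j := by
    rw [Nat.mul_add_div (by omega), Nat.div_eq_of_lt h2]; omega
  have e4 : (F.m * j + q) % F.m = q := by
    rw [Nat.mul_add_mod, Nat.mod_eq_of_lt h2]
  refine ⟨?_, ?_, ?_, ?_⟩
  · unfold fr; rw [if_neg e0, if_neg e1, e2, e3]
  · unfold off; rw [if_neg e0, if_neg e1, e2, e3, e4]
  · unfold CF.bi; simp only; rw [if_neg e0, if_neg e1, e2, e3]
  · unfold CF.bi; simp only; rw [if_neg e0, if_neg e1, e2, e3, e4]

/-! ### frames -/

theorem div_N' {f : ℕ} (hf : f < F.N') : f / F.m < F.N := by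
  rcases Nat.eq_zero_or_pos F.m with h | h
  · unfold CF.N' at hf; rw [h] at hf; omega
  · rw [Nat.div_lt_iff_lt_mul h]; exact hf

theorem next_div (hm : 0 < F.m) (e : ℕ) : F.next e / F.m = e / F.m := by
  unfold CF.next
  rw [Nat.mul_add_div hm, Nat.div_eq_of_lt (Nat.mod_lt _ hm)]; omega

theorem next_lt (hm : 0 < F.m) {e : ℕ} (he : e < F.N') : F.next e < F.N' := by
  have h1 : F.next e / F.m < F.N := by rw [next_div hm]; exact div_N' he
  rwa [Nat.div_lt_iff_lt_mul hm] at h1

theorem prev_next (hm : 0 < F.m) (e : ℕ) : F.prev (F.next e) = e := by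
  unfold CF.prev
  rw [next_div hm]
  have h1 : F.next e % F.m = (e % F.m + 1) % F.m := by
    unfold CF.next
    rw [Nat.mul_add_mod, Nat.mod_mod]
  rw [h1]
  have h2 := Nat.mod_lt e hm
  have h3 : ((e % F.m + 1) % F.m + F.m - 1) % F.m = e % F.m := by
    rcases Nat.lt_or_ge (e % F.m + 1) F.m with h | h
    · rw [Nat.mod_eq_of_lt h]
      have : e % F.m + 1 + F.m - 1 = e % F.m + F.m := by omega
      rw [this, Nat.add_mod_right, Nat.mod_eq_of_lt h2]
    · have h4 : e % F.m + 1 = F.m := by omega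
      rw [h4, Nat.mod_self]
      have : 0 + F.m - 1 = e % F.m := by omega
      rw [this, Nat.mod_eq_of_lt h2]
  rw [h3, Nat.div_add_mod]

theorem next_inj (hm : 0 < F.m) {e e' : ℕ} (h : F.next e = F.next e') : e = e' := by
  rw [← prev_next hm e, h, prev_next hm]

theorem clause_div {v j : ℕ} (hj : j < F.m) : (F.m * v + j) / F.m = v := by
  rw [Nat.mul_add_div (by omega), Nat.div_eq_of_lt hj]; omega

theorem clause_mod {v j : ℕ} (hj : j < F.m) : (F.m * v + j) % F.m = j := by
  rw [Nat.mul_add_mod, Nat.mod_eq_of_lt hj]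

theorem clause_lt {v j : ℕ} (hv : v < F.N) (hj : j < F.m) : F.m * v + j < F.N' := by
  unfold CF.N'
  calc F.m * v + j < F.m * (v + 1) := by rw [Nat.mul_add]; omega
    _ ≤ F.m * F.N := Nat.mul_le_mul_left _ hv
    _ = F.N * F.m := Nat.mul_comm _ _

/-! ### the schedule -/

variable (hm : 0 < F.m) (hn : 0 < F.N') (hcv : ∀ j < F.m, cv j < F.N)
include hm hn

include hcv in
theorem fr_lt {z : ℕ} (hz : z < F.bi.wb) : fr F τ cv z < F.N' := by
  rcases form hm hn hz with ⟨f, r, h⟩ | ⟨e, q, h⟩ | ⟨j, q, h⟩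
  · rw [(fi_val h).1]; exact h.1
  · rw [(li_val h).1]
    split_ifs
    · exact next_lt hm h.1
    · exact h.1
  · rw [(cl_val h).1]
    exact clause_lt (hcv j h.1) h.1

theorem off_lt {z : ℕ} (hz : z < F.bi.wb) : off F τ cv z < F.B := by
  unfold CF.B
  rcases form hm hn hz with ⟨f, r, h⟩ | ⟨e, q, h⟩ | ⟨j, q, h⟩
  · rw [(fi_val h).2.1]
    split_ifs <;> omega
  · rw [(li_val h).2.1]
    have := h.2.1
    split_ifs <;> omega
  · rw [(cl_val h).2.1]
    have := h.2.1
    split_ifs <;> omega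

omit hn in
/-- two blocks of the same frame and offset are equal -/
theorem fo_inj {z z' : ℕ} (hz : z < F.bi.wb) (hz' : z' < F.bi.wb) (hn : 0 < F.N')
    (h1 : fr F τ cv z = fr F τ cv z') (h2 : off F τ cv z = off F τ cv z') : z = z' := by
  rcases form hm hn hz with ⟨f, r, h⟩ | ⟨e, q, h⟩ | ⟨j, q, h⟩ <;>
  rcases form hm hn hz' with ⟨f', r', h'⟩ | ⟨e', q', h'⟩ | ⟨j', q', h'⟩
  · rw [(fi_val h).1, (fi_val h').1] at h1
    subst h1
    rw [(fi_val h).2.1, (fi_val h').2.1] at h2
    have a := h.2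
    have a' := h'.2
    split_ifs at h2 <;> omega
  · rw [(fi_val h).2.1, (li_val h').2.1] at h2
    have a := h.2
    have a' := h'.2
    split_ifs at h2 <;> omega
  · rw [(fi_val h).2.1, (cl_val h').2.1] at h2
    have a := h.2
    have a' := h'.2
    split_ifs at h2 <;> omega
  · rw [(li_val h).2.1, (fi_val h').2.1] at h2
    have a := h.2
    have a' := h'.2
    split_ifs at h2 <;> omega
  · rw [(li_val h).1, (li_val h').1] at h1
    rw [(li_val h).2.1, (li_val h').2.1] at h2
    have a := h.2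
    have a' := h'.2
    have key : e = e' ∧ q = q' := by
      split_ifs at h1 h2
      · exact ⟨next_inj hm h1, by omega⟩
      · omega
      · omega
      · exact ⟨h1, by omega⟩
    rw [a.2, a'.2, key.1, key.2]
  · rw [(li_val h).2.1, (cl_val h').2.1] at h2
    have a := h.2
    have a' := h'.2
    split_ifs at h2 <;> omega
  · rw [(cl_val h).2.1, (fi_val h').2.1] at h2
    have a := h.2
    have a' := h'.2
    split_ifs at h2 <;> omega
  · rw [(cl_val h).2.1, (li_val h').2.1] at h2
    have a := h.2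
    have a' := h'.2
    split_ifs at h2 <;> omega
  · rw [(cl_val h).1, (cl_val h').1] at h1
    have hj : j = j' := by
      rw [← clause_mod (v := cv j) h.1, h1, clause_mod h'.1]
    subst hj
    rw [(cl_val h).2.1, (cl_val h').2.1] at h2
    have a := h.2
    have a' := h'.2
    have key : q = q' := by
      split_ifs at h2
      · omega
      · omega
    rw [a.2, a'.2, key]

omit hn in
/-- two consecutive blocks of the same job -/
theorem step {z : ℕ} (hz : z + 1 < F.bi.wb) (hn : 0 < F.N')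
    (hj : F.bi.jbb (z + 1) = F.bi.jbb z) :
    fr F τ cv (z + 1) = fr F τ cv z ∧
    (off F τ cv (z + 1) = off F τ cv z + 1 ∨
      (∃ f, fr F τ cv z = f ∧ ((τ (f / F.m) = true ∧ off F τ cv z = 1 + F.N' + F.m ∧
        off F τ cv (z + 1) = 2 + 2 * F.N' + 2 * F.m) ∨
        (τ (f / F.m) = false ∧ off F τ cv z = 0 ∧ off F τ cv (z + 1) = 1 + F.N' + F.m)))) := by
  have hz0 : z < F.bi.wb := by omega
  rcases form hm hn hz0 with ⟨f, r, h⟩ | ⟨e, q, h⟩ | ⟨j, q, h⟩ <;>
  rcases form hm hn hz with ⟨f', r', h'⟩ | ⟨e', q', h'⟩ | ⟨j', q', h'⟩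
  · rw [(fi_val (τ := τ) (cv := cv) h).2.2.1, (fi_val (τ := τ) (cv := cv) h').2.2.1] at hj
    subst hj
    have a := h.2
    have a' := h'.2
    have hr : r = 0 := by omega
    have hr' : r' = 1 := by omega
    subst hr hr'
    rw [(fi_val h).1, (fi_val h').1, (fi_val h).2.1, (fi_val h').2.1]
    refine ⟨rfl, Or.inr ⟨f', rfl, ?_⟩⟩
    rcases Bool.eq_false_or_eq_true (τ (f' / F.m)) with ht | ht
    · left
      simp [ht]
    · right
      simp [ht]
  · rw [(fi_val (τ := τ) (cv := cv) h).2.2.1, (li_val (τ := τ) (cv := cv) h').2.2.1] at hj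
    have a := h.1
    omega
  · rw [(fi_val (τ := τ) (cv := cv) h).2.2.1, (cl_val (τ := τ) (cv := cv) h').2.2.1] at hj
    have a := h.1
    omega
  · rw [(li_val (τ := τ) (cv := cv) h).2.2.1, (fi_val (τ := τ) (cv := cv) h').2.2.1] at hj
    have a := h'.1
    omega
  · rw [(li_val (τ := τ) (cv := cv) h).2.2.1, (li_val (τ := τ) (cv := cv) h').2.2.1] at hj
    have he : e = e' := by omega
    subst he
    have a := h.2
    have a' := h'.2
    have hq : q' = q + 1 := by omega
    subst hq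
    rw [(li_val h).1, (li_val h').1, (li_val h).2.1, (li_val h').2.1]
    refine ⟨rfl, Or.inl ?_⟩
    split_ifs <;> omega
  · rw [(li_val (τ := τ) (cv := cv) h).2.2.1, (cl_val (τ := τ) (cv := cv) h').2.2.1] at hj
    have a := h.1
    omega
  · rw [(cl_val (τ := τ) (cv := cv) h).2.2.1, (fi_val (τ := τ) (cv := cv) h').2.2.1] at hj
    have a := h'.1
    omega
  · rw [(cl_val (τ := τ) (cv := cv) h).2.2.1, (li_val (τ := τ) (cv := cv) h').2.2.1] at hj
    have a := h'.1
    omega
  · rw [(cl_val (τ := τ) (cv := cv) h).2.2.1, (cl_val (τ := τ) (cv := cv) h').2.2.1] at hj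
    have he : j = j' := by omega
    subst he
    have a := h.2
    have a' := h'.2
    have hq : q' = q + 1 := by omega
    subst hq
    rw [(cl_val h).1, (cl_val h').1, (cl_val h).2.1, (cl_val h').2.1]
    refine ⟨rfl, Or.inl ?_⟩
    split_ifs <;> omega

omit hn in
/-- the blocked region of a frame is free -/
theorem free {z : ℕ} (hz : z < F.bi.wb) (hn : 0 < F.N') {f : ℕ} (hf : fr F τ cv z = f) :
    (τ (f / F.m) = true → ¬ (1 + F.N' + F.m < off F τ cv z ∧
      off F τ cv z < 2 + 2 * F.N' + 2 * F.m)) ∧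
    (τ (f / F.m) = false → ¬ (0 < off F τ cv z ∧ off F τ cv z < 1 + F.N' + F.m)) := by
  subst hf
  rcases form hm hn hz with ⟨f, r, h⟩ | ⟨e, q, h⟩ | ⟨j, q, h⟩
  · rw [(fi_val h).1, (fi_val h).2.1]
    constructor
    · intro ht
      rw [if_pos ht]
      split_ifs <;> omega
    · intro ht
      rw [if_neg (by simp [ht])]
      split_ifs <;> omega
  · have hdiv : fr F τ cv z / F.m = e / F.m := by
      rw [(li_val h).1]
      split_ifs
      · exact next_div hm e
      · rfl
    rw [hdiv, (li_val h).2.1]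
    have a := h.2
    constructor
    · intro ht
      rw [if_pos ht]
      omega
    · intro ht
      rw [if_neg (by simp [ht])]
      omega
  · have hdiv : fr F τ cv z / F.m = cv j := by
      rw [(cl_val h).1, clause_div h.1]
    rw [hdiv, (cl_val h).2.1]
    have a := h.2
    constructor
    · intro ht
      rw [if_pos ht]
      omega
    · intro ht
      rw [if_neg (by simp [ht])]
      omega

/-- the letters agree -/
theorem letter (hocc : ∀ j < F.m, F.occ (cv j) (τ (cv j)) j) {z : ℕ} (hz : z < F.bi.wb) :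
    F.let' (fr F τ cv z) (off F τ cv z) = F.bi.wlb z := by
  rcases form hm hn hz with ⟨f, r, h⟩ | ⟨e, q, h⟩ | ⟨j, q, h⟩
  · rw [(fi_val (τ := τ) (cv := cv) h).2.2.2, (fi_val h).2.1]
    unfold CF.let'
    split_ifs <;> omega
  · rw [(li_val (τ := τ) (cv := cv) h).2.2.2, (li_val h).2.1, (li_val h).1]
    have a := h.2
    rcases Bool.eq_false_or_eq_true (τ (e / F.m)) with ht | ht
    · rw [if_pos ht, if_pos ht]
      unfold CF.let'
      rw [prev_next hm, if_neg (by omega), if_pos (by omega)]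
      have : 1 + q - 1 = q := by omega
      rw [this]
    · rw [if_neg (by simp [ht]), if_neg (by simp [ht])]
      unfold CF.let'
      rw [if_neg (by omega), if_neg (by omega), if_neg (by omega), if_neg (by omega),
        if_pos (by omega)]
      have : 2 + F.N' + F.m + q - 2 - F.N' - F.m = q := by omega
      rw [this]
  · rw [(cl_val (τ := τ) (cv := cv) h).2.2.2, (cl_val h).2.1, (cl_val h).1]
    have a := h.2
    have ho := hocc j h.1
    rcases Bool.eq_false_or_eq_true (τ (cv j)) with ht | ht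
    · rw [if_pos ht]
      rw [ht] at ho
      have hd : F.dd (F.m * cv j + j) true = j := by
        unfold CF.dd
        rw [clause_div h.1, clause_mod h.1, if_pos ho]
      unfold CF.let'
      rw [if_neg (by omega), if_neg (by omega), if_pos (by omega), hd]
      have : 1 + F.N' + q - 1 - F.N' = q := by omega
      rw [this]
    · rw [if_neg (by simp [ht])]
      rw [ht] at ho
      have hd : F.dd (F.m * cv j + j) false = j := by
        unfold CF.dd
        rw [clause_div h.1, clause_mod h.1, if_pos ho]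
      unfold CF.let'
      rw [if_neg (by omega), if_neg (by omega), if_neg (by omega), if_neg (by omega),
        if_neg (by omega), if_pos (by omega), hd]
      have : 2 + 2 * F.N' + F.m + q - 2 - 2 * F.N' - F.m = q := by omega
      rw [this]

end B5

open B5 in
theorem bsched_of_sat (F : CF) (h : F.Sat) : Nonempty (BSched F.bi) := by
  obtain ⟨τ, hτ⟩ := h
  rcases Nat.eq_zero_or_pos F.m with hm | hm
  · have hwb : F.bi.wb = 0 := by
      change 2 * F.N' + F.N' * F.N' + F.m * F.m = 0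
      unfold CF.N'
      rw [hm]
      simp
    exact ⟨{ pos := fun _ => 0
             lt := fun z hz => by omega
             inj := fun z hz => by omega
             letter := fun z hz => by omega
             ord := fun z hz => by omega
             gap := fun z hz => by omega
             bnd := fun z hz => by omega }⟩
  have hcl : ∀ j : ℕ, ∃ v, j < F.m → v < F.N ∧ F.occ v (τ v) j := by
    intro j
    by_cases hj : j < F.m
    · obtain ⟨v, hv, s, hs, rfl⟩ := hτ j hj
      exact ⟨v, fun _ => ⟨hv, hs⟩⟩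
    · exact ⟨0, fun h => absurd h hj⟩
  choose cv hcv using hcl
  have hN : 0 < F.N := by
    have := (hcv 0 hm).1
    omega
  have hn : 0 < F.N' := Nat.mul_pos hN hm
  have hcv1 : ∀ j < F.m, cv j < F.N := fun j hj => (hcv j hj).1
  have hcv2 : ∀ j < F.m, F.occ (cv j) (τ (cv j)) j := fun j hj => (hcv j hj).2
  have hB : 0 < F.B := by unfold CF.B; omega
  have hpd : ∀ {z}, z < F.bi.wb → (F.B * fr F τ cv z + off F τ cv z) / F.B = fr F τ cv z := by
    intro z hz
    rw [Nat.mul_add_div hB, Nat.div_eq_of_lt (off_lt hm hn hz)]; omega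
  have hpm : ∀ {z}, z < F.bi.wb → (F.B * fr F τ cv z + off F τ cv z) % F.B = off F τ cv z := by
    intro z hz
    rw [Nat.mul_add_mod, Nat.mod_eq_of_lt (off_lt hm hn hz)]
  refine ⟨{ pos := fun z => F.B * fr F τ cv z + off F τ cv z
            lt := ?_, inj := ?_, letter := ?_, ord := ?_, gap := ?_, bnd := ?_ }⟩
  · intro z hz
    change F.B * fr F τ cv z + off F τ cv z < F.B * F.N'
    have h1 := fr_lt (τ := τ) hm hn hcv1 hz
    have h2 := off_lt (τ := τ) (cv := cv) hm hn hz
    calc F.B * fr F τ cv z + off F τ cv z < F.B * (fr F τ cv z + 1) := by rw [Nat.mul_add]; omega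
      _ ≤ F.B * F.N' := Nat.mul_le_mul_left _ h1
  · intro z hz z' hz' he
    have h1 : fr F τ cv z = fr F τ cv z' := by
      rw [← hpd hz, ← hpd hz']
      exact congrArg (· / F.B) he
    have h2 : off F τ cv z = off F τ cv z' := by
      rw [← hpm hz, ← hpm hz']
      exact congrArg (· % F.B) he
    exact fo_inj hm hz hz' hn h1 h2
  · intro z hz
    change F.let' ((F.B * fr F τ cv z + off F τ cv z) / F.B)
      ((F.B * fr F τ cv z + off F τ cv z) % F.B) = _
    rw [hpd hz, hpm hz]
    exact letter hm hn hcv2 hz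
  · intro z hz hj
    change F.B * fr F τ cv z + off F τ cv z < F.B * fr F τ cv (z + 1) + off F τ cv (z + 1)
    obtain ⟨h1, h2⟩ := step (τ := τ) (cv := cv) hm hz hn hj
    rw [h1]
    rcases h2 with h2 | ⟨f, _, ⟨_, h3, h4⟩ | ⟨_, h3, h4⟩⟩ <;> omega
  · intro z hz hj z' hz' ha hb
    change F.B * fr F τ cv z + off F τ cv z < F.B * fr F τ cv z' + off F τ cv z' at ha
    change F.B * fr F τ cv z' + off F τ cv z' < F.B * fr F τ cv (z + 1) + off F τ cv (z + 1) at hb
    obtain ⟨h1, h2⟩ := step (τ := τ) (cv := cv) hm hz hn hj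
    rw [h1] at hb
    have o1 := off_lt (τ := τ) (cv := cv) hm hn (show z < F.bi.wb by omega)
    have o2 := off_lt (τ := τ) (cv := cv) hm hn hz
    have o3 := off_lt (τ := τ) (cv := cv) hm hn hz'
    have hfr : fr F τ cv z' = fr F τ cv z := by
      rcases lt_trichotomy (fr F τ cv z') (fr F τ cv z) with h | h | h
      · have := Nat.mul_le_mul_left F.B (show fr F τ cv z' + 1 ≤ fr F τ cv z from h)
        rw [Nat.mul_add] at this
        omega
      · exact h
      · have := Nat.mul_le_mul_left F.B (show fr F τ cv z + 1 ≤ fr F τ cv z' from h)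
        rw [Nat.mul_add] at this
        omega
    rw [hfr] at ha hb
    have hfree := free (τ := τ) (cv := cv) hm hz' hn hfr
    rcases h2 with h2 | ⟨f, hf, ⟨ht, h3, h4⟩ | ⟨ht, h3, h4⟩⟩
    · omega
    · rw [hf] at hfree
      exact hfree.1 ht ⟨by omega, by omega⟩
    · rw [hf] at hfree
      exact hfree.2 ht ⟨by omega, by omega⟩
  · intro z hz hj y hy ha hb
    change F.B * fr F τ cv z + off F τ cv z ≤ y at ha
    change y < F.B * fr F τ cv (z + 1) + off F τ cv (z + 1) at hb
    change (y + 1) % F.B = 0 at hy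
    obtain ⟨h1, h2⟩ := step (τ := τ) (cv := cv) hm hz hn hj
    rw [h1] at hb
    have o2 := off_lt (τ := τ) (cv := cv) hm hn hz
    obtain ⟨k, hk⟩ := Nat.dvd_of_mod_eq_zero hy
    rcases Nat.lt_or_ge (fr F τ cv z) k with h | h
    · have := Nat.mul_le_mul_left F.B (show fr F τ cv z + 1 ≤ k from h)
      rw [Nat.mul_add] at this
      omega
    · have := Nat.mul_le_mul_left F.B h
      omega

end Pool.Agent.H.MP_701cec_lc
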