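import Pool.Agent.H.MP_701cec_lc.Adj

/-!
Basic facts on chains: separation of labels and counting of labels.
-/

namespace Pool.Agent.H.MP_701cec_lc

variable {P : Par} {I : Inst}

theorem mem_UU {v : Vx P} (h : valid I v) : v ∈ UU P I := by
  obtain ⟨k, s⟩ := v
  unfold UU
  rw [Finset.mem_product]
  refine ⟨Finset.mem_univ _, ?_⟩
  rw [Finset.mem_range]
  rcases k with ⟨j', _ | _⟩ | ⟨j', _ | _⟩ | i | i | i | b' | ⟨e, i⟩ | ⟨e, b'⟩ | _ | ⟨o, q⟩ | ⟨k, s'⟩ | ⟨e, s'⟩ <;>
    simp_all [valid] <;> omega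

theorem Chain.le {V : Type} [DecidableEq V] {G : SimpleGraph V} {c : ℕ} {U : Finset V}
    {good : Finset V → Prop} (ch : Chain G c U good) {i j : ℕ} (h : i ≤ j) : ch.S i ⊆ ch.S j := by
  induction j, h using Nat.le_induction with
  | base => exact fun _ h => h
  | succ j _ ih => exact ih.trans (ch.mono j)

theorem Chain.pers_le {V : Type} [DecidableEq V] {G : SimpleGraph V} {c : ℕ} {U : Finset V}
    {good : Finset V → Prop} (ch : Chain G c U good) {i j : ℕ} (h : i ≤ j) {u v : V}
    (hu : u ∈ ch.S i) (hv : v ∈ ch.S i) (he : ch.lab i u = ch.lab i v) :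
    ch.lab j u = ch.lab j v := by
  induction j, h using Nat.le_induction with
  | base => exact he
  | succ j hj ih => exact ch.pers j u (ch.le hj hu) v (ch.le hj hv) ih

/-- a vertex outside of the level separates labels -/
theorem Chain.sepo {V : Type} [DecidableEq V] {G : SimpleGraph V} {c : ℕ} {U : Finset V}
    {good : Finset V → Prop} (ch : Chain G c U good) {i : ℕ} {w v v' : V} (hv : v ∈ ch.S i)
    (hv' : v' ∈ ch.S i) (hw : w ∉ ch.S i) (h1 : G.Adj w v) (h2 : ¬ G.Adj w v') :
    ch.lab i v ≠ ch.lab i v' := by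
  intro h
  exact h2 ((ch.out i v hv v' hv' h w hw).1 h1.symm).symm

/-- a vertex `w` which is not on the side of `v` separates the label of `v` from the labels of the
vertices which are not adjacent to `w` -/
theorem Chain.sep {V : Type} [DecidableEq V] {G : SimpleGraph V} {c : ℕ} {U : Finset V}
    {good : Finset V → Prop} (ch : Chain G c U good) {i : ℕ} {w v v' : V} (hv : v ∈ ch.S (i + 1))
    (hv' : v' ∈ ch.S (i + 1)) (hw : (w ∈ ch.S i ↔ v ∈ ch.S i) → w ∉ ch.S (i + 1))
    (h1 : G.Adj w v) (h2 : ¬ G.Adj w v') :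
    ch.lab (i + 1) v ≠ ch.lab (i + 1) v' := by
  by_cases hwS : w ∈ ch.S (i + 1)
  · intro h
    by_cases hwi : w ∈ ch.S i
    · have hvi : v ∉ ch.S i := fun hvi => hw (by simp [hwi, hvi]) hwS
      exact h2 (ch.cross i w hwi v hv hvi h1 w hwS v' hv' rfl h.symm)
    · have hvi : v ∈ ch.S i := by
        by_contra hvi
        exact hw (by simp [hwi, hvi]) hwS
      exact h2 (ch.cross i v hvi w hwS hwi h1.symm v' hv' w hwS h.symm rfl).symm
  · exact ch.sepo hv hv' hwS h1 h2

theorem Par.M_pos (P : Par) : 4 ≤ P.M := by have := P.hM; omega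

theorem exists_cls_ne (a : Cls P) : ∃ b : Cls P, b ≠ a := by
  have hM := P.M_pos
  cases a with
  | X j => exact ⟨.Y ⟨0, by omega⟩, by simp⟩
  | Y j => exact ⟨.X ⟨0, by omega⟩, by simp⟩
  | K j => exact ⟨.Y ⟨0, by omega⟩, by simp⟩

variable {ch : Ch P I}

/-- up to level `N` the classes have different labels -/
theorem Dist.lab_cls {N : ℕ} (hD : Dist ch N) {i : ℕ} (hi : i ≤ N) {v v' : Vx P} {a : Cls P}
    (hv : v ∈ ch.S i) (hv' : v' ∈ ch.S i) (hval : valid I v) (hc : cls v.1 = some a)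
    (h' : ¬ (cls v'.1 = some a ∧ valid I v')) : ch.lab i v ≠ ch.lab i v' := by
  by_cases hval' : valid I v'
  · have h1 : cls v'.1 ≠ some a := fun h => h' ⟨h, hval'⟩
    cases hb : cls v'.1 with
    | none =>
      obtain ⟨b, hb'⟩ := exists_cls_ne a
      obtain ⟨s, hs, hs', hO⟩ := hD a b hb'.symm
      have hO' : ((Kd.Om false s, 0) : Vx P) ∉ ch.S i := fun h => hO (ch.le hi h)
      exact ch.sepo hv hv' hO' ((adj_Om hval hc).2 ⟨hs, by simp⟩) (adj_Om_none hb)
    | some b =>
      have hab : a ≠ b := fun h => h1 (by rw [hb, h])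
      obtain ⟨s, hs, hs', hO⟩ := hD a b hab
      have hO' : ((Kd.Om false s, 0) : Vx P) ∉ ch.S i := fun h => hO (ch.le hi h)
      exact ch.sepo hv hv' hO' ((adj_Om hval hc).2 ⟨hs, by simp⟩)
        (fun h => hs' ((adj_Om hval' hb).1 h).1)
  · obtain ⟨b, hb'⟩ := exists_cls_ne a
    obtain ⟨s, hs, hs', hO⟩ := hD a b hb'.symm
    have hO' : ((Kd.Om false s, 0) : Vx P) ∉ ch.S i := fun h => hO (ch.le hi h)
    exact ch.sepo hv hv' hO' ((adj_Om hval hc).2 ⟨hs, by simp⟩) (fun h => hval' h.2.2.1)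

/-- Counting of labels: `B a` are labels of vertices of class `a`, `T` are labels of vertices
without class. -/
theorem Dist.count {N : ℕ} (hD : Dist ch N) {i : ℕ} (hi : i ≤ N) (B : Cls P → Finset (Fin P.c))
    (hB : ∀ a, ∀ l ∈ B a, ∃ v ∈ ch.S i, valid I v ∧ cls v.1 = some a ∧ ch.lab i v = l)
    (T : Finset (Fin P.c)) (hT : ∀ l ∈ T, ∃ v ∈ ch.S i, cls v.1 = none ∧ ch.lab i v = l) :
    (∑ a, (B a).card) + T.card ≤ P.c := by
  classical
  have h1 : (∑ a, (B a).card) = (Finset.univ.biUnion B).card := by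
    rw [Finset.card_biUnion]
    intro a _ b _ hab
    rw [Function.onFun, Finset.disjoint_left]
    intro l hl hl'
    obtain ⟨v, hv, hval, hc, hlab⟩ := hB a l hl
    obtain ⟨v', hv', hval', hc', hlab'⟩ := hB b l hl'
    refine hD.lab_cls hi hv hv' hval hc ?_ (hlab.trans hlab'.symm)
    rintro ⟨h, -⟩
    rw [hc'] at h
    exact hab (Option.some.inj h).symm
  have h2 : Disjoint (Finset.univ.biUnion B) T := by
    rw [Finset.disjoint_left]
    intro l hl hl'
    rw [Finset.mem_biUnion] at hl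
    obtain ⟨a, -, hl⟩ := hl
    obtain ⟨v, hv, hval, hc, hlab⟩ := hB a l hl
    obtain ⟨v', hv', hc', hlab'⟩ := hT l hl'
    refine hD.lab_cls hi hv hv' hval hc ?_ (hlab.trans hlab'.symm)
    rintro ⟨h, -⟩
    rw [hc'] at h
    cases h
  rw [h1, ← Finset.card_union_of_disjoint h2]
  exact (Finset.card_le_univ _).trans (by simp)

theorem sum_cls (f : Cls P → ℕ) : ∑ a, f a =
    (∑ j, f (.X j)) + (∑ j, f (.Y j)) + ∑ k, f (.K k) := by
  classical
  let e : Fin P.M ⊕ Fin P.M ⊕ Fin P.p ≃ Cls P :=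
    { toFun := fun x => match x with
        | .inl j => .X j
        | .inr (.inl j) => .Y j
        | .inr (.inr k) => .K k
      invFun := fun x => match x with
        | .X j => .inl j
        | .Y j => .inr (.inl j)
        | .K k => .inr (.inr k)
      left_inv := by rintro (j | j | k) <;> rfl
      right_inv := by rintro (j | j | k) <;> rfl }
  rw [← e.sum_comp, Fintype.sum_sum_type, Fintype.sum_sum_type]
  simp only [e, Equiv.coe_fn_mk]
  ring

/-- The counting lemma in the form in which it is used. -/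
theorem Dist.count' {N : ℕ} (hD : Dist ch N) {i : ℕ} (hi : i ≤ N) (B : Cls P → Finset (Fin P.c))
    (hB : ∀ a, ∀ l ∈ B a, ∃ v ∈ ch.S i, valid I v ∧ cls v.1 = some a ∧ ch.lab i v = l)
    (T : Finset (Fin P.c)) (hT : ∀ l ∈ T, ∃ v ∈ ch.S i, cls v.1 = none ∧ ch.lab i v = l) :
    (∑ j, (B (.X j)).card) + (∑ j, (B (.Y j)).card) + (∑ k, (B (.K k)).card) + T.card ≤ P.c := by
  rw [← sum_cls fun a => (B a).card]
  exact hD.count hi B hB T hT

/-- some copy of an observer is contained in each level -/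
theorem Chain.ob (ch : Ch P I) (i : ℕ) (o : Obs) : ∃ q, ((Kd.Ob o q, 0) : Vx P) ∈ ch.S i := by
  classical
  by_contra h
  push Not at h
  have h1 := ch.gd i
  unfold good at h1
  have h2 : (Finset.univ.image fun q : Fin (P.δ + 1) => (L0.Ob o q : L0 P)) ⊆
      Finset.univ.filter fun x : L0 P => l0 x ∉ ch.S i := by
    intro x hx
    rw [Finset.mem_image] at hx
    obtain ⟨q, -, rfl⟩ := hx
    simpa [l0] using h q
  have h3 := Finset.card_le_card h2
  rw [Finset.card_image_of_injective _ (fun a b hab => by simpa using hab)] at h3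
  simp at h3
  omega

/-- the kinds whose vertex `R0 k` of column `0` is not in the level: at most `δ` -/
theorem Chain.r0 (ch : Ch P I) (i : ℕ) :
    (Finset.univ.filter fun k : Fin P.p => ((Kd.R0 k, 0) : Vx P) ∉ ch.S i).card ≤ P.δ := by
  classical
  have h1 := ch.gd i
  unfold good at h1
  have h2 : ((Finset.univ.filter fun k : Fin P.p => ((Kd.R0 k, 0) : Vx P) ∉ ch.S i).image
      fun k => (L0.R0 k : L0 P)) ⊆ Finset.univ.filter fun x : L0 P => l0 x ∉ ch.S i := by
    intro x hx
    rw [Finset.mem_image] at hx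
    obtain ⟨q, hq, rfl⟩ := hx
    simpa [l0] using hq
  have h3 := Finset.card_le_card h2
  rw [Finset.card_image_of_injective _ (fun a b hab => by simpa using hab)] at h3
  omega

/-- the kinds for which one of the vertices `R0 k`, `A k` of column `0` is not in the level:
at most `δ` -/
theorem Chain.r0A (ch : Ch P I) (i : ℕ) :
    (Finset.univ.filter fun k : Fin P.p =>
      ((Kd.R0 k, 0) : Vx P) ∉ ch.S i ∨ ((Kd.A k, 0) : Vx P) ∉ ch.S i).card ≤ P.δ := by
  classical
  have h1 := ch.gd i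
  unfold good at h1
  have h2 : ((Finset.univ.filter fun k : Fin P.p =>
      ((Kd.R0 k, 0) : Vx P) ∉ ch.S i ∨ ((Kd.A k, 0) : Vx P) ∉ ch.S i).image
      fun k => (if ((Kd.R0 k, 0) : Vx P) ∈ ch.S i then L0.A k else L0.R0 k : L0 P)) ⊆
        Finset.univ.filter fun x : L0 P => l0 x ∉ ch.S i := by
    intro x hx
    rw [Finset.mem_image] at hx
    obtain ⟨q, hq, rfl⟩ := hx
    rw [Finset.mem_filter] at hq ⊢
    refine ⟨Finset.mem_univ _, ?_⟩
    split_ifs with h
    · rcases hq.2 with h' | h'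
      · exact absurd h h'
      · exact h'
    · exact h
  have h3 := Finset.card_le_card h2
  rw [Finset.card_image_of_injective] at h3
  · omega
  · intro a b hab
    beta_reduce at hab
    split_ifs at hab <;> simp_all

end Pool.Agent.H.MP_701cec_lc
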