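import Pool.Agent.H.MP_701cec_lc.Dec
import Pool.Agent.H.MP_c8e747_lc.Member

/-!
Certificates for `CW c`. Definitions.
-/

namespace Pool.Agent.H.MP_701cec_lc

open Pool.Agent.H.MP_c8e747_lc (nn xx zz tr fa no ce)

/-- the number `i` in the list of nodes `(T i, L i)` is a leaf or a union of two earlier nodes -/
def Node {n c : ℕ} (G : SimpleGraph (Fin n)) (T : ℕ → Finset (Fin n)) (L : ℕ → Fin n → Fin c)
    (i : ℕ) : Prop :=
  (∃ v, T i = {v}) ∨ ∃ j < i, ∃ k < i, T i = T j ∪ T k ∧ Disjoint (T j) (T k) ∧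
    (∀ u ∈ T j, ∀ v ∈ T j, L j u = L j v → L i u = L i v) ∧
    (∀ u ∈ T k, ∀ v ∈ T k, L k u = L k v → L i u = L i v) ∧
    (∀ u ∈ T j, ∀ v ∈ T k, G.Adj u v → ∀ u' ∈ T i, ∀ v' ∈ T i,
      L i u' = L i u → L i v' = L i v → G.Adj u' v')

/-- the bit `q` of the vertex `v` at the node `i` of the certificate -/
def cb (c : ℕ) (z : List (Option Bool ⊕ Bool)) (i v q : ℕ) : Prop :=
  ce z (xx z + ((i * nn z + v) * (c + 1) + q))

/-- the vertex `v` belongs to the node `i` -/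
def cS (c : ℕ) (z : List (Option Bool ⊕ Bool)) (i v : ℕ) : Prop := cb c z i v 0

/-- the vertices `u` and `v` have the same label at the node `i` -/
def cl (c : ℕ) (z : List (Option Bool ⊕ Bool)) (i u v : ℕ) : Prop :=
  ∃ q < c, cb c z i u (q + 1) ∧ cb c z i v (q + 1)

/-- the vertices `u` and `v` are adjacent -/
def ca (z : List (Option Bool ⊕ Bool)) (u v : ℕ) : Prop := tr z (u * (nn z + 1) + v)

/-- the input is the code of a graph with at least one vertex -/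
def cwf (z : List (Option Bool ⊕ Bool)) : Prop :=
  1 ≤ nn z ∧ xx z = nn z * (nn z + 1) ∧
  (∀ i < nn z, ∀ j < nn z, tr z (i * (nn z + 1) + j) ∨ fa z (i * (nn z + 1) + j)) ∧
  (∀ i < nn z, no z (i * (nn z + 1) + nn z)) ∧
  (∀ i < nn z, ∀ j < nn z, ca z i j → ca z j i) ∧
  (∀ i < nn z, ¬ ca z i i)

/-- each vertex has exactly one label at the node `i` -/
def con (c : ℕ) (z : List (Option Bool ⊕ Bool)) (i : ℕ) : Prop :=
  ∀ v < nn z, ∃ q < c, cb c z i v (q + 1) ∧ ∀ q' < c, cb c z i v (q' + 1) → q' = q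

/-- the node `i` is a leaf -/
def clf (c : ℕ) (z : List (Option Bool ⊕ Bool)) (i : ℕ) : Prop :=
  ∃ v < nn z, ∀ u < nn z, cS c z i u ↔ u = v

/-- the node `i` is the union of the nodes `j` and `k` -/
def cun (c : ℕ) (z : List (Option Bool ⊕ Bool)) (i j k : ℕ) : Prop :=
  (∀ u < nn z, (cS c z i u ↔ (cS c z j u ∨ cS c z k u)) ∧ ¬ (cS c z j u ∧ cS c z k u)) ∧
  (∀ u < nn z, ∀ v < nn z, cS c z j u → cS c z j v → cl c z j u v → cl c z i u v) ∧
  (∀ u < nn z, ∀ v < nn z, cS c z k u → cS c z k v → cl c z k u v → cl c z i u v) ∧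
  (∀ u < nn z, ∀ v < nn z, cS c z j u → cS c z k v → ca z u v →
    ∀ u' < nn z, ∀ v' < nn z, cS c z i u' → cS c z i v' → cl c z i u' u → cl c z i v' v →
      ca z u' v')

/-- the test of the verifier -/
def ctest (c : ℕ) (z : List (Option Bool ⊕ Bool)) : Prop :=
  cwf z ∧ (∀ i < 2 * nn z - 1, con c z i ∧ (clf c z i ∨ ∃ j < i, ∃ k < i, cun c z i j k)) ∧
  ∀ v < nn z, cS c z (2 * nn z - 2) v

end Pool.Agent.H.MP_701cec_lc
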