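import Pool.Agent.H.MP_701cec_lc.Defs

/-!
Decomposition trees (the combinatorial form of k-expressions) and chains of good nodes.
Only definitions.
-/

namespace Pool.Agent.H.MP_701cec_lc

/-- `Dec Λ G S ℓ`: the graph induced by `G` on the finite set `S` has a decomposition tree with
labels in `Λ`, and `ℓ` gives the labels of the vertices of `S` right after the disjoint union at
the root. -/
inductive Dec {V : Type} [DecidableEq V] (Λ : Type) (G : SimpleGraph V) :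
    Finset V → (V → Λ) → Prop
  | single (v : V) (ℓ : V → Λ) : Dec Λ G {v} ℓ
  | union (S T : Finset V) (ℓS ℓT ℓ : V → Λ) (hS : Dec Λ G S ℓS) (hT : Dec Λ G T ℓT)
      (hd : Disjoint S T)
      (h1 : ∀ u ∈ S, ∀ v ∈ S, ℓS u = ℓS v → ℓ u = ℓ v)
      (h2 : ∀ u ∈ T, ∀ v ∈ T, ℓT u = ℓT v → ℓ u = ℓ v)
      (h3 : ∀ u ∈ S, ∀ v ∈ T, G.Adj u v → ∀ u' ∈ S ∪ T, ∀ v' ∈ S ∪ T,
        ℓ u' = ℓ u → ℓ v' = ℓ v → G.Adj u' v') :
      Dec Λ G (S ∪ T) ℓ

/-- the set `S` has at most `c` types of adjacency to the outside -/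
def TC {V : Type} (G : SimpleGraph V) (c : ℕ) (S : Finset V) : Prop :=
  ∃ f : V → Fin c, ∀ u ∈ S, ∀ v ∈ S, f u = f v → ∀ w, w ∉ S → (G.Adj u w ↔ G.Adj v w)

/-- The chain of the good nodes of a decomposition tree (from the lowest one, which is the
disjoint union of two sets `Y0`, `Z0` which are not good, up to the root). `S i` is the vertex set
of the `i`-th good node and `lab i` are the labels right after the disjoint union at this node. -/
structure Chain {V : Type} [DecidableEq V] (G : SimpleGraph V) (c : ℕ) (U : Finset V)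
    (good : Finset V → Prop) where
  m : ℕ
  S : ℕ → Finset V
  lab : ℕ → V → Fin c
  Y0 : Finset V
  Z0 : Finset V
  sub : ∀ i, S i ⊆ U
  top : ∀ i, m ≤ i → S i = U
  mono : ∀ i, S i ⊆ S (i + 1)
  zero : S 0 = Y0 ∪ Z0
  disj : Disjoint Y0 Z0
  ngY : ¬ good Y0
  ngZ : ¬ good Z0
  tcY : TC G c Y0
  tcZ : TC G c Z0
  gd : ∀ i, good (S i)
  ng : ∀ i, ¬ good (S (i + 1) \ S i)
  tc : ∀ i, TC G c (S (i + 1) \ S i)
  out : ∀ i, ∀ u ∈ S i, ∀ v ∈ S i, lab i u = lab i v → ∀ w, w ∉ S i → (G.Adj u w ↔ G.Adj v w)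
  cross : ∀ i, ∀ u ∈ S i, ∀ v ∈ S (i + 1), v ∉ S i → G.Adj u v →
    ∀ u' ∈ S (i + 1), ∀ v' ∈ S (i + 1), lab (i + 1) u' = lab (i + 1) u →
      lab (i + 1) v' = lab (i + 1) v → G.Adj u' v'
  pers : ∀ i, ∀ u ∈ S i, ∀ v ∈ S i, lab i u = lab i v → lab (i + 1) u = lab (i + 1) v

end Pool.Agent.H.MP_701cec_lc
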