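import Mathlib

/-!
Definitions used in the statement of the main theorem: k-expressions, clique-width, the code of a
graph, the decision problem `CW c`, and the class NP.
-/

namespace Pool.Agent.H.MP_701cec_lc

open Turing

/-- The `k`-expressions: terms built from `vertex i` (one vertex with label `i`), `union`
(disjoint union), `join i j` with `i ≠ j` (add every edge between a vertex labelled `i` and a
vertex labelled `j`) and `relabel i j` (change every label `i` into the label `j`). -/
inductive Term (k : ℕ) : Type
  | vertex (i : Fin k) : Term k
  | union (s t : Term k) : Term k
  | join (i j : Fin k) (h : i ≠ j) (t : Term k) : Term k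
  | relabel (i j : Fin k) (t : Term k) : Term k

namespace Term

/-- The vertex set of the labelled graph which is the value of a `k`-expression. -/
def V {k : ℕ} : Term k → Type
  | vertex _ => Unit
  | union s t => V s ⊕ V t
  | join _ _ _ t => V t
  | relabel _ _ t => V t

/-- The labels of the vertices of the value of a `k`-expression. -/
def lab {k : ℕ} : (t : Term k) → t.V → Fin k
  | vertex i, _ => i
  | union s t, v => Sum.elim (lab s) (lab t) v
  | join _ _ _ t, v => lab t v
  | relabel i j t, v => if lab t v = i then j else lab t v

/-- The graph which is the value of a `k`-expression (without the labels). -/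
def graph {k : ℕ} : (t : Term k) → SimpleGraph t.V
  | vertex _ => (⊥ : SimpleGraph Unit)
  | union s t => (graph s) ⊕g (graph t)
  | join i j _ t => (graph t) ⊔ SimpleGraph.fromRel (fun u v => lab t u = i ∧ lab t v = j)
  | relabel _ _ t => graph t

end Term

/-- The clique-width of a graph: the least `k` such that some `k`-expression evaluates, after the
labels are discarded, to a graph isomorphic to it. -/
noncomputable def cliqueWidth {V : Type} (G : SimpleGraph V) : ℕ :=
  sInf {k | ∃ t : Term k, Nonempty (G ≃g t.graph)}

open Classical in
/-- The code of a graph with vertex set `Fin n`: the rows of its adjacency matrix, each of them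
followed by the separator `none`. -/
noncomputable def encode {n : ℕ} (G : SimpleGraph (Fin n)) : List (Option Bool) :=
  (List.finRange n).flatMap fun i =>
    ((List.finRange n).map fun j => some (decide (G.Adj i j))) ++ [none]

/-- The decision problem `CW c`, for a fixed `c` which is not part of the input: the codes of the
graphs (with at least one vertex) of clique-width at most `c`. -/
def CW (c : ℕ) : Set (List (Option Bool)) :=
  {w | ∃ (n : ℕ) (G : SimpleGraph (Fin n)), 0 < n ∧ w = encode G ∧ cliqueWidth G ≤ c}

/-- A language `L` over the alphabet `Γ` is in NP: there are a polynomial `p` and a verifier `V`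
which is computable in polynomial time (by the machines `FinTM2` of Mathlib), such that
`x ∈ L` exactly when some witness `w`, a bit string of length at most `p (length of x)`, is
accepted. The pair `(x, w)` is given to the verifier as the string `x` followed by the string
`w`, over the alphabet `Γ ⊕ Bool`. -/
def InNP {Γ : Type} (L : Set (List Γ)) : Prop :=
  ∃ (p : Polynomial ℕ) (V : List Γ × List Bool → Bool),
    Nonempty (TM2ComputableInPolyTime
      (fun z : List Γ × List Bool => z.1.map Sum.inl ++ z.2.map (Sum.inr : Bool → Γ ⊕ Bool))
      (fun b : Bool => [b]) V) ∧
    ∀ x, x ∈ L ↔ ∃ w : List Bool, w.length ≤ p.eval x.length ∧ V (x, w) = true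

/-- A language is NP-hard (with respect to polynomial-time many-one reductions): for each language
in NP over a finite alphabet there is a many-one reduction computable in polynomial time by the
machines `FinTM2` of Mathlib. -/
def NPHard {Γ : Type} (L : Set (List Γ)) : Prop :=
  ∀ (Γ' : Type) [Fintype Γ'] (L' : Set (List Γ')), InNP L' →
    ∃ f : List Γ' → List Γ,
      Nonempty (TM2ComputableInPolyTime (id : List Γ' → List Γ') (id : List Γ → List Γ) f) ∧
      ∀ x, x ∈ L' ↔ f x ∈ L

end Pool.Agent.H.MP_701cec_lc
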