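import Pool.Agent.H.MP_701cec_lc.Defs

/-!
The code of a graph determines the graph.
-/

namespace Pool.Agent.H.MP_701cec_lc

/-- the entries of the matrix, as a function of two numbers -/
def enc_tb {n : ℕ} (T : Fin n → Fin n → Bool) (i j : ℕ) : Bool :=
  if h : i < n ∧ j < n then T ⟨i, h.1⟩ ⟨j, h.2⟩ else false

theorem enc_tb_eq {n : ℕ} (T : Fin n → Fin n → Bool) (i j : Fin n) :
    enc_tb T i.val j.val = T i j := by
  unfold enc_tb
  rw [dif_pos ⟨i.isLt, j.isLt⟩]

/-- the first `r` rows -/
def enc_rows (r n : ℕ) (w : ℕ → ℕ → Bool) : List (Option Bool) :=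
  (List.range r).flatMap fun i => ((List.range n).map fun j => some (w i j)) ++ [none]

open Classical in
theorem enc_encode_eq {n : ℕ} (G : SimpleGraph (Fin n)) :
    encode G = enc_rows n n (enc_tb fun i j => decide (G.Adj i j)) := by
  unfold encode enc_rows
  rw [← List.map_coe_finRange_eq_range, List.flatMap_map]
  congr 1
  funext i
  congr 1
  rw [List.map_map]
  congr 1
  funext j
  rw [Function.comp, enc_tb_eq]

theorem enc_rows_succ (r n : ℕ) (w : ℕ → ℕ → Bool) :
    enc_rows (r + 1) n w =
      enc_rows r n w ++ (((List.range n).map fun j => some (w r j)) ++ [none]) := by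
  unfold enc_rows
  rw [List.range_succ, List.flatMap_append]
  simp

theorem enc_rows_length (r n : ℕ) (w : ℕ → ℕ → Bool) :
    (enc_rows r n w).length = r * (n + 1) := by
  induction r with
  | zero => simp [enc_rows]
  | succ r ih =>
    rw [enc_rows_succ, List.length_append, ih]
    simp
    ring

theorem enc_rows_get (r n : ℕ) (w : ℕ → ℕ → Bool) {i j : ℕ} (hi : i < r) (hj : j < n) :
    (enc_rows r n w)[i * (n + 1) + j]? = some (some (w i j)) := by
  induction r with
  | zero => omega
  | succ r ih =>
    rw [enc_rows_succ]
    by_cases h : i < r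
    · have h1 : i * (n + 1) + j < r * (n + 1) := by
        calc i * (n + 1) + j < i * (n + 1) + (n + 1) := by omega
          _ = (i + 1) * (n + 1) := by ring
          _ ≤ r * (n + 1) := Nat.mul_le_mul_right _ h
      rw [List.getElem?_append_left (by rw [enc_rows_length]; exact h1)]
      exact ih h
    · have h2 : i = r := by omega
      subst h2
      rw [List.getElem?_append_right (by rw [enc_rows_length]; omega), enc_rows_length,
        Nat.add_sub_cancel_left, List.getElem?_append_left (by simpa using hj)]
      simp [hj]

theorem enc_rows_count (r n : ℕ) (w : ℕ → ℕ → Bool) : (enc_rows r n w).count none = r := by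
  induction r with
  | zero => simp [enc_rows]
  | succ r ih =>
    rw [enc_rows_succ, List.count_append, List.count_append, ih]
    have : ((List.range n).map fun j => some (w r j)).count (none : Option Bool) = 0 := by
      rw [List.count_eq_zero]
      simp
    rw [this]
    simp

/-- The code determines the number of vertices and the graph. -/
theorem encode_inj {n n' : ℕ} {G : SimpleGraph (Fin n)} {G' : SimpleGraph (Fin n')}
    (h : encode G = encode G') : ∃ e : n = n', e ▸ G = G' := by
  classical
  have h1 : n = n' := by
    rw [← enc_rows_count n n (enc_tb fun i j => decide (G.Adj i j)), ← enc_encode_eq, h,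
      enc_encode_eq, enc_rows_count]
  subst h1
  refine ⟨rfl, ?_⟩
  ext i j
  rw [enc_encode_eq, enc_encode_eq] at h
  have h2 := enc_rows_get n n (enc_tb fun i j => decide (G.Adj i j)) i.isLt j.isLt
  rw [h, enc_rows_get n n _ i.isLt j.isLt, enc_tb_eq, enc_tb_eq] at h2
  have h3 : decide (G'.Adj i j) = decide (G.Adj i j) := by simpa using h2
  simpa using h3.symm

theorem encode_mem {n : ℕ} (hn : 0 < n) (G : SimpleGraph (Fin n)) (c : ℕ) :
    encode G ∈ CW c ↔ cliqueWidth G ≤ c := by
  constructor
  · rintro ⟨n', G', -, h, h'⟩
    obtain ⟨rfl, rfl⟩ := encode_inj h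
    exact h'
  · intro h
    exact ⟨n, G, hn, rfl, h⟩

end Pool.Agent.H.MP_701cec_lc
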