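import Pool.Agent.H.MP_701cec_lc.Dec

/-!
The graph of the reduction. Only definitions.
-/

namespace Pool.Agent.H.MP_701cec_lc

/-- The parameters of the construction (all of them depend only on the fixed number `c`). -/
structure Par where
  /-- number of rows `X_j`, `Y_j` -/
  M : ℕ
  /-- number of kinds -/
  p : ℕ
  /-- number of threads -/
  g : ℕ
  /-- defect -/
  δ : ℕ
  /-- number of bits -/
  ml : ℕ
  hM : 4 * p + 2 * (9 + ml + 3 * g) + 4 * δ + 8 ≤ 2 * M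
  hp : 3 * (9 + ml + 3 * g) + 2 * δ < p
  hg : 9 + ml + 2 * δ < g
  hob : 7 * (δ + 1) ≤ 3 * g
  hδ : 2 * M + 3 * p + (9 + ml + 3 * g) < 2 ^ (δ + 1)
  hml : 2 * (2 * M + 3 * p + (9 + ml + 3 * g) + 1) ≤ 2 ^ ml

namespace Par
variable (P : Par)

/-- the number of labels besides `X_j`, `Y_j` and three labels for each kind -/
def κ : ℕ := 9 + P.ml + 3 * P.g

/-- the number of labels -/
def c : ℕ := 2 * P.M + 3 * P.p + P.κ

/-- bound for the number of pre-attached W-columns -/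
def r1 : ℕ := 6 * P.c * (P.c + 1) + 4 * P.c

end Par

/-- The classes of vertices: the rows `X_j`, the rows `Y_j` and the kinds `K_i`. -/
inductive Cls (P : Par) : Type
  | X (j : Fin P.M)
  | Y (j : Fin P.M)
  | K (i : Fin P.p)
  deriving DecidableEq, Fintype

/-- The observers. -/
inductive Obs : Type
  | S0
  | Mu
  | Th (b : Fin 5)
  deriving DecidableEq, Fintype

/-- Names of the vertices of the initial set `L0`: column `0` and the observers. -/
inductive L0 (P : Par) : Type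
  | X (j : Fin P.M)
  | Y (j : Fin P.M)
  | R0 (i : Fin P.p)
  | R1 (i : Fin P.p)
  | A (i : Fin P.p)
  | Ob (o : Obs) (q : Fin (P.δ + 1))
  deriving DecidableEq, Fintype

/-- The static part of a vertex; a vertex is a pair `(k, s)` with `k : Kd P` and `s : ℕ`. -/
inductive Kd (P : Par) : Type
  | X (j : Fin P.M) (w : Bool)
  | Y (j : Fin P.M) (w : Bool)
  | R0 (i : Fin P.p)
  | R1 (i : Fin P.p)
  | A (i : Fin P.p)
  | H (b : Fin (3 * P.g))
  | C (e : Bool) (i : Fin P.p)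
  | F (e : Bool) (b : Fin P.g)
  | S
  | Ob (o : Obs) (q : Fin (P.δ + 1))
  | La (k : Fin P.ml) (s : Finset (L0 P))
  | Om (e : Bool) (s : Finset (Cls P))
  deriving DecidableEq, Fintype

/-- vertices -/
abbrev Vx (P : Par) : Type := Kd P × ℕ

/-- An instance: `n` ticks with letters `ul t` (a number `≥ 5` means no letter), boundaries `bd t`,
`W` W-columns with letters `wl ω`, which are divided into jobs `jb ω`. -/
structure Inst where
  n : ℕ
  W : ℕ
  ul : ℕ → ℕ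
  wl : ℕ → ℕ
  bd : ℕ → Prop
  jb : ℕ → ℕ

section
variable {P : Par}

theorem Par.p_le_M (P : Par) : P.p ≤ P.M := by have := P.hM; omega
theorem Par.g_le_M (P : Par) : 3 * P.g ≤ P.M := by have := P.hM; omega

/-- the class of a vertex -/
def cls : Kd P → Option (Cls P)
  | .X j _ => some (.X j)
  | .Y j _ => some (.Y j)
  | .R0 i => some (.K i)
  | .R1 i => some (.K i)
  | .A i => some (.K i)
  | .H b => some (.X ⟨b.val, lt_of_lt_of_le b.isLt P.g_le_M⟩)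
  | .C _ i => some (.K i)
  | _ => none

/-- `some false` for the vertices in U-columns, `some true` for the vertices in W-columns -/
def side : Kd P → Option Bool
  | .X _ w => some w
  | .Y _ w => some w
  | .R0 _ => some false
  | .R1 _ => some false
  | .A _ => some false
  | .H _ => some false
  | .C _ _ => some true
  | .F _ _ => some true
  | _ => none

/-- thread vertices -/
def isF : Kd P → Bool
  | .F _ _ => true
  | _ => false

/-- the vertices `A` -/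
def isA : Kd P → Bool
  | .A _ => true
  | _ => false

/-- the vertices which exist -/
def valid (I : Inst) (v : Vx P) : Prop :=
  match v.1 with
  | .X _ false => v.2 ≤ I.n
  | .X _ true => v.2 < I.W
  | .Y _ false => v.2 ≤ I.n
  | .Y _ true => v.2 < I.W
  | .R0 _ => v.2 ≤ I.n
  | .R1 _ => v.2 ≤ I.n
  | .A _ => v.2 ≤ I.n
  | .H _ => 1 ≤ v.2 ∧ v.2 ≤ I.n ∧ I.bd v.2
  | .C _ _ => v.2 < I.W
  | .F _ _ => v.2 < I.W
  | .S => 1 ≤ v.2 ∧ v.2 ≤ I.n
  | .Ob _ _ => v.2 = 0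
  | .La _ _ => v.2 = 0
  | .Om _ _ => v.2 = 0

/-- the vertex with a name in `L0` -/
def l0 : L0 P → Vx P
  | .X j => (.X j false, 0)
  | .Y j => (.Y j false, 0)
  | .R0 i => (.R0 i, 0)
  | .R1 i => (.R1 i, 0)
  | .A i => (.A i, 0)
  | .Ob o q => (.Ob o q, 0)

/-- the kind `i` has the same number as the row `Y_i` -/
def kY (i : Fin P.p) : Fin P.M := ⟨i.val, lt_of_lt_of_le i.isLt P.p_le_M⟩

/-- the directed rules -/
def rule (I : Inst) (u v : Vx P) : Prop :=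
  -- rows
  (∃ j, cls u.1 = some (.X j) ∧ cls v.1 = some (.Y j)) ∨
  (∃ i, cls u.1 = some (.K i) ∧ cls v.1 = some (.Y (kY i))) ∨
  -- columns
  (side u.1 ≠ none ∧ side u.1 = side v.1 ∧ u.2 = v.2 ∧ ¬ (isF u.1 = true ∧ isF v.1 = true)) ∨
  -- threads
  (∃ b, u.1 = .F true b ∧ v.1 = .F false b ∧ v.2 = u.2 + 1 ∧ I.jb v.2 = I.jb u.2) ∨
  -- ticks
  (u.1 = .S ∧ ((∃ i, v.1 = .R0 i ∧ v.2 ≤ u.2) ∨ (∃ i, v.1 = .R1 i ∧ v.2 ≠ u.2) ∨
    (∃ i, v.1 = .A i ∧ v.2 + 1 ≠ u.2) ∨ (∃ e i, v.1 = .C e i))) ∨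
  -- observers
  ((∃ q, u.1 = .Ob .S0 q) ∧ ((∃ i, v.1 = .R1 i) ∨ (∃ i, v.1 = .A i) ∨ (∃ e i, v.1 = .C e i))) ∨
  ((∃ q, u.1 = .Ob .Mu q) ∧ ((∃ i, v.1 = .A i) ∨ (∃ b, v.1 = .H b))) ∨
  (∃ b q, u.1 = .Ob (.Th b) q ∧ ((∃ i, v.1 = .A i ∧ I.ul (v.2 + 1) = b.val) ∨
    (∃ e i, v.1 = .C e i ∧ I.wl v.2 = b.val))) ∨
  (∃ k s, u.1 = .La k s ∧ ((∃ x ∈ s, l0 x = v) ∨ (∃ i, v.1 = .A i ∧ 1 ≤ v.2) ∨
    (∃ e i, v.1 = .C e i ∧ Nat.testBit (2 * (v.2 % (P.c + 1)) + e.toNat) k.val = true))) ∨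
  (∃ e s, u.1 = .Om e s ∧ (∃ a ∈ s, cls v.1 = some a) ∧
    ¬ (e = true ∧ isA v.1 = true ∧ v.2 = I.n))

/-- the graph -/
def GG (P : Par) (I : Inst) : SimpleGraph (Vx P) where
  Adj u v := u ≠ v ∧ valid I u ∧ valid I v ∧ (rule I u v ∨ rule I v u)
  symm := ⟨fun u v ⟨h1, h2, h3, h4⟩ => ⟨h1.symm, h3, h2, h4.symm⟩⟩
  loopless := ⟨fun u h => h.1 rfl⟩

/-- the finite set of all pairs which are used -/
def UU (P : Par) (I : Inst) : Finset (Vx P) := Finset.univ ×ˢ Finset.range (I.n + 1 + I.W)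

/-- good sets contain all but at most `δ` vertices of `L0` -/
def good (P : Par) (S : Finset (Vx P)) : Prop :=
  (Finset.univ.filter fun x : L0 P => l0 x ∉ S).card ≤ P.δ

/-- columns: `(false, t)` with `1 ≤ t ≤ n` and `(true, ω)` with `ω < W` -/
def isCol (I : Inst) (τ : Bool × ℕ) : Prop :=
  (τ.1 = false ∧ 1 ≤ τ.2 ∧ τ.2 ≤ I.n) ∨ (τ.1 = true ∧ τ.2 < I.W)

/-- the vertex `v` belongs to the column `τ` -/
def inCol (I : Inst) (τ : Bool × ℕ) (v : Vx P) : Prop :=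
  side v.1 = some τ.1 ∧ v.2 = τ.2 ∧ valid I v

/-- The conditions on an instance which are used for the lower bound. -/
structure Inst.Ok (I : Inst) (P : Par) : Prop where
  hn : 1 ≤ I.n
  hu1 : 5 ≤ I.ul 1
  hwl : ∀ ω < I.W, I.wl ω < 5
  hW : P.r1 < I.W
  hW0 : I.W % (P.c + 1) = 0
  hjb : ∀ ω < I.W, I.jb ω = I.jb ((P.c + 1) * (ω / (P.c + 1)))
  hmono : ∀ ω ω', ω ≤ ω' → ω' < I.W → I.jb ω ≤ I.jb ω'

end

end Pool.Agent.H.MP_701cec_lc
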