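import Pool.Agent.H.MP_701cec_lc.Graph
import Pool.Agent.H.MP_701cec_lc.Blk
import Pool.Agent.H.MP_84f0af_lc.CnfSat

/-!
Polynomial-time computability of the adjacency relation of the graph of the reduction.
-/

namespace Pool.Agent.H.MP_701cec_lc

open Pool.Agent.H.MP_84f0af_lc

/-- the number of static parts -/
noncomputable def nK (P : Par) : ℕ := Fintype.card (Kd P)

theorem nK_pos (P : Par) : 0 < nK P := Fintype.card_pos_iff.2 ⟨.S⟩

/-- the vertex with the number `u` -/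
noncomputable def vxOf (P : Par) (u : ℕ) : Vx P :=
  ((Fintype.equivFin (Kd P)).symm ⟨u % nK P, Nat.mod_lt _ (nK_pos P)⟩, u / nK P)

/-- families of instances whose data are computable in polynomial time -/
structure UI (Γ₀ Γ₁ : Type) where
  I : List Γ₀ → Inst
  hn : UF Γ₁ (fun x => (I x).n)
  hW : UF Γ₁ (fun x => (I x).W)
  hul : UF Γ₁ (fun p : ℕ × List Γ₀ => (I p.2).ul p.1)
  hwl : UF Γ₁ (fun p : ℕ × List Γ₀ => (I p.2).wl p.1)
  hjb : UF Γ₁ (fun p : ℕ × List Γ₀ => (I p.2).jb p.1)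
  hbd : UP Γ₁ (fun p : ℕ × List Γ₀ => (I p.2).bd p.1)

namespace H1aux

section
variable {Γ₀ Γ₁ τ : Type} [Env τ Γ₀]

/-- substitution of a number in a function of a number and the input -/
theorem uat {a : ℕ × List Γ₀ → ℕ} (ha : UF Γ₁ a) {g : τ → ℕ} (hg : UF Γ₁ g) :
    UF Γ₁ (fun t => a (g t, Env.inp t)) :=
  UF.comp (F := fun p : ℕ × τ => a (p.1, Env.inp p.2)) (ha.rename (Ren.cons IsVar.fst Ren.inp)) hg

/-- substitution of a number in a predicate of a number and the input -/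
theorem upat {a : ℕ × List Γ₀ → Prop} (ha : UP Γ₁ a) {g : τ → ℕ} (hg : UF Γ₁ g) :
    UP Γ₁ (fun t => a (g t, Env.inp t)) := by
  have h := uat (Γ₁ := Γ₁) ha hg
  exact h

/-- a function of the input -/
theorem uinp {a : List Γ₀ → ℕ} (ha : UF Γ₁ a) : UF Γ₁ (fun t : τ => a (Env.inp t)) :=
  ha.rename Ren.inp

theorem exS {ι : Type} (s : Finset ι) {Q : ι → τ → Prop} (h : ∀ i, UP Γ₁ (Q i)) :
    UP Γ₁ (fun t => ∃ i ∈ s, Q i t) := by
  classical
  induction s using Finset.induction_on with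
  | empty => exact (UP.const False).congr fun t => by simp
  | insert a s _ ih =>
    refine ((h a).or ih).congr fun t => ?_
    simp

theorem exF {ι : Type} [Fintype ι] {Q : ι → τ → Prop} (h : ∀ i, UP Γ₁ (Q i)) :
    UP Γ₁ (fun t => ∃ i, Q i t) :=
  (exS Finset.univ h).congr fun t => by simp

theorem tb {k : ℕ} {f : τ → ℕ} (hf : UF Γ₁ f) : UP Γ₁ (fun t => Nat.testBit (f t) k = true) := by
  refine (UP.eq ((hf.div (UF.const (2 ^ k))).mod (UF.const 2)) (UF.const 1)).congr fun t => ?_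
  rw [Nat.testBit_eq_decide_div_mod_eq]
  simp

variable (X : UI Γ₀ Γ₁) (P : Par)

theorem valid (k : Kd P) {s : τ → ℕ} (hs : UF Γ₁ s) :
    UP Γ₁ (fun t => MP_701cec_lc.valid (X.I (Env.inp t)) (k, s t)) := by
  have hn : UF Γ₁ (fun t : τ => (X.I (Env.inp t)).n) := uinp X.hn
  have hW : UF Γ₁ (fun t : τ => (X.I (Env.inp t)).W) := uinp X.hW
  have hbd : UP Γ₁ (fun t : τ => (X.I (Env.inp t)).bd (s t)) := upat X.hbd hs
  rcases k with ⟨j', _ | _⟩ | ⟨j', _ | _⟩ | i | i | i | b' | ⟨e, i⟩ | ⟨e, b'⟩ | _ | ⟨o, q⟩ |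
    ⟨k, s'⟩ | ⟨e, s'⟩
  · exact UP.le hs hn
  · exact UP.lt hs hW
  · exact UP.le hs hn
  · exact UP.lt hs hW
  · exact UP.le hs hn
  · exact UP.le hs hn
  · exact UP.le hs hn
  · exact (UP.le (UF.const 1) hs).and ((UP.le hs hn).and hbd)
  · exact UP.lt hs hW
  · exact UP.lt hs hW
  · exact (UP.le (UF.const 1) hs).and (UP.le hs hn)
  · exact UP.eq hs (UF.const 0)
  · exact UP.eq hs (UF.const 0)
  · exact UP.eq hs (UF.const 0)

theorem rule (k k' : Kd P) {s s' : τ → ℕ} (hs : UF Γ₁ s) (hs' : UF Γ₁ s') :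
    UP Γ₁ (fun t => MP_701cec_lc.rule (X.I (Env.inp t)) (k, s t) (k', s' t)) := by
  have hn : UF Γ₁ (fun t : τ => (X.I (Env.inp t)).n) := uinp X.hn
  have c : ∀ Q : Prop, UP Γ₁ (fun _ : τ => Q) := UP.const
  have one : UF Γ₁ (fun _ : τ => 1) := UF.const 1
  unfold MP_701cec_lc.rule
  dsimp only
  refine (c _).or ((c _).or ?_)
  refine ((c _).and ((c _).and ((UP.eq hs hs').and (c _)))).or ?_
  refine (exF fun b => (c _).and ((c _).and ((UP.eq hs' (hs.add one)).and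
    (UP.eq (uat X.hjb hs') (uat X.hjb hs))))).or ?_
  refine ((c _).and ((exF fun i => (c _).and (UP.le hs' hs)).or
    ((exF fun i => (c _).and (UP.eq hs' hs).not).or
    ((exF fun i => (c _).and (UP.eq (hs'.add one) hs).not).or (c _))))).or ?_
  refine (c _).or ((c _).or ?_)
  refine (exF fun b => exF fun q => (c _).and ((exF fun i => (c _).and
    (UP.eq (uat X.hul (hs'.add one)) (UF.const _))).or (exF fun e => exF fun i => (c _).and
    (UP.eq (uat X.hwl hs') (UF.const _))))).or ?_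
  refine (exF fun a => exF fun x => (c _).and ((exF fun y => (c _).and ?_).or
    ((exF fun i => (c _).and (UP.le one hs')).or
    (exF fun e => exF fun i => (c _).and (tb (((UF.const 2).mul (hs'.mod (UF.const _))).add
      (UF.const _))))))).or ?_
  · refine ((c ((l0 y).1 = k')).and (UP.eq (UF.const (l0 y).2) hs')).congr fun t => ?_
    rw [Prod.ext_iff]
  · exact exF fun e => exF fun x => (c _).and ((c _).and ((c _).and ((c _).and
      (UP.eq hs' hn))).not)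

end

end H1aux

/-- the adjacency relation on numbers is computable in polynomial time -/
theorem UI.adj {Γ₀ Γ₁ : Type} (X : UI Γ₀ Γ₁) (P : Par) :
    UP Γ₁ (fun p : ℕ × ℕ × List Γ₀ => (GG P (X.I p.2.2)).Adj (vxOf P p.2.1) (vxOf P p.1)) := by
  have hu : UF Γ₁ (fun p : ℕ × ℕ × List Γ₀ => p.2.1) := UF.snd
  have hv : UF Γ₁ (fun p : ℕ × ℕ × List Γ₀ => p.1) := UF.fst
  have hK : UF Γ₁ (fun _ : ℕ × ℕ × List Γ₀ => nK P) := UF.const _
  have key : ∀ k k' : Kd P, UP Γ₁ (fun p : ℕ × ℕ × List Γ₀ =>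
      (p.2.1 % nK P = (Fintype.equivFin (Kd P) k).val ∧
        p.1 % nK P = (Fintype.equivFin (Kd P) k').val) ∧
      (¬ (k = k' ∧ p.2.1 / nK P = p.1 / nK P)) ∧
      MP_701cec_lc.valid (X.I (Env.inp p)) (k, p.2.1 / nK P) ∧
      MP_701cec_lc.valid (X.I (Env.inp p)) (k', p.1 / nK P) ∧
      (MP_701cec_lc.rule (X.I (Env.inp p)) (k, p.2.1 / nK P) (k', p.1 / nK P) ∨
        MP_701cec_lc.rule (X.I (Env.inp p)) (k', p.1 / nK P) (k, p.2.1 / nK P))) := fun k k' =>
    ((UP.eq (hu.mod hK) (UF.const _)).and (UP.eq (hv.mod hK) (UF.const _))).and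
      ((((UP.const (k = k')).and (UP.eq (hu.div hK) (hv.div hK))).not).and
      ((H1aux.valid X P k (hu.div hK)).and ((H1aux.valid X P k' (hv.div hK)).and
      ((H1aux.rule X P k k' (hu.div hK) (hv.div hK)).or
        (H1aux.rule X P k' k (hv.div hK) (hu.div hK))))))
  refine (H1aux.exF fun k => H1aux.exF fun k' => key k k').congr ?_
  rintro ⟨v, u, x⟩
  have e : ∀ (w : ℕ) (k : Kd P), w % nK P = (Fintype.equivFin (Kd P) k).val →
      vxOf P w = (k, w / nK P) := by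
    intro w k h
    unfold vxOf
    rw [Prod.mk.injEq]
    refine ⟨?_, rfl⟩
    rw [Equiv.symm_apply_eq]
    exact Fin.ext h
  have e' : ∀ w : ℕ, ∃ k : Kd P, w % nK P = (Fintype.equivFin (Kd P) k).val := by
    intro w
    refine ⟨(Fintype.equivFin (Kd P)).symm ⟨w % nK P, Nat.mod_lt _ (nK_pos P)⟩, ?_⟩
    rw [Equiv.apply_symm_apply]
  constructor
  · rintro ⟨k, k', ⟨h1, h2⟩, h3, h4, h5, h6⟩
    show (GG P (X.I x)).Adj (vxOf P u) (vxOf P v)
    rw [e u k h1, e v k' h2]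
    refine ⟨?_, h4, h5, h6⟩
    intro h
    rw [Prod.mk.injEq] at h
    exact h3 h
  · intro h
    obtain ⟨k, hk⟩ := e' u
    obtain ⟨k', hk'⟩ := e' v
    have h0 : (GG P (X.I x)).Adj (vxOf P u) (vxOf P v) := h
    rw [e u k hk, e v k' hk'] at h0
    obtain ⟨h1, h2, h3, h4⟩ := h0
    refine ⟨k, k', ⟨hk, hk'⟩, ?_, h2, h3, h4⟩
    rintro ⟨rfl, h5⟩
    apply h1
    rw [Prod.mk.injEq]
    exact ⟨rfl, h5⟩

end Pool.Agent.H.MP_701cec_lc
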