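import Pool.Agent.H.MP_701cec_lc.H1

/-!
Polynomial-time computability of the instances.
-/

namespace Pool.Agent.H.MP_701cec_lc

open Pool.Agent.H.MP_84f0af_lc

/-- families of formulas whose data are computable in polynomial time -/
structure UC (Γ₀ Γ₁ : Type) where
  F : List Γ₀ → CF
  hN : UF Γ₁ (fun x => (F x).N)
  hm : UF Γ₁ (fun x => (F x).m)
  hocc : ∀ s, UP Γ₁ (fun p : ℕ × ℕ × List Γ₀ => (F p.2.2).occ p.1 s p.2.1)

section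
variable {Γ₀ Γ₁ τ : Type} [Env τ Γ₀] (Y : UC Γ₀ Γ₁)

namespace UC

theorem uN : UF Γ₁ (fun t : τ => (Y.F (Env.inp t)).N) := Y.hN.rename Ren.inp

theorem um : UF Γ₁ (fun t : τ => (Y.F (Env.inp t)).m) := Y.hm.rename Ren.inp

theorem uN' : UF Γ₁ (fun t : τ => (Y.F (Env.inp t)).N') := Y.uN.mul Y.um

theorem uB : UF Γ₁ (fun t : τ => (Y.F (Env.inp t)).B) :=
  ((UF.const 3).add ((UF.const 2).mul Y.uN')).add ((UF.const 2).mul Y.um)

theorem uocc (s : Bool) {f g : τ → ℕ} (hf : UF Γ₁ f) (hg : UF Γ₁ g) :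
    UP Γ₁ (fun t : τ => (Y.F (Env.inp t)).occ (f t) s (g t)) := by
  have h1 : UP Γ₁ (fun q : ℕ × ℕ × τ => (Y.F (Env.inp q.2.2)).occ q.1 s q.2.1) :=
    (Y.hocc s).rename (ρ := fun q : ℕ × ℕ × τ => ((q.1, q.2.1, Env.inp q.2.2) : ℕ × ℕ × List Γ₀))
      (Ren.cons IsVar.fst (Ren.cons IsVar.fst.weak Ren.inp.weak.weak))
  have h2 : UP Γ₁ (fun q : ℕ × τ => (Y.F (Env.inp q.2)).occ (f q.2) s q.1) :=
    UF.comp h1 (g := fun q : ℕ × τ => f q.2) hf.weak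
  exact UF.comp h2 hg

theorem uprev {f : τ → ℕ} (hf : UF Γ₁ f) : UF Γ₁ (fun t : τ => (Y.F (Env.inp t)).prev (f t)) :=
  (Y.um.mul (hf.div Y.um)).add ((((hf.mod Y.um).add Y.um).sub (UF.const 1)).mod Y.um)

theorem udd (s : Bool) {f : τ → ℕ} (hf : UF Γ₁ f) :
    UF Γ₁ (fun t : τ => (Y.F (Env.inp t)).dd (f t) s) := by
  classical
  refine (UF.ite (Y.uocc s (hf.div Y.um) (hf.mod Y.um)) (hf.mod Y.um) Y.um).congr fun t => ?_
  unfold CF.dd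
  congr

theorem ulet {f b : τ → ℕ} (hf : UF Γ₁ f) (hb : UF Γ₁ b) :
    UF Γ₁ (fun t : τ => (Y.F (Env.inp t)).let' (f t) (b t)) := by
  have k (n : ℕ) : UF Γ₁ (fun _ : τ => n) := UF.const n
  have hN : UF Γ₁ (fun t : τ => (Y.F (Env.inp t)).N') := Y.uN'
  have hm : UF Γ₁ (fun t : τ => (Y.F (Env.inp t)).m) := Y.um
  exact UF.ite (UP.eq hb (k 0)) (k 4)
    (UF.ite (UP.lt hb ((k 1).add hN))
      (UF.ite (UP.lt (hb.sub (k 1)) (Y.uprev hf)) (k 0) (k 1))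
    (UF.ite (UP.lt hb (((k 1).add hN).add hm))
      (UF.ite (UP.lt ((hb.sub (k 1)).sub hN) (Y.udd true hf)) (k 2) (k 3))
    (UF.ite (UP.eq hb (((k 1).add hN).add hm)) (k 4)
    (UF.ite (UP.lt hb (((k 2).add ((k 2).mul hN)).add hm))
      (UF.ite (UP.lt (((hb.sub (k 2)).sub hN).sub hm) hf) (k 0) (k 1))
    (UF.ite (UP.lt hb (((k 2).add ((k 2).mul hN)).add ((k 2).mul hm)))
      (UF.ite (UP.lt (((hb.sub (k 2)).sub ((k 2).mul hN)).sub hm) (Y.udd false hf)) (k 2) (k 3))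
      (k 4))))))

theorem unb : UF Γ₁ (fun t : τ => (Y.F (Env.inp t)).bi.nb) := Y.uB.mul Y.uN'

theorem uwb : UF Γ₁ (fun t : τ => (Y.F (Env.inp t)).bi.wb) :=
  (((UF.const 2).mul Y.uN').add (Y.uN'.mul Y.uN')).add (Y.um.mul Y.um)

theorem uub {f : τ → ℕ} (hf : UF Γ₁ f) : UF Γ₁ (fun t : τ => (Y.F (Env.inp t)).bi.ub (f t)) :=
  Y.ulet (hf.div Y.uB) (hf.mod Y.uB)

theorem uwlb {f : τ → ℕ} (hf : UF Γ₁ f) : UF Γ₁ (fun t : τ => (Y.F (Env.inp t)).bi.wlb (f t)) := by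
  have k (n : ℕ) : UF Γ₁ (fun _ : τ => n) := UF.const n
  have hN : UF Γ₁ (fun t : τ => (Y.F (Env.inp t)).N') := Y.uN'
  have hm : UF Γ₁ (fun t : τ => (Y.F (Env.inp t)).m) := Y.um
  exact UF.ite (UP.lt hf ((k 2).mul hN)) (k 4)
    (UF.ite (UP.lt hf (((k 2).mul hN).add (hN.mul hN)))
      (UF.ite (UP.lt ((hf.sub ((k 2).mul hN)).mod hN) ((hf.sub ((k 2).mul hN)).div hN)) (k 0) (k 1))
      (UF.ite (UP.lt (((hf.sub ((k 2).mul hN)).sub (hN.mul hN)).mod hm)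
        (((hf.sub ((k 2).mul hN)).sub (hN.mul hN)).div hm)) (k 2) (k 3)))

theorem ujbb {f : τ → ℕ} (hf : UF Γ₁ f) : UF Γ₁ (fun t : τ => (Y.F (Env.inp t)).bi.jbb (f t)) := by
  have k (n : ℕ) : UF Γ₁ (fun _ : τ => n) := UF.const n
  have hN : UF Γ₁ (fun t : τ => (Y.F (Env.inp t)).N') := Y.uN'
  have hm : UF Γ₁ (fun t : τ => (Y.F (Env.inp t)).m) := Y.um
  exact UF.ite (UP.lt hf ((k 2).mul hN)) (hf.div (k 2))
    (UF.ite (UP.lt hf (((k 2).mul hN).add (hN.mul hN)))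
      (hN.add ((hf.sub ((k 2).mul hN)).div hN))
      (((k 2).mul hN).add (((hf.sub ((k 2).mul hN)).sub (hN.mul hN)).div hm)))

theorem ubdb {f : τ → ℕ} (hf : UF Γ₁ f) : UP Γ₁ (fun t : τ => (Y.F (Env.inp t)).bi.bdb (f t)) :=
  UP.eq ((hf.add (UF.const 1)).mod Y.uB) (UF.const 0)

end UC

end

theorem UC.ui {Γ₀ Γ₁ : Type} (Y : UC Γ₀ Γ₁) (K : ℕ) (hK : 0 < K) :
    ∃ X : UI Γ₀ Γ₁, ∀ x, X.I x = (Y.F x).bi.blow K := by
  have hp : UF Γ₁ (fun p : ℕ × List Γ₀ => p.1) := UF.fst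
  refine ⟨{
    I := fun x => (Y.F x).bi.blow K
    hn := (UF.const 1).add ((UF.const K).mul (Y.unb (τ := List Γ₀)))
    hW := (UF.const K).mul (Y.uwb (τ := List Γ₀))
    hul := UF.ite (UP.lt hp (UF.const 2)) (UF.const 5)
      (Y.uub (τ := ℕ × List Γ₀) ((hp.sub (UF.const 2)).div (UF.const K)))
    hwl := Y.uwlb (τ := ℕ × List Γ₀) (hp.div (UF.const K))
    hjb := Y.ujbb (τ := ℕ × List Γ₀) (hp.div (UF.const K))
    hbd := (UP.le (UF.const 2) hp).and ((UP.eq ((hp.sub (UF.const 1)).mod (UF.const K))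
      (UF.const 0)).and (Y.ubdb (τ := ℕ × List Γ₀) ((hp.sub (UF.const 2)).div (UF.const K)))) },
    fun x => rfl⟩

end Pool.Agent.H.MP_701cec_lc
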