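import Pool.Agent.H.MP_701cec_lc.H2

/-!
Each language in NP is given by a family of formulas; and the code of the graph can be written in
polynomial time.
-/

namespace Pool.Agent.H.MP_701cec_lc

open Pool.Agent.H.MP_84f0af_lc Turing

theorem h3_np {Γ : Type} [Fintype Γ] (L : Set (List Γ)) (hL : MP_701cec_lc.InNP L) (Γ₁ : Type) :
    ∃ (m : List Γ → ℕ) (a b c : ℕ × List Γ → ℕ), UF Γ₁ m ∧ UF Γ₁ a ∧ UF Γ₁ b ∧ UF Γ₁ c ∧
      ∀ x, x ∈ L ↔ ∃ τ : ℕ → Bool, ∀ j < m x, LitTrue τ (a (j, x)) ∨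
        LitTrue τ (b (j, x)) ∨ LitTrue τ (c (j, x)) := by
  classical
  have hL' : Pool.Agent.H.MP_84f0af_lc.InNP L := hL
  obtain ⟨n, m, ks, hn, hm, hn1, hsat⟩ := np_families hL' Γ₁
  let a : ℕ × List Γ → ℕ := fun p => pick (fA n) 0 ks (dec p)
  let b : ℕ × List Γ → ℕ := fun p => pick (fB n) 1 ks (dec p)
  let c : ℕ × List Γ → ℕ := fun p => pick (fC n) 1 ks (dec p)
  refine ⟨m, a, b, c, hm, ?_, ?_, ?_, fun x => ?_⟩
  · exact UF.dec (UF.pick _ _ (fun K =>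
      (UF.ite (UP.gd hn K) K.hA (UF.const 0)).congr fun e => by unfold fA; congr) ks)
  · exact UF.dec (UF.pick _ _ (fun K =>
      (UF.ite (UP.gd hn K) K.hB (UF.const 1)).congr fun e => by unfold fB; congr) ks)
  · exact UF.dec (UF.pick _ _ (fun K =>
      (UF.ite (UP.gd hn K) K.hC (UF.const 1)).congr fun e => by unfold fC; congr) ks)
  · rw [hsat x]
    unfold Fml.Sat
    constructor
    · rintro ⟨τ, hτ⟩
      refine ⟨τ, fun j hj => ?_⟩
      obtain ⟨l, hl, hl'⟩ := hτ j hj ⟨_, Finset.mem_insert_self _ _⟩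
      have hl2 : l = a (j, x) ∨ l = b (j, x) ∨ l = c (j, x) := by
        simpa [famF, mkF] using hl
      rcases hl2 with rfl | rfl | rfl
      · exact Or.inl hl'
      · exact Or.inr (Or.inl hl')
      · exact Or.inr (Or.inr hl')
    · rintro ⟨τ, hτ⟩
      refine ⟨τ, fun j hj _ => ?_⟩
      rcases hτ j hj with h | h | h
      · exact ⟨_, by simp [famF, mkF, a], h⟩
      · exact ⟨_, by simp [famF, mkF, b], h⟩
      · exact ⟨_, by simp [famF, mkF, c], h⟩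

/-- the literal number `l` is the literal `(v, s)` -/
def h3_is (v : ℕ) (s : Bool) (l : ℕ) : Prop := v = l / 2 ∧ decide (l % 2 = 0) = s

theorem h3_up {Γ₀ Γ₁ τ : Type} [Env τ Γ₀] (s : Bool) {v l : τ → ℕ} (hv : UF Γ₁ v)
    (hl : UF Γ₁ l) : UP Γ₁ (fun t => h3_is (v t) s (l t)) := by
  have h2 : UF Γ₁ (fun _ : τ => 2) := UF.const 2
  have h0 : UF Γ₁ (fun _ : τ => 0) := UF.const 0
  cases s with
  | true =>
    refine ((UP.eq hv (hl.div h2)).and (UP.eq (hl.mod h2) h0)).congr fun t => ?_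
    unfold h3_is
    simp
  | false =>
    refine ((UP.eq hv (hl.div h2)).and (UP.eq (hl.mod h2) h0).not).congr fun t => ?_
    unfold h3_is
    simp

theorem h3_at {Γ₀ Γ₁ τ : Type} [Env τ Γ₀] {a : ℕ × List Γ₀ → ℕ} (ha : UF Γ₁ a) {g : τ → ℕ}
    (hg : UF Γ₁ g) : UF Γ₁ (fun t => a (g t, Env.inp t)) :=
  UF.comp (F := fun p : ℕ × τ => a (p.1, Env.inp p.2)) (ha.rename (Ren.cons IsVar.fst Ren.inp)) hg

theorem np_uc {Γ : Type} [Fintype Γ] (L : Set (List Γ)) (hL : MP_701cec_lc.InNP L) (Γ₁ : Type) :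
    ∃ Y : UC Γ Γ₁, (∀ x, 0 < (Y.F x).N) ∧ ∀ x, x ∈ L ↔ (Y.F x).Sat := by
  obtain ⟨m, a, b, c, hm, ha, hb, hc, hiff⟩ := h3_np L hL Γ₁
  let F : List Γ → CF := fun x =>
    { N := 1 + ∑ j ∈ Finset.range (m x), (a (j, x) + b (j, x) + c (j, x))
      m := m x
      occ := fun v s j => h3_is v s (a (j, x)) ∨ h3_is v s (b (j, x)) ∨ h3_is v s (c (j, x)) }
  have hocc : ∀ s, UP Γ₁ (fun p : ℕ × ℕ × List Γ => (F p.2.2).occ p.1 s p.2.1) := by
    intro s
    exact (h3_up s UF.fst (h3_at (τ := ℕ × ℕ × List Γ) ha UF.snd)).or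
      ((h3_up s UF.fst (h3_at (τ := ℕ × ℕ × List Γ) hb UF.snd)).or
        (h3_up s UF.fst (h3_at (τ := ℕ × ℕ × List Γ) hc UF.snd)))
  refine ⟨⟨F, (UF.const 1).add (UF.sum ((ha.add hb).add hc) hm), hm, hocc⟩, fun x => ?_,
    fun x => ?_⟩
  · show 0 < 1 + ∑ j ∈ Finset.range (m x), (a (j, x) + b (j, x) + c (j, x))
    omega
  rw [hiff x]
  unfold CF.Sat
  have hN : ∀ j < m x, a (j, x) < (F x).N ∧ b (j, x) < (F x).N ∧ c (j, x) < (F x).N := by
    intro j hj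
    have h1 := Finset.single_le_sum (f := fun j => a (j, x) + b (j, x) + c (j, x))
      (fun _ _ => Nat.zero_le _) (Finset.mem_range.2 hj)
    have h2 : (F x).N = 1 + ∑ j ∈ Finset.range (m x), (a (j, x) + b (j, x) + c (j, x)) := rfl
    beta_reduce at h1
    omega
  constructor
  · rintro ⟨τ, hτ⟩
    refine ⟨τ, fun j hj => ?_⟩
    obtain ⟨h1, h2, h3⟩ := hN j hj
    rcases hτ j hj with h | h | h
    · exact ⟨a (j, x) / 2, lt_of_le_of_lt (Nat.div_le_self _ _) h1, decide (a (j, x) % 2 = 0), Or.inl ⟨rfl, rfl⟩, h⟩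
    · exact ⟨b (j, x) / 2, lt_of_le_of_lt (Nat.div_le_self _ _) h2, decide (b (j, x) % 2 = 0), Or.inr (Or.inl ⟨rfl, rfl⟩), h⟩
    · exact ⟨c (j, x) / 2, lt_of_le_of_lt (Nat.div_le_self _ _) h3, decide (c (j, x) % 2 = 0), Or.inr (Or.inr ⟨rfl, rfl⟩), h⟩
  · rintro ⟨τ, hτ⟩
    refine ⟨τ, fun j hj => ?_⟩
    obtain ⟨v, -, s, hocc, hs⟩ := hτ j hj
    rcases hocc with ⟨h1, h2⟩ | ⟨h1, h2⟩ | ⟨h1, h2⟩
    · exact Or.inl (by unfold LitTrue; rw [← h1, hs, h2])
    · exact Or.inr (Or.inl (by unfold LitTrue; rw [← h1, hs, h2]))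
    · exact Or.inr (Or.inr (by unfold LitTrue; rw [← h1, hs, h2]))

open Classical in
/-- the graph on the numbers less than `N` given by a family of relations -/
noncomputable def mkG (R : ℕ → ℕ → Prop) (n : ℕ) : SimpleGraph (Fin n) :=
  SimpleGraph.fromRel fun i j => R i.val j.val

theorem h3_flatMap {α β : Type} (l : List α) (f g : α → List β) (h : ∀ i ∈ l, f i = g i) :
    l.flatMap f = l.flatMap g := by
  induction l with
  | nil => rfl
  | cons i l ih =>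
    rw [List.flatMap_cons, List.flatMap_cons, h i (by simp), ih (fun j hj => h j (by simp [hj]))]

theorem emits_code {Γ₀ : Type} {n : List Γ₀ → ℕ} {R : List Γ₀ → ℕ → ℕ → Prop}
    (hn : UF (Option Bool) n)
    (hR : UP (Option Bool) (fun p : ℕ × ℕ × List Γ₀ => R p.2.2 p.2.1 p.1)) :
    Emits (Option Bool) (fun x => MP_701cec_lc.encode (mkG (R x) (n x))) := by
  classical
  have hR' : UP (Option Bool) (fun p : ℕ × ℕ × List Γ₀ => R p.2.2 p.1 p.2.1) :=
    UP.rename (ρ := fun p : ℕ × ℕ × List Γ₀ => ((p.2.1, p.1, p.2.2) : ℕ × ℕ × List Γ₀)) hR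
      (Ren.cons IsVar.fst.weak (Ren.cons IsVar.fst Ren.inp))
  have hne : UP (Option Bool) (fun p : ℕ × ℕ × List Γ₀ => p.2.1 ≠ p.1) := (UP.eq UF.snd UF.fst).not
  have h1 : Emits (Option Bool) (fun p : ℕ × ℕ × List Γ₀ =>
      if p.2.1 ≠ p.1 ∧ (R p.2.2 p.2.1 p.1 ∨ R p.2.2 p.1 p.2.1) then [some true]
        else [some false]) :=
    Emits.ite (P := fun p : ℕ × ℕ × List Γ₀ => p.2.1 ≠ p.1 ∧ (R p.2.2 p.2.1 p.1 ∨
      R p.2.2 p.1 p.2.1)) (hne.and (hR.or hR')) (Emits.sym _) (Emits.sym _)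
  have h2 : Emits (Option Bool) (fun p : ℕ × List Γ₀ => ((List.range (n p.2)).flatMap
      fun j => if p.1 ≠ j ∧ (R p.2 p.1 j ∨ R p.2 j p.1) then [some true] else [some false]) ++
        [none]) :=
    (Emits.loop h1 hn.weak).append (Emits.sym none)
  have h3 := Emits.loop h2 hn
  refine h3.congr fun x => ?_
  unfold MP_701cec_lc.encode
  rw [← List.map_coe_finRange_eq_range, List.flatMap_map]
  apply h3_flatMap
  intro i _
  congr 1
  show (List.range (n x)).flatMap (fun j => if i.val ≠ j ∧ (R x i.val j ∨ R x j i.val) then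
    [some true] else [some false]) = _
  rw [← List.map_coe_finRange_eq_range, List.flatMap_map, List.map_eq_flatMap]
  apply h3_flatMap
  intro j _
  unfold mkG
  rw [SimpleGraph.fromRel_adj]
  by_cases h : i ≠ j ∧ (R x i.val j.val ∨ R x j.val i.val)
  · have h' : (i.val ≠ j.val ∧ (R x i.val j.val ∨ R x j.val i.val)) :=
      ⟨fun e => h.1 (Fin.ext e), h.2⟩
    simp [h, h']
  · have h' : ¬ (i.val ≠ j.val ∧ (R x i.val j.val ∨ R x j.val i.val)) :=
      fun e => h ⟨fun e' => e.1 (by rw [e']), e.2⟩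
    simp [h, h']

end Pool.Agent.H.MP_701cec_lc
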