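import Pool.Agent.H.MP_701cec_lc.Base

/-!
Counting of types.
-/

namespace Pool.Agent.H.MP_701cec_lc

variable {P : Par} {I : Inst}

/-- a set with at most `c` types contains at most `c` vertices which are pairwise distinguished by
vertices outside -/
theorem tc_card {V ι : Type} {G : SimpleGraph V} {c : ℕ} {S : Finset V} (h : TC G c S)
    (A : Finset ι) (u : ι → V) (hu : ∀ a ∈ A, u a ∈ S)
    (hd : ∀ a ∈ A, ∀ b ∈ A, a ≠ b → ∃ w, w ∉ S ∧ ¬ (G.Adj (u a) w ↔ G.Adj (u b) w)) :
    A.card ≤ c := by
  classical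
  obtain ⟨f, hf⟩ := h
  have h1 : (A.image fun a => f (u a)).card = A.card := by
    apply Finset.card_image_of_injOn
    intro a ha b hb hab
    by_contra hne
    obtain ⟨w, hw, hw'⟩ := hd a ha b hb hne
    exact hw' (hf _ (hu a ha) _ (hu b hb) hab w hw)
  rw [← h1]
  exact (Finset.card_le_univ _).trans (by simp)

/-- each level of a chain has at most `c` types -/
theorem Chain.tcS {V : Type} [DecidableEq V] {G : SimpleGraph V} {c : ℕ} {U : Finset V}
    {good : Finset V → Prop} (ch : Chain G c U good) (i : ℕ) : TC G c (ch.S i) :=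
  ⟨ch.lab i, fun u hu v hv h w hw => ch.out i u hu v hv h w hw⟩

/-- a set which is not good misses some vertex `La k x` for each `k` -/
theorem exists_La {Z : Finset (Vx P)} (hZ : ¬ good P Z) (htc : TC (GG P I) P.c Z)
    (k : Fin P.ml) : ∃ x : Finset (L0 P), ((Kd.La k x, 0) : Vx P) ∉ Z := by
  classical
  by_contra hcon
  push Not at hcon
  unfold good at hZ
  push Not at hZ
  set O : Finset (L0 P) := Finset.univ.filter fun x : L0 P => l0 x ∉ Z with hO
  have h1 : O.powerset.card ≤ P.c := by
    refine tc_card htc O.powerset (fun x => ((Kd.La k x, 0) : Vx P)) (fun x _ => hcon x) ?_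
    intro x hx y hy hxy
    rw [Finset.mem_powerset] at hx hy
    obtain ⟨z, hz⟩ : ∃ z, ¬ (z ∈ x ↔ z ∈ y) := by
      by_contra h
      push Not at h
      exact hxy (Finset.ext h)
    have hzO : z ∈ O := by
      by_cases h : z ∈ x
      · exact hx h
      · by_cases h' : z ∈ y
        · exact hy h'
        · exact absurd (by simp [h, h']) hz
    refine ⟨l0 z, ?_, ?_⟩
    · rw [hO, Finset.mem_filter] at hzO
      exact hzO.2
    · rw [adj_LaL0, adj_LaL0]
      exact hz
  rw [Finset.card_powerset] at h1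
  have h2 : 2 ^ (P.δ + 1) ≤ 2 ^ O.card := Nat.pow_le_pow_right (by norm_num) (by omega)
  have h3 := P.hδ
  unfold Par.c Par.κ at h1
  omega

end Pool.Agent.H.MP_701cec_lc
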