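import Pool.Agent.H.MP_701cec_lc.L5

/-!
U-columns are attached one after another, and never together with a W-column.
-/

namespace Pool.Agent.H.MP_701cec_lc

variable {P : Par} {I : Inst} {ch : Ch P I}

theorem l6_exists_k (ch : Ch P I) (i : ℕ) (E : Finset (Fin P.p)) (hE : E.card ≤ P.κ) :
    ∃ k, k ∉ E ∧ ((Kd.R0 k, 0) : Vx P) ∈ ch.S i := by
  classical
  by_contra hcon
  push Not at hcon
  have h1 : (Finset.univ : Finset (Fin P.p)) ⊆
      E ∪ Finset.univ.filter fun k : Fin P.p => ((Kd.R0 k, 0) : Vx P) ∉ ch.S i := by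
    intro k _
    rw [Finset.mem_union, Finset.mem_filter]
    by_cases hk : k ∈ E
    · exact Or.inl hk
    · exact Or.inr ⟨Finset.mem_univ _, hcon k hk⟩
  have h2 := (Finset.card_le_card h1).trans (Finset.card_union_le _ _)
  have h3 := ch.r0 i
  rw [Finset.card_univ, Fintype.card_fin] at h2
  have h4 := P.hp
  unfold Par.κ at hE
  omega

theorem l6_isCol_U {t : ℕ} (ht : 1 ≤ t) (htn : t ≤ I.n) : isCol I (false, t) :=
  Or.inl ⟨rfl, ht, htn⟩

theorem l6_isCol_W {ω : ℕ} (hω : ω < I.W) : isCol I (true, ω) :=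
  Or.inr ⟨rfl, hω⟩

theorem l6_inCol_R0 {t : ℕ} (htn : t ≤ I.n) (k : Fin P.p) :
    inCol I (false, t) ((Kd.R0 k, t) : Vx P) := ⟨rfl, rfl, htn⟩

theorem l6_inCol_C {ω : ℕ} (hω : ω < I.W) (e : Bool) (k : Fin P.p) :
    inCol I (true, ω) ((Kd.C e k, ω) : Vx P) := ⟨rfl, rfl, hω⟩

theorem OL (ok : I.Ok P) (A : Att ch) {t s i : ℕ} (ht : 1 ≤ t) (hts : t < s) (hs : s ≤ I.n)
    (ha : A.a (false, t) = i + 1) : i + 1 < A.a (false, s) := by
  by_contra hcon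
  push Not at hcon
  have htn : t ≤ I.n := by omega
  obtain ⟨E, hE, hK⟩ := KU ok A ht htn ha
  obtain ⟨k, hk, hk0⟩ := l6_exists_k ch i E hE
  obtain ⟨hR, -⟩ := hK k hk
  have m0 : ((Kd.R0 k, 0) : Vx P) ∈ ch.S (i + 1) := ch.mono i hk0
  have mt : ((Kd.R0 k, t) : Vx P) ∈ ch.S (i + 1) := by
    have := A.hfull _ (l6_isCol_U ht htn) _ (l6_inCol_R0 (P := P) htn k)
    rwa [ha] at this
  have mt' : ((Kd.R0 k, t) : Vx P) ∉ ch.S i :=
    A.hdisj _ (l6_isCol_U ht htn) i (by omega) _ (l6_inCol_R0 (P := P) htn k)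
  have ms : ((Kd.R0 k, s) : Vx P) ∈ ch.S (i + 1) :=
    ch.le hcon (A.hfull _ (l6_isCol_U (by omega) hs) _ (l6_inCol_R0 (P := P) hs k))
  have e0 := hR 0 m0 (by omega)
  have es := hR s ms hs
  have a0 : (GG P I).Adj (.S, t) (.R0 k, 0) := adj_SR0.2 ⟨ht, htn, by omega⟩
  have at' : (GG P I).Adj (.S, t) (.R0 k, t) := adj_SR0.2 ⟨ht, htn, le_refl _⟩
  have as' : ¬ (GG P I).Adj (.S, t) (.R0 k, s) := fun h => by
    have := (adj_SR0.1 h).2.2
    omega
  by_cases hS : ((Kd.S, t) : Vx P) ∈ ch.S i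
  · exact ch.sep mt ms (fun h => absurd (h.1 hS) mt') at' as' es.symm
  · exact ch.sep m0 ms (fun h => absurd (h.2 hk0) hS) a0 as' (e0.trans es.symm)

theorem UW (ok : I.Ok P) (A : Att ch) {t ω i : ℕ} (ht : 1 ≤ t) (htn : t ≤ I.n) (hω : ω < I.W)
    (ha : A.a (false, t) = i + 1) : A.a (true, ω) ≠ i + 1 := by
  intro hw
  obtain ⟨E, hE, hK⟩ := KU ok A ht htn ha
  obtain ⟨k, hk, hk0⟩ := l6_exists_k ch i E hE
  obtain ⟨-, hC⟩ := hK k hk
  have mC : ∀ e, ((Kd.C e k, ω) : Vx P) ∈ ch.S (i + 1) := by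
    intro e
    have := A.hfull _ (l6_isCol_W hω) _ (l6_inCol_C (P := P) hω e k)
    rwa [hw] at this
  have mC' : ∀ e, ((Kd.C e k, ω) : Vx P) ∉ ch.S i := fun e =>
    A.hdisj _ (l6_isCol_W hω) i (by omega) _ (l6_inCol_C (P := P) hω e k)
  have hml : 0 < P.ml := by
    rcases Nat.eq_zero_or_pos P.ml with h | h
    · have := P.hml
      rw [h] at this
      simp at this
      omega
    · exact h
  obtain ⟨x, hx⟩ := exists_La (ch.ng i) (ch.tc i) (⟨0, hml⟩ : Fin P.ml)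
  rw [Finset.mem_sdiff, not_and, not_not] at hx
  have b1 : (GG P I).Adj (.La ⟨0, hml⟩ x, 0) (.C true k, ω) := by
    rw [adj_LaC]
    refine ⟨hω, ?_⟩
    simp
  have b0 : ¬ (GG P I).Adj (.La ⟨0, hml⟩ x, 0) (.C false k, ω) := by
    rw [adj_LaC]
    rintro ⟨-, h⟩
    simp at h
  refine ch.sep (mC true) (mC false) (fun h hmem => ?_) b1 b0
    ((hC true ω (mC true) (mC' true) hω).trans (hC false ω (mC false) (mC' false) hω).symm)
  exact mC' true (h.1 (hx hmem))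

end Pool.Agent.H.MP_701cec_lc
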