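import Pool.Agent.H.MP_701cec_lc.L1

/-!
The attach of a W-column: counting of labels, and the residues.
-/

namespace Pool.Agent.H.MP_701cec_lc

variable {P : Par} {I : Inst} {ch : Ch P I}

theorem l7_col (A : Att ch) {ω i : ℕ} (hω : ω < I.W) (ha : A.a (true, ω) = i + 1) {v : Vx P}
    (hv : inCol I (true, ω) v) : v ∈ ch.S (i + 1) ∧ v ∉ ch.S i := by
  have hc : isCol I (true, ω) := Or.inr ⟨rfl, hω⟩
  constructor
  · have := A.hfull (true, ω) hc v hv
    rwa [ha] at this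
  · exact A.hdisj (true, ω) hc i (by rw [ha]; omega) v hv

theorem l7_ml (P : Par) : 0 < P.ml := by
  have h := P.hml
  rcases Nat.eq_zero_or_pos P.ml with h0 | h0
  · rw [h0] at h
    simp at h
    omega
  · exact h0

theorem l7_delta (P : Par) : P.δ < P.κ := by
  have := P.hg
  unfold Par.κ
  omega

/-- if the labels of two vertices agree, no vertex `La` outside the new part distinguishes them -/
theorem l7_La (ch : Ch P I) (i : ℕ) (b : Fin P.ml) : ∃ x : Finset (L0 P), ∀ v v' : Vx P,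
    v ∈ ch.S (i + 1) → v ∉ ch.S i → v' ∈ ch.S (i + 1) → (GG P I).Adj (.La b x, 0) v →
    ¬ (GG P I).Adj (.La b x, 0) v' → ch.lab (i + 1) v ≠ ch.lab (i + 1) v' := by
  obtain ⟨x, hx⟩ := exists_La (ch.ng i) (ch.tc i) b
  refine ⟨x, fun v v' hv hvi hv' h1 h2 => ch.sep hv hv' ?_ h1 h2⟩
  intro h hw
  apply hx
  rw [Finset.mem_sdiff]
  exact ⟨hw, fun hwi => hvi (h.1 hwi)⟩

theorem l7_CC (A : Att ch) {ω i : ℕ} (hω : ω < I.W) (ha : A.a (true, ω) = i + 1) (k : Fin P.p) :
    ch.lab (i + 1) (Kd.C true k, ω) ≠ ch.lab (i + 1) (Kd.C false k, ω) := by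
  obtain ⟨x, hx⟩ := l7_La ch i ⟨0, l7_ml P⟩
  have h1 := l7_col A hω ha (v := (Kd.C true k, ω)) ⟨rfl, rfl, hω⟩
  have h2 := l7_col A hω ha (v := (Kd.C false k, ω)) ⟨rfl, rfl, hω⟩
  refine hx _ _ h1.1 h1.2 h2.1 (adj_LaC.2 ⟨hω, ?_⟩) (fun h => ?_)
  · simp [Nat.testBit_zero]
  · have := (adj_LaC.1 h).2
    simp [Nat.testBit_zero] at this

theorem l7_CR (A : Att ch) {ω i : ℕ} (hω : ω < I.W) (ha : A.a (true, ω) = i + 1) (e : Bool)
    (k : Fin P.p) (hk : ((Kd.R0 k, 0) : Vx P) ∈ ch.S i) :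
    ch.lab (i + 1) (Kd.C e k, ω) ≠ ch.lab (i + 1) (Kd.R0 k, 0) := by
  obtain ⟨q, hq⟩ := ch.ob i .S0
  have h1 := l7_col A hω ha (v := (Kd.C e k, ω)) ⟨rfl, rfl, hω⟩
  refine ch.sep (w := (Kd.Ob .S0 q, 0)) h1.1 (ch.mono i hk) ?_ ?_ ?_
  · intro h
    exact absurd (h.1 hq) h1.2
  · rw [adj_S0 (k := k) (show valid I ((Kd.C e k, ω) : Vx P) from hω) rfl]
    intro i h
    cases h
  · rw [adj_S0 (k := k) (show valid I ((Kd.R0 k, 0) : Vx P) from Nat.zero_le _) rfl]
    intro h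
    exact h k rfl

/-- at the attach of a W-column few kinds have a fourth label, and there are few labels of
vertices without class -/
theorem KW (ok : I.Ok P) (A : Att ch) {ω i : ℕ} (hω : ω < I.W) (ha : A.a (true, ω) = i + 1)
    (Q : Finset (Fin P.p)) (hQ : ∀ k ∈ Q, ∃ v ∈ ch.S (i + 1), valid I v ∧ cls v.1 = some (.K k) ∧
      (((Kd.R0 k, 0) : Vx P) ∈ ch.S i → ch.lab (i + 1) v ≠ ch.lab (i + 1) (Kd.R0 k, 0)) ∧
      ch.lab (i + 1) v ≠ ch.lab (i + 1) (Kd.C false k, ω) ∧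
      ch.lab (i + 1) v ≠ ch.lab (i + 1) (Kd.C true k, ω))
    (T : Finset (Fin P.c))
    (hT : ∀ l ∈ T, ∃ v ∈ ch.S (i + 1), cls v.1 = none ∧ ch.lab (i + 1) v = l) :
    Q.card + T.card ≤ P.κ + 2 * P.δ := by
  classical
  have hN : i + 1 ≤ A.N := by
    rw [← ha]
    exact A.hle _ (Or.inr ⟨rfl, hω⟩)
  haveI : Nonempty (Vx P) := ⟨(Kd.S, 0)⟩
  choose! f hf1 hf2 hf3 hf4 hf5 hf6 using hQ
  obtain ⟨B, hBd⟩ : ∃ B : Cls P → Finset (Fin P.c), B = fun a => match a with
    | .X j => {ch.lab (i + 1) (Kd.X j true, ω)}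
    | .Y j => {ch.lab (i + 1) (Kd.Y j true, ω)}
    | .K k => ({ch.lab (i + 1) (Kd.C true k, ω), ch.lab (i + 1) (Kd.C false k, ω)} ∪
        (if ((Kd.R0 k, 0) : Vx P) ∈ ch.S i then {ch.lab (i + 1) (Kd.R0 k, 0)} else ∅)) ∪
        (if k ∈ Q then {ch.lab (i + 1) (f k)} else ∅) := ⟨_, rfl⟩
  have hB : ∀ a, ∀ l ∈ B a, ∃ v ∈ ch.S (i + 1), valid I v ∧ cls v.1 = some a ∧
      ch.lab (i + 1) v = l := by
    intro a l hl
    rw [hBd] at hl
    rcases a with j | j | k
    · simp only [Finset.mem_singleton] at hl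
      exact ⟨_, (l7_col A hω ha (v := (Kd.X j true, ω)) ⟨rfl, rfl, hω⟩).1, hω, rfl, hl.symm⟩
    · simp only [Finset.mem_singleton] at hl
      exact ⟨_, (l7_col A hω ha (v := (Kd.Y j true, ω)) ⟨rfl, rfl, hω⟩).1, hω, rfl, hl.symm⟩
    · simp only [Finset.mem_union, Finset.mem_insert, Finset.mem_singleton] at hl
      rcases hl with ((hl | hl) | hl) | hl
      · exact ⟨_, (l7_col A hω ha (v := (Kd.C true k, ω)) ⟨rfl, rfl, hω⟩).1, hω, rfl, hl.symm⟩
      · exact ⟨_, (l7_col A hω ha (v := (Kd.C false k, ω)) ⟨rfl, rfl, hω⟩).1, hω, rfl, hl.symm⟩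
      · split_ifs at hl with h
        · rw [Finset.mem_singleton] at hl
          exact ⟨_, ch.mono i h, Nat.zero_le _, rfl, hl.symm⟩
        · simp at hl
      · split_ifs at hl with h
        · rw [Finset.mem_singleton] at hl
          exact ⟨_, hf1 k h, hf2 k h, hf3 k h, hl.symm⟩
        · simp at hl
  have hcount := A.hD.count' hN B hB T hT
  have hX : ∀ j, (B (.X j)).card = 1 := by
    intro j
    rw [hBd]
    simp
  have hY : ∀ j, (B (.Y j)).card = 1 := by
    intro j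
    rw [hBd]
    simp
  have hK : ∀ k, (B (.K k)).card = 2 + (if ((Kd.R0 k, 0) : Vx P) ∈ ch.S i then 1 else 0) +
      (if k ∈ Q then 1 else 0) := by
    intro k
    rw [hBd]
    beta_reduce
    simp only
    have h2 : ({ch.lab (i + 1) (Kd.C true k, ω), ch.lab (i + 1) (Kd.C false k, ω)} :
        Finset (Fin P.c)).card = 2 := Finset.card_pair (l7_CC A hω ha k)
    rw [Finset.card_union_of_disjoint, Finset.card_union_of_disjoint, h2]
    · split_ifs <;> simp
    · rw [Finset.disjoint_left]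
      intro l hl hl'
      split_ifs at hl' with h
      · rw [Finset.mem_singleton] at hl'
        rw [Finset.mem_insert, Finset.mem_singleton] at hl
        rcases hl with hl | hl
        · exact l7_CR A hω ha true k h (hl.symm.trans hl')
        · exact l7_CR A hω ha false k h (hl.symm.trans hl')
      · simp at hl'
    · rw [Finset.disjoint_left]
      intro l hl hl'
      split_ifs at hl' with hkQ
      · rw [Finset.mem_singleton] at hl'
        rw [Finset.mem_union, Finset.mem_insert, Finset.mem_singleton] at hl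
        rcases hl with (hl | hl) | hl
        · exact hf6 k hkQ (hl'.symm.trans hl)
        · exact hf5 k hkQ (hl'.symm.trans hl)
        · split_ifs at hl with h
          · rw [Finset.mem_singleton] at hl
            exact hf4 k hkQ h (hl'.symm.trans hl)
          · simp at hl
      · simp at hl'
  simp only [hX, hY, hK, Finset.sum_const, Finset.card_univ, Fintype.card_fin, smul_eq_mul,
    mul_one, Finset.sum_add_distrib] at hcount
  have hQs : (∑ k : Fin P.p, if k ∈ Q then 1 else 0) = Q.card := by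
    rw [Finset.sum_boole]
    simp
  have hRs : P.p ≤ (∑ k : Fin P.p, if ((Kd.R0 k, 0) : Vx P) ∈ ch.S i then 1 else 0) + P.δ := by
    have h1 := ch.r0 i
    have h2 := Finset.card_filter_add_card_filter_not (s := (Finset.univ : Finset (Fin P.p)))
      (fun k => ((Kd.R0 k, 0) : Vx P) ∈ ch.S i)
    rw [Finset.card_univ, Fintype.card_fin] at h2
    rw [Finset.sum_boole]
    simp only [Nat.cast_id]
    omega
  rw [hQs] at hcount
  have hcv : P.c = 2 * P.M + 3 * P.p + P.κ := rfl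
  omega

/-- W-columns which are attached together have the same residue -/
theorem RES (ok : I.Ok P) (A : Att ch) {ω ω' i : ℕ} (hω : ω < I.W) (hω' : ω' < I.W)
    (ha : A.a (true, ω) = i + 1) (ha' : A.a (true, ω') = i + 1) :
    ω % (P.c + 1) = ω' % (P.c + 1) := by
  classical
  have hex : ∃ (k : Fin P.p) (e : Bool),
      ch.lab (i + 1) (Kd.C false k, ω') = ch.lab (i + 1) (Kd.C e k, ω) := by
    by_contra hcon
    push Not at hcon
    have h := KW ok A hω ha Finset.univ (fun k _ => ⟨(Kd.C false k, ω'),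
      (l7_col A hω' ha' (v := (Kd.C false k, ω')) ⟨rfl, rfl, hω'⟩).1, hω', rfl,
      fun hk => l7_CR A hω' ha' false k hk, hcon k false, hcon k true⟩) ∅ (by simp)
    rw [Finset.card_univ, Fintype.card_fin, Finset.card_empty] at h
    have h1 := P.hp
    have h2 := l7_delta P
    have h3 : P.κ = 9 + P.ml + 3 * P.g := rfl
    omega
  obtain ⟨k, e, hke⟩ := hex
  have h1 := l7_col A hω ha (v := (Kd.C e k, ω)) ⟨rfl, rfl, hω⟩
  have h2 := l7_col A hω' ha' (v := (Kd.C false k, ω')) ⟨rfl, rfl, hω'⟩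
  have hc1 : ω % (P.c + 1) < P.c + 1 := Nat.mod_lt _ (Nat.succ_pos _)
  have hc2 : ω' % (P.c + 1) < P.c + 1 := Nat.mod_lt _ (Nat.succ_pos _)
  have he : e.toNat ≤ 1 := Bool.toNat_le e
  have hml : 2 * (P.c + 1) ≤ 2 ^ P.ml := P.hml
  have hkey : 2 * (ω' % (P.c + 1)) + (false : Bool).toNat = 2 * (ω % (P.c + 1)) + e.toNat := by
    apply Nat.eq_of_testBit_eq
    intro b
    rcases Nat.lt_or_ge b P.ml with hb | hb
    · obtain ⟨x, hx⟩ := l7_La ch i ⟨b, hb⟩
      rw [Bool.eq_iff_iff]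
      constructor
      · intro h
        by_contra h'
        refine hx _ _ h2.1 h2.2 h1.1 (adj_LaC.2 ⟨hω', h⟩) (fun h'' => h' (adj_LaC.1 h'').2) hke
      · intro h
        by_contra h'
        refine hx _ _ h1.1 h1.2 h2.1 (adj_LaC.2 ⟨hω, h⟩) (fun h'' => h' (adj_LaC.1 h'').2) hke.symm
    · have hp : 2 ^ P.ml ≤ 2 ^ b := Nat.pow_le_pow_right (by norm_num) hb
      have hf : (false : Bool).toNat = 0 := rfl
      rw [Nat.testBit_lt_two_pow (by rw [hf]; omega), Nat.testBit_lt_two_pow (by omega)]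
  have hf : (false : Bool).toNat = 0 := rfl
  omega

end Pool.Agent.H.MP_701cec_lc
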