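import Pool.Agent.H.MP_701cec_lc.L3
import Pool.Agent.H.MP_701cec_lc.L6
import Pool.Agent.H.MP_701cec_lc.L7

/-!
At the attach of a W-column some U-column is still outside, and the W-column uses a tick.
-/

namespace Pool.Agent.H.MP_701cec_lc

variable {P : Par} {I : Inst} {ch : Ch P I}

theorem l8a_card_cls (P : Par) : 2 * P.δ + 4 ≤ (Finset.univ : Finset (Cls P)).card := by
  have h := sum_cls (P := P) (fun _ => 1)
  simp only [Finset.sum_const, smul_eq_mul, mul_one, Finset.card_univ, Fintype.card_fin] at h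
  rw [Finset.card_univ, h]
  have := P.hM
  omega

theorem RE (ok : I.Ok P) (A : Att ch) {ω i : ℕ} (hω : ω < I.W) (ha : A.a (true, ω) = i + 1) :
    ∃ t, 1 ≤ t ∧ t ≤ I.n ∧ i + 1 < A.a (false, t) := by
  classical
  by_contra hcon
  push Not at hcon
  have hn := ok.hn
  have h1 : A.a (false, I.n) < i + 1 := by
    have h2 := hcon I.n hn le_rfl
    rcases h2.lt_or_eq with h3 | h3
    · exact h3
    · exact absurd ha (UW ok A hn le_rfl hω h3)
  have hcol : isCol I (false, I.n) := Or.inl ⟨rfl, hn, le_rfl⟩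
  have hcolW : isCol I (true, ω) := Or.inr ⟨rfl, hω⟩
  have hA : ∀ k : Fin P.p, ((Kd.A k, I.n) : Vx P) ∈ ch.S i := fun k =>
    ch.le (by omega) (A.hfull (false, I.n) hcol _ ⟨rfl, rfl, le_rfl⟩)
  have hp := P.hp
  have hp0 : 0 < P.p := by omega
  have hout : ∀ b ∈ (Finset.univ : Finset (Cls P)), ∃ v : Vx P, cls v.1 = some b ∧ valid I v ∧
      v ∉ ch.S i ∧ ¬ (true = true ∧ isA v.1 = true ∧ v.2 = I.n) := by
    intro b _
    have hd : ∀ v, inCol I (true, ω) v → v ∉ ch.S i := fun v hv =>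
      A.hdisj (true, ω) hcolW i (by omega) v hv
    cases b with
    | X j =>
      refine ⟨((Kd.X j true, ω) : Vx P), rfl, hω, hd _ ⟨rfl, rfl, hω⟩, by simp [isA]⟩
    | Y j =>
      refine ⟨((Kd.Y j true, ω) : Vx P), rfl, hω, hd _ ⟨rfl, rfl, hω⟩, by simp [isA]⟩
    | K k =>
      refine ⟨((Kd.C false k, ω) : Vx P), rfl, hω, hd _ ⟨rfl, rfl, hω⟩, by simp [isA]⟩
  have hM0 : 0 < P.M := by have := P.M_pos; omega
  have key : ∀ k : Fin P.p, ∃ s : Finset (Cls P), Cls.K k ∈ s ∧ Cls.Y ⟨0, hM0⟩ ∉ s ∧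
      ((Kd.Om true s, 0) : Vx P) ∉ ch.S (i + 1) := fun k =>
    om_out ch i true Finset.univ (l8a_card_cls P) hout hn (by simp)
  have hQ := KW ok A hω ha Finset.univ (fun k _ => by
    obtain ⟨s, hs, -, hO⟩ := key k
    have hAk : ((Kd.A k, I.n) : Vx P) ∈ ch.S (i + 1) := ch.mono i (hA k)
    have hnot : ¬ (GG P I).Adj (.Om true s, 0) (.A k, I.n) := by
      rw [adj_Om (a := Cls.K k) (show valid I ((Kd.A k, I.n) : Vx P) from le_rfl) rfl]
      simp [isA]
    have hC : ∀ e : Bool, (GG P I).Adj (.Om true s, 0) (.C e k, ω) := fun e => by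
      rw [adj_Om (a := Cls.K k) (show valid I ((Kd.C e k, ω) : Vx P) from hω) rfl]
      exact ⟨hs, by simp [isA]⟩
    have hCm : ∀ e : Bool, ((Kd.C e k, ω) : Vx P) ∈ ch.S (i + 1) := fun e => by
      have := A.hfull (true, ω) hcolW (Kd.C e k, ω) ⟨rfl, rfl, hω⟩
      rwa [ha] at this
    refine ⟨(Kd.A k, I.n), hAk, le_rfl, rfl, ?_, ?_, ?_⟩
    · intro hR
      have hR0 : (GG P I).Adj (.Om true s, 0) (.R0 k, 0) := by
        rw [adj_Om (a := Cls.K k) (show valid I ((Kd.R0 k, 0) : Vx P) from Nat.zero_le _) rfl]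
        exact ⟨hs, by simp [isA]⟩
      exact (ch.sepo (ch.mono i hR) hAk hO hR0 hnot).symm
    · exact (ch.sepo (hCm false) hAk hO (hC false) hnot).symm
    · exact (ch.sepo (hCm true) hAk hO (hC true) hnot).symm) ∅ (by simp)
  rw [Finset.card_univ, Fintype.card_fin, Finset.card_empty] at hQ
  unfold Par.κ at hQ
  omega

end Pool.Agent.H.MP_701cec_lc
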