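import Pool.Agent.H.MP_701cec_lc.L6
import Pool.Agent.H.MP_701cec_lc.L7

/-!
At the attach of a W-column some U-column is still outside, and the W-column uses a tick.
-/

namespace Pool.Agent.H.MP_701cec_lc

variable {P : Par} {I : Inst} {ch : Ch P I}

/-- numerical consequences of the conditions on the parameters -/
theorem l8b_num (P : Par) : 3 * P.κ + 2 * P.δ < P.p ∧ P.δ < P.κ := by
  have h1 := P.hp
  have h2 := P.hg
  unfold Par.κ
  omega

theorem CL (ok : I.Ok P) (A : Att ch) {ω i t : ℕ} (hω : ω < I.W) (ha : A.a (true, ω) = i + 1)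
    (ht : 1 ≤ t) (htn : t ≤ I.n) (hat : i + 1 < A.a (false, t))
    (hmin : ∀ s, 1 ≤ s → s < t → A.a (false, s) ≤ i + 1) :
    ((Kd.S, t) : Vx P) ∈ ch.S (i + 1) ∧ ((Kd.S, t) : Vx P) ∉ ch.S i ∧ I.ul t = I.wl ω := by
  classical
  obtain ⟨hp1, hp2⟩ := l8b_num P
  have hcol : isCol I (true, ω) := Or.inr ⟨rfl, hω⟩
  -- the vertices `C e k ω`
  have hCin : ∀ e (k : Fin P.p), inCol I (true, ω) ((Kd.C e k, ω) : Vx P) := fun e k =>
    ⟨rfl, rfl, hω⟩
  have hC1 : ∀ e (k : Fin P.p), ((Kd.C e k, ω) : Vx P) ∈ ch.S (i + 1) := fun e k => by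
    have h := A.hfull _ hcol _ (hCin e k)
    rwa [ha] at h
  have hC0 : ∀ e (k : Fin P.p), ((Kd.C e k, ω) : Vx P) ∉ ch.S i := fun e k =>
    A.hdisj _ hcol i (by rw [ha]; exact Nat.lt_succ_self i) _ (hCin e k)
  -- the good kinds
  set Bad : Finset (Fin P.p) := Finset.univ.filter fun k : Fin P.p =>
    ¬ (((Kd.R0 k, 0) : Vx P) ∈ ch.S i ∧ ((Kd.A k, t - 1) : Vx P) ∈ ch.S i) with hBad
  have hBadcard : Bad.card ≤ P.δ := by
    rcases Nat.lt_or_ge 1 t with h2 | h2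
    · refine le_trans (Finset.card_le_card ?_) (Chain.r0 ch i)
      intro k hk
      rw [hBad, Finset.mem_filter] at hk
      rw [Finset.mem_filter]
      refine ⟨Finset.mem_univ _, fun hR => hk.2 ⟨hR, ?_⟩⟩
      have hcol' : isCol I (false, t - 1) := Or.inl ⟨rfl, by show 1 ≤ t - 1; omega, by
        show t - 1 ≤ I.n; omega⟩
      have h3 := hmin (t - 1) (by omega) (by omega)
      have h4 : A.a (false, t - 1) ≠ i + 1 := fun h => UW ok A (by omega) (by omega) hω h ha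
      have h5 : A.a (false, t - 1) ≤ i := by omega
      refine ch.le h5 (A.hfull _ hcol' _ ⟨rfl, rfl, ?_⟩)
      show t - 1 ≤ I.n
      omega
    · have h3 : t - 1 = 0 := by omega
      refine le_trans (Finset.card_le_card ?_) (Chain.r0A ch i)
      intro k hk
      rw [hBad, Finset.mem_filter, h3] at hk
      rw [Finset.mem_filter]
      refine ⟨Finset.mem_univ _, ?_⟩
      by_contra hcon
      push Not at hcon
      exact hk.2 hcon
  have hgood : ∀ k, k ∉ Bad → ((Kd.R0 k, 0) : Vx P) ∈ ch.S i ∧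
      ((Kd.A k, t - 1) : Vx P) ∈ ch.S i := by
    intro k hk
    by_contra hcon
    exact hk (by rw [hBad, Finset.mem_filter]; exact ⟨Finset.mem_univ _, hcon⟩)
  have hSA : ∀ k : Fin P.p, ¬ (GG P I).Adj (Kd.S, t) (Kd.A k, t - 1) := by
    intro k h
    have h1 := (adj_SA.1 h).2.2.2
    omega
  have hSR : ∀ (k : Fin P.p) (s : ℕ), s ≤ t → (GG P I).Adj (Kd.S, t) (Kd.R0 k, s) := fun k s hs =>
    adj_SR0.2 ⟨ht, htn, hs⟩
  have hSC : ∀ e (k : Fin P.p), (GG P I).Adj (Kd.S, t) (Kd.C e k, ω) := fun e k =>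
    adj_SC.2 ⟨ht, htn, hω⟩
  -- the contradiction obtained from many kinds with a fourth label
  have hmany : ∀ E : Finset (Fin P.p), E.card ≤ P.κ →
      (∀ k, k ∉ Bad → k ∉ E →
        ch.lab (i + 1) (Kd.A k, t - 1) ≠ ch.lab (i + 1) (Kd.R0 k, 0) ∧
        ∀ e, ch.lab (i + 1) (Kd.A k, t - 1) ≠ ch.lab (i + 1) (Kd.C e k, ω)) → False := by
    intro E hE h
    have h1 := KW ok A hω ha (Finset.univ \ (Bad ∪ E)) (by
      intro k hk
      rw [Finset.mem_sdiff, Finset.mem_union, not_or] at hk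
      obtain ⟨-, hk1, hk2⟩ := hk
      have h2 := h k hk1 hk2
      refine ⟨(Kd.A k, t - 1), ch.mono i (hgood k hk1).2, ?_, rfl, fun _ => h2.1, h2.2 false,
        h2.2 true⟩
      show t - 1 ≤ I.n
      omega) ∅ (by simp)
    have h2 : (Finset.univ \ (Bad ∪ E)).card = P.p - (Bad ∪ E).card := by
      rw [Finset.card_sdiff_of_subset (Finset.subset_univ _), Finset.card_univ, Fintype.card_fin]
    have h3 : (Bad ∪ E).card ≤ Bad.card + E.card := Finset.card_union_le _ _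
    rw [Finset.card_empty] at h1
    omega
  -- (1)
  have hS1 : ((Kd.S, t) : Vx P) ∈ ch.S (i + 1) := by
    by_contra hS
    refine hmany ∅ (by simp) fun k hk _ => ⟨?_, fun e => ?_⟩
    · exact (ch.sepo (ch.mono i (hgood k hk).1) (ch.mono i (hgood k hk).2) hS (hSR k 0 (by omega))
        (hSA k)).symm
    · exact (ch.sepo (hC1 e k) (ch.mono i (hgood k hk).2) hS (hSC e k) (hSA k)).symm
  -- (2)
  obtain ⟨i', hi'⟩ : ∃ i', A.a (false, t) = i' + 1 := ⟨A.a (false, t) - 1, by omega⟩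
  have hii : i + 1 ≤ i' := by omega
  obtain ⟨E, hE, hKU⟩ := KU ok A ht htn hi'
  have hcolt : isCol I (false, t) := Or.inl ⟨rfl, ht, htn⟩
  have h2 : ∀ k, k ∉ Bad → k ∉ E →
      ch.lab (i + 1) (Kd.A k, t - 1) ≠ ch.lab (i + 1) (Kd.R0 k, 0) := by
    intro k hk hkE heq
    have hR := (hgood k hk).1
    have hA := (hgood k hk).2
    have h3 := ch.pers_le (j := i' + 1) (by omega) (ch.mono i hA) (ch.mono i hR) heq
    have h4 := (hKU k hkE).1 0 (ch.le (by omega) hR) (Nat.zero_le _)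
    have hin : inCol I (false, t) ((Kd.R0 k, t) : Vx P) := ⟨rfl, rfl, htn⟩
    have h5 : ((Kd.R0 k, t) : Vx P) ∈ ch.S (i' + 1) := by
      have h := A.hfull _ hcolt _ hin
      rwa [hi'] at h
    have h6 : ((Kd.R0 k, t) : Vx P) ∉ ch.S i' :=
      A.hdisj _ hcolt i' (by rw [hi']; exact Nat.lt_succ_self i') _ hin
    refine ch.sep (w := (Kd.S, t)) h5 (ch.le (by omega) hA) ?_ (hSR k t le_rfl) (hSA k)
      (h3.trans h4).symm
    intro hiff
    exact absurd (hiff.1 (ch.le hii hS1)) h6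
  refine ⟨hS1, ?_, ?_⟩
  · -- (3)
    intro hS0
    refine hmany E hE fun k hk hkE => ⟨h2 k hk hkE, fun e heq => ?_⟩
    refine ch.sep (w := (Kd.S, t)) (hC1 e k) (ch.mono i (hgood k hk).2) ?_ (hSC e k) (hSA k)
      heq.symm
    intro hiff
    exact absurd (hiff.1 hS0) (hC0 e k)
  · -- (4)
    by_contra hne
    obtain ⟨q, hq⟩ := Chain.ob ch i (Obs.Th ⟨I.wl ω, ok.hwl ω hω⟩)
    refine hmany E hE fun k hk hkE => ⟨h2 k hk hkE, fun e heq => ?_⟩
    refine ch.sep (w := (Kd.Ob (Obs.Th ⟨I.wl ω, ok.hwl ω hω⟩) q, 0)) (hC1 e k)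
      (ch.mono i (hgood k hk).2) ?_ (adj_ThC.2 ⟨hω, rfl⟩) ?_ heq.symm
    · intro hiff
      exact absurd (hiff.1 hq) (hC0 e k)
    · intro h
      have h3 := (adj_ThA.1 h).2
      rw [Nat.sub_add_cancel ht] at h3
      exact hne h3

end Pool.Agent.H.MP_701cec_lc
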