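import Pool.Agent.H.MP_701cec_lc.L5
import Pool.Agent.H.MP_701cec_lc.L7

/-!
Threads.
-/

namespace Pool.Agent.H.MP_701cec_lc

variable {P : Par} {I : Inst} {ch : Ch P I}

/-- a W-column `x.2` together with a direction, such that the column is attached at `i + 1` or
earlier, and the neighbour in this direction belongs to the same job and is not on the same side -/
def l9_cut (A : Att ch) (i : ℕ) (x : Bool × ℕ) : Prop :=
  ∃ σ, ((x.1 = true ∧ σ = x.2 + 1) ∨ (x.1 = false ∧ x.2 = σ + 1)) ∧ x.2 < I.W ∧ σ < I.W ∧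
    I.jb σ = I.jb x.2 ∧ ((A.a (true, x.2) < i + 1 ∧ i + 1 ≤ A.a (true, σ)) ∨
      (A.a (true, x.2) = i + 1 ∧ A.a (true, σ) ≠ i + 1))

theorem l9_mem (A : Att ch) {ρ j : ℕ} (hρ : ρ < I.W) (h : A.a (true, ρ) ≤ j) (e : Bool)
    (b : Fin P.g) : ((Kd.F e b, ρ) : Vx P) ∈ ch.S j :=
  ch.le h (A.hfull (true, ρ) (Or.inr ⟨rfl, hρ⟩) (Kd.F e b, ρ) ⟨rfl, rfl, hρ⟩)

theorem l9_nmem (A : Att ch) {ρ j : ℕ} (hρ : ρ < I.W) (h : j < A.a (true, ρ)) (e : Bool)
    (b : Fin P.g) : ((Kd.F e b, ρ) : Vx P) ∉ ch.S j :=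
  A.hdisj (true, ρ) (Or.inr ⟨rfl, hρ⟩) j h (Kd.F e b, ρ) ⟨rfl, rfl, hρ⟩

/-- a thread vertex has only one neighbour which is a thread vertex -/
theorem l9_uniq {e e1 e2 : Bool} {b b1 b2 : Fin P.g} {s s1 s2 : ℕ}
    (h1 : (GG P I).Adj (.F e b, s) (.F e1 b1, s1)) (h2 : (GG P I).Adj (.F e b, s) (.F e2 b2, s2)) :
    e1 = e2 ∧ b1 = b2 ∧ s1 = s2 := by
  rw [adj_FF] at h1 h2
  obtain ⟨-, -, hb1, h1⟩ := h1
  obtain ⟨-, -, hb2, h2⟩ := h2
  refine ⟨?_, hb1.symm.trans hb2, ?_⟩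
  · rcases h1 with ⟨a1, a2, -⟩ | ⟨a1, a2, -⟩ <;> rcases h2 with ⟨c1, c2, -⟩ | ⟨c1, c2, -⟩ <;>
      simp_all
  · rcases h1 with ⟨a1, a2, a3, -⟩ | ⟨a1, a2, a3, -⟩ <;>
      rcases h2 with ⟨c1, c2, c3, -⟩ | ⟨c1, c2, c3, -⟩
    · omega
    · rw [a1] at c1; cases c1
    · rw [a1] at c1; cases c1
    · omega

/-- the labels of the cut thread vertices are pairwise different -/
theorem l9_labels (A : Att ch) (i : ℕ) (D : Finset (Bool × ℕ)) (hD : ∀ x ∈ D, l9_cut A i x) :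
    ∃ T : Finset (Fin P.c), T.card = D.card * P.g ∧
      ∀ l ∈ T, ∃ v ∈ ch.S (i + 1), cls v.1 = none ∧ ch.lab (i + 1) v = l := by
  classical
  have hmem : ∀ x ∈ D, ∀ b : Fin P.g, ((Kd.F x.1 b, x.2) : Vx P) ∈ ch.S (i + 1) := by
    intro x hx b
    obtain ⟨σ, -, h1, -, -, h4⟩ := hD x hx
    exact l9_mem A h1 (by omega) _ _
  refine ⟨(D ×ˢ (Finset.univ : Finset (Fin P.g))).image fun y =>
    ch.lab (i + 1) ((Kd.F y.1.1 y.2, y.1.2) : Vx P), ?_, ?_⟩
  · rw [Finset.card_image_of_injOn]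
    · rw [Finset.card_product, Finset.card_univ, Fintype.card_fin]
    · intro y hy y' hy' hlab
      rw [Finset.mem_coe, Finset.mem_product] at hy hy'
      by_contra hne
      obtain ⟨⟨e, ρ⟩, b⟩ := y
      obtain ⟨⟨e', ρ'⟩, b'⟩ := y'
      obtain ⟨σ, h0, h1, h2, h3, h4⟩ := hD _ hy.1
      have m1 := hmem _ hy.1 b
      have m2 := hmem _ hy'.1 b'
      dsimp only at h0 h1 h2 h3 h4 m1 m2 hlab
      have hadj : (GG P I).Adj ((Kd.F (!e) b, σ) : Vx P) (Kd.F e b, ρ) := by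
        rw [adj_FF]
        refine ⟨h2, h1, rfl, ?_⟩
        rcases h0 with ⟨h5, h6⟩ | ⟨h5, h6⟩
        · right
          subst h5
          exact ⟨rfl, rfl, h6, h3⟩
        · left
          subst h5
          exact ⟨rfl, rfl, h6, h3.symm⟩
      refine ch.sep m1 m2 (w := (Kd.F (!e) b, σ)) ?_ hadj ?_ hlab
      · intro hiff
        rcases h4 with ⟨h5, h6⟩ | ⟨h5, h6⟩
        · exact absurd (hiff.2 (l9_mem A h1 (by omega) _ _)) (l9_nmem A h2 (by omega) _ _)
        · rcases lt_or_gt_of_ne h6 with h7 | h7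
          · exact absurd (hiff.1 (l9_mem A h2 (by omega) _ _)) (l9_nmem A h1 (by omega) _ _)
          · exact l9_nmem A h2 h7 _ _
      · intro h
        obtain ⟨c1, c2, c3⟩ := l9_uniq hadj h
        exact hne (by rw [c1, c2, c3])
  · intro l hl
    rw [Finset.mem_image] at hl
    obtain ⟨y, hy, rfl⟩ := hl
    rw [Finset.mem_product] at hy
    exact ⟨_, hmem _ hy.1 y.2, rfl, rfl⟩

/-- at the attach of a boundary column there are no cut threads -/
theorem l9_U (ok : I.Ok P) (A : Att ch) {t i : ℕ} (ht : 1 ≤ t) (htn : t ≤ I.n) (hbd : I.bd t)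
    (ha : A.a (false, t) = i + 1) {x : Bool × ℕ} (hx : l9_cut A i x) : False := by
  obtain ⟨T, h1, h2⟩ := l9_labels A i {x} (by simpa using hx)
  have h3 := KU_bd ok A ht htn hbd ha T h2
  rw [Finset.card_singleton, one_mul] at h1
  have := P.hg
  omega

/-- at the attach of a W-column there are at most three cut bundles of threads -/
theorem l9_W (ok : I.Ok P) (A : Att ch) {ω i : ℕ} (hω : ω < I.W) (ha : A.a (true, ω) = i + 1)
    (D : Finset (Bool × ℕ)) (hD : ∀ x ∈ D, l9_cut A i x) : D.card ≤ 3 := by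
  obtain ⟨T, h1, h2⟩ := l9_labels A i D hD
  have h3 := KW ok A hω ha ∅ (by simp) T h2
  rw [Finset.card_empty, zero_add] at h3
  unfold Par.κ at h3
  have h4 := P.hg
  by_contra h5
  have h6 : 4 * P.g ≤ D.card * P.g := Nat.mul_le_mul_right _ (by omega)
  omega

/-- the path lemma -/
theorem l9_path (ok : I.Ok P) (A : Att ch) {i ρ ρ' : ℕ} (hρ : ρ < I.W) (hρ' : ρ' < I.W)
    (hj : I.jb ρ = I.jb ρ') (h1 : A.a (true, ρ) < i + 1) (h2 : i + 1 ≤ A.a (true, ρ')) :
    ∃ x : Bool × ℕ, l9_cut A i x ∧ A.a (true, x.2) < i + 1 ∧ I.jb x.2 = I.jb ρ := by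
  classical
  have hne : ρ ≠ ρ' := by rintro rfl; omega
  rcases lt_or_gt_of_ne hne with hlt | hlt
  · have hex : ∃ k, i + 1 ≤ A.a (true, ρ + k) := ⟨ρ' - ρ, by rwa [show ρ + (ρ' - ρ) = ρ' by omega]⟩
    set k := Nat.find hex with hk
    have hk1 : i + 1 ≤ A.a (true, ρ + k) := Nat.find_spec hex
    have hk0 : k ≠ 0 := by
      intro h
      rw [h] at hk1
      simp only [add_zero] at hk1
      omega
    have hkle : k ≤ ρ' - ρ := Nat.find_min' hex (by rwa [show ρ + (ρ' - ρ) = ρ' by omega])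
    have hk2 : A.a (true, ρ + (k - 1)) < i + 1 := by
      have := Nat.find_min hex (show k - 1 < k by omega)
      omega
    have hjb : ∀ τ, ρ ≤ τ → τ ≤ ρ' → I.jb τ = I.jb ρ := by
      intro τ h3 h4
      have e1 := ok.hmono ρ τ h3 (by omega)
      have e2 := ok.hmono τ ρ' h4 hρ'
      omega
    refine ⟨(true, ρ + (k - 1)), ⟨ρ + k, Or.inl ⟨rfl, by dsimp only; omega⟩, by dsimp only; omega,
      by omega, ?_, Or.inl ⟨hk2, hk1⟩⟩, hk2, hjb _ (by omega) (by omega)⟩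
    exact (hjb (ρ + k) (by omega) (by omega)).trans
      (hjb (ρ + (k - 1)) (by omega) (by omega)).symm
  · have hex : ∃ k, A.a (true, ρ' + k) < i + 1 := ⟨ρ - ρ', by rwa [show ρ' + (ρ - ρ') = ρ by omega]⟩
    set k := Nat.find hex with hk
    have hk1 : A.a (true, ρ' + k) < i + 1 := Nat.find_spec hex
    have hk0 : k ≠ 0 := by
      intro h
      rw [h] at hk1
      simp only [add_zero] at hk1
      omega
    have hkle : k ≤ ρ - ρ' := Nat.find_min' hex (by rwa [show ρ' + (ρ - ρ') = ρ by omega])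
    have hk2 : i + 1 ≤ A.a (true, ρ' + (k - 1)) := by
      have := Nat.find_min hex (show k - 1 < k by omega)
      omega
    have hjb : ∀ τ, ρ' ≤ τ → τ ≤ ρ → I.jb τ = I.jb ρ := by
      intro τ h3 h4
      have e1 := ok.hmono ρ' τ h3 (by omega)
      have e2 := ok.hmono τ ρ h4 hρ
      omega
    refine ⟨(false, ρ' + k), ⟨ρ' + (k - 1), Or.inr ⟨rfl, by dsimp only; omega⟩, by dsimp only; omega,
      by omega, ?_, Or.inl ⟨hk1, hk2⟩⟩, hk1, hjb _ (by omega) (by omega)⟩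
    exact (hjb (ρ' + (k - 1)) (by omega) (by omega)).trans
      (hjb (ρ' + k) (by omega) (by omega)).symm

theorem l9_c (P : Par) : 2 ≤ P.c + 1 := by
  unfold Par.c Par.κ
  omega

theorem l9_mod {m a : ℕ} (hm : 2 ≤ m) : (a + 1) % m ≠ a % m := by
  intro h
  have h1 : (a + 1) ≡ (a + 0) [MOD m] := h
  have h2 := Nat.ModEq.add_left_cancel' a h1
  have h3 : 1 % m = 0 % m := h2
  rw [Nat.mod_eq_of_lt (by omega)] at h3
  simp at h3

/-- neighbouring W-columns are not attached together -/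
theorem l9_res (ok : I.Ok P) (A : Att ch) {ω i : ℕ} (hω : ω < I.W) (hω' : ω + 1 < I.W) :
    ¬ (A.a (true, ω) = i + 1 ∧ A.a (true, ω + 1) = i + 1) := by
  rintro ⟨h1, h2⟩
  exact l9_mod (l9_c P) (RES ok A hω' hω h2 h1)

/-- an attached column has a cut bundle of threads -/
theorem l9_dir (ok : I.Ok P) (A : Att ch) {ω i : ℕ} (hω : ω < I.W) (ha : A.a (true, ω) = i + 1) :
    ∃ e : Bool, l9_cut A i (e, ω) := by
  have hc := l9_c P
  set m := P.c + 1 with hm
  have hW := ok.hW0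
  rw [← hm] at hW
  have hj := ok.hjb
  rw [← hm] at hj
  by_cases h : ω % m = 0
  · -- the next column
    have hlt : ω + 1 < I.W := by
      obtain ⟨q, hq⟩ := Nat.dvd_of_mod_eq_zero hW
      obtain ⟨q', hq'⟩ := Nat.dvd_of_mod_eq_zero h
      have h1 : q' < q := by
        by_contra h2
        have : m * q ≤ m * q' := Nat.mul_le_mul_left _ (by omega)
        omega
      have h3 : m * (q' + 1) ≤ m * q := Nat.mul_le_mul_left _ (by omega)
      have h4 : m * (q' + 1) = m * q' + m := by ring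
      omega
    have hdiv : (ω + 1) / m = ω / m := by
      rw [Nat.add_div (by omega), h, Nat.div_eq_of_lt (show 1 < m by omega),
        Nat.mod_eq_of_lt (show 1 < m by omega), if_neg (by omega), add_zero, add_zero]
    refine ⟨true, ω + 1, Or.inl ⟨rfl, rfl⟩, hω, hlt, ?_, Or.inr ⟨ha, ?_⟩⟩
    · rw [hj _ hlt, hj _ hω, hdiv]
    · intro h1
      exact l9_res ok A hω hlt ⟨ha, h1⟩
  · -- the previous column
    have hpos : ω ≠ 0 := by
      rintro rfl
      exact h (Nat.zero_mod _)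
    obtain ⟨ω', rfl⟩ : ∃ ω', ω = ω' + 1 := ⟨ω - 1, by omega⟩
    have hdiv : (ω' + 1) / m = ω' / m := by
      have h1 : ¬ m ∣ ω' + 1 := fun h2 => h (Nat.mod_eq_zero_of_dvd h2)
      rw [Nat.succ_div, if_neg h1, add_zero]
    refine ⟨false, ω', Or.inr ⟨rfl, rfl⟩, hω, by omega, ?_, Or.inr ⟨ha, ?_⟩⟩
    · dsimp only
      rw [hj _ hω, hj ω' (by omega), hdiv]
    · intro h1
      exact l9_res ok A (show ω' < I.W by omega) hω ⟨h1, ha⟩

/-- both directions for an interior column -/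
theorem l9_int (ok : I.Ok P) (A : Att ch) {ω i : ℕ} (hω : ω < I.W) (ha : A.a (true, ω) = i + 1)
    (hint : interior I ω) (e : Bool) : l9_cut A i (e, ω) := by
  obtain ⟨h1, h2, h3, h4⟩ := hint
  cases e with
  | true =>
    refine ⟨ω + 1, Or.inl ⟨rfl, rfl⟩, hω, h2, h4, Or.inr ⟨ha, ?_⟩⟩
    intro h5
    exact l9_res ok A hω h2 ⟨ha, h5⟩
  | false =>
    refine ⟨ω - 1, Or.inr ⟨rfl, by dsimp only; omega⟩, hω, by omega, h3, Or.inr ⟨ha, ?_⟩⟩
    intro h5
    refine l9_res ok A (show ω - 1 < I.W by omega) (by omega) ⟨h5, ?_⟩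
    rwa [show ω - 1 + 1 = ω by omega]

/-- no job is half attached at the attach of a boundary column -/
theorem THU (ok : I.Ok P) (A : Att ch) {t i : ℕ} (ht : 1 ≤ t) (htn : t ≤ I.n) (hbd : I.bd t)
    (ha : A.a (false, t) = i + 1) {ρ ρ' : ℕ} (hρ : ρ < I.W) (hρ' : ρ' < I.W)
    (hj : I.jb ρ = I.jb ρ') (h1 : A.a (true, ρ) < i + 1) (h2 : i + 1 < A.a (true, ρ')) : False := by
  obtain ⟨x, hx, -⟩ := l9_path ok A hρ hρ' hj h1 h2.le
  exact l9_U ok A ht htn hbd ha hx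

/-- at most three W-columns are attached together -/
theorem TH3 (ok : I.Ok P) (A : Att ch) {ω i : ℕ} (hω : ω < I.W) (ha : A.a (true, ω) = i + 1) :
    ((Finset.range I.W).filter fun ω' => A.a (true, ω') = i + 1).card ≤ 3 := by
  classical
  have hdir : ∀ ρ, ∃ e : Bool, ρ < I.W → A.a (true, ρ) = i + 1 → l9_cut A i (e, ρ) := by
    intro ρ
    by_cases h : ρ < I.W ∧ A.a (true, ρ) = i + 1
    · obtain ⟨e, he⟩ := l9_dir ok A h.1 h.2
      exact ⟨e, fun _ _ => he⟩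
    · exact ⟨true, fun h1 h2 => absurd ⟨h1, h2⟩ h⟩
  choose f hf using hdir
  set R := (Finset.range I.W).filter fun ω' => A.a (true, ω') = i + 1 with hR
  have h1 : (R.image fun ρ => (f ρ, ρ)).card = R.card := by
    apply Finset.card_image_of_injective
    intro a b hab
    exact (Prod.ext_iff.1 hab).2
  rw [← h1]
  refine l9_W ok A hω ha _ ?_
  intro x hx
  rw [Finset.mem_image] at hx
  obtain ⟨ρ, hρ, rfl⟩ := hx
  rw [hR, Finset.mem_filter, Finset.mem_range] at hρ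
  exact hf ρ hρ.1 hρ.2

/-- four different cut bundles are impossible -/
theorem l9_four (ok : I.Ok P) (A : Att ch) {ω i : ℕ} (hω : ω < I.W) (ha : A.a (true, ω) = i + 1)
    {x y z w : Bool × ℕ} (hx : l9_cut A i x) (hy : l9_cut A i y) (hz : l9_cut A i z)
    (hw : l9_cut A i w) (h1 : x ≠ y) (h2 : x ≠ z) (h3 : x ≠ w) (h4 : y ≠ z) (h5 : y ≠ w)
    (h6 : z ≠ w) : False := by
  have h := l9_W ok A hω ha {x, y, z, w} (by
    intro u hu
    simp only [Finset.mem_insert, Finset.mem_singleton] at hu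
    rcases hu with rfl | rfl | rfl | rfl <;> assumption)
  have hc : ({x, y, z, w} : Finset (Bool × ℕ)).card = 4 := by
    rw [Finset.card_insert_of_notMem, Finset.card_insert_of_notMem, Finset.card_insert_of_notMem,
      Finset.card_singleton]
    · simpa using h6
    · simp [h4, h5]
    · simp [h1, h2, h3]
  omega

/-- the attach of an inner column of a job which has already begun: no other column -/
theorem TH1 (ok : I.Ok P) (A : Att ch) {ω i : ℕ} (hω : ω < I.W) (ha : A.a (true, ω) = i + 1)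
    (hint : interior I ω) (hin : ∃ σ < I.W, I.jb σ = I.jb ω ∧ A.a (true, σ) < i + 1)
    {ω' : ℕ} (hω' : ω' < I.W) (ha' : A.a (true, ω') = i + 1) : ω' = ω := by
  by_contra hne
  obtain ⟨σ, hσ, hjσ, haσ⟩ := hin
  obtain ⟨x, hx, hx2, -⟩ := l9_path ok A hσ hω hjσ haσ ha.ge
  obtain ⟨e, he⟩ := l9_dir ok A hω' ha'
  have hxω : x.2 ≠ ω := by intro h; rw [h] at hx2; omega
  have hxω' : x.2 ≠ ω' := by intro h; rw [h] at hx2; omega
  refine l9_four ok A hω ha (l9_int ok A hω ha hint true) (l9_int ok A hω ha hint false) hx he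
    ?_ ?_ ?_ ?_ ?_ ?_
  · intro h; cases h
  · intro h; exact hxω (by rw [← h])
  · intro h; exact hne (Prod.ext_iff.1 h).2.symm
  · intro h; exact hxω (by rw [← h])
  · intro h; exact hne (Prod.ext_iff.1 h).2.symm
  · intro h; exact hxω' (by rw [h])

/-- the attach of an inner column of a job which has already begun: no other job is half attached -/
theorem TH2 (ok : I.Ok P) (A : Att ch) {ω i : ℕ} (hω : ω < I.W) (ha : A.a (true, ω) = i + 1)
    (hint : interior I ω) (hin : ∃ σ < I.W, I.jb σ = I.jb ω ∧ A.a (true, σ) < i + 1)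
    {ρ ρ' : ℕ} (hρ : ρ < I.W) (hρ' : ρ' < I.W) (hj : I.jb ρ = I.jb ρ') (hj' : I.jb ρ ≠ I.jb ω)
    (h1 : A.a (true, ρ) < i + 1) (h2 : i + 1 < A.a (true, ρ')) : False := by
  obtain ⟨σ, hσ, hjσ, haσ⟩ := hin
  obtain ⟨x, hx, hx2, hx3⟩ := l9_path ok A hσ hω hjσ haσ ha.ge
  obtain ⟨y, hy, hy2, hy3⟩ := l9_path ok A hρ hρ' hj h1 h2.le
  have hxω : x.2 ≠ ω := by intro h; rw [h] at hx2; omega
  have hyω : y.2 ≠ ω := by intro h; rw [h] at hy2; omega
  have hxy : x ≠ y := by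
    intro h
    apply hj'
    rw [← hy3, ← h, hx3, hjσ]
  refine l9_four ok A hω ha (l9_int ok A hω ha hint true) (l9_int ok A hω ha hint false) hx hy
    ?_ ?_ ?_ ?_ ?_ hxy
  · intro h; cases h
  · intro h; exact hxω (by rw [← h])
  · intro h; exact hyω (by rw [← h])
  · intro h; exact hxω (by rw [← h])
  · intro h; exact hyω (by rw [← h])

end Pool.Agent.H.MP_701cec_lc
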