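import Pool.Agent.H.MP_701cec_lc.L4b
import Pool.Agent.H.MP_701cec_lc.L8a
import Pool.Agent.H.MP_701cec_lc.L8b
import Pool.Agent.H.MP_701cec_lc.L9

/-!
The lower bound: a chain gives a weak schedule.
-/

namespace Pool.Agent.H.MP_701cec_lc

variable {P : Par} {I : Inst} {ch : Ch P I}

section
variable (A : Att ch)

/-- the first U-column which is attached at time `i` or later -/
noncomputable def Att.first (i : ℕ) : ℕ := by
  classical
  exact if h : ∃ t, 1 ≤ t ∧ t ≤ I.n ∧ i ≤ A.a (false, t) then Nat.find h else 0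

theorem Att.first_spec (ok : I.Ok P) {ω i : ℕ} (hω : ω < I.W) (ha : A.a (true, ω) = i + 1) :
    1 ≤ A.first (i + 1) ∧ A.first (i + 1) ≤ I.n ∧ i + 1 < A.a (false, A.first (i + 1)) ∧
      ∀ s, 1 ≤ s → s < A.first (i + 1) → A.a (false, s) < i + 1 := by
  classical
  have h : ∃ t, 1 ≤ t ∧ t ≤ I.n ∧ i + 1 ≤ A.a (false, t) := by
    obtain ⟨t, h1, h2, h3⟩ := RE ok A hω ha
    exact ⟨t, h1, h2, h3.le⟩
  have e : A.first (i + 1) = Nat.find h := by
    unfold Att.first
    rw [dif_pos h]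
  rw [e]
  obtain ⟨h1, h2, h3⟩ := Nat.find_spec h
  refine ⟨h1, h2, ?_, ?_⟩
  · rcases h3.lt_or_eq with h4 | h4
    · exact h4
    · exact absurd ha (UW ok A h1 h2 hω h4.symm)
  · intro s hs hs'
    have := Nat.find_min h hs'
    push Not at this
    exact this hs (by omega)

end

/-- a chain gives a weak schedule -/
theorem wsched_of_chain (ok : I.Ok P) (ch : Ch P I) : Nonempty (WSched I P.r1) := by
  classical
  obtain ⟨A⟩ := exists_att ok ch
  have hex : ∀ ω, 1 ≤ A.a (true, ω) → ∃ i, A.a (true, ω) = i + 1 := fun ω h => ⟨A.a (true, ω) - 1, by omega⟩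
  refine ⟨{
    a := fun ω => A.a (true, ω)
    tk := fun ω => A.first (A.a (true, ω))
    pre := ?_
    tk_pos := ?_
    letter := ?_
    tk_eq := ?_
    tk_lt := ?_
    three := ?_
    uniq := ?_
    alone := ?_
    bnd := ?_ }⟩
  · apply meet_card ok ch
    intro ω hω
    rw [Finset.mem_filter, Finset.mem_range] at hω
    refine ⟨hω.1, ((Kd.F true ⟨0, ?_⟩, ω) : Vx P), ?_, ?_⟩
    · have := P.hg; omega
    · refine ⟨rfl, rfl, ?_⟩
      exact hω.1
    · have hc : isCol I (true, ω) := Or.inr ⟨rfl, hω.1⟩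
      have := A.hfull (true, ω) hc (Kd.F true ⟨0, by have := P.hg; omega⟩, ω) ⟨rfl, rfl, hω.1⟩
      rw [hω.2] at this
      exact this
  · intro ω hω h1
    obtain ⟨i, hi⟩ := hex ω h1
    beta_reduce
    rw [hi]
    obtain ⟨a1, a2, -⟩ := A.first_spec ok hω hi
    exact ⟨a1, a2⟩
  · intro ω hω h1
    obtain ⟨i, hi⟩ := hex ω h1
    beta_reduce
    rw [hi]
    obtain ⟨a1, a2, a3, a4⟩ := A.first_spec ok hω hi
    exact (CL ok A hω hi a1 a2 a3 fun s h h' => (a4 s h h').le).2.2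
  · intro ω hω ω' hω' h1 h2
    beta_reduce
    rw [h2]
  · intro ω hω ω' hω' h1 h2
    beta_reduce at h1 h2 ⊢
    obtain ⟨i, hi⟩ := hex ω h1
    obtain ⟨j, hj⟩ := hex ω' (by omega)
    rw [hi, hj] at h2 ⊢
    obtain ⟨a1, a2, a3, a4⟩ := A.first_spec ok hω hi
    obtain ⟨b1, b2, b3, b4⟩ := A.first_spec ok hω' hj
    have c1 := CL ok A hω hi a1 a2 a3 fun s h h' => (a4 s h h').le
    have c2 := CL ok A hω' hj b1 b2 b3 fun s h h' => (b4 s h h').le
    rcases lt_trichotomy (A.first (i + 1)) (A.first (j + 1)) with h | h | h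
    · exact h
    · exfalso
      rw [h] at c1
      exact c2.2.1 (ch.le (by omega) c1.1)
    · exfalso
      have := a4 _ b1 h
      omega
  · intro ω hω h1
    beta_reduce at h1 ⊢
    obtain ⟨i, hi⟩ := hex ω h1
    rw [hi]
    exact TH3 ok A hω hi
  · intro ω hω h1 hint hin ω' hω' h2
    beta_reduce at h1 hin h2
    obtain ⟨i, hi⟩ := hex ω h1
    rw [hi] at hin h2
    exact TH1 ok A hω hi hint hin hω' h2
  · intro ω hω h1 hint hin ρ hρ ρ' hρ' hj hj' h2 h3
    beta_reduce at h1 hin h2 h3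
    obtain ⟨i, hi⟩ := hex ω h1
    rw [hi] at hin h2 h3
    exact TH2 ok A hω hi hint hin hρ hρ' hj hj' h2 h3
  · intro ρ hρ ρ' hρ' hj h1 h2 β hβ h3 h4
    beta_reduce at h1 h2 h3 h4
    obtain ⟨i, hi⟩ := hex ρ h1
    obtain ⟨j, hj'⟩ := hex ρ' h2
    rw [hi] at h3
    rw [hj'] at h4
    obtain ⟨a1, a2, a3, a4⟩ := A.first_spec ok hρ hi
    obtain ⟨b1, b2, b3, b4⟩ := A.first_spec ok hρ' hj'
    have hβ1 : 1 ≤ β := by omega
    have hβn : β ≤ I.n := by omega
    have e1 : i + 1 < A.a (false, β) := by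
      rcases h3.lt_or_eq with h5 | h5
      · obtain ⟨l, hl⟩ : ∃ l, A.a (false, A.first (i + 1)) = l + 1 :=
          ⟨A.a (false, A.first (i + 1)) - 1, by omega⟩
        have := OL ok A a1 h5 hβn hl
        omega
      · rw [← h5]; exact a3
    have e2 : A.a (false, β) < j + 1 := b4 β hβ1 h4
    obtain ⟨l, hl⟩ : ∃ l, A.a (false, β) = l + 1 := ⟨A.a (false, β) - 1, by omega⟩
    exact THU ok A hβ1 hβn hβ hl hρ hρ' hj (by rw [hi]; omega) (by rw [hj']; omega)

end Pool.Agent.H.MP_701cec_lc
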