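import Pool.Agent.H.MP_701cec_lc.L1

/-!
Few W-columns meet the lowest level.
-/

namespace Pool.Agent.H.MP_701cec_lc

variable {P : Par} {I : Inst}

theorem l2_g_pos (P : Par) : 0 < P.g := by have := P.hg; omega

theorem l2_isF {v : Vx P} {ω : ℕ} (h : inCol I (true, ω) v) (hF : isF v.1 = true) :
    ∃ e b, v = ((Kd.F e b, ω) : Vx P) := by
  obtain ⟨k, s⟩ := v
  obtain ⟨h1, h2, h3⟩ := h
  rcases k with ⟨j', _ | _⟩ | ⟨j', _ | _⟩ | i | i | i | b' | ⟨e, i⟩ | ⟨e, b'⟩ | _ | ⟨o, q⟩ | ⟨k, s'⟩ | ⟨e, s'⟩ <;>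
    simp_all [isF]

theorem l2_inF {ω : ℕ} (h : ω < I.W) (e : Bool) (b : Fin P.g) :
    inCol I (true, ω) ((Kd.F e b, ω) : Vx P) := ⟨rfl, rfl, h⟩

theorem l2_inX {ω : ℕ} (h : ω < I.W) (j : Fin P.M) :
    inCol I (true, ω) ((Kd.X j true, ω) : Vx P) := ⟨rfl, rfl, h⟩

theorem l2_inC {ω : ℕ} (h : ω < I.W) (e : Bool) (i : Fin P.p) :
    inCol I (true, ω) ((Kd.C e i, ω) : Vx P) := ⟨rfl, rfl, h⟩

/-- the two cases for a column which is cut -/
theorem l2_cut {S : Finset (Vx P)} {ω : ℕ} (hω : ω < I.W)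
    (h1 : ∃ v : Vx P, inCol I (true, ω) v ∧ v ∈ S)
    (h2 : ∃ v : Vx P, inCol I (true, ω) v ∧ v ∉ S) :
    (∃ f w : Vx P, inCol I (true, ω) f ∧ isF f.1 = true ∧ f ∈ S ∧
      inCol I (true, ω) w ∧ isF w.1 = false ∧ w ∉ S) ∨
    (∃ f w : Vx P, inCol I (true, ω) f ∧ isF f.1 = true ∧ f ∉ S ∧
      inCol I (true, ω) w ∧ isF w.1 = false ∧ w ∈ S) := by
  by_contra hcon
  push Not at hcon
  obtain ⟨c1, c2⟩ := hcon
  obtain ⟨v, hv, hvS⟩ := h1
  obtain ⟨v', hv', hvS'⟩ := h2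
  have hf := l2_inF (P := P) hω true ⟨0, l2_g_pos P⟩
  have hx := l2_inX (P := P) hω ⟨0, by have := P.M_pos; omega⟩
  by_cases hfS : ((Kd.F true ⟨0, l2_g_pos P⟩, ω) : Vx P) ∈ S
  · have hxS := c1 _ _ hf rfl hfS hx rfl
    cases hb : isF v'.1 with
    | true =>
      by_contra
      exact c2 _ _ hv' hb hvS' hx rfl hxS
    | false => exact hvS' (c1 _ _ hf rfl hfS hv' hb)
  · have hxS := c2 _ _ hf rfl hfS hx rfl
    cases hb : isF v.1 with
    | true => exact hxS (c1 _ _ hv hb hvS hx rfl)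
    | false => exact c2 _ _ hf rfl hfS hv hb hvS

/-- W-columns which are cut by a set with few types -/
theorem partial_card {S : Finset (Vx P)} (htc : TC (GG P I) P.c S) (T : Finset ℕ)
    (hT : ∀ ω ∈ T, ω < I.W ∧ (∃ v : Vx P, inCol I (true, ω) v ∧ v ∈ S) ∧
      ∃ v : Vx P, inCol I (true, ω) v ∧ v ∉ S) : T.card ≤ 2 * P.c := by
  classical
  have hcut := fun ω hω => l2_cut (hT ω hω).1 (hT ω hω).2.1 (hT ω hω).2.2
  set p1 : ℕ → Prop := fun ω => ∃ f w : Vx P, inCol I (true, ω) f ∧ isF f.1 = true ∧ f ∈ S ∧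
      inCol I (true, ω) w ∧ isF w.1 = false ∧ w ∉ S with hp1
  set p2 : ℕ → Prop := fun ω => ∃ f w : Vx P, inCol I (true, ω) f ∧ isF f.1 = true ∧ f ∉ S ∧
      inCol I (true, ω) w ∧ isF w.1 = false ∧ w ∈ S with hp2
  have hsub : T ⊆ T.filter p1 ∪ T.filter p2 := by
    intro ω hω
    rw [Finset.mem_union, Finset.mem_filter, Finset.mem_filter]
    rcases hcut ω hω with h | h
    · exact Or.inl ⟨hω, h⟩
    · exact Or.inr ⟨hω, h⟩
  have e1 : (T.filter p1).card ≤ P.c := by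
    have hch : ∀ ω, ∃ fw : Vx P × Vx P, ω ∈ T.filter p1 →
        (inCol I (true, ω) fw.1 ∧ isF fw.1.1 = true ∧ fw.1 ∈ S ∧
          inCol I (true, ω) fw.2 ∧ isF fw.2.1 = false ∧ fw.2 ∉ S) := by
      intro ω
      by_cases h : ω ∈ T.filter p1
      · obtain ⟨f, w, hfw⟩ := (Finset.mem_filter.1 h).2
        exact ⟨(f, w), fun _ => hfw⟩
      · exact ⟨((Kd.S, 0), (Kd.S, 0)), fun h' => absurd h' h⟩
    choose fw hfw using hch
    refine tc_card htc (T.filter p1) (fun ω => (fw ω).1) (fun ω hω => (hfw ω hω).2.2.1) ?_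
    intro a ha b hb hab
    obtain ⟨a1, a2, a3, a4, a5, a6⟩ := hfw a ha
    obtain ⟨b1, b2, b3, b4, b5, b6⟩ := hfw b hb
    refine ⟨(fw a).2, a6, ?_⟩
    intro hiff
    have hadj : (GG P I).Adj (fw a).1 (fw a).2 := by
      refine adj_col a1 a4 ?_ ?_
      · intro h
        rw [h, a5] at a2
        cases a2
      · rintro ⟨-, h⟩
        rw [a5] at h
        cases h
    have h3 := hiff.1 hadj
    obtain ⟨e, b', hb'⟩ := l2_isF b1 b2
    rw [hb'] at h3
    have h4 := adj_F_nonF a5 h3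
    have h5 : (fw a).2.2 = b := h4.2.1
    have h6 : (fw a).2.2 = a := a4.2.1
    exact hab (h6.symm.trans h5)
  have e2 : (T.filter p2).card ≤ P.c := by
    have hch : ∀ ω, ∃ fw : Vx P × Vx P, ω ∈ T.filter p2 →
        (inCol I (true, ω) fw.1 ∧ isF fw.1.1 = true ∧ fw.1 ∉ S ∧
          inCol I (true, ω) fw.2 ∧ isF fw.2.1 = false ∧ fw.2 ∈ S) := by
      intro ω
      by_cases h : ω ∈ T.filter p2
      · obtain ⟨f, w, hfw⟩ := (Finset.mem_filter.1 h).2
        exact ⟨(f, w), fun _ => hfw⟩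
      · exact ⟨((Kd.S, 0), (Kd.S, 0)), fun h' => absurd h' h⟩
    choose fw hfw using hch
    refine tc_card htc (T.filter p2) (fun ω => (fw ω).2) (fun ω hω => (hfw ω hω).2.2.2.2.2) ?_
    intro a ha b hb hab
    obtain ⟨a1, a2, a3, a4, a5, a6⟩ := hfw a ha
    obtain ⟨b1, b2, b3, b4, b5, b6⟩ := hfw b hb
    refine ⟨(fw a).1, a3, ?_⟩
    intro hiff
    have hadj : (GG P I).Adj (fw a).2 (fw a).1 := by
      refine adj_col a4 a1 ?_ ?_
      · intro h
        rw [← h, a5] at a2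
        cases a2
      · rintro ⟨h, -⟩
        rw [a5] at h
        cases h
    have h3 := (hiff.1 hadj).symm
    obtain ⟨e, b', hb'⟩ := l2_isF a1 a2
    rw [hb'] at h3
    have h4 := adj_F_nonF b5 h3
    have h5 : (fw b).2.2 = a := h4.2.1
    have h6 : (fw b).2.2 = b := b4.2.1
    exact hab (h5.symm.trans h6)
  have h3 := Finset.card_le_card hsub
  have h4 := Finset.card_union_le (T.filter p1) (T.filter p2)
  omega

theorem l2_div {W L : ℕ} (hL : 0 < L) (hW : W % L = 0) {ω ω' : ℕ} (h : ω < W)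
    (he : ω' / L = ω / L) : ω' < W := by
  obtain ⟨k, rfl⟩ := Nat.dvd_of_mod_eq_zero hW
  have h1 : ω / L < k := Nat.div_lt_of_lt_mul h
  rw [← he] at h1
  rw [mul_comm]
  exact (Nat.div_lt_iff_lt_mul hL).1 h1

/-- the columns of a window are not all contained in a set which is not good -/
theorem l2_window {Z : Finset (Vx P)} (hZ : ¬ good P Z)
    (htc : TC (GG P I) P.c Z) (q : ℕ)
    (hq : ∀ ω, ω / (P.c + 1) = q → ω < I.W) :
    ∃ ω, ω / (P.c + 1) = q ∧ ¬ ∀ v : Vx P, inCol I (true, ω) v → v ∈ Z := by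
  classical
  by_contra hcon
  push Not at hcon
  have hLa := exists_La hZ htc
  choose x hx using hLa
  have hp0 : 0 < P.p := by have := P.hp; omega
  have h1 : (Finset.range (P.c + 1)).card ≤ P.c := by
    refine tc_card htc (Finset.range (P.c + 1))
      (fun r => ((Kd.C false ⟨0, hp0⟩, q * (P.c + 1) + r) : Vx P)) ?_ ?_
    · intro r hr
      rw [Finset.mem_range] at hr
      have hd : (q * (P.c + 1) + r) / (P.c + 1) = q := by
        rw [mul_comm, Nat.mul_add_div (by omega), Nat.div_eq_of_lt hr, add_zero]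
      exact hcon _ hd _ (l2_inC (hq _ hd) _ _)
    · intro r hr s hs hrs
      rw [Finset.mem_range] at hr hs
      have hml := P.hml
      have hne : 2 * r ≠ 2 * s := by omega
      have hr2 : 2 * r < 2 ^ P.ml := by
        unfold Par.c Par.κ at hr
        omega
      have hs2 : 2 * s < 2 ^ P.ml := by
        unfold Par.c Par.κ at hs
        omega
      obtain ⟨k, hk⟩ : ∃ k, Nat.testBit (2 * r) k ≠ Nat.testBit (2 * s) k := by
        by_contra h
        push Not at h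
        exact hne (Nat.eq_of_testBit_eq h)
      have hkl : k < P.ml := by
        by_contra hk'
        push Not at hk'
        apply hk
        rw [Nat.testBit_eq_false_of_lt (lt_of_lt_of_le hr2 (Nat.pow_le_pow_right (by norm_num) hk')),
          Nat.testBit_eq_false_of_lt (lt_of_lt_of_le hs2 (Nat.pow_le_pow_right (by norm_num) hk'))]
      have hdr : (q * (P.c + 1) + r) / (P.c + 1) = q := by
        rw [mul_comm, Nat.mul_add_div (by omega), Nat.div_eq_of_lt hr, add_zero]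
      have hds : (q * (P.c + 1) + s) / (P.c + 1) = q := by
        rw [mul_comm, Nat.mul_add_div (by omega), Nat.div_eq_of_lt hs, add_zero]
      have hmr : (q * (P.c + 1) + r) % (P.c + 1) = r := by
        rw [mul_comm, Nat.mul_add_mod, Nat.mod_eq_of_lt hr]
      have hms : (q * (P.c + 1) + s) % (P.c + 1) = s := by
        rw [mul_comm, Nat.mul_add_mod, Nat.mod_eq_of_lt hs]
      refine ⟨((Kd.La ⟨k, hkl⟩ (x ⟨k, hkl⟩), 0) : Vx P), hx _, ?_⟩
      rw [(GG P I).adj_comm, (GG P I).adj_comm _ (Kd.La ⟨k, hkl⟩ (x ⟨k, hkl⟩), 0), adj_LaC,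
        adj_LaC, hmr, hms]
      simp only [hq _ hdr, hq _ hds, true_and, Bool.toNat_false, add_zero]
      intro h
      apply hk
      rw [Bool.eq_iff_iff]
      exact h
  rw [Finset.card_range] at h1
  omega

/-- a discrete intermediate value theorem for windows -/
theorem l2_ivt {L q : ℕ} (F : ℕ → Prop) {a b : ℕ} (ha : a / L = q) (hb : b / L = q)
    (hFa : F a) (hFb : ¬ F b) :
    ∃ ρ, ρ / L = q ∧ (ρ + 1) / L = q ∧ ¬ (F ρ ↔ F (ρ + 1)) := by
  by_contra hcon
  push Not at hcon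
  have key : ∀ d s, s / L = q → (s + d) / L = q → (F s ↔ F (s + d)) := by
    intro d
    induction d with
    | zero => intro s _ _; exact Iff.rfl
    | succ d ih =>
      intro s hs hs'
      have h1 : (s + d) / L = q := by
        apply le_antisymm
        · rw [← hs']
          exact Nat.div_le_div_right (by omega)
        · rw [← hs]
          exact Nat.div_le_div_right (by omega)
      rw [ih s hs h1]
      exact hcon (s + d) h1 hs'
  rcases le_total a b with h | h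
  · obtain ⟨d, rfl⟩ := Nat.exists_eq_add_of_le h
    exact hFb ((key d a ha hb).1 hFa)
  · obtain ⟨d, rfl⟩ := Nat.exists_eq_add_of_le h
    exact hFb ((key d b hb ha).2 hFa)

/-- W-columns which are contained in a set which is not good -/
theorem full_card (ok : I.Ok P) {Z : Finset (Vx P)} (hZ : ¬ good P Z) (htc : TC (GG P I) P.c Z)
    (T : Finset ℕ) (hT : ∀ ω ∈ T, ω < I.W ∧ ∀ v : Vx P, inCol I (true, ω) v → v ∈ Z) :
    T.card ≤ 3 * P.c * (P.c + 1) := by
  classical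
  have hL : 0 < P.c + 1 := by omega
  set Q : Finset ℕ := T.image fun ω => ω / (P.c + 1) with hQ
  have hQW : ∀ q ∈ Q, ∀ ω, ω / (P.c + 1) = q → ω < I.W := by
    intro q hq ω hω
    rw [hQ, Finset.mem_image] at hq
    obtain ⟨ω', hω', rfl⟩ := hq
    exact l2_div hL ok.hW0 (hT ω' hω').1 hω
  -- windows with a column which is cut
  set pc : ℕ → Prop := fun q => ∃ ω, ω / (P.c + 1) = q ∧ ω < I.W ∧
    (∃ v : Vx P, inCol I (true, ω) v ∧ v ∈ Z) ∧ ∃ v : Vx P, inCol I (true, ω) v ∧ v ∉ Z with hpc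
  have e1 : (Q.filter pc).card ≤ 2 * P.c := by
    have hch : ∀ q, ∃ ω, q ∈ Q.filter pc → ω / (P.c + 1) = q ∧ ω < I.W ∧
        (∃ v : Vx P, inCol I (true, ω) v ∧ v ∈ Z) ∧
          ∃ v : Vx P, inCol I (true, ω) v ∧ v ∉ Z := by
      intro q
      by_cases h : q ∈ Q.filter pc
      · obtain ⟨ω, hω⟩ := (Finset.mem_filter.1 h).2
        exact ⟨ω, fun _ => hω⟩
      · exact ⟨0, fun h' => absurd h' h⟩
    choose φ hφ using hch
    have h1 : ((Q.filter pc).image φ).card = (Q.filter pc).card := by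
      apply Finset.card_image_of_injOn
      intro a ha b hb hab
      have h2 := (hφ a ha).1
      have h3 := (hφ b hb).1
      rw [hab] at h2
      exact h2.symm.trans h3
    rw [← h1]
    refine partial_card htc _ ?_
    intro ω hω
    rw [Finset.mem_image] at hω
    obtain ⟨q, hq, rfl⟩ := hω
    exact (hφ q hq).2
  have e2 : (Q.filter fun q => ¬ pc q).card ≤ P.c := by
    have hch : ∀ q, ∃ t : Bool × ℕ × ℕ, q ∈ Q.filter (fun q => ¬ pc q) →
        t.2.1 / (P.c + 1) = q ∧ t.2.2 / (P.c + 1) = q ∧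
        ((Kd.F t.1 ⟨0, l2_g_pos P⟩, t.2.1) : Vx P) ∈ Z ∧
        ((Kd.F (!t.1) ⟨0, l2_g_pos P⟩, t.2.2) : Vx P) ∉ Z ∧
        ((t.1 = true ∧ t.2.2 = t.2.1 + 1) ∨ (t.1 = false ∧ t.2.1 = t.2.2 + 1)) := by
      intro q
      by_cases h : q ∈ Q.filter (fun q => ¬ pc q)
      · obtain ⟨hq, hnc⟩ := Finset.mem_filter.1 h
        have hW := hQW q hq
        obtain ⟨b, hb, hbn⟩ := l2_window hZ htc q hW
        have hq' := hq
        rw [hQ, Finset.mem_image] at hq'
        obtain ⟨a, haT, ha⟩ := hq'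
        obtain ⟨ρ, h1, h2, h3⟩ := l2_ivt
          (fun ω => ∀ v : Vx P, inCol I (true, ω) v → v ∈ Z) ha hb (hT a haT).2 hbn
        have hdis : ∀ ω, ω / (P.c + 1) = q → (¬ ∀ v : Vx P, inCol I (true, ω) v → v ∈ Z) →
            ∀ v : Vx P, inCol I (true, ω) v → v ∉ Z := by
          intro ω hω hn v hv hvZ
          apply hnc
          refine ⟨ω, hω, hW ω hω, ⟨v, hv, hvZ⟩, ?_⟩
          push Not at hn
          exact hn
        by_cases h4 : ∀ v : Vx P, inCol I (true, ρ) v → v ∈ Z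
        · have h5 : ¬ ∀ v : Vx P, inCol I (true, ρ + 1) v → v ∈ Z := by
            intro h5
            exact h3 ⟨fun _ => h5, fun _ => h4⟩
          refine ⟨(true, ρ, ρ + 1), fun _ => ⟨h1, h2, h4 _ (l2_inF (hW _ h1) _ _),
            hdis _ h2 h5 _ (l2_inF (hW _ h2) _ _), Or.inl ⟨rfl, rfl⟩⟩⟩
        · have h5 : ∀ v : Vx P, inCol I (true, ρ + 1) v → v ∈ Z := by
            by_contra h5
            exact h3 ⟨fun h => absurd h h4, fun h => absurd h h5⟩
          refine ⟨(false, ρ + 1, ρ), fun _ => ⟨h2, h1, h5 _ (l2_inF (hW _ h2) _ _),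
            hdis _ h1 h4 _ (l2_inF (hW _ h1) _ _), Or.inr ⟨rfl, rfl⟩⟩⟩
      · exact ⟨(true, 0, 0), fun h' => absurd h' h⟩
    choose t ht using hch
    refine tc_card htc _ (fun q => ((Kd.F (t q).1 ⟨0, l2_g_pos P⟩, (t q).2.1) : Vx P))
      (fun q hq => (ht q hq).2.2.1) ?_
    intro a ha b hb hab
    obtain ⟨a1, a2, a3, a4, a5⟩ := ht a ha
    obtain ⟨b1, b2, b3, b4, b5⟩ := ht b hb
    refine ⟨_, a4, ?_⟩
    intro hiff
    have hjb : I.jb (t a).2.1 = I.jb (t a).2.2 := by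
      rw [ok.hjb _ (hQW a (Finset.mem_filter.1 ha).1 _ a1),
        ok.hjb _ (hQW a (Finset.mem_filter.1 ha).1 _ a2), a1, a2]
    have hadj : (GG P I).Adj ((Kd.F (t a).1 ⟨0, l2_g_pos P⟩, (t a).2.1) : Vx P)
        (Kd.F (!(t a).1) ⟨0, l2_g_pos P⟩, (t a).2.2) := by
      rw [adj_FF]
      refine ⟨hQW a (Finset.mem_filter.1 ha).1 _ a1, hQW a (Finset.mem_filter.1 ha).1 _ a2, rfl, ?_⟩
      rcases a5 with ⟨h, h'⟩ | ⟨h, h'⟩
      · left
        exact ⟨h, by rw [h]; rfl, h', hjb.symm⟩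
      · right
        exact ⟨h, by rw [h]; rfl, h', hjb⟩
    have h3 := hiff.1 hadj
    rw [adj_FF] at h3
    obtain ⟨-, -, -, h3⟩ := h3
    have h4 : (t b).2.1 = (t a).2.1 := by
      rcases a5 with ⟨h, h'⟩ | ⟨h, h'⟩
      · rcases h3 with ⟨-, -, h3, -⟩ | ⟨-, h3, -⟩
        · omega
        · rw [h] at h3
          cases h3
      · rcases h3 with ⟨-, h3, -⟩ | ⟨-, -, h3, -⟩
        · rw [h] at h3
          cases h3
        · omega
    rw [h4, a1] at b1
    exact hab b1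
  have e3 : Q.card ≤ 3 * P.c := by
    have h := Finset.card_filter_add_card_filter_not (s := Q) pc
    omega
  have e4 : T.card ≤ (P.c + 1) * Q.card := by
    apply Finset.card_le_mul_card_image
    intro q _
    have hsub : (T.filter fun x => x / (P.c + 1) = q) ⊆
        Finset.Ico (q * (P.c + 1)) (q * (P.c + 1) + (P.c + 1)) := by
      intro x hx
      obtain ⟨-, hx⟩ := Finset.mem_filter.1 hx
      rw [Finset.mem_Ico]
      have h1 := Nat.div_add_mod x (P.c + 1)
      have h2 := Nat.mod_lt x hL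
      rw [hx, mul_comm] at h1
      omega
    refine (Finset.card_le_card hsub).trans ?_
    rw [Nat.card_Ico]
    omega
  calc T.card ≤ (P.c + 1) * Q.card := e4
    _ ≤ (P.c + 1) * (3 * P.c) := Nat.mul_le_mul_left _ e3
    _ = 3 * P.c * (P.c + 1) := by ring

/-- W-columns which meet the lowest level -/
theorem meet_card (ok : I.Ok P) (ch : Ch P I) (T : Finset ℕ)
    (hT : ∀ ω ∈ T, ω < I.W ∧ ∃ v : Vx P, inCol I (true, ω) v ∧ v ∈ ch.S 0) :
    T.card ≤ P.r1 := by
  classical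
  set T1 := T.filter fun ω => ∃ v : Vx P, inCol I (true, ω) v ∧ v ∉ ch.S 0 with hT1
  set T2 := T.filter fun ω => ∀ v : Vx P, inCol I (true, ω) v → v ∈ ch.Y0 with hT2
  set T3 := T.filter fun ω => ∀ v : Vx P, inCol I (true, ω) v → v ∈ ch.Z0 with hT3
  set T4 := T.filter fun ω => (∃ v : Vx P, inCol I (true, ω) v ∧ v ∈ ch.Y0) ∧
    ∃ v : Vx P, inCol I (true, ω) v ∧ v ∉ ch.Y0 with hT4
  have hsub : T ⊆ (T1 ∪ T2) ∪ (T3 ∪ T4) := by
    intro ω hω
    by_cases h1 : ∃ v : Vx P, inCol I (true, ω) v ∧ v ∉ ch.S 0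
    · exact Finset.mem_union_left _ (Finset.mem_union_left _ (Finset.mem_filter.2 ⟨hω, h1⟩))
    · push Not at h1
      by_cases h2 : ∃ v : Vx P, inCol I (true, ω) v ∧ v ∈ ch.Y0
      · by_cases h3 : ∃ v : Vx P, inCol I (true, ω) v ∧ v ∉ ch.Y0
        · exact Finset.mem_union_right _ (Finset.mem_union_right _
            (Finset.mem_filter.2 ⟨hω, h2, h3⟩))
        · push Not at h3
          exact Finset.mem_union_left _ (Finset.mem_union_right _ (Finset.mem_filter.2 ⟨hω, h3⟩))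
      · push Not at h2
        refine Finset.mem_union_right _ (Finset.mem_union_left _ (Finset.mem_filter.2 ⟨hω, ?_⟩))
        intro v hv
        have h4 := h1 v hv
        rw [ch.zero, Finset.mem_union] at h4
        rcases h4 with h4 | h4
        · exact absurd h4 (h2 v hv)
        · exact h4
  have c1 : T1.card ≤ 2 * P.c := by
    refine partial_card (ch.tcS 0) T1 ?_
    intro ω hω
    obtain ⟨h1, h2⟩ := Finset.mem_filter.1 hω
    exact ⟨(hT ω h1).1, (hT ω h1).2, h2⟩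
  have c4 : T4.card ≤ 2 * P.c := by
    refine partial_card ch.tcY T4 ?_
    intro ω hω
    obtain ⟨h1, h2⟩ := Finset.mem_filter.1 hω
    exact ⟨(hT ω h1).1, h2.1, h2.2⟩
  have c2 : T2.card ≤ 3 * P.c * (P.c + 1) := by
    refine full_card ok ch.ngY ch.tcY T2 ?_
    intro ω hω
    obtain ⟨h1, h2⟩ := Finset.mem_filter.1 hω
    exact ⟨(hT ω h1).1, h2⟩
  have c3 : T3.card ≤ 3 * P.c * (P.c + 1) := by
    refine full_card ok ch.ngZ ch.tcZ T3 ?_
    intro ω hω
    obtain ⟨h1, h2⟩ := Finset.mem_filter.1 hω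
    exact ⟨(hT ω h1).1, h2⟩
  have h5 := Finset.card_le_card hsub
  have h6 := Finset.card_union_le (T1 ∪ T2) (T3 ∪ T4)
  have h7 := Finset.card_union_le T1 T2
  have h8 := Finset.card_union_le T3 T4
  have h9 : P.r1 = 2 * (3 * P.c * (P.c + 1)) + 4 * P.c := by
    unfold Par.r1
    ring
  omega

end Pool.Agent.H.MP_701cec_lc
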