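import Pool.Agent.H.MP_701cec_lc.L1

/-!
The vertices `Om e s` distinguish the classes.
-/

namespace Pool.Agent.H.MP_701cec_lc

variable {P : Par} {I : Inst}

/-- the name in `L0` of a representative of a class -/
def repn : Cls P → L0 P
  | .X j => .X j
  | .Y j => .Y j
  | .K k => .R0 k

theorem repn_inj : Function.Injective (repn : Cls P → L0 P) := by
  intro a b h
  cases a <;> cases b <;> simp_all [repn]

theorem cls_repn (a : Cls P) : cls (l0 (repn a)).1 = some a := by
  cases a <;> rfl

theorem isA_repn (a : Cls P) : isA (l0 (repn a) : Vx P).1 = false := by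
  cases a <;> rfl

theorem om_out (ch : Ch P I) (i : ℕ) (e : Bool) (B : Finset (Cls P))
    (hB : 2 * P.δ + 4 ≤ B.card)
    (hout : ∀ b ∈ B, ∃ v : Vx P, cls v.1 = some b ∧ valid I v ∧ v ∉ ch.S i ∧
      ¬ (e = true ∧ isA v.1 = true ∧ v.2 = I.n))
    (hn : 1 ≤ I.n) {x y : Cls P} (hxy : x ≠ y) :
    ∃ s : Finset (Cls P), x ∈ s ∧ y ∉ s ∧ ((Kd.Om e s, 0) : Vx P) ∉ ch.S (i + 1) := by
  classical
  by_contra hcon
  push Not at hcon
  set B' : Finset (Cls P) := B.filter fun b => b ≠ x ∧ b ≠ y ∧ l0 (repn b) ∈ ch.S i with hB'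
  set D : Finset (Cls P) := B.filter fun b => l0 (repn b) ∉ ch.S i with hD
  have hDc : D.card ≤ P.δ := by
    have h1 := ch.gd i
    unfold good at h1
    have h2 : D.image (fun b => repn b) ⊆ Finset.univ.filter fun x : L0 P => l0 x ∉ ch.S i := by
      intro z hz
      rw [Finset.mem_image] at hz
      obtain ⟨b, hb, rfl⟩ := hz
      rw [hD, Finset.mem_filter] at hb
      rw [Finset.mem_filter]
      exact ⟨Finset.mem_univ _, hb.2⟩
    have h3 := Finset.card_le_card h2
    rw [Finset.card_image_of_injective _ repn_inj] at h3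
    omega
  have hB'c : P.δ + 2 ≤ B'.card := by
    have h1 : B ⊆ B' ∪ (D ∪ {x, y}) := by
      intro b hb
      rw [Finset.mem_union, Finset.mem_union, hB', hD, Finset.mem_filter, Finset.mem_filter,
        Finset.mem_insert, Finset.mem_singleton]
      tauto
    have h2 := Finset.card_le_card h1
    have h3 := Finset.card_union_le B' (D ∪ {x, y})
    have h4 := Finset.card_union_le D {x, y}
    have h5 : ({x, y} : Finset (Cls P)).card ≤ 2 := Finset.card_le_two
    omega
  have hmem : ∀ s' ∈ B'.powerset, ((Kd.Om e (insert x s'), 0) : Vx P) ∈ ch.S (i + 1) := by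
    intro s' hs'
    rw [Finset.mem_powerset] at hs'
    apply hcon _ (Finset.mem_insert_self _ _)
    rw [Finset.mem_insert]
    rintro (h | h)
    · exact hxy h.symm
    · have := hs' h
      rw [hB', Finset.mem_filter] at this
      exact this.2.2.1 rfl
  have hdiff : ∀ s' ∈ B'.powerset, ∀ s'' ∈ B'.powerset, s' ≠ s'' →
      ∃ b ∈ B', ¬ (b ∈ insert x s' ↔ b ∈ insert x s'') := by
    intro s' hs' s'' hs'' hne
    rw [Finset.mem_powerset] at hs' hs''
    obtain ⟨b, hb⟩ : ∃ b, ¬ (b ∈ s' ↔ b ∈ s'') := by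
      by_contra h
      push Not at h
      exact hne (Finset.ext h)
    have hbB : b ∈ B' := by
      by_cases h : b ∈ s'
      · exact hs' h
      · by_cases h' : b ∈ s''
        · exact hs'' h'
        · exact absurd (by simp [h, h']) hb
    refine ⟨b, hbB, ?_⟩
    have hbx : b ≠ x := by
      rw [hB', Finset.mem_filter] at hbB
      exact hbB.2.1
    rw [Finset.mem_insert, Finset.mem_insert]
    tauto
  set P1 := B'.powerset.filter fun s' => ((Kd.Om e (insert x s'), 0) : Vx P) ∈ ch.S i with hP1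
  set P2 := B'.powerset.filter fun s' => ((Kd.Om e (insert x s'), 0) : Vx P) ∉ ch.S i with hP2
  have c1 : P1.card ≤ P.c := by
    refine tc_card (ch.tcS i) P1 (fun s' => ((Kd.Om e (insert x s'), 0) : Vx P)) ?_ ?_
    · intro s' hs'
      rw [hP1, Finset.mem_filter] at hs'
      exact hs'.2
    · intro s' hs' s'' hs'' hne
      rw [hP1, Finset.mem_filter] at hs' hs''
      obtain ⟨b, hb, hb'⟩ := hdiff s' hs'.1 s'' hs''.1 hne
      have hbB : b ∈ B := by
        rw [hB', Finset.mem_filter] at hb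
        exact hb.1
      obtain ⟨v, v1, v2, v3, v4⟩ := hout b hbB
      refine ⟨v, v3, ?_⟩
      rw [adj_Om v2 v1, adj_Om v2 v1]
      tauto
  have c2 : P2.card ≤ P.c := by
    refine tc_card (ch.tc i) P2 (fun s' => ((Kd.Om e (insert x s'), 0) : Vx P)) ?_ ?_
    · intro s' hs'
      rw [hP2, Finset.mem_filter] at hs'
      rw [Finset.mem_sdiff]
      exact ⟨hmem s' hs'.1, hs'.2⟩
    · intro s' hs' s'' hs'' hne
      rw [hP2, Finset.mem_filter] at hs' hs''
      obtain ⟨b, hb, hb'⟩ := hdiff s' hs'.1 s'' hs''.1 hne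
      have hbS : l0 (repn b) ∈ ch.S i := by
        rw [hB', Finset.mem_filter] at hb
        exact hb.2.2.2
      refine ⟨l0 (repn b), ?_, ?_⟩
      · rw [Finset.mem_sdiff]
        exact fun h => h.2 hbS
      · rw [adj_Om (valid_l0 _) (cls_repn b), adj_Om (valid_l0 _) (cls_repn b), isA_repn]
        simp only [Bool.false_eq_true, false_and, and_false, not_false_eq_true, and_true]
        exact hb'
  have h1 : B'.powerset.card = P1.card + P2.card := by
    rw [hP1, hP2]
    exact (Finset.card_filter_add_card_filter_not _).symm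
  rw [Finset.card_powerset] at h1
  have h2 : 2 ^ (P.δ + 2) ≤ 2 ^ B'.card := Nat.pow_le_pow_right (by norm_num) hB'c
  have h3 := P.hδ
  have h4 : 2 ^ (P.δ + 2) = 2 * 2 ^ (P.δ + 1) := by ring
  unfold Par.c Par.κ at c1 c2
  omega

end Pool.Agent.H.MP_701cec_lc
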