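import Pool.Agent.H.MP_701cec_lc.L1

/-!
Columns are attached as a whole: the attach function.
-/

namespace Pool.Agent.H.MP_701cec_lc

variable {P : Par} {I : Inst}

/-- the vertex of the row `r` in the column `τ` -/
def mate (τ : Bool × ℕ) : Fin P.M ⊕ Fin P.M → Vx P
  | .inl j => (.X j τ.1, τ.2)
  | .inr j => (.Y j τ.1, τ.2)

/-- the name of the vertex of the row `r` in the column `0` -/
def l4a_nm : Fin P.M ⊕ Fin P.M → L0 P
  | .inl j => .X j
  | .inr j => .Y j

theorem l4a_nm_inj : Function.Injective (l4a_nm : Fin P.M ⊕ Fin P.M → L0 P) := by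
  intro x y h
  cases x <;> cases y <;> simp_all [l4a_nm]

/-- the vertex of the row `r` in the column `0` -/
def l4a_rep (r : Fin P.M ⊕ Fin P.M) : Vx P := l0 (l4a_nm r)

theorem l4a_mate_inCol {τ : Bool × ℕ} (hτ : isCol I τ) (r : Fin P.M ⊕ Fin P.M) :
    inCol I τ (mate τ r : Vx P) := by
  obtain ⟨b, t⟩ := τ
  cases b <;> cases r <;> simp_all [isCol, inCol, mate, side, valid]

theorem l4a_mate_F {τ : Bool × ℕ} (r : Fin P.M ⊕ Fin P.M) : isF (mate τ r : Vx P).1 = false := by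
  cases r <;> rfl

/-- `w` is adjacent to the vertex in the column `0` of at most one row -/
theorem l4a_adj_rep {τ : Bool × ℕ} (hτ : isCol I τ) {w : Vx P} (hw : inCol I τ w)
    {r r' : Fin P.M ⊕ Fin P.M} (h : (GG P I).Adj w (l4a_rep r))
    (h' : (GG P I).Adj w (l4a_rep r')) : r = r' := by
  cases r with
  | inl j =>
    have h1 := adj_X0 hτ hw (j := j) h
    cases r' with
    | inl j' =>
      have h2 := adj_X0 hτ hw (j := j') h'
      rw [h1] at h2
      simpa using h2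
    | inr j' =>
      rcases adj_Y0 hτ hw (j := j') h' with h2 | ⟨k, hk, h2⟩ <;> rw [h1] at h2 <;> simp at h2
  | inr j =>
    have h1 := adj_Y0 hτ hw (j := j) h
    cases r' with
    | inl j' =>
      have h2 := adj_X0 hτ hw (j := j') h'
      rcases h1 with h1 | ⟨k, hk, h1⟩ <;> rw [h1] at h2 <;> simp at h2
    | inr j' =>
      rcases h1 with h1 | ⟨k, hk, h1⟩ <;>
      rcases adj_Y0 hτ hw (j := j') h' with h2 | ⟨k', hk', h2⟩ <;> rw [h1] at h2
      · simpa using h2
      · simp at h2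
      · simp at h2
      · have h3 : k = k' := by simpa using h2
        rw [← hk, ← hk', h3]

open Classical in
/-- the labels of the vertices of the row `r` in the columns `0` and `τ` -/
noncomputable def l4a_D (ch : Ch P I) (i : ℕ) (τ : Bool × ℕ) (r : Fin P.M ⊕ Fin P.M) :
    Finset (Fin P.c) :=
  (if l4a_rep r ∈ ch.S i then {ch.lab i (l4a_rep r)} else ∅) ∪
    (if mate τ r ∈ ch.S i then {ch.lab i (mate τ r)} else ∅)

theorem l4a_D_card (ch : Ch P I) (i : ℕ) (τ : Bool × ℕ) (A B : Finset (Fin P.M ⊕ Fin P.M))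
    (hA : ∀ r, r ∈ A ↔ l4a_rep r ∈ ch.S i)
    (hB : ∀ r, r ∈ B ↔ (mate τ r ∈ ch.S i ∧ l4a_rep r ∈ ch.S i ∧
        ch.lab i (mate τ r) ≠ ch.lab i (l4a_rep r))) (r : Fin P.M ⊕ Fin P.M) :
    (if r ∈ A then 1 else 0) + (if r ∈ B then 1 else 0) ≤ (l4a_D ch i τ r).card := by
  unfold l4a_D
  by_cases h1 : l4a_rep r ∈ ch.S i
  · by_cases h2 : mate τ r ∈ ch.S i
    · by_cases h3 : ch.lab i (mate τ r) = ch.lab i (l4a_rep r)
      · simp [hA, hB, h1, h2, h3]
      · have h4 : ch.lab i (l4a_rep r) ≠ ch.lab i (mate τ r) := fun h => h3 h.symm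
        rw [if_pos ((hA r).2 h1), if_pos ((hB r).2 ⟨h2, h1, h3⟩), if_pos h1, if_pos h2,
          Finset.card_union_of_disjoint (by simpa using h4)]
        simp
    · simp [hA, hB, h1, h2]
  · simp [hA, hB, h1]

theorem l4a_sum {α : Type} [Fintype α] [DecidableEq α] (A B : Finset α) (f : α → ℕ)
    (h : ∀ r, (if r ∈ A then 1 else 0) + (if r ∈ B then 1 else 0) ≤ f r) :
    A.card + B.card ≤ ∑ r, f r := by
  have h1 : ∀ A : Finset α, A.card = ∑ r, if r ∈ A then 1 else 0 := by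
    intro A
    rw [Finset.sum_ite_mem]
    simp
  rw [h1 A, h1 B, ← Finset.sum_add_distrib]
  exact Finset.sum_le_sum fun r _ => h r

theorem l4a_compl {α : Type} [Fintype α] (A B : Finset α) (h : ∀ r, r ∈ B ↔ r ∉ A) :
    A.card + B.card = Fintype.card α := by
  classical
  have h1 : B = Aᶜ := by
    ext r
    rw [h, Finset.mem_compl]
  rw [h1, Finset.card_add_card_compl]

theorem l4a_ex {α : Type} [Fintype α] (p : α → Prop) : ∃ A : Finset α, ∀ r, r ∈ A ↔ p r := by
  classical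
  exact ⟨Finset.univ.filter p, by simp⟩

/-- the number of the vertices in the column `0` which are not in the level -/
theorem l4a_out (ch : Ch P I) (i : ℕ) (A' : Finset (Fin P.M ⊕ Fin P.M)) (K' : Finset (Fin P.p))
    (hA' : ∀ r, r ∈ A' ↔ l4a_rep r ∉ ch.S i)
    (hK' : ∀ k, k ∈ K' ↔ ((Kd.R0 k, 0) : Vx P) ∉ ch.S i) : A'.card + K'.card ≤ P.δ := by
  classical
  have g1 := ch.gd i
  unfold good at g1
  have g2 : (A'.image l4a_nm) ∪ (K'.image fun k => (L0.R0 k : L0 P)) ⊆
      Finset.univ.filter fun x : L0 P => l0 x ∉ ch.S i := by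
    intro x hx
    rw [Finset.mem_union, Finset.mem_image, Finset.mem_image] at hx
    rw [Finset.mem_filter]
    rcases hx with ⟨r, hr, rfl⟩ | ⟨k, hk, rfl⟩
    · exact ⟨Finset.mem_univ _, (hA' r).1 hr⟩
    · exact ⟨Finset.mem_univ _, (hK' k).1 hk⟩
  have g3 := Finset.card_le_card g2
  rw [Finset.card_union_of_disjoint, Finset.card_image_of_injective _ l4a_nm_inj,
    Finset.card_image_of_injective _ (fun a b hab => by simpa using hab)] at g3
  · exact g3.trans g1
  · rw [Finset.disjoint_left]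
    intro x hx hx'
    rw [Finset.mem_image] at hx hx'
    obtain ⟨r, -, rfl⟩ := hx
    obtain ⟨k, -, hk⟩ := hx'
    cases r <;> simp [l4a_nm] at hk

/-- the labels of the vertices in the columns `0` and `τ` -/
theorem l4a_labels {ch : Ch P I} {N : ℕ} (hD : Dist ch N) {i : ℕ} (hi : i ≤ N) {τ : Bool × ℕ}
    (hτ : isCol I τ) (K : Finset (Fin P.p)) (hK : ∀ k, k ∈ K ↔ ((Kd.R0 k, 0) : Vx P) ∈ ch.S i) :
    (∑ r, (l4a_D ch i τ r).card) + K.card ≤ P.c := by
  have h1 := hD.count' hi (fun a => match a with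
      | .X j => l4a_D ch i τ (.inl j)
      | .Y j => l4a_D ch i τ (.inr j)
      | .K k => if k ∈ K then {ch.lab i (.R0 k, 0)} else ∅) (by
    intro a l hl
    rcases a with j | j | k
    · simp only [l4a_D, Finset.mem_union] at hl
      rcases hl with hl | hl
      · split_ifs at hl with h
        · rw [Finset.mem_singleton] at hl
          exact ⟨_, h, valid_l0 _, rfl, hl.symm⟩
        · simp at hl
      · split_ifs at hl with h
        · rw [Finset.mem_singleton] at hl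
          exact ⟨_, h, (l4a_mate_inCol hτ _).2.2, rfl, hl.symm⟩
        · simp at hl
    · simp only [l4a_D, Finset.mem_union] at hl
      rcases hl with hl | hl
      · split_ifs at hl with h
        · rw [Finset.mem_singleton] at hl
          exact ⟨_, h, valid_l0 _, rfl, hl.symm⟩
        · simp at hl
      · split_ifs at hl with h
        · rw [Finset.mem_singleton] at hl
          exact ⟨_, h, (l4a_mate_inCol hτ _).2.2, rfl, hl.symm⟩
        · simp at hl
    · dsimp only at hl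
      split_ifs at hl with h
      · rw [Finset.mem_singleton] at hl
        exact ⟨_, (hK k).1 h, valid_l0 (.R0 k), rfl, hl.symm⟩
      · simp at hl) ∅ (by simp)
  dsimp only at h1
  have h2 : K.card = ∑ k, (if k ∈ K then {ch.lab i (.R0 k, 0)} else ∅ : Finset (Fin P.c)).card := by
    have h3 : ∀ k, (if k ∈ K then {ch.lab i (.R0 k, 0)} else ∅ : Finset (Fin P.c)).card =
        if k ∈ K then 1 else 0 := by
      intro k
      split_ifs <;> simp
    simp only [h3]
    rw [Finset.sum_ite_mem]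
    simp
  rw [Fintype.sum_sum_type, h2]
  exact (Nat.le_add_right _ _).trans h1

/-- the main counting argument -/
theorem l4a_count {ch : Ch P I} {N : ℕ} (hD : Dist ch N) {i : ℕ} (hi : i ≤ N) {τ : Bool × ℕ}
    (hτ : isCol I τ) {w : Vx P} (hw : inCol I τ w)
    (R : Finset (Fin P.M ⊕ Fin P.M))
    (hR : ∀ r ∈ R, (mate τ r : Vx P) ∈ ch.S i)
    (hR' : ∀ r ∈ R, l4a_rep r ∈ ch.S i → ¬ (GG P I).Adj w (l4a_rep r) →
      ch.lab i (mate τ r) ≠ ch.lab i (l4a_rep r)) :
    R.card < 2 * P.p + P.κ + 2 * P.δ + 2 := by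
  obtain ⟨A, hA⟩ := l4a_ex fun r : Fin P.M ⊕ Fin P.M => l4a_rep r ∈ ch.S i
  obtain ⟨A', hA'⟩ := l4a_ex fun r : Fin P.M ⊕ Fin P.M => l4a_rep r ∉ ch.S i
  obtain ⟨B, hB⟩ := l4a_ex fun r : Fin P.M ⊕ Fin P.M => (mate τ r ∈ ch.S i ∧
    l4a_rep r ∈ ch.S i ∧ ch.lab i (mate τ r) ≠ ch.lab i (l4a_rep r))
  obtain ⟨E, hE⟩ := l4a_ex fun r : Fin P.M ⊕ Fin P.M => (GG P I).Adj w (l4a_rep r)
  obtain ⟨K, hK⟩ := l4a_ex fun k : Fin P.p => ((Kd.R0 k, 0) : Vx P) ∈ ch.S i
  obtain ⟨K', hK'⟩ := l4a_ex fun k : Fin P.p => ((Kd.R0 k, 0) : Vx P) ∉ ch.S i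
  have h1 := l4a_labels hD hi hτ K hK
  have h2 := l4a_sum A B _ (l4a_D_card ch i τ A B hA hB)
  have h3 := (Nat.add_le_add_right h2 K.card).trans h1
  have h4 := l4a_out ch i A' K' hA' hK'
  have h5 := l4a_compl A A' (fun r => by rw [hA, hA'])
  have h6 := l4a_compl K K' (fun k => by rw [hK, hK'])
  rw [Fintype.card_sum, Fintype.card_fin] at h5
  rw [Fintype.card_fin] at h6
  have h10 : R ⊆ (B ∪ A') ∪ E := by
    intro r hr
    rw [Finset.mem_union, Finset.mem_union, hB, hA', hE]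
    by_cases g1 : l4a_rep r ∈ ch.S i
    · by_cases g2 : (GG P I).Adj w (l4a_rep r)
      · exact Or.inr g2
      · exact Or.inl (Or.inl ⟨hR r hr, g1, hR' r hr g1 g2⟩)
    · exact Or.inl (Or.inr g1)
  have h11 := (Finset.card_le_card h10).trans ((Finset.card_union_le _ _).trans
    (Nat.add_le_add_right (Finset.card_union_le _ _) _))
  have h12 : E.card ≤ 1 := by
    rw [Finset.card_le_one]
    intro r hr r' hr'
    rw [hE] at hr hr'
    exact l4a_adj_rep hτ hw hr hr'
  unfold Par.c at h3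
  omega

theorem claimA {ch : Ch P I} {N : ℕ} (hD : Dist ch N) {i : ℕ} (hi : i ≤ N) {τ : Bool × ℕ}
    (hτ : isCol I τ) {w : Vx P} (hw : inCol I τ w) (hwS : w ∉ ch.S i)
    (R : Finset (Fin P.M ⊕ Fin P.M)) (hR : ∀ r ∈ R, (mate τ r : Vx P) ∈ ch.S i) :
    R.card < 2 * P.p + P.κ + 2 * P.δ + 3 := by
  have h := l4a_count hD hi hτ hw R hR fun r hr h1 h2 => ch.sepo (hR r hr) h1 hwS
    (adj_col hw (l4a_mate_inCol hτ r) (fun h => hwS (h ▸ hR r hr)) (by simp [l4a_mate_F])) h2
  omega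

theorem claimC {ch : Ch P I} {N : ℕ} (hD : Dist ch N) {i : ℕ} (hi : i + 1 ≤ N) {τ : Bool × ℕ}
    (hτ : isCol I τ) (hfull : ∀ v : Vx P, inCol I τ v → v ∈ ch.S (i + 1))
    {w : Vx P} (hw : inCol I τ w) (hwS : w ∉ ch.S i) :
    ∀ v : Vx P, inCol I τ v → v ∉ ch.S i := by
  classical
  intro u hu huS
  have h1 := claimA hD (by omega : i ≤ N) hτ hw hwS
    (Finset.univ.filter fun r : Fin P.M ⊕ Fin P.M => (mate τ r : Vx P) ∈ ch.S i)
    (fun r hr => (Finset.mem_filter.1 hr).2)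
  have h2 := l4a_count hD hi hτ hu
    (Finset.univ.filter fun r : Fin P.M ⊕ Fin P.M => ¬ (mate τ r : Vx P) ∈ ch.S i)
    (fun r _ => hfull _ (l4a_mate_inCol hτ r)) (by
      intro r hr g1 g2
      rw [Finset.mem_filter] at hr
      refine ch.sep (hfull _ (l4a_mate_inCol hτ r)) g1 (fun h => absurd (h.1 huS) hr.2)
        (adj_col hu (l4a_mate_inCol hτ r) (fun h => hr.2 (h ▸ huS)) (by simp [l4a_mate_F])) g2)
  have h3 : (Finset.univ.filter fun r : Fin P.M ⊕ Fin P.M => (mate τ r : Vx P) ∈ ch.S i).card +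
      (Finset.univ.filter fun r : Fin P.M ⊕ Fin P.M => ¬ (mate τ r : Vx P) ∈ ch.S i).card =
      P.M + P.M := by
    rw [Finset.card_filter_add_card_filter_not]
    simp
  have h4 := P.hM
  unfold Par.κ at h1 h2
  omega

end Pool.Agent.H.MP_701cec_lc
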