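import Pool.Agent.H.MP_701cec_lc.L2
import Pool.Agent.H.MP_701cec_lc.L3
import Pool.Agent.H.MP_701cec_lc.L4a

/-!
The attach function.
-/

namespace Pool.Agent.H.MP_701cec_lc

variable {P : Par} {I : Inst}

theorem l4b_card_cls : (Finset.univ : Finset (Cls P)).card = 2 * P.M + P.p := by
  have h := sum_cls (P := P) fun _ => 1
  simp only [Finset.sum_const, smul_eq_mul, mul_one, Finset.card_univ, Fintype.card_fin] at h
  rw [Finset.card_univ, h]
  omega

theorem l4b_inCol_mate {τ : Bool × ℕ} (hτ : isCol I τ) (r : Fin P.M ⊕ Fin P.M) :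
    inCol I τ (mate τ r : Vx P) := by
  obtain ⟨b, t⟩ := τ
  rcases r with j | j <;> cases b <;> simp_all [isCol, inCol, mate, side, valid]

theorem l4b_early_zero (ok : I.Ok P) (ch : Ch P I) : early I (ch.S 0) := by
  classical
  unfold early
  obtain ⟨ω, hω, hdis⟩ : ∃ ω < I.W, ∀ v : Vx P, inCol I (true, ω) v → v ∉ ch.S 0 := by
    by_contra hcon
    push Not at hcon
    have h := meet_card ok ch (Finset.range I.W) (fun ω hω => by
      rw [Finset.mem_range] at hω
      obtain ⟨v, hv, hv'⟩ := hcon ω hω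
      exact ⟨hω, v, hv, hv'⟩)
    rw [Finset.card_range] at h
    have := ok.hW
    omega
  have huniv : outC I (ch.S 0) = Finset.univ := by
    ext a
    simp only [outC, Finset.mem_filter, Finset.mem_univ, true_and, iff_true]
    cases a with
    | X j =>
      exact ⟨(.X j true, ω), rfl, hω, hdis _ ⟨rfl, rfl, hω⟩⟩
    | Y j =>
      exact ⟨(.Y j true, ω), rfl, hω, hdis _ ⟨rfl, rfl, hω⟩⟩
    | K k =>
      exact ⟨(.C false k, ω), rfl, hω, hdis _ ⟨rfl, rfl, hω⟩⟩
  rw [huniv, l4b_card_cls]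
  have := P.hM
  omega

theorem l4b_not_early_top (ch : Ch P I) : ¬ early I (ch.S ch.m) := by
  classical
  unfold early
  have h : outC I (ch.S ch.m) = ∅ := by
    ext a
    simp only [outC, Finset.mem_filter, Finset.mem_univ, true_and, Finset.notMem_empty, iff_false]
    rintro ⟨v, -, hv, hv'⟩
    rw [ch.top ch.m le_rfl] at hv'
    exact hv' (mem_UU hv)
  rw [h]
  simp

theorem l4b_full {ch : Ch P I} {N : ℕ} (hD : Dist ch N) (hne : ¬ early I (ch.S N))
    {τ : Bool × ℕ} (hτ : isCol I τ) (v : Vx P) (hv : inCol I τ v) : v ∈ ch.S N := by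
  classical
  by_contra hvS
  set R : Finset (Fin P.M ⊕ Fin P.M) :=
    Finset.univ.filter fun r => (mate τ r : Vx P) ∈ ch.S N with hR
  have h1 := claimA hD le_rfl hτ hv hvS R (fun r hr => (Finset.mem_filter.1 hr).2)
  have h2 : (Finset.univ.filter fun r : Fin P.M ⊕ Fin P.M => ¬ (mate τ r : Vx P) ∈ ch.S N).card ≤
      (outC I (ch.S N)).card := by
    refine Finset.card_le_card_of_injOn
      (fun r => match r with
        | .inl j => (Cls.X j : Cls P)
        | .inr j => .Y j) ?_ ?_
    · intro r hr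
      have hr' : (mate τ r : Vx P) ∉ ch.S N := (Finset.mem_filter.1 hr).2
      have hin := l4b_inCol_mate hτ r
      simp only [outC, Finset.coe_filter, Finset.mem_univ, true_and, Set.mem_setOf_eq]
      rcases r with j | j
      · exact ⟨_, rfl, hin.2.2, hr'⟩
      · exact ⟨_, rfl, hin.2.2, hr'⟩
    · intro r _ r' _ h
      rcases r with j | j <;> rcases r' with j' | j' <;> simp_all
  have h3 := Finset.card_filter_add_card_filter_not (s := (Finset.univ : Finset (Fin P.M ⊕ Fin P.M)))
    (fun r => (mate τ r : Vx P) ∈ ch.S N)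
  rw [← hR, Finset.card_univ, Fintype.card_sum, Fintype.card_fin] at h3
  unfold early at hne
  have h4 := P.hM
  unfold Par.κ at h1
  omega

theorem exists_att (ok : I.Ok P) (ch : Ch P I) : Nonempty (Att ch) := by
  classical
  have hex : ∃ i, ¬ early I (ch.S i) := ⟨ch.m, l4b_not_early_top ch⟩
  set N := Nat.find hex with hN
  have hNne : ¬ early I (ch.S N) := Nat.find_spec hex
  have hN0 : N ≠ 0 := by
    intro h
    rw [h] at hNne
    exact hNne (l4b_early_zero ok ch)
  obtain ⟨N', hN'⟩ := Nat.exists_eq_succ_of_ne_zero hN0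
  have hearly : early I (ch.S N') := by
    by_contra h
    have := Nat.find_min' hex h
    omega
  have hD : Dist ch N := by
    intro x y hxy
    rw [hN']
    refine om_out ch N' false (outC I (ch.S N')) hearly ?_ ok.hn hxy
    intro b hb
    simp only [outC, Finset.mem_filter, Finset.mem_univ, true_and] at hb
    obtain ⟨v, h1, h2, h3⟩ := hb
    exact ⟨v, h1, h2, h3, by simp⟩
  have hfull : ∀ τ, isCol I τ → ∃ i, ∀ v : Vx P, inCol I τ v → v ∈ ch.S i :=
    fun τ hτ => ⟨N, fun v hv => l4b_full hD hNne hτ v hv⟩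
  refine ⟨⟨N, fun τ => if h : ∃ i, ∀ v : Vx P, inCol I τ v → v ∈ ch.S i then Nat.find h else 0,
    hD, ?_, ?_, ?_⟩⟩
  · intro τ hτ
    rw [dif_pos (hfull τ hτ)]
    exact Nat.find_min' _ fun v hv => l4b_full hD hNne hτ v hv
  · intro τ hτ
    rw [dif_pos (hfull τ hτ)]
    exact Nat.find_spec (hfull τ hτ)
  · intro τ hτ i hi v hv
    rw [dif_pos (hfull τ hτ)] at hi
    have hle : Nat.find (hfull τ hτ) ≤ N :=
      Nat.find_min' _ fun v hv => l4b_full hD hNne hτ v hv
    have hspec := Nat.find_spec (hfull τ hτ)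
    obtain ⟨j, hj⟩ := Nat.exists_eq_succ_of_ne_zero (show Nat.find (hfull τ hτ) ≠ 0 by omega)
    have hnot : ¬ ∀ v : Vx P, inCol I τ v → v ∈ ch.S j := Nat.find_min (hfull τ hτ) (by omega)
    push Not at hnot
    obtain ⟨w, hw, hwS⟩ := hnot
    rw [hj] at hspec
    have hj1 : j + 1 ≤ N := by omega
    have := claimC hD hj1 hτ hspec hw hwS v hv
    exact fun h => this (ch.le (by omega) h)

end Pool.Agent.H.MP_701cec_lc
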