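import Pool.Agent.H.MP_701cec_lc.L1

/-!
The attach of a U-column.
-/

namespace Pool.Agent.H.MP_701cec_lc

variable {P : Par} {I : Inst} {ch : Ch P I}

namespace L5

/-- the facts on the U-column `t` which is attached at level `i + 1` -/
structure Col (A : Att ch) (t i : ℕ) : Prop where
  hN : i + 1 ≤ A.N
  mem : ∀ k : Kd P, side k = some false → valid I ((k, t) : Vx P) → ((k, t) : Vx P) ∈ ch.S (i + 1)
  nmem : ∀ k : Kd P, side k = some false → valid I ((k, t) : Vx P) → ((k, t) : Vx P) ∉ ch.S i

theorem col (A : Att ch) {t i : ℕ} (ht : 1 ≤ t) (htn : t ≤ I.n)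
    (ha : A.a (false, t) = i + 1) : Col A t i := by
  have hc : isCol I (false, t) := Or.inl ⟨rfl, ht, htn⟩
  refine ⟨?_, ?_, ?_⟩
  · rw [← ha]; exact A.hle _ hc
  · intro k hk hv
    have := A.hfull _ hc (k, t) ⟨hk, rfl, hv⟩
    rwa [ha] at this
  · intro k hk hv
    exact A.hdisj _ hc i (by rw [ha]; omega) (k, t) ⟨hk, rfl, hv⟩

variable {A : Att ch} {t i : ℕ}

/-- (*) the labels of `R1 k`, `A k` are different from the labels of vertices `R0` -/
theorem star {k : Fin P.p} (htn : t ≤ I.n) (C : Col A t i) {K : Kd P}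
    (hK : K = Kd.R1 k ∨ K = Kd.A k) {k' : Fin P.p} {s : ℕ} (hs : s ≤ I.n)
    (hv' : ((Kd.R0 k', s) : Vx P) ∈ ch.S (i + 1)) :
    ch.lab (i + 1) (K, t) ≠ ch.lab (i + 1) (Kd.R0 k', s) := by
  obtain ⟨q, hq⟩ := ch.ob i .S0
  have hside : side K = some false := by rcases hK with rfl | rfl <;> rfl
  have hval : valid I ((K, t) : Vx P) := by rcases hK with rfl | rfl <;> exact htn
  have hcls : cls K = some (.K k) := by rcases hK with rfl | rfl <;> rfl
  refine ch.sep (C.mem K hside hval) hv' (w := (Kd.Ob .S0 q, 0)) ?_ ?_ ?_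
  · intro h
    exact absurd (h.1 hq) (C.nmem K hside hval)
  · refine (adj_S0 (v := (K, t)) hval hcls q).2 ?_
    intro i'
    rcases hK with rfl | rfl <;> simp
  · intro h
    exact (adj_S0 (v := (Kd.R0 k', s)) (k := k') hs rfl q).1 h k' rfl

/-- (**) the label of `A k` is different from the labels of vertices which are not adjacent to the
observers `Mu` -/
theorem star2 {K : Kd P} (C : Col A t i) (hval : valid I ((K, t) : Vx P))
    (hK : (∃ k, K = Kd.A k) ∨ ∃ b, K = Kd.H b)
    {v : Vx P} (hv' : v ∈ ch.S (i + 1)) (hvv : valid I v) {a : Cls P} (hcv : cls v.1 = some a)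
    (hv1 : ∀ k, v.1 ≠ Kd.A k) (hv2 : ∀ b, v.1 ≠ Kd.H b) :
    ch.lab (i + 1) (K, t) ≠ ch.lab (i + 1) v := by
  obtain ⟨q, hq⟩ := ch.ob i .Mu
  have hside : side K = some false := by rcases hK with ⟨k, rfl⟩ | ⟨b, rfl⟩ <;> rfl
  obtain ⟨b, hcls⟩ : ∃ b, cls K = some b := by
    rcases hK with ⟨k, rfl⟩ | ⟨b, rfl⟩ <;> exact ⟨_, rfl⟩
  refine ch.sep (C.mem K hside hval) hv' (w := (Kd.Ob .Mu q, 0)) ?_ ?_ ?_
  · intro h
    exact absurd (h.1 hq) (C.nmem K hside hval)
  · exact (adj_Mu (v := (K, t)) hval hcls q).2 hK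
  · intro h
    rcases (adj_Mu hvv hcv q).1 h with ⟨k, hk⟩ | ⟨b, hb⟩
    · exact hv1 k hk
    · exact hv2 b hb

/-- the three labels of a kind -/
def three (ch : Ch P I) (t i : ℕ) (k : Fin P.p) : Finset (Fin P.c) :=
  {ch.lab (i + 1) (Kd.R0 k, t), ch.lab (i + 1) (Kd.R1 k, t), ch.lab (i + 1) (Kd.A k, t)}

theorem three_card (htn : t ≤ I.n) (C : Col A t i) (k : Fin P.p) : (three ch t i k).card = 3 := by
  unfold three
  have h1 := star htn C (k := k) (Or.inl rfl) (k' := k) (s := t) htn (C.mem _ rfl htn)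
  have h2 := star htn C (k := k) (Or.inr rfl) (k' := k) (s := t) htn (C.mem _ rfl htn)
  have h3 := star2 C (K := Kd.A k) htn (Or.inl ⟨k, rfl⟩) (v := (Kd.R1 k, t)) (a := .K k)
    (C.mem _ rfl htn) htn rfl (by simp) (by simp)
  rw [Finset.card_eq_three]
  exact ⟨_, _, _, h1.symm, h2.symm, h3.symm, rfl⟩

theorem three_mem (htn : t ≤ I.n) (C : Col A t i) (k : Fin P.p) :
    ∀ l ∈ three ch t i k, ∃ v ∈ ch.S (i + 1), valid I v ∧ cls v.1 = some (.K k) ∧
      ch.lab (i + 1) v = l := by
  intro l hl
  unfold three at hl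
  rw [Finset.mem_insert, Finset.mem_insert, Finset.mem_singleton] at hl
  rcases hl with rfl | rfl | rfl
  · exact ⟨(Kd.R0 k, t), C.mem _ rfl htn, htn, rfl, rfl⟩
  · exact ⟨(Kd.R1 k, t), C.mem _ rfl htn, htn, rfl, rfl⟩
  · exact ⟨(Kd.A k, t), C.mem _ rfl htn, htn, rfl, rfl⟩

end L5

open L5

/-- at the attach of the U-column `t` all but `κ` kinds use only the three labels of the
column -/
theorem KU (ok : I.Ok P) (A : Att ch) {t i : ℕ} (ht : 1 ≤ t) (htn : t ≤ I.n)
    (ha : A.a (false, t) = i + 1) : ∃ E : Finset (Fin P.p), E.card ≤ P.κ ∧ ∀ k, k ∉ E →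
      (∀ s, ((Kd.R0 k, s) : Vx P) ∈ ch.S (i + 1) → s ≤ I.n →
        ch.lab (i + 1) (Kd.R0 k, s) = ch.lab (i + 1) (Kd.R0 k, t)) ∧
      (∀ e ω, ((Kd.C e k, ω) : Vx P) ∈ ch.S (i + 1) → ((Kd.C e k, ω) : Vx P) ∉ ch.S i → ω < I.W →
        ch.lab (i + 1) (Kd.C e k, ω) = ch.lab (i + 1) (Kd.R1 k, t)) := by
  classical
  have C := col A ht htn ha
  set E : Finset (Fin P.p) := Finset.univ.filter fun k => ∃ v ∈ ch.S (i + 1), valid I v ∧
    cls v.1 = some (.K k) ∧ ch.lab (i + 1) v ∉ three ch t i k with hE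
  have hEv : ∀ k, ∃ v, k ∈ E → v ∈ ch.S (i + 1) ∧ valid I v ∧
      cls v.1 = some (.K k) ∧ ch.lab (i + 1) v ∉ three ch t i k := by
    intro k
    by_cases hk : k ∈ E
    · have h := (Finset.mem_filter.1 hk).2
      obtain ⟨v, h1, h2⟩ := h
      exact ⟨v, fun _ => ⟨h1, h2⟩⟩
    · exact ⟨(Kd.S, 0), fun h => absurd h hk⟩
  choose w hw using hEv
  refine ⟨E, ?_, ?_⟩
  · let B : Cls P → Finset (Fin P.c) := fun a => match a with
      | .X j => {ch.lab (i + 1) (Kd.X j false, t)}
      | .Y j => {ch.lab (i + 1) (Kd.Y j false, t)}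
      | .K k => if k ∈ E then insert (ch.lab (i + 1) (w k)) (three ch t i k) else three ch t i k
    have h1 := A.hD.count' C.hN B ?_ ∅ (by simp)
    · have e1 : (∑ j : Fin P.M, (B (.X j)).card) = P.M := by
        simp [B]
      have e2 : (∑ j : Fin P.M, (B (.Y j)).card) = P.M := by
        simp [B]
      have e3 : (∑ k : Fin P.p, (B (.K k)).card) = 3 * P.p + E.card := by
        have : ∀ k : Fin P.p, (B (.K k)).card = 3 + if k ∈ E then 1 else 0 := by
          intro k
          by_cases hk : k ∈ E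
          · have e : B (.K k) = insert (ch.lab (i + 1) (w k)) (three ch t i k) := by
              simp only [B]; rw [if_pos hk]
            rw [e, Finset.card_insert_of_notMem (hw k hk).2.2.2, three_card htn C, if_pos hk]
          · have e : B (.K k) = three ch t i k := by
              simp only [B]; rw [if_neg hk]
            rw [e, three_card htn C, if_neg hk]
        rw [Finset.sum_congr rfl fun k _ => this k, Finset.sum_add_distrib]
        simp
        ring
      rw [e1, e2, e3] at h1
      unfold Par.c at h1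
      simp at h1
      omega
    · rintro (j | j | k) l hl
      · have hl' : l = ch.lab (i + 1) (Kd.X j false, t) := by simpa [B] using hl
        exact ⟨(Kd.X j false, t), C.mem _ rfl htn, htn, rfl, hl'.symm⟩
      · have hl' : l = ch.lab (i + 1) (Kd.Y j false, t) := by simpa [B] using hl
        exact ⟨(Kd.Y j false, t), C.mem _ rfl htn, htn, rfl, hl'.symm⟩
      · by_cases hk : k ∈ E
        · have e : B (.K k) = insert (ch.lab (i + 1) (w k)) (three ch t i k) := by
            simp only [B]; rw [if_pos hk]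
          rw [e, Finset.mem_insert] at hl
          rcases hl with rfl | hl
          · obtain ⟨a1, a2, a3, -⟩ := hw k hk
            exact ⟨w k, a1, a2, a3, rfl⟩
          · exact three_mem htn C k l hl
        · have e : B (.K k) = three ch t i k := by
            simp only [B]; rw [if_neg hk]
          rw [e] at hl
          exact three_mem htn C k l hl
  · intro k hk
    have hk' : ∀ v ∈ ch.S (i + 1), valid I v → cls v.1 = some (.K k) →
        ch.lab (i + 1) v ∈ three ch t i k := by
      intro v h1 h2 h3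
      by_contra h4
      exact hk (Finset.mem_filter.2 ⟨Finset.mem_univ _, v, h1, h2, h3, h4⟩)
    constructor
    · intro s hs hsn
      have h1 := hk' (Kd.R0 k, s) hs hsn rfl
      unfold three at h1
      rw [Finset.mem_insert, Finset.mem_insert, Finset.mem_singleton] at h1
      rcases h1 with h1 | h1 | h1
      · exact h1
      · exact absurd h1.symm (star htn C (Or.inl rfl) hsn hs)
      · exact absurd h1.symm (star htn C (Or.inr rfl) hsn hs)
    · intro e ω hm hnm hω
      have h1 := hk' (Kd.C e k, ω) hm hω rfl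
      unfold three at h1
      rw [Finset.mem_insert, Finset.mem_insert, Finset.mem_singleton] at h1
      rcases h1 with h1 | h1 | h1
      · exfalso
        obtain ⟨q, hq⟩ := ch.ob i .S0
        refine ch.sep (v := (Kd.C e k, ω)) (v' := (Kd.R0 k, t)) hm (C.mem _ rfl htn)
          (w := (Kd.Ob .S0 q, 0)) ?_ ?_ ?_ h1
        · intro h
          exact absurd (h.1 hq) hnm
        · exact (adj_S0 (v := (Kd.C e k, ω)) (k := k) hω rfl q).2 (by simp)
        · intro h
          exact (adj_S0 (v := (Kd.R0 k, t)) (k := k) htn rfl q).1 h k rfl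
      · exact h1
      · exact absurd h1.symm (star2 C (K := Kd.A k) htn (Or.inl ⟨k, rfl⟩) hm hω (a := .K k) rfl
          (by simp) (by simp))

/-- at the attach of a boundary column there are few labels of vertices without class -/
theorem KU_bd (ok : I.Ok P) (A : Att ch) {t i : ℕ} (ht : 1 ≤ t) (htn : t ≤ I.n) (hbd : I.bd t)
    (ha : A.a (false, t) = i + 1) (T : Finset (Fin P.c))
    (hT : ∀ l ∈ T, ∃ v ∈ ch.S (i + 1), cls v.1 = none ∧ ch.lab (i + 1) v = l) :
    T.card ≤ 9 + P.ml := by
  classical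
  have C := col A ht htn ha
  have hH : ∀ b : Fin (3 * P.g), valid I ((Kd.H b, t) : Vx P) := fun b => ⟨ht, htn, hbd⟩
  let B : Cls P → Finset (Fin P.c) := fun a => match a with
    | .X j => if h : j.val < 3 * P.g then
        {ch.lab (i + 1) (Kd.X j false, t), ch.lab (i + 1) (Kd.H ⟨j.val, h⟩, t)}
        else {ch.lab (i + 1) (Kd.X j false, t)}
    | .Y j => {ch.lab (i + 1) (Kd.Y j false, t)}
    | .K k => three ch t i k
  have h1 := A.hD.count' C.hN B ?_ T hT
  · have e1 : (∑ j : Fin P.M, (B (.X j)).card) = P.M + 3 * P.g := by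
      have : ∀ j : Fin P.M, (B (.X j)).card = 1 + if j.val < 3 * P.g then 1 else 0 := by
        intro j
        by_cases hj : j.val < 3 * P.g
        · have e : B (.X j) =
            {ch.lab (i + 1) (Kd.X j false, t), ch.lab (i + 1) (Kd.H ⟨j.val, hj⟩, t)} := by
            simp only [B]; rw [dif_pos hj]
          rw [e, Finset.card_pair, if_pos hj]
          exact (star2 C (K := Kd.H ⟨j.val, hj⟩) (hH _) (Or.inr ⟨_, rfl⟩)
            (v := (Kd.X j false, t)) (a := .X j) (C.mem _ rfl htn) htn rfl (by simp)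
            (by simp)).symm
        · have e : B (.X j) = {ch.lab (i + 1) (Kd.X j false, t)} := by
            simp only [B]; rw [dif_neg hj]
          rw [e, Finset.card_singleton, if_neg hj]
      rw [Finset.sum_congr rfl fun j _ => this j, Finset.sum_add_distrib]
      have h2 : (∑ j : Fin P.M, if j.val < 3 * P.g then 1 else 0) = 3 * P.g := by
        rw [Fin.sum_univ_eq_sum_range (fun j => if j < 3 * P.g then 1 else 0) P.M]
        rw [Finset.sum_ite, Finset.sum_const_zero, add_zero, Finset.sum_const, smul_eq_mul, mul_one]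
        have h3 : (Finset.range P.M).filter (fun x => x < 3 * P.g) = Finset.range (3 * P.g) := by
          ext x
          have := P.g_le_M
          simp only [Finset.mem_filter, Finset.mem_range]
          omega
        rw [h3, Finset.card_range]
      rw [h2]
      simp
    have e2 : (∑ j : Fin P.M, (B (.Y j)).card) = P.M := by
      simp [B]
    have e3 : (∑ k : Fin P.p, (B (.K k)).card) = 3 * P.p := by
      have : ∀ k : Fin P.p, (B (.K k)).card = 3 := fun k => three_card htn C k
      rw [Finset.sum_congr rfl fun k _ => this k]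
      simp
      ring
    have hc : P.c = 2 * P.M + 3 * P.p + (9 + P.ml + 3 * P.g) := rfl
    omega
  · rintro (j | j | k) l hl
    · by_cases hj : j.val < 3 * P.g
      · have e : B (.X j) =
          {ch.lab (i + 1) (Kd.X j false, t), ch.lab (i + 1) (Kd.H ⟨j.val, hj⟩, t)} := by
          simp only [B]; rw [dif_pos hj]
        rw [e, Finset.mem_insert, Finset.mem_singleton] at hl
        rcases hl with rfl | rfl
        · exact ⟨(Kd.X j false, t), C.mem _ rfl htn, htn, rfl, rfl⟩
        · exact ⟨(Kd.H ⟨j.val, hj⟩, t), C.mem _ rfl (hH _), hH _, rfl, rfl⟩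
      · have e : B (.X j) = {ch.lab (i + 1) (Kd.X j false, t)} := by
          simp only [B]; rw [dif_neg hj]
        rw [e, Finset.mem_singleton] at hl
        exact ⟨(Kd.X j false, t), C.mem _ rfl htn, htn, rfl, hl.symm⟩
    · have hl' : l = ch.lab (i + 1) (Kd.Y j false, t) := by simpa [B] using hl
      exact ⟨(Kd.Y j false, t), C.mem _ rfl htn, htn, rfl, hl'.symm⟩
    · exact three_mem htn C k l hl

end Pool.Agent.H.MP_701cec_lc
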