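import Pool.Agent.H.MP_701cec_lc.Graph

/-!
Definitions for the lower bound: early sets, the attach function of a chain, weak schedules.
-/

namespace Pool.Agent.H.MP_701cec_lc

variable {P : Par} {I : Inst}

open Classical in
/-- the classes which have a vertex outside `S` -/
noncomputable def outC (I : Inst) (S : Finset (Vx P)) : Finset (Cls P) :=
  Finset.univ.filter fun a => ∃ v : Vx P, cls v.1 = some a ∧ valid I v ∧ v ∉ S

/-- early sets: many classes have vertices outside -/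
def early (I : Inst) (S : Finset (Vx P)) : Prop := 2 * P.δ + 4 ≤ (outC I S).card

/-- the chains of the graph -/
abbrev Ch (P : Par) (I : Inst) : Type := Chain (GG P I) P.c (UU P I) (good P)

/-- the classes are distinguished by vertices `Om false s` which are outside of `S N` -/
def Dist (ch : Ch P I) (N : ℕ) : Prop :=
  ∀ x y : Cls P, x ≠ y → ∃ s : Finset (Cls P), x ∈ s ∧ y ∉ s ∧
    ((Kd.Om false s, 0) : Vx P) ∉ ch.S N

/-- The attach function of a chain: column `τ` is contained in `S (a τ)` and disjoint from all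
earlier sets; up to level `N` all classes are distinguished by vertices `Om false s` which are
outside of `S N`. -/
structure Att (ch : Ch P I) where
  N : ℕ
  a : Bool × ℕ → ℕ
  hD : Dist ch N
  hle : ∀ τ, isCol I τ → a τ ≤ N
  hfull : ∀ τ, isCol I τ → ∀ v, inCol I τ v → v ∈ ch.S (a τ)
  hdisj : ∀ τ, isCol I τ → ∀ i < a τ, ∀ v, inCol I τ v → v ∉ ch.S i

/-- a W-column which is neither the first nor the last one of its job -/
def interior (I : Inst) (ω : ℕ) : Prop :=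
  1 ≤ ω ∧ ω + 1 < I.W ∧ I.jb (ω - 1) = I.jb ω ∧ I.jb (ω + 1) = I.jb ω

/-- Weak schedules: the information which the lower bound gives. `a ω` is the time at which the
W-column `ω` is attached (`0`: before the beginning), `tk ω` is the tick which it uses. -/
structure WSched (I : Inst) (r : ℕ) where
  a : ℕ → ℕ
  tk : ℕ → ℕ
  pre : ((Finset.range I.W).filter fun ω => a ω = 0).card ≤ r
  tk_pos : ∀ ω < I.W, 1 ≤ a ω → 1 ≤ tk ω ∧ tk ω ≤ I.n
  letter : ∀ ω < I.W, 1 ≤ a ω → I.ul (tk ω) = I.wl ω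
  tk_eq : ∀ ω < I.W, ∀ ω' < I.W, 1 ≤ a ω → a ω = a ω' → tk ω = tk ω'
  tk_lt : ∀ ω < I.W, ∀ ω' < I.W, 1 ≤ a ω → a ω < a ω' → tk ω < tk ω'
  three : ∀ ω < I.W, 1 ≤ a ω → ((Finset.range I.W).filter fun ω' => a ω' = a ω).card ≤ 3
  uniq : ∀ ω < I.W, 1 ≤ a ω → interior I ω → (∃ σ < I.W, I.jb σ = I.jb ω ∧ a σ < a ω) →
    ∀ ω' < I.W, a ω' = a ω → ω' = ω
  alone : ∀ ω < I.W, 1 ≤ a ω → interior I ω → (∃ σ < I.W, I.jb σ = I.jb ω ∧ a σ < a ω) →
    ∀ ρ < I.W, ∀ ρ' < I.W, I.jb ρ = I.jb ρ' → I.jb ρ ≠ I.jb ω → a ρ < a ω → a ω < a ρ' → False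
  bnd : ∀ ρ < I.W, ∀ ρ' < I.W, I.jb ρ = I.jb ρ' → 1 ≤ a ρ → 1 ≤ a ρ' →
    ∀ β, I.bd β → tk ρ ≤ β → β < tk ρ' → False

end Pool.Agent.H.MP_701cec_lc
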