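import Pool.Agent.H.MP_701cec_lc.Cert

/-!
Decomposition trees and lists of nodes.
-/

namespace Pool.Agent.H.MP_701cec_lc

theorem dec_of_nodes {n c : ℕ} (G : SimpleGraph (Fin n)) (T : ℕ → Finset (Fin n))
    (L : ℕ → Fin n → Fin c) (m : ℕ) (h : ∀ i < m, Node G T L i) :
    ∀ i < m, Dec (Fin c) G (T i) (L i) := by
  intro i
  induction i using Nat.strong_induction_on with
  | _ i ih =>
    intro hi
    rcases h i hi with ⟨v, hv⟩ | ⟨j, hj, k, hk, hT, hd, h1, h2, h3⟩
    · rw [hv]
      exact Dec.single v (L i)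
    · rw [hT] at h3 ⊢
      exact Dec.union (T j) (T k) (L j) (L k) (L i) (ih j hj (hj.trans hi)) (ih k hk (hk.trans hi))
        hd h1 h2 h3

/-- nodes in a shifted list -/
theorem m1_shift {n c : ℕ} {G : SimpleGraph (Fin n)} {T T' : ℕ → Finset (Fin n)}
    {L L' : ℕ → Fin n → Fin c} {i : ℕ} (s : ℕ) (h : Node G T L i)
    (hT : ∀ j ≤ i, T' (s + j) = T j) (hL : ∀ j ≤ i, L' (s + j) = L j) : Node G T' L' (s + i) := by
  rcases h with ⟨v, hv⟩ | ⟨j, hj, k, hk, h0, hd, h1, h2, h3⟩
  · exact Or.inl ⟨v, by rw [hT i le_rfl, hv]⟩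
  · refine Or.inr ⟨s + j, by omega, s + k, by omega, ?_⟩
    rw [hT i le_rfl, hL i le_rfl, hT j hj.le, hT k hk.le, hL j hj.le, hL k hk.le]
    exact ⟨h0, hd, h1, h2, h3⟩

theorem nodes_of_dec {n c : ℕ} (G : SimpleGraph (Fin n)) {S : Finset (Fin n)}
    {ℓ : Fin n → Fin c} (h : Dec (Fin c) G S ℓ) : ∃ (T : ℕ → Finset (Fin n))
      (L : ℕ → Fin n → Fin c), 1 ≤ S.card ∧ (∀ i < 2 * S.card - 1, Node G T L i) ∧
      T (2 * S.card - 2) = S ∧ L (2 * S.card - 2) = ℓ := by
  induction h with
  | single v ℓ =>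
    refine ⟨fun _ => {v}, fun _ => ℓ, ?_, ?_, rfl, rfl⟩
    · rw [Finset.card_singleton]
    · intro i _
      exact Or.inl ⟨v, rfl⟩
  | union S R ℓS ℓR ℓ hS hR hd h1 h2 h3 ihS ihR =>
    obtain ⟨TS, LS, cS, nS, eS, fS⟩ := ihS
    obtain ⟨TR, LR, cR, nR, eR, fR⟩ := ihR
    rw [Finset.card_union_of_disjoint hd]
    have ha : 2 * S.card - 1 = 2 * S.card - 2 + 1 := by omega
    have hb : 2 * R.card - 1 = 2 * R.card - 2 + 1 := by omega
    generalize 2 * S.card - 2 = a at *
    generalize 2 * R.card - 2 = b at *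
    rw [ha] at nS
    rw [hb] at nR
    have e1 : 2 * (S.card + R.card) - 1 = (a + 1) + (b + 1) + 1 := by omega
    have e2 : 2 * (S.card + R.card) - 2 = (a + 1) + (b + 1) := by omega
    rw [e1, e2]
    let T' : ℕ → Finset (Fin n) := fun i =>
      if i < a + 1 then TS i else if i < (a + 1) + (b + 1) then TR (i - (a + 1)) else S ∪ R
    let L' : ℕ → Fin n → Fin c := fun i =>
      if i < a + 1 then LS i else if i < (a + 1) + (b + 1) then LR (i - (a + 1)) else ℓ
    have T1 : ∀ i < a + 1, T' i = TS i := fun i hi => if_pos hi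
    have L1 : ∀ i < a + 1, L' i = LS i := fun i hi => if_pos hi
    have T2 : ∀ i < b + 1, T' (a + 1 + i) = TR i := by
      intro i hi
      change (if a + 1 + i < a + 1 then TS (a + 1 + i) else if a + 1 + i < (a + 1) + (b + 1) then
        TR (a + 1 + i - (a + 1)) else S ∪ R) = TR i
      rw [if_neg (by omega), if_pos (by omega), Nat.add_sub_cancel_left]
    have L2 : ∀ i < b + 1, L' (a + 1 + i) = LR i := by
      intro i hi
      change (if a + 1 + i < a + 1 then LS (a + 1 + i) else if a + 1 + i < (a + 1) + (b + 1) then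
        LR (a + 1 + i - (a + 1)) else ℓ) = LR i
      rw [if_neg (by omega), if_pos (by omega), Nat.add_sub_cancel_left]
    have T3 : T' ((a + 1) + (b + 1)) = S ∪ R := by
      change (if a + 1 + (b + 1) < a + 1 then _ else if a + 1 + (b + 1) < (a + 1) + (b + 1) then
        _ else S ∪ R) = S ∪ R
      rw [if_neg (by omega), if_neg (by omega)]
    have L3 : L' ((a + 1) + (b + 1)) = ℓ := by
      change (if a + 1 + (b + 1) < a + 1 then _ else if a + 1 + (b + 1) < (a + 1) + (b + 1) then
        _ else ℓ) = ℓ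
      rw [if_neg (by omega), if_neg (by omega)]
    refine ⟨T', L', by omega, ?_, T3, L3⟩
    intro i hi
    by_cases hi1 : i < a + 1
    · have := m1_shift (T' := T') (L' := L') 0 (nS i hi1)
        (fun j hj => by rw [Nat.zero_add]; exact T1 j (by omega))
        (fun j hj => by rw [Nat.zero_add]; exact L1 j (by omega))
      rwa [Nat.zero_add] at this
    · by_cases hi2 : i < (a + 1) + (b + 1)
      · have := m1_shift (T' := T') (L' := L') (a + 1) (nR (i - (a + 1)) (by omega))
          (fun j hj => T2 j (by omega)) (fun j hj => L2 j (by omega))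
        rwa [Nat.add_sub_cancel' (by omega : a + 1 ≤ i)] at this
      · have hi3 : i = (a + 1) + (b + 1) := by omega
        subst hi3
        refine Or.inr ⟨a, by omega, a + 1 + b, by omega, ?_⟩
        rw [T3, L3, T1 a (by omega), L1 a (by omega), T2 b (by omega), L2 b (by omega), eS, fS,
          eR, fR]
        exact ⟨rfl, hd, h1, h2, h3⟩

end Pool.Agent.H.MP_701cec_lc
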