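import Pool.Agent.H.MP_701cec_lc.Dec

/-!
k-expressions and decomposition trees.
-/

namespace Pool.Agent.H.MP_701cec_lc

/-- some `k`-expression has, up to an isomorphism, the vertex set `S`, the edges of `H` in `S` and
the labels `lam` -/
def t1b_Rep {V : Type} {k : ℕ} (H : SimpleGraph V) (S : Finset V) (lam : V → Fin k) : Prop :=
  ∃ (t : Term k) (φ : t.V → V), Function.Injective φ ∧ (∀ v, v ∈ S ↔ ∃ x, φ x = v) ∧
    (∀ x y, t.graph.Adj x y ↔ H.Adj (φ x) (φ y)) ∧ ∀ x, t.lab x = lam (φ x)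

theorem t1b_congr {V : Type} {k : ℕ} {H H' : SimpleGraph V} {S : Finset V} {lam lam' : V → Fin k}
    (h : t1b_Rep H S lam) (hH : ∀ u ∈ S, ∀ v ∈ S, (H.Adj u v ↔ H'.Adj u v))
    (hl : ∀ v ∈ S, lam v = lam' v) : t1b_Rep H' S lam' := by
  obtain ⟨t, φ, hφ, hS, hadj, hlab⟩ := h
  have hm : ∀ x, φ x ∈ S := fun x => (hS _).2 ⟨x, rfl⟩
  exact ⟨t, φ, hφ, hS, fun x y => (hadj x y).trans (hH _ (hm x) _ (hm y)),
    fun x => (hlab x).trans (hl _ (hm x))⟩

theorem t1b_single {V : Type} {k : ℕ} (H : SimpleGraph V) (v : V) (lam : V → Fin k) :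
    t1b_Rep H {v} lam := by
  refine ⟨Term.vertex (lam v), fun _ => v, ?_, ?_, ?_, ?_⟩
  · intro x y _
    exact Subsingleton.elim (α := Unit) x y
  · intro w
    rw [Finset.mem_singleton]
    exact ⟨fun h => ⟨(() : Unit), h.symm⟩, fun ⟨_, h⟩ => h.symm⟩
  · intro x y
    exact ⟨fun h => absurd h (by change ¬ (⊥ : SimpleGraph Unit).Adj x y; simp),
      fun h => absurd h H.irrefl⟩
  · intro x
    rfl

theorem t1b_relabel {V : Type} {k : ℕ} {H : SimpleGraph V} {S : Finset V} {lam : V → Fin k}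
    (h : t1b_Rep H S lam) (i j : Fin k) :
    t1b_Rep H S (fun v => if lam v = i then j else lam v) := by
  obtain ⟨t, φ, hφ, hS, hadj, hlab⟩ := h
  refine ⟨Term.relabel i j t, φ, hφ, hS, hadj, fun x => ?_⟩
  change (if t.lab x = i then j else t.lab x) = _
  rw [hlab]

theorem t1b_join {V : Type} {k : ℕ} {H : SimpleGraph V} {S : Finset V} {lam : V → Fin k}
    (h : t1b_Rep H S lam) (i j : Fin k) (hij : i ≠ j) :
    t1b_Rep (H ⊔ SimpleGraph.fromRel (fun u v => lam u = i ∧ lam v = j)) S lam := by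
  obtain ⟨t, φ, hφ, hS, hadj, hlab⟩ := h
  refine ⟨Term.join i j hij t, φ, hφ, hS, fun x y => ?_, hlab⟩
  change (t.graph ⊔ SimpleGraph.fromRel (fun u v => t.lab u = i ∧ t.lab v = j)).Adj x y ↔ _
  rw [SimpleGraph.sup_adj, SimpleGraph.sup_adj, SimpleGraph.fromRel_adj,
    SimpleGraph.fromRel_adj, hadj, hlab, hlab, hφ.ne_iff]

theorem t1b_lr {A B : Type} (G : SimpleGraph A) (H : SimpleGraph B) (a : A) (b : B) :
    ¬ (G ⊕g H).Adj (Sum.inl a) (Sum.inr b) := by simp

theorem t1b_rl {A B : Type} (G : SimpleGraph A) (H : SimpleGraph B) (a : A) (b : B) :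
    ¬ (G ⊕g H).Adj (Sum.inr b) (Sum.inl a) := by simp

theorem t1b_union {V : Type} [DecidableEq V] {k : ℕ} {H : SimpleGraph V} {S T : Finset V}
    {lam : V → Fin k} (hS : t1b_Rep H S lam) (hT : t1b_Rep H T lam) (hd : Disjoint S T)
    (hc : ∀ u ∈ S, ∀ v ∈ T, ¬ H.Adj u v) : t1b_Rep H (S ∪ T) lam := by
  obtain ⟨s, φ, hφ, hφS, hφa, hφl⟩ := hS
  obtain ⟨t, ψ, hψ, hψT, hψa, hψl⟩ := hT
  have hm : ∀ x, φ x ∈ S := fun x => (hφS _).2 ⟨x, rfl⟩
  have hn : ∀ x, ψ x ∈ T := fun x => (hψT _).2 ⟨x, rfl⟩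
  refine ⟨Term.union s t, Sum.elim φ ψ, ?_, ?_, ?_, ?_⟩
  · rintro (x | x) (y | y) hxy
    · exact congrArg Sum.inl (hφ hxy)
    · have h : φ x = ψ y := hxy
      exact absurd (h ▸ hn y : φ x ∈ T) (Finset.disjoint_left.1 hd (hm x))
    · have h : ψ x = φ y := hxy
      exact absurd (h ▸ hn x : φ y ∈ T) (Finset.disjoint_left.1 hd (hm y))
    · exact congrArg Sum.inr (hψ hxy)
  · intro v
    rw [Finset.mem_union, hφS, hψT]
    constructor
    · rintro (⟨x, hx⟩ | ⟨x, hx⟩)
      · exact ⟨Sum.inl x, hx⟩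
      · exact ⟨Sum.inr x, hx⟩
    · rintro ⟨x | x, hx⟩
      · exact Or.inl ⟨x, hx⟩
      · exact Or.inr ⟨x, hx⟩
  · rintro (x | x) (y | y)
    · exact hφa x y
    · exact ⟨fun h => absurd h (t1b_lr _ _ x y), fun h => absurd h (hc _ (hm x) _ (hn y))⟩
    · exact ⟨fun h => absurd h (t1b_rl _ _ y x),
        fun h => absurd (SimpleGraph.Adj.symm h) (hc _ (hm y) _ (hn x))⟩
    · exact hψa x y
  · rintro (x | x)
    · exact hφl x
    · exact hψl x

/-- the labels may be permuted -/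
theorem t1b_perm {k : ℕ} (π : Equiv.Perm (Fin k)) (t : Term k) :
    ∃ (t' : Term k) (e : t'.V ≃ t.V), (∀ x y, t'.graph.Adj x y ↔ t.graph.Adj (e x) (e y)) ∧
      ∀ x, t'.lab x = π (t.lab (e x)) := by
  induction t with
  | vertex i =>
    exact ⟨Term.vertex (π i), Equiv.refl _, fun x y => Iff.rfl, fun x => rfl⟩
  | union s t ihs iht =>
    obtain ⟨s', e, he, hel⟩ := ihs
    obtain ⟨t', f, hf, hfl⟩ := iht
    refine ⟨Term.union s' t', Equiv.sumCongr e f, ?_, ?_⟩
    · rintro (x | x) (y | y)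
      · exact he x y
      · exact ⟨fun h => absurd h (t1b_lr _ _ x y), fun h => absurd h (t1b_lr _ _ (e x) (f y))⟩
      · exact ⟨fun h => absurd h (t1b_rl _ _ y x), fun h => absurd h (t1b_rl _ _ (e y) (f x))⟩
      · exact hf x y
    · rintro (x | x)
      · exact hel x
      · exact hfl x
  | join i j h t ih =>
    obtain ⟨t', e, he, hel⟩ := ih
    refine ⟨Term.join (π i) (π j) (π.injective.ne h) t', e, fun x y => ?_, hel⟩
    change (t'.graph ⊔ SimpleGraph.fromRel (fun u v => t'.lab u = π i ∧ t'.lab v = π j)).Adj x y ↔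
      (t.graph ⊔ SimpleGraph.fromRel (fun u v => t.lab u = i ∧ t.lab v = j)).Adj (e x) (e y)
    rw [SimpleGraph.sup_adj, SimpleGraph.sup_adj, SimpleGraph.fromRel_adj,
      SimpleGraph.fromRel_adj, he, hel, hel, π.injective.eq_iff, π.injective.eq_iff,
      π.injective.eq_iff, π.injective.eq_iff, e.injective.ne_iff]
  | relabel i j t ih =>
    obtain ⟨t', e, he, hel⟩ := ih
    refine ⟨Term.relabel (π i) (π j) t', e, he, fun x => ?_⟩
    change (if t'.lab x = π i then π j else t'.lab x) =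
      π (if t.lab (e x) = i then j else t.lab (e x))
    by_cases h : t.lab (e x) = i
    · have h' : t'.lab x = π i := (hel x).trans (congrArg π h)
      rw [if_pos h', if_pos h]
    · have h' : t'.lab x ≠ π i := fun h'' => h (π.injective ((hel x).symm.trans h''))
      rw [if_neg h', if_neg h]
      exact hel x

theorem t1b_permRep {V : Type} {k : ℕ} {H : SimpleGraph V} {S : Finset V} {lam : V → Fin k}
    (h : t1b_Rep H S lam) (π : Equiv.Perm (Fin k)) : t1b_Rep H S (fun v => π (lam v)) := by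
  obtain ⟨t, φ, hφ, hS, hadj, hlab⟩ := h
  obtain ⟨t', e, he, hel⟩ := t1b_perm π t
  refine ⟨t', fun x => φ (e x), hφ.comp e.injective, fun v => ?_, fun x y => ?_, fun x => ?_⟩
  · rw [hS]
    exact ⟨fun ⟨x, hx⟩ => ⟨e.symm x, (congrArg φ (e.apply_symm_apply x)).trans hx⟩,
      fun ⟨x, hx⟩ => ⟨e x, hx⟩⟩
  · rw [he, hadj]
  · rw [hel, hlab]

/-- an idempotent map of the labels -/
theorem t1b_idem {V : Type} {k : ℕ} {H : SimpleGraph V} {S : Finset V} {lam : V → Fin k}
    (h : t1b_Rep H S lam) (e : Fin k → Fin k) (he : ∀ x, e (e x) = e x) :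
    t1b_Rep H S (fun v => e (lam v)) := by
  have key : ∀ A : Finset (Fin k),
      t1b_Rep H S (fun v => if lam v ∈ A then e (lam v) else lam v) := by
    intro A
    induction A using Finset.induction_on with
    | empty => simpa using h
    | insert a A ha ih =>
      refine t1b_congr (t1b_relabel ih a (e a)) (fun _ _ _ _ => Iff.rfl) (fun v _ => ?_)
      simp only [Finset.mem_insert]
      by_cases h1 : lam v ∈ A
      · rw [if_pos h1, if_pos (Or.inr h1)]
        split_ifs with h2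
        · rw [← h2, he]
        · rfl
      · rw [if_neg h1]
        by_cases h2 : lam v = a
        · rw [if_pos h2, if_pos (Or.inl h2), h2]
        · rw [if_neg h2, if_neg (not_or.2 ⟨h2, h1⟩)]
  simpa using key Finset.univ

/-- coarser labels -/
theorem t1b_coarse {V : Type} {k : ℕ} {H : SimpleGraph V} {S : Finset V} {lam nu : V → Fin k}
    (h : t1b_Rep H S lam) (hc : ∀ u ∈ S, ∀ v ∈ S, lam u = lam v → nu u = nu v) :
    t1b_Rep H S nu := by
  classical
  -- `g` with `nu = g ∘ lam` on `S`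
  obtain ⟨g, hg⟩ : ∃ g : Fin k → Fin k, ∀ v ∈ S, g (lam v) = nu v := by
    refine ⟨fun l => if hl : ∃ v ∈ S, lam v = l then nu hl.choose else l, fun v hv => ?_⟩
    have hl : ∃ w ∈ S, lam w = lam v := ⟨v, hv, rfl⟩
    simp only [dif_pos hl]
    exact hc _ hl.choose_spec.1 _ hv hl.choose_spec.2
  -- an idempotent with the same kernel
  obtain ⟨r, hr⟩ : ∃ r : Fin k → Fin k, ∀ x, g (r (g x)) = g x :=
    ⟨fun y => if hy : ∃ x, g x = y then hy.choose else y, fun x => by
      have hy : ∃ x', g x' = g x := ⟨x, rfl⟩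
      simp only [dif_pos hy]
      exact hy.choose_spec⟩
  have hidem : ∀ x, r (g (r (g x))) = r (g x) := fun x => by rw [hr]
  obtain ⟨π', hπ'⟩ := Finset.exists_equiv_extend_of_card_eq (α := Fin k) (β := Fin k)
    (t := Finset.univ) (by simp) (s := Finset.univ.image (fun x => r (g x))) (f := g)
    (Finset.subset_univ _) (by
      intro a ha b hb hab
      simp only [Finset.coe_image, Finset.coe_univ, Set.image_univ, Set.mem_range] at ha hb
      obtain ⟨x, rfl⟩ := ha
      obtain ⟨y, rfl⟩ := hb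
      rw [hr, hr] at hab
      rw [hab])
  set π : Equiv.Perm (Fin k) := π'.trans (Equiv.subtypeUnivEquiv (fun x => Finset.mem_univ x))
    with hπdef
  have hπ : ∀ x, π (r (g x)) = g x := by
    intro x
    have := hπ' (r (g x)) (Finset.mem_image_of_mem _ (Finset.mem_univ x))
    rw [hr] at this
    exact this
  refine t1b_congr (t1b_permRep (t1b_idem h (fun x => r (g x)) hidem) π)
    (fun _ _ _ _ => Iff.rfl) (fun v hv => ?_)
  rw [hπ, hg v hv]

/-- main induction -/
theorem t1b_main {V : Type} [DecidableEq V] (G : SimpleGraph V) {k : ℕ} {U : Finset V}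
    {ℓ : V → Fin k} (h : Dec (Fin k) G U ℓ) : t1b_Rep G U ℓ := by
  classical
  induction h with
  | single v ℓ => exact t1b_single G v ℓ
  | union S T ℓS ℓT ℓ hS hT hd h1 h2 h3 ihS ihT =>
    have hS' : t1b_Rep G S ℓ := t1b_coarse ihS h1
    have hT' : t1b_Rep G T ℓ := t1b_coarse ihT h2
    -- the graph without the edges between `S` and `T`
    set H₀ : SimpleGraph V := SimpleGraph.fromRel
      (fun u v => G.Adj u v ∧ ((u ∈ S ∧ v ∈ S) ∨ (u ∈ T ∧ v ∈ T))) with hH₀
    have hH₀adj : ∀ u v, H₀.Adj u v ↔ G.Adj u v ∧ ((u ∈ S ∧ v ∈ S) ∨ (u ∈ T ∧ v ∈ T)) := by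
      intro u v
      rw [hH₀, SimpleGraph.fromRel_adj]
      constructor
      · rintro ⟨_, h | ⟨h, h'⟩⟩
        · exact h
        · exact ⟨h.symm, h'.imp And.symm And.symm⟩
      · intro h
        exact ⟨h.1.ne, Or.inl h⟩
    have hdis : ∀ u, u ∈ S → u ∈ T → False := fun u hu hu' => Finset.disjoint_left.1 hd hu hu'
    have h0 : t1b_Rep H₀ (S ∪ T) ℓ := by
      refine t1b_union (t1b_congr hS' ?_ fun _ _ => rfl) (t1b_congr hT' ?_ fun _ _ => rfl) hd ?_
      · intro u hu v hv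
        rw [hH₀adj]
        exact ⟨fun h => ⟨h, Or.inl ⟨hu, hv⟩⟩, fun h => h.1⟩
      · intro u hu v hv
        rw [hH₀adj]
        exact ⟨fun h => ⟨h, Or.inr ⟨hu, hv⟩⟩, fun h => h.1⟩
      · intro u hu v hv h
        rw [hH₀adj] at h
        rcases h.2 with h | h
        · exact hdis v h.2 hv
        · exact hdis u hu h.1
    -- the joins
    set P : Finset (Fin k × Fin k) := Finset.univ.filter
      (fun p => ∃ u ∈ S, ∃ v ∈ T, G.Adj u v ∧ ℓ u = p.1 ∧ ℓ v = p.2) with hP
    have key : ∀ Q : Finset (Fin k × Fin k), Q ⊆ P →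
        t1b_Rep (H₀ ⊔ SimpleGraph.fromRel (fun u v => (ℓ u, ℓ v) ∈ Q)) (S ∪ T) ℓ := by
      intro Q
      induction Q using Finset.induction_on with
      | empty =>
        intro _
        refine t1b_congr h0 (fun u _ v _ => ?_) (fun _ _ => rfl)
        simp [SimpleGraph.fromRel_adj]
      | insert q Q hq ih =>
        intro hQ
        have ih' := ih ((Finset.subset_insert q Q).trans hQ)
        have hqP : q ∈ P := hQ (Finset.mem_insert_self q Q)
        have hne : q.1 ≠ q.2 := by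
          rw [hP, Finset.mem_filter] at hqP
          obtain ⟨_, u, hu, v, hv, huv, e1, e2⟩ := hqP
          intro he
          have := h3 u hu v hv huv u (Finset.mem_union_left _ hu) u (Finset.mem_union_left _ hu)
            rfl (by rw [e1, e2, he])
          exact G.irrefl this
        refine t1b_congr (t1b_join ih' q.1 q.2 hne) (fun u _ v _ => ?_) (fun _ _ => rfl)
        simp only [SimpleGraph.sup_adj, SimpleGraph.fromRel_adj, Finset.mem_insert, Prod.ext_iff]
        tauto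
    refine t1b_congr (key P (Finset.Subset.refl P)) (fun u hu v hv => ?_) (fun _ _ => rfl)
    rw [SimpleGraph.sup_adj, hH₀adj, SimpleGraph.fromRel_adj]
    have hPG : ∀ u ∈ S ∪ T, ∀ v ∈ S ∪ T, (ℓ u, ℓ v) ∈ P → G.Adj u v := by
      intro u hu v hv h
      rw [hP, Finset.mem_filter] at h
      obtain ⟨_, a, ha, b, hb, hab, e1, e2⟩ := h
      exact h3 a ha b hb hab u hu v hv e1.symm e2.symm
    have hGP : ∀ u ∈ S, ∀ v ∈ T, G.Adj u v → (ℓ u, ℓ v) ∈ P := by
      intro u hu v hv h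
      rw [hP, Finset.mem_filter]
      exact ⟨Finset.mem_univ _, u, hu, v, hv, h, rfl, rfl⟩
    constructor
    · rintro (h | ⟨_, h | h⟩)
      · exact h.1
      · exact hPG u hu v hv h
      · exact (hPG v hv u hu h).symm
    · intro h
      rw [Finset.mem_union] at hu hv
      rcases hu with hu | hu <;> rcases hv with hv | hv
      · exact Or.inl ⟨h, Or.inl ⟨hu, hv⟩⟩
      · exact Or.inr ⟨h.ne, Or.inl (hGP u hu v hv h)⟩
      · exact Or.inr ⟨h.ne, Or.inr (hGP v hv u hu h.symm)⟩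
      · exact Or.inl ⟨h, Or.inr ⟨hu, hv⟩⟩

/-- a decomposition tree gives a k-expression -/
theorem term_of_dec {V : Type} [DecidableEq V] (G : SimpleGraph V) (U : Finset V) {k : ℕ}
    (hk : 0 < k) {ℓ : V → Fin k} (h : Dec (Fin k) G U ℓ) :
    ∃ (t : Term k) (φ : t.V → V), Function.Injective φ ∧ (∀ v, v ∈ U ↔ ∃ x, φ x = v) ∧
      ∀ x y, t.graph.Adj x y ↔ G.Adj (φ x) (φ y) := by
  obtain ⟨t, φ, h1, h2, h3, _⟩ := t1b_main G h
  exact ⟨t, φ, h1, h2, h3⟩

end Pool.Agent.H.MP_701cec_lc
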