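import Pool.Agent.H.MP_701cec_lc.T1a
import Pool.Agent.H.MP_701cec_lc.T1b

/-!
k-expressions and decomposition trees.
-/

namespace Pool.Agent.H.MP_701cec_lc

/-- with pairwise different labels every nonempty finite set has a decomposition tree -/
theorem t1c_dec_id {n : ℕ} (H : SimpleGraph (Fin n)) (S : Finset (Fin n)) (hS : S.Nonempty) :
    Dec (Fin n) H S id := by
  induction hS using Finset.Nonempty.cons_induction with
  | singleton a => exact Dec.single a id
  | cons a s h hs ih =>
    rw [Finset.cons_eq_insert, Finset.insert_eq]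
    refine Dec.union {a} s id id id (Dec.single a id) ih (Finset.disjoint_singleton_left.mpr h)
      ?_ ?_ ?_
    · intro u _ v _ huv
      exact huv
    · intro u _ v _ huv
      exact huv
    · intro u _ v _ huv u' _ v' _ h1 h2
      simp only [id] at h1 h2
      rw [h1, h2]
      exact huv

/-- every graph on `Fin n`, `n > 0`, is the value of an `n`-expression -/
theorem t1c_exists {n : ℕ} (hn : 0 < n) (H : SimpleGraph (Fin n)) :
    ∃ t : Term n, Nonempty (H ≃g t.graph) := by
  haveI : Nonempty (Fin n) := ⟨⟨0, hn⟩⟩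
  obtain ⟨t, φ, h1, h2, h3⟩ := term_of_dec H Finset.univ hn
    (t1c_dec_id H Finset.univ Finset.univ_nonempty)
  refine ⟨t, ⟨?_⟩⟩
  have hb : Function.Bijective φ := ⟨h1, fun v => (h2 v).mp (Finset.mem_univ v)⟩
  exact (RelIso.mk (Equiv.ofBijective φ hb) (by
    intro a b
    exact (h3 a b).symm) : t.graph ≃g H).symm

/-- clique-width and decomposition trees; the vertices `Fin n` of `H` are mapped onto the finite
set `U` of vertices of `G` -/
theorem cw_le_iff {n : ℕ} (hn : 0 < n) (H : SimpleGraph (Fin n)) {V : Type} [DecidableEq V]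
    (G : SimpleGraph V) (U : Finset V) (φ : Fin n → V) (hφ : Function.Injective φ)
    (hU : ∀ v, v ∈ U ↔ ∃ x, φ x = v) (hadj : ∀ x y, H.Adj x y ↔ G.Adj (φ x) (φ y)) {c : ℕ}
    (hc : 0 < c) : cliqueWidth H ≤ c ↔ ∃ ℓ : V → Fin c, Dec (Fin c) G U ℓ := by
  constructor
  · intro h
    have hmem : cliqueWidth H ∈ {k | ∃ t : Term k, Nonempty (H ≃g t.graph)} :=
      Nat.sInf_mem ⟨n, t1c_exists hn H⟩
    obtain ⟨t, ⟨e⟩⟩ := hmem
    obtain ⟨ℓ, hℓ⟩ := dec_of_term G U t (fun x => φ (e.symm x))
      (fun x y hxy => e.symm.injective (hφ hxy))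
      (fun v => by
        rw [hU v]
        constructor
        · rintro ⟨x, hx⟩
          exact ⟨e x, by simpa using hx⟩
        · rintro ⟨x, hx⟩
          exact ⟨e.symm x, hx⟩)
      (fun x y => by
        rw [← hadj]
        exact (e.symm.map_adj_iff).symm)
    exact ⟨_, hℓ.map (Fin.castLE h) (Fin.castLE_injective h)⟩
  · rintro ⟨ℓ, hℓ⟩
    obtain ⟨t, ψ, h1, h2, h3⟩ := term_of_dec G U hc hℓ
    apply Nat.sInf_le
    refine ⟨t, ⟨?_⟩⟩
    have hx : ∀ x : t.V, ∃ y : Fin n, φ y = ψ x := fun x => (hU _).mp ((h2 _).mpr ⟨x, rfl⟩)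
    choose f hf using hx
    have hb : Function.Bijective f := by
      constructor
      · intro x y hxy
        apply h1
        rw [← hf x, ← hf y, hxy]
      · intro y
        obtain ⟨x, hx⟩ := (h2 (φ y)).mp ((hU _).mpr ⟨y, rfl⟩)
        exact ⟨x, hφ (by rw [hf x, hx])⟩
    exact (RelIso.mk (Equiv.ofBijective f hb) (by
      intro a b
      simp only [Equiv.ofBijective_apply]
      rw [hadj, hf a, hf b, h3]) : t.graph ≃g H).symm

end Pool.Agent.H.MP_701cec_lc
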