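import Pool.Agent.H.MP_701cec_lc.M1
import Pool.Agent.H.MP_701cec_lc.T1c
import Pool.Agent.H.MP_701cec_lc.Enc

/-!
The test is correct.
-/

namespace Pool.Agent.H.MP_701cec_lc

open Pool.Agent.H.MP_c8e747_lc (nn xx zz tr fa no ce nn_zz xx_zz tr_zz fa_zz no_zz)

theorem m2a_sep (r n : ℕ) (w : ℕ → ℕ → Bool) {i : ℕ} (hi : i < r) :
    (enc_rows r n w)[i * (n + 1) + n]? = some none := by
  induction r with
  | zero => omega
  | succ r ih =>
    rw [enc_rows_succ]
    by_cases h : i < r
    · have h1 : i * (n + 1) + n < r * (n + 1) := by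
        calc i * (n + 1) + n < i * (n + 1) + (n + 1) := by omega
          _ = (i + 1) * (n + 1) := by ring
          _ ≤ r * (n + 1) := Nat.mul_le_mul_right _ h
      rw [List.getElem?_append_left (by rw [enc_rows_length]; exact h1)]
      exact ih h
    · have h2 : i = r := by omega
      subst h2
      rw [List.getElem?_append_right (by rw [enc_rows_length]; omega), enc_rows_length,
        Nat.add_sub_cancel_left, List.getElem?_append_right (by simp)]
      simp

/-- a string passing the first test is a code -/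
theorem m2a_code {x : List (Option Bool)} {w : List Bool} (h : cwf (zz x w)) :
    ∃ (n : ℕ) (G : SimpleGraph (Fin n)), x.count none = n ∧ x = encode G ∧
      ∀ u v : Fin n, G.Adj u v ↔ ca (zz x w) u.val v.val := by
  obtain ⟨h1, h2, h3, h4, h5, h6⟩ := h
  unfold ca at *
  simp only [xx_zz, nn_zz, tr_zz, fa_zz, no_zz] at *
  set n := x.count none with hn
  let G : SimpleGraph (Fin n) :=
    { Adj := fun u v => x[u.val * (n + 1) + v.val]? = some (some true)
      symm := ⟨fun u v huv => h5 u.val u.isLt v.val v.isLt huv⟩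
      loopless := ⟨fun u hu => h6 u.val u.isLt hu⟩ }
  refine ⟨n, G, rfl, ?_, fun u v => Iff.rfl⟩
  rw [enc_encode_eq]
  have hW := enc_tb_eq (fun i j => @decide (G.Adj i j) (Classical.propDecidable _))
  generalize enc_tb (fun i j => @decide (G.Adj i j) (Classical.propDecidable _)) = W at hW ⊢
  apply List.ext_getElem?
  intro p
  by_cases hp : p < n * (n + 1)
  · have hdn : p / (n + 1) < n := by
      rw [Nat.div_lt_iff_lt_mul (Nat.succ_pos n)]
      exact hp
    have hm : p % (n + 1) < n + 1 := Nat.mod_lt _ (Nat.succ_pos n)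
    have hd' : p / (n + 1) * (n + 1) + p % (n + 1) = p := by
      rw [mul_comm]
      exact Nat.div_add_mod _ _
    by_cases hpm : p % (n + 1) < n
    · have h7 := enc_rows_get n n W hdn hpm
      have h8 := h3 (p / (n + 1)) hdn (p % (n + 1)) hpm
      have h9 := hW ⟨p / (n + 1), hdn⟩ ⟨p % (n + 1), hpm⟩
      simp only at h9
      rw [hd'] at h7 h8
      rw [h7, h9]
      have h10 : G.Adj ⟨p / (n + 1), hdn⟩ ⟨p % (n + 1), hpm⟩ ↔ x[p]? = some (some true) := by
        change x[p / (n + 1) * (n + 1) + p % (n + 1)]? = some (some true) ↔ _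
        rw [hd']
      rcases h8 with h8 | h8
      · rw [h8, (@decide_eq_true_iff _ (Classical.propDecidable _)).2 (h10.2 h8)]
      · have h11 : ¬ G.Adj ⟨p / (n + 1), hdn⟩ ⟨p % (n + 1), hpm⟩ := by
          rw [h10, h8]
          simp
        rw [h8, (@decide_eq_false_iff_not _ (Classical.propDecidable _)).2 h11]
    · have h10 : p % (n + 1) = n := by omega
      have h7 := m2a_sep n n W hdn
      have h8 := h4 (p / (n + 1)) hdn
      rw [h10] at hd'
      rw [hd'] at h7 h8
      rw [h7, h8]
  · rw [List.getElem?_eq_none (by omega), List.getElem?_eq_none (by rw [enc_rows_length]; omega)]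

theorem ctest_sound {c : ℕ} (hc : 1 ≤ c) {x : List (Option Bool)} {w : List Bool}
    (h : ctest c (zz x w)) : x ∈ CW c := by
  classical
  obtain ⟨h1, h2, h3⟩ := h
  obtain ⟨n, G, hcount, hx, hG⟩ := m2a_code h1
  have hn : 1 ≤ n := by
    have := h1.1
    rwa [nn_zz, hcount] at this
  refine ⟨n, G, hn, hx, ?_⟩
  have hnz : nn (zz x w) = n := (nn_zz x w).trans hcount
  rw [hnz] at h2 h3
  clear hx
  generalize zz x w = z at *
  -- the sets and the labels
  let T : ℕ → Finset (Fin n) := fun i => Finset.univ.filter fun v => cS c z i v.val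
  let L : ℕ → Fin n → Fin c := fun i v =>
    if h : ∃ q, q < c ∧ cb c z i v.val (q + 1) then ⟨h.choose, h.choose_spec.1⟩ else ⟨0, hc⟩
  have hT : ∀ i (v : Fin n), v ∈ T i ↔ cS c z i v.val := by
    intro i v
    simp [T]
  have hL : ∀ i, con c z i → ∀ (v : Fin n) (q : ℕ), q < c →
      (cb c z i v.val (q + 1) ↔ (L i v).val = q) := by
    intro i hi v q hq
    obtain ⟨q₀, hq₀, hq1, hq2⟩ := hi v.val (by rw [hnz]; exact v.isLt)
    have he : ∃ q, q < c ∧ cb c z i v.val (q + 1) := ⟨q₀, hq₀, hq1⟩
    have hv : (L i v).val = q₀ := by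
      simp only [L]
      rw [dif_pos he]
      exact hq2 _ he.choose_spec.1 he.choose_spec.2
    rw [hv]
    constructor
    · intro hh
      exact (hq2 q hq hh).symm
    · rintro rfl
      exact hq1
  have hcl : ∀ i, con c z i → ∀ u v : Fin n, cl c z i u.val v.val ↔ L i u = L i v := by
    intro i hi u v
    constructor
    · rintro ⟨q, hq, h4, h5⟩
      have e1 := (hL i hi u q hq).1 h4
      have e2 := (hL i hi v q hq).1 h5
      exact Fin.ext (e1.trans e2.symm)
    · intro huv
      exact ⟨(L i u).val, (L i u).isLt, (hL i hi u _ (L i u).isLt).2 rfl,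
        (hL i hi v _ (L i u).isLt).2 (by rw [huv])⟩
  have hnode : ∀ i < 2 * n - 1, Node G T L i := by
    intro i hi
    obtain ⟨hcon, hor⟩ := h2 i hi
    rcases hor with hleaf | ⟨j, hj, k, hk, hu1, hu2, hu3, hu4⟩
    · left
      obtain ⟨v, hv, hv2⟩ := hleaf
      rw [hnz] at hv hv2
      refine ⟨⟨v, hv⟩, ?_⟩
      ext u
      rw [hT, Finset.mem_singleton, hv2 u.val u.isLt, Fin.ext_iff]
    · right
      have hconj := (h2 j (by omega)).1
      have hconk := (h2 k (by omega)).1
      rw [hnz] at hu1 hu2 hu3 hu4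
      refine ⟨j, hj, k, hk, ?_, ?_, ?_, ?_, ?_⟩
      · ext u
        rw [Finset.mem_union, hT, hT, hT]
        exact (hu1 u.val u.isLt).1
      · rw [Finset.disjoint_left]
        intro u h4 h5
        rw [hT] at h4 h5
        exact (hu1 u.val u.isLt).2 ⟨h4, h5⟩
      · intro u h4 v h5 h6
        rw [hT] at h4 h5
        rw [← hcl i hcon]
        exact hu2 u.val u.isLt v.val v.isLt h4 h5 ((hcl j hconj u v).2 h6)
      · intro u h4 v h5 h6
        rw [hT] at h4 h5
        rw [← hcl i hcon]
        exact hu3 u.val u.isLt v.val v.isLt h4 h5 ((hcl k hconk u v).2 h6)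
      · intro u h4 v h5 h6 u' h7 v' h8 h9 h10
        rw [hT] at h4 h5 h7 h8
        rw [hG] at h6 ⊢
        exact hu4 u.val u.isLt v.val v.isLt h4 h5 h6 u'.val u'.isLt v'.val v'.isLt h7 h8
          ((hcl i hcon u' u).2 h9) ((hcl i hcon v' v).2 h10)
  have hdec := dec_of_nodes G T L (2 * n - 1) hnode (2 * n - 2) (by omega)
  have huniv : T (2 * n - 2) = Finset.univ := by
    ext v
    rw [hT]
    simp only [Finset.mem_univ, iff_true]
    exact h3 v.val v.isLt
  rw [huniv] at hdec
  exact (cw_le_iff hn G G Finset.univ id Function.injective_id (fun v => by simp)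
    (fun _ _ => Iff.rfl) hc).2 ⟨_, hdec⟩

end Pool.Agent.H.MP_701cec_lc
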