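import Pool.Agent.H.MP_701cec_lc.M1
import Pool.Agent.H.MP_701cec_lc.T1c
import Pool.Agent.H.MP_701cec_lc.Enc

/-!
The test is correct: every code in `CW c` has a short certificate which passes the test.
-/

namespace Pool.Agent.H.MP_701cec_lc

open Pool.Agent.H.MP_c8e747_lc (nn xx zz tr fa no ce nn_zz xx_zz tr_zz fa_zz no_zz ce_zz)

/-- the separators of the code -/
theorem m2b_sep (r n : ℕ) (w : ℕ → ℕ → Bool) {i : ℕ} (hi : i < r) :
    (enc_rows r n w)[i * (n + 1) + n]? = some none := by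
  induction r with
  | zero => omega
  | succ r ih =>
    rw [enc_rows_succ]
    by_cases h : i < r
    · have h1 : i * (n + 1) + n < r * (n + 1) := by
        calc i * (n + 1) + n < i * (n + 1) + (n + 1) := by omega
          _ = (i + 1) * (n + 1) := by ring
          _ ≤ r * (n + 1) := Nat.mul_le_mul_right _ h
      rw [List.getElem?_append_left (by rw [enc_rows_length]; exact h1)]
      exact ih h
    · have h2 : i = r := by omega
      subst h2
      rw [List.getElem?_append_right (by rw [enc_rows_length]; omega), enc_rows_length,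
        Nat.add_sub_cancel_left, List.getElem?_append_right (by simp)]
      simp

open Classical in
/-- the bits of the certificate -/
noncomputable def m2b_bit {n c : ℕ} (T : ℕ → Finset (Fin n)) (L : ℕ → Fin n → Fin c)
    (i v q : ℕ) : Bool :=
  if h : v < n then
    if q = 0 then decide ((⟨v, h⟩ : Fin n) ∈ T i) else decide ((L i ⟨v, h⟩).val + 1 = q)
  else false

/-- the certificate -/
noncomputable def m2b_w {n c : ℕ} (T : ℕ → Finset (Fin n)) (L : ℕ → Fin n → Fin c) :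
    List Bool :=
  (List.range ((2 * n - 1) * n * (c + 1))).map fun p =>
    m2b_bit T L (p / (c + 1) / n) (p / (c + 1) % n) (p % (c + 1))

theorem m2b_nn {n : ℕ} (G : SimpleGraph (Fin n)) (w : List Bool) :
    nn (zz (encode G) w) = n := by
  rw [nn_zz, enc_encode_eq, enc_rows_count]

theorem m2b_len {n : ℕ} (G : SimpleGraph (Fin n)) : (encode G).length = n * (n + 1) := by
  rw [enc_encode_eq, enc_rows_length]

theorem m2b_w_get {n c : ℕ} (T : ℕ → Finset (Fin n)) (L : ℕ → Fin n → Fin c) {i v q : ℕ}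
    (hi : i < 2 * n - 1) (hv : v < n) (hq : q < c + 1) :
    (m2b_w T L)[(i * n + v) * (c + 1) + q]? = some (m2b_bit T L i v q) := by
  have hn : 0 < n := by omega
  have h1 : i * n + v < (2 * n - 1) * n := by
    calc i * n + v < i * n + n := by omega
      _ = (i + 1) * n := by ring
      _ ≤ (2 * n - 1) * n := Nat.mul_le_mul_right _ hi
  have h2 : (i * n + v) * (c + 1) + q < (2 * n - 1) * n * (c + 1) := by
    calc (i * n + v) * (c + 1) + q < (i * n + v) * (c + 1) + (c + 1) := by omega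
      _ = (i * n + v + 1) * (c + 1) := by ring
      _ ≤ (2 * n - 1) * n * (c + 1) := Nat.mul_le_mul_right _ h1
  have e1 : ((i * n + v) * (c + 1) + q) / (c + 1) = i * n + v := by
    rw [Nat.add_comm, Nat.add_mul_div_right _ _ (Nat.succ_pos c), Nat.div_eq_of_lt hq,
      Nat.zero_add]
  have e2 : ((i * n + v) * (c + 1) + q) % (c + 1) = q := by
    rw [Nat.add_comm, Nat.add_mul_mod_self_right, Nat.mod_eq_of_lt hq]
  have e3 : (i * n + v) / n = i := by
    rw [Nat.add_comm, Nat.add_mul_div_right _ _ hn, Nat.div_eq_of_lt hv, Nat.zero_add]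
  have e4 : (i * n + v) % n = v := by
    rw [Nat.add_comm, Nat.add_mul_mod_self_right, Nat.mod_eq_of_lt hv]
  unfold m2b_w
  rw [List.getElem?_map, List.getElem?_range h2, Option.map_some, e1, e2, e3, e4]

theorem m2b_cb {n c : ℕ} (G : SimpleGraph (Fin n)) (T : ℕ → Finset (Fin n))
    (L : ℕ → Fin n → Fin c) {i v q : ℕ} (hi : i < 2 * n - 1) (hv : v < n) (hq : q < c + 1) :
    cb c (zz (encode G) (m2b_w T L)) i v q ↔ m2b_bit T L i v q = true := by
  unfold cb
  rw [xx_zz, m2b_nn, ce_zz, m2b_w_get T L hi hv hq]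
  simp

theorem m2b_cS {n c : ℕ} (G : SimpleGraph (Fin n)) (T : ℕ → Finset (Fin n))
    (L : ℕ → Fin n → Fin c) {i v : ℕ} (hi : i < 2 * n - 1) (hv : v < n) :
    cS c (zz (encode G) (m2b_w T L)) i v ↔ (⟨v, hv⟩ : Fin n) ∈ T i := by
  unfold cS
  rw [m2b_cb G T L hi hv (Nat.succ_pos c)]
  unfold m2b_bit
  rw [dif_pos hv, if_pos rfl, decide_eq_true_iff]

theorem m2b_cq {n c : ℕ} (G : SimpleGraph (Fin n)) (T : ℕ → Finset (Fin n))
    (L : ℕ → Fin n → Fin c) {i v q : ℕ} (hi : i < 2 * n - 1) (hv : v < n) (hq : q < c) :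
    cb c (zz (encode G) (m2b_w T L)) i v (q + 1) ↔ (L i ⟨v, hv⟩).val = q := by
  rw [m2b_cb G T L hi hv (Nat.succ_lt_succ hq)]
  unfold m2b_bit
  rw [dif_pos hv, if_neg (Nat.succ_ne_zero q), decide_eq_true_iff]
  omega

theorem m2b_cl {n c : ℕ} (G : SimpleGraph (Fin n)) (T : ℕ → Finset (Fin n))
    (L : ℕ → Fin n → Fin c) {i u v : ℕ} (hi : i < 2 * n - 1) (hu : u < n) (hv : v < n) :
    cl c (zz (encode G) (m2b_w T L)) i u v ↔ L i ⟨u, hu⟩ = L i ⟨v, hv⟩ := by
  unfold cl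
  constructor
  · rintro ⟨q, hq, h1, h2⟩
    rw [m2b_cq G T L hi hu hq] at h1
    rw [m2b_cq G T L hi hv hq] at h2
    exact Fin.ext (h1.trans h2.symm)
  · intro h
    refine ⟨(L i ⟨u, hu⟩).val, (L i ⟨u, hu⟩).isLt, ?_, ?_⟩
    · rw [m2b_cq G T L hi hu (L i ⟨u, hu⟩).isLt]
    · rw [m2b_cq G T L hi hv (L i ⟨u, hu⟩).isLt, h]

theorem m2b_ca {n : ℕ} (G : SimpleGraph (Fin n)) (w : List Bool) {u v : ℕ} (hu : u < n)
    (hv : v < n) : ca (zz (encode G) w) u v ↔ G.Adj ⟨u, hu⟩ ⟨v, hv⟩ := by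
  classical
  unfold ca
  rw [m2b_nn, tr_zz, enc_encode_eq, enc_rows_get _ _ _ hu hv]
  have h := enc_tb_eq (fun i j => decide (G.Adj i j)) ⟨u, hu⟩ ⟨v, hv⟩
  simp only at h
  rw [h]
  simp

theorem m2b_wf {n : ℕ} (hn : 0 < n) (G : SimpleGraph (Fin n)) (w : List Bool) :
    cwf (zz (encode G) w) := by
  classical
  unfold cwf
  rw [xx_zz, m2b_nn, m2b_len]
  refine ⟨hn, rfl, ?_, ?_, ?_, ?_⟩
  · intro i hi j hj
    rw [tr_zz, fa_zz, enc_encode_eq, enc_rows_get _ _ _ hi hj]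
    cases enc_tb (fun i j => decide (G.Adj i j)) i j <;> simp
  · intro i hi
    rw [no_zz, enc_encode_eq, m2b_sep _ _ _ hi]
  · intro i hi j hj
    rw [m2b_ca G w hi hj, m2b_ca G w hj hi]
    exact fun h => h.symm
  · intro i hi
    rw [m2b_ca G w hi hi]
    exact G.loopless.irrefl _

theorem m2b_node {n c : ℕ} (G : SimpleGraph (Fin n)) (T : ℕ → Finset (Fin n))
    (L : ℕ → Fin n → Fin c) {i : ℕ} (hi : i < 2 * n - 1) (h : Node G T L i) :
    clf c (zz (encode G) (m2b_w T L)) i ∨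
      ∃ j < i, ∃ k < i, cun c (zz (encode G) (m2b_w T L)) i j k := by
  rcases h with ⟨v, hv⟩ | ⟨j, hj, k, hk, h1, h2, h3, h4, h5⟩
  · left
    unfold clf
    rw [m2b_nn]
    refine ⟨v.val, v.isLt, ?_⟩
    intro u hu
    rw [m2b_cS G T L hi hu, hv, Finset.mem_singleton]
    constructor
    · intro h
      rw [← h]
    · intro h
      exact Fin.ext h
  · right
    refine ⟨j, hj, k, hk, ?_⟩
    have hj' : j < 2 * n - 1 := by omega
    have hk' : k < 2 * n - 1 := by omega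
    unfold cun
    rw [m2b_nn]
    refine ⟨?_, ?_, ?_, ?_⟩
    · intro u hu
      rw [m2b_cS G T L hi hu, m2b_cS G T L hj' hu, m2b_cS G T L hk' hu, h1, Finset.mem_union]
      refine ⟨Iff.rfl, ?_⟩
      rintro ⟨h6, h7⟩
      exact Finset.disjoint_left.mp h2 h6 h7
    · intro u hu v hv
      rw [m2b_cS G T L hj' hu, m2b_cS G T L hj' hv, m2b_cl G T L hj' hu hv,
        m2b_cl G T L hi hu hv]
      exact fun h6 h7 h8 => h3 _ h6 _ h7 h8
    · intro u hu v hv
      rw [m2b_cS G T L hk' hu, m2b_cS G T L hk' hv, m2b_cl G T L hk' hu hv,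
        m2b_cl G T L hi hu hv]
      exact fun h6 h7 h8 => h4 _ h6 _ h7 h8
    · intro u hu v hv
      rw [m2b_cS G T L hj' hu, m2b_cS G T L hk' hv, m2b_ca G _ hu hv]
      intro h6 h7 h8 u' hu' v' hv'
      rw [m2b_cS G T L hi hu', m2b_cS G T L hi hv', m2b_cl G T L hi hu' hu,
        m2b_cl G T L hi hv' hv, m2b_ca G _ hu' hv']
      exact fun h9 h10 h11 h12 => h5 _ h6 _ h7 h8 _ h9 _ h10 h11 h12

theorem m2b_test {n c : ℕ} (hn : 0 < n) (G : SimpleGraph (Fin n)) (T : ℕ → Finset (Fin n))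
    (L : ℕ → Fin n → Fin c) (h : ∀ i < 2 * n - 1, Node G T L i)
    (ht : T (2 * n - 2) = Finset.univ) : ctest c (zz (encode G) (m2b_w T L)) := by
  unfold ctest
  refine ⟨m2b_wf hn G _, ?_, ?_⟩
  · rw [m2b_nn]
    intro i hi
    refine ⟨?_, m2b_node G T L hi (h i hi)⟩
    unfold con
    rw [m2b_nn]
    intro v hv
    refine ⟨(L i ⟨v, hv⟩).val, (L i ⟨v, hv⟩).isLt, ?_, ?_⟩
    · rw [m2b_cq G T L hi hv (L i ⟨v, hv⟩).isLt]
    · intro q' hq' h'
      rw [m2b_cq G T L hi hv hq'] at h'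
      exact h'.symm
  · rw [m2b_nn]
    intro v hv
    rw [m2b_cS G T L (by omega) hv, ht]
    exact Finset.mem_univ _

theorem m2b_w_length {n c : ℕ} (T : ℕ → Finset (Fin n)) (L : ℕ → Fin n → Fin c) :
    (m2b_w T L).length ≤ 2 * (c + 1) * (n * (n + 1)) := by
  unfold m2b_w
  rw [List.length_map, List.length_range]
  calc (2 * n - 1) * n * (c + 1) ≤ 2 * (n + 1) * n * (c + 1) :=
        Nat.mul_le_mul_right _ (Nat.mul_le_mul_right _ (by omega))
    _ = 2 * (c + 1) * (n * (n + 1)) := by ring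

/-- the codes in `CW c` have certificates -/
theorem ctest_complete {c : ℕ} (hc : 1 ≤ c) {x : List (Option Bool)} (h : x ∈ CW c) :
    ∃ w : List Bool, w.length ≤ 2 * (c + 1) * x.length ∧ ctest c (zz x w) := by
  obtain ⟨n, G, hn, rfl, h1⟩ := h
  have h2 := (cw_le_iff hn G G Finset.univ id Function.injective_id
    (fun v => ⟨fun _ => ⟨v, rfl⟩, fun _ => Finset.mem_univ v⟩) (fun x y => Iff.rfl) hc).mp h1
  obtain ⟨ℓ, h3⟩ := h2
  obtain ⟨T, L, -, h4, h5, -⟩ := nodes_of_dec G h3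
  rw [Finset.card_univ, Fintype.card_fin] at h4 h5
  refine ⟨m2b_w T L, ?_, m2b_test hn G T L h4 h5⟩
  rw [m2b_len]
  exact m2b_w_length T L

end Pool.Agent.H.MP_701cec_lc
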