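import Pool.Agent.H.MP_701cec_lc.Cert

/-!
The test can be carried out in polynomial time.
-/

namespace Pool.Agent.H.MP_701cec_lc

open Pool.Agent.H.MP_84f0af_lc
open Pool.Agent.H.MP_c8e747_lc (nn xx zz tr fa no ce utr ufa uno uce unn uxx uinp)

section
variable {Γ₁ τ : Type} [Env τ (Option Bool ⊕ Bool)]

theorem m3_cb (c : ℕ) {i v q : τ → ℕ} (hi : UF Γ₁ i) (hv : UF Γ₁ v) (hq : UF Γ₁ q) :
    UP Γ₁ (fun t => cb c (Env.inp t) (i t) (v t) (q t)) :=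
  uce ((uinp uxx).add ((((hi.mul (uinp unn)).add hv).mul (UF.const (c + 1))).add hq))

theorem m3_cS (c : ℕ) {i v : τ → ℕ} (hi : UF Γ₁ i) (hv : UF Γ₁ v) :
    UP Γ₁ (fun t => cS c (Env.inp t) (i t) (v t)) :=
  m3_cb c hi hv (UF.const 0)

theorem m3_cl (c : ℕ) {i u v : τ → ℕ} (hi : UF Γ₁ i) (hu : UF Γ₁ u) (hv : UF Γ₁ v) :
    UP Γ₁ (fun t => cl c (Env.inp t) (i t) (u t) (v t)) := by
  have h0 : UF Γ₁ (fun p : ℕ × τ => p.1 + 1) := UF.fst.succ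
  have h1 : UP Γ₁ (fun p : ℕ × τ => cb c (Env.inp p.2) (i p.2) (u p.2) (p.1 + 1) ∧
      cb c (Env.inp p.2) (i p.2) (v p.2) (p.1 + 1)) :=
    (m3_cb (τ := ℕ × τ) c hi.weak hu.weak h0).and (m3_cb (τ := ℕ × τ) c hi.weak hv.weak h0)
  exact UP.ex h1 (UF.const c)

theorem m3_ca {u v : τ → ℕ} (hu : UF Γ₁ u) (hv : UF Γ₁ v) :
    UP Γ₁ (fun t => ca (Env.inp t) (u t) (v t)) :=
  utr ((hu.mul (uinp unn).succ).add hv)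

theorem m3_con (c : ℕ) {i : τ → ℕ} (hi : UF Γ₁ i) :
    UP Γ₁ (fun t => con c (Env.inp t) (i t)) := by
  -- variables: q', q, v
  have v0 : UF Γ₁ (fun p : ℕ × ℕ × ℕ × τ => p.1) := UF.fst
  have v1 : UF Γ₁ (fun p : ℕ × ℕ × ℕ × τ => p.2.1) := UF.snd
  have v2 : UF Γ₁ (fun p : ℕ × ℕ × ℕ × τ => p.2.2.1) := UF.var IsVar.fst.weak.weak
  have h1 : UP Γ₁ (fun p : ℕ × ℕ × ℕ × τ =>
      cb c (Env.inp p.2.2.2) (i p.2.2.2) p.2.2.1 (p.1 + 1) → p.1 = p.2.1) :=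
    (m3_cb (τ := ℕ × ℕ × ℕ × τ) c hi.weak.weak.weak v2 v0.succ).imp (UP.eq v0 v1)
  have h2 : UP Γ₁ (fun p : ℕ × ℕ × τ =>
      cb c (Env.inp p.2.2) (i p.2.2) p.2.1 (p.1 + 1) ∧ ∀ q' < c,
        cb c (Env.inp p.2.2) (i p.2.2) p.2.1 (q' + 1) → q' = p.1) := by
    refine (m3_cb (τ := ℕ × ℕ × τ) c hi.weak.weak UF.snd UF.fst.succ).and ?_
    exact UP.all h1 (UF.const c)
  have h3 : UP Γ₁ (fun p : ℕ × τ => ∃ q < c,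
      cb c (Env.inp p.2) (i p.2) p.1 (q + 1) ∧ ∀ q' < c,
        cb c (Env.inp p.2) (i p.2) p.1 (q' + 1) → q' = q) := UP.ex h2 (UF.const c)
  exact UP.all h3 (uinp unn)

theorem m3_iff {P Q : τ → Prop} (hP : UP Γ₁ P) (hQ : UP Γ₁ Q) : UP Γ₁ (fun t => P t ↔ Q t) :=
  ((hP.imp hQ).and (hQ.imp hP)).congr fun _ => ⟨fun h => ⟨h.1, h.2⟩, fun h => ⟨h.1, h.2⟩⟩

theorem m3_clf (c : ℕ) {i : τ → ℕ} (hi : UF Γ₁ i) :
    UP Γ₁ (fun t => clf c (Env.inp t) (i t)) := by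
  -- variables: u, v
  have h1 : UP Γ₁ (fun p : ℕ × ℕ × τ => cS c (Env.inp p.2.2) (i p.2.2) p.1 ↔ p.1 = p.2.1) :=
    m3_iff (m3_cS (τ := ℕ × ℕ × τ) c hi.weak.weak UF.fst) (UP.eq UF.fst UF.snd)
  have h2 : UP Γ₁ (fun p : ℕ × τ => ∀ u < nn (Env.inp p.2),
      (cS c (Env.inp p.2) (i p.2) u ↔ u = p.1)) := UP.all h1 (uinp (τ := ℕ × τ) unn)
  exact UP.ex h2 (uinp unn)

/-- the third condition of a union -/
theorem m3_lab (c : ℕ) {i j : τ → ℕ} (hi : UF Γ₁ i) (hj : UF Γ₁ j) :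
    UP Γ₁ (fun t => ∀ u < nn (Env.inp t), ∀ v < nn (Env.inp t), cS c (Env.inp t) (j t) u →
      cS c (Env.inp t) (j t) v → cl c (Env.inp t) (j t) u v → cl c (Env.inp t) (i t) u v) := by
  have v0 : UF Γ₁ (fun p : ℕ × ℕ × τ => p.1) := UF.fst
  have v1 : UF Γ₁ (fun p : ℕ × ℕ × τ => p.2.1) := UF.snd
  have h1 : UP Γ₁ (fun p : ℕ × ℕ × τ => cS c (Env.inp p.2.2) (j p.2.2) p.2.1 →
      cS c (Env.inp p.2.2) (j p.2.2) p.1 → cl c (Env.inp p.2.2) (j p.2.2) p.2.1 p.1 →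
        cl c (Env.inp p.2.2) (i p.2.2) p.2.1 p.1) :=
    (m3_cS (τ := ℕ × ℕ × τ) c hj.weak.weak v1).imp
      ((m3_cS (τ := ℕ × ℕ × τ) c hj.weak.weak v0).imp
        ((m3_cl (τ := ℕ × ℕ × τ) c hj.weak.weak v1 v0).imp
          (m3_cl (τ := ℕ × ℕ × τ) c hi.weak.weak v1 v0)))
  have h2 : UP Γ₁ (fun p : ℕ × τ => ∀ v < nn (Env.inp p.2), cS c (Env.inp p.2) (j p.2) p.1 →
      cS c (Env.inp p.2) (j p.2) v → cl c (Env.inp p.2) (j p.2) p.1 v →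
        cl c (Env.inp p.2) (i p.2) p.1 v) := UP.all h1 (uinp (τ := ℕ × τ) unn)
  exact UP.all h2 (uinp unn)

/-- the fourth condition of a union -/
theorem m3_crs (c : ℕ) {i j k : τ → ℕ} (hi : UF Γ₁ i) (hj : UF Γ₁ j) (hk : UF Γ₁ k) :
    UP Γ₁ (fun t => ∀ u < nn (Env.inp t), ∀ v < nn (Env.inp t), cS c (Env.inp t) (j t) u →
      cS c (Env.inp t) (k t) v → ca (Env.inp t) u v →
      ∀ u' < nn (Env.inp t), ∀ v' < nn (Env.inp t), cS c (Env.inp t) (i t) u' →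
        cS c (Env.inp t) (i t) v' → cl c (Env.inp t) (i t) u' u → cl c (Env.inp t) (i t) v' v →
        ca (Env.inp t) u' v') := by
  -- variables v', u', v, u
  have w0 : UF Γ₁ (fun p : ℕ × ℕ × ℕ × ℕ × τ => p.1) := UF.fst
  have w1 : UF Γ₁ (fun p : ℕ × ℕ × ℕ × ℕ × τ => p.2.1) := UF.snd
  have w2 : UF Γ₁ (fun p : ℕ × ℕ × ℕ × ℕ × τ => p.2.2.1) := UF.var IsVar.fst.weak.weak
  have w3 : UF Γ₁ (fun p : ℕ × ℕ × ℕ × ℕ × τ => p.2.2.2.1) := UF.var IsVar.fst.weak.weak.weak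
  have hi4 : UF Γ₁ (fun p : ℕ × ℕ × ℕ × ℕ × τ => i p.2.2.2.2) := hi.weak.weak.weak.weak
  have h1 : UP Γ₁ (fun p : ℕ × ℕ × ℕ × ℕ × τ => cS c (Env.inp p.2.2.2.2) (i p.2.2.2.2) p.2.1 →
        cS c (Env.inp p.2.2.2.2) (i p.2.2.2.2) p.1 →
        cl c (Env.inp p.2.2.2.2) (i p.2.2.2.2) p.2.1 p.2.2.2.1 →
        cl c (Env.inp p.2.2.2.2) (i p.2.2.2.2) p.1 p.2.2.1 → ca (Env.inp p.2.2.2.2) p.2.1 p.1) :=
    (m3_cS (τ := ℕ × ℕ × ℕ × ℕ × τ) c hi4 w1).imp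
      ((m3_cS (τ := ℕ × ℕ × ℕ × ℕ × τ) c hi4 w0).imp
        ((m3_cl (τ := ℕ × ℕ × ℕ × ℕ × τ) c hi4 w1 w3).imp
          ((m3_cl (τ := ℕ × ℕ × ℕ × ℕ × τ) c hi4 w0 w2).imp
            (m3_ca (τ := ℕ × ℕ × ℕ × ℕ × τ) w1 w0))))
  have h2 : UP Γ₁ (fun p : ℕ × ℕ × ℕ × τ => ∀ v' < nn (Env.inp p.2.2.2),
        cS c (Env.inp p.2.2.2) (i p.2.2.2) p.1 → cS c (Env.inp p.2.2.2) (i p.2.2.2) v' →
        cl c (Env.inp p.2.2.2) (i p.2.2.2) p.1 p.2.2.1 →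
        cl c (Env.inp p.2.2.2) (i p.2.2.2) v' p.2.1 → ca (Env.inp p.2.2.2) p.1 v') :=
    UP.all h1 (uinp (τ := ℕ × ℕ × ℕ × τ) unn)
  have h3 : UP Γ₁ (fun p : ℕ × ℕ × τ => ∀ u' < nn (Env.inp p.2.2), ∀ v' < nn (Env.inp p.2.2),
        cS c (Env.inp p.2.2) (i p.2.2) u' → cS c (Env.inp p.2.2) (i p.2.2) v' →
        cl c (Env.inp p.2.2) (i p.2.2) u' p.2.1 →
        cl c (Env.inp p.2.2) (i p.2.2) v' p.1 → ca (Env.inp p.2.2) u' v') :=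
    UP.all h2 (uinp (τ := ℕ × ℕ × τ) unn)
  have h4 : UP Γ₁ (fun p : ℕ × ℕ × τ => cS c (Env.inp p.2.2) (j p.2.2) p.2.1 →
      cS c (Env.inp p.2.2) (k p.2.2) p.1 → ca (Env.inp p.2.2) p.2.1 p.1 →
      ∀ u' < nn (Env.inp p.2.2), ∀ v' < nn (Env.inp p.2.2),
        cS c (Env.inp p.2.2) (i p.2.2) u' → cS c (Env.inp p.2.2) (i p.2.2) v' →
        cl c (Env.inp p.2.2) (i p.2.2) u' p.2.1 →
        cl c (Env.inp p.2.2) (i p.2.2) v' p.1 → ca (Env.inp p.2.2) u' v') :=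
    (m3_cS (τ := ℕ × ℕ × τ) c hj.weak.weak UF.snd).imp
      ((m3_cS (τ := ℕ × ℕ × τ) c hk.weak.weak UF.fst).imp
        ((m3_ca (τ := ℕ × ℕ × τ) UF.snd UF.fst).imp h3))
  have h5 : UP Γ₁ (fun p : ℕ × τ => ∀ v < nn (Env.inp p.2), cS c (Env.inp p.2) (j p.2) p.1 →
      cS c (Env.inp p.2) (k p.2) v → ca (Env.inp p.2) p.1 v →
      ∀ u' < nn (Env.inp p.2), ∀ v' < nn (Env.inp p.2),
        cS c (Env.inp p.2) (i p.2) u' → cS c (Env.inp p.2) (i p.2) v' →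
        cl c (Env.inp p.2) (i p.2) u' p.1 →
        cl c (Env.inp p.2) (i p.2) v' v → ca (Env.inp p.2) u' v') :=
    UP.all h4 (uinp (τ := ℕ × τ) unn)
  exact UP.all h5 (uinp unn)

theorem m3_cun (c : ℕ) {i j k : τ → ℕ} (hi : UF Γ₁ i) (hj : UF Γ₁ j) (hk : UF Γ₁ k) :
    UP Γ₁ (fun t => cun c (Env.inp t) (i t) (j t) (k t)) := by
  have h1 : UP Γ₁ (fun p : ℕ × τ => (cS c (Env.inp p.2) (i p.2) p.1 ↔
      (cS c (Env.inp p.2) (j p.2) p.1 ∨ cS c (Env.inp p.2) (k p.2) p.1)) ∧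
      ¬ (cS c (Env.inp p.2) (j p.2) p.1 ∧ cS c (Env.inp p.2) (k p.2) p.1)) := by
    have a1 := m3_cS (Γ₁ := Γ₁) (τ := ℕ × τ) c hi.weak UF.fst
    have a2 := m3_cS (Γ₁ := Γ₁) (τ := ℕ × τ) c hj.weak UF.fst
    have a3 := m3_cS (Γ₁ := Γ₁) (τ := ℕ × τ) c hk.weak UF.fst
    exact (m3_iff a1 (a2.or a3)).and (a2.and a3).not
  have h2 : UP Γ₁ (fun t => ∀ u < nn (Env.inp t), (cS c (Env.inp t) (i t) u ↔
      (cS c (Env.inp t) (j t) u ∨ cS c (Env.inp t) (k t) u)) ∧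
      ¬ (cS c (Env.inp t) (j t) u ∧ cS c (Env.inp t) (k t) u)) := UP.all h1 (uinp unn)
  exact h2.and ((m3_lab c hi hj).and ((m3_lab c hi hk).and (m3_crs c hi hj hk)))

end

theorem m3_cwf {Γ₁ : Type} : UP Γ₁ cwf := by
  let τ := List (Option Bool ⊕ Bool)
  have hn1 : UF Γ₁ (fun z : τ => nn z + 1) := UF.succ unn
  have hq : UF Γ₁ (fun z : τ => nn z * (nn z + 1)) := unn.mul hn1
  have v0 : UF Γ₁ (fun p : ℕ × ℕ × τ => p.1) := UF.fst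
  have v1 : UF Γ₁ (fun p : ℕ × ℕ × τ => p.2.1) := UF.snd
  have hn2 : UF Γ₁ (fun p : ℕ × ℕ × τ => nn p.2.2 + 1) := uinp (τ := ℕ × ℕ × τ) hn1
  have h10 : UF Γ₁ (fun p : ℕ × ℕ × τ => p.2.1 * (nn p.2.2 + 1) + p.1) := (v1.mul hn2).add v0
  have w0 : UF Γ₁ (fun p : ℕ × τ => p.1) := UF.fst
  have hn3 : UF Γ₁ (fun p : ℕ × τ => nn p.2) := uinp (τ := ℕ × τ) unn
  have a0 : UP Γ₁ (fun z : τ => 1 ≤ nn z) := UP.le (UF.const 1) unn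
  have a1 : UP Γ₁ (fun z : τ => xx z = nn z * (nn z + 1)) := UP.eq uxx hq
  have a2 : UP Γ₁ (fun z : τ => ∀ i < nn z, ∀ j < nn z,
      tr z (i * (nn z + 1) + j) ∨ fa z (i * (nn z + 1) + j)) := by
    have b1 : UP Γ₁ (fun p : ℕ × ℕ × τ => tr p.2.2 (p.2.1 * (nn p.2.2 + 1) + p.1) ∨
        fa p.2.2 (p.2.1 * (nn p.2.2 + 1) + p.1)) :=
      (utr (τ := ℕ × ℕ × τ) h10).or (ufa (τ := ℕ × ℕ × τ) h10)
    exact UP.all (P := fun p : ℕ × τ => ∀ j < nn p.2, tr p.2 (p.1 * (nn p.2 + 1) + j) ∨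
      fa p.2 (p.1 * (nn p.2 + 1) + j)) (UP.all b1 hn3) unn
  have a3 : UP Γ₁ (fun z : τ => ∀ i < nn z, no z (i * (nn z + 1) + nn z)) :=
    UP.all (P := fun p : ℕ × τ => no p.2 (p.1 * (nn p.2 + 1) + nn p.2))
      (uno (τ := ℕ × τ) ((w0.mul (uinp (τ := ℕ × τ) hn1)).add hn3)) unn
  have a4 : UP Γ₁ (fun z : τ => ∀ i < nn z, ∀ j < nn z, ca z i j → ca z j i) := by
    have b1 : UP Γ₁ (fun p : ℕ × ℕ × τ => ca p.2.2 p.2.1 p.1 → ca p.2.2 p.1 p.2.1) :=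
      (m3_ca (τ := ℕ × ℕ × τ) v1 v0).imp (m3_ca (τ := ℕ × ℕ × τ) v0 v1)
    exact UP.all (P := fun p : ℕ × τ => ∀ j < nn p.2, ca p.2 p.1 j → ca p.2 j p.1)
      (UP.all b1 hn3) unn
  have a5 : UP Γ₁ (fun z : τ => ∀ i < nn z, ¬ ca z i i) :=
    UP.all (P := fun p : ℕ × τ => ¬ ca p.2 p.1 p.1) (m3_ca (τ := ℕ × τ) w0 w0).not unn
  exact a0.and (a1.and (a2.and (a3.and (a4.and a5))))

theorem uctest (c : ℕ) {Γ₁ : Type} : UP Γ₁ (ctest c) := by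
  let τ := List (Option Bool ⊕ Bool)
  -- variables k, j, i
  have w0 : UF Γ₁ (fun p : ℕ × ℕ × ℕ × τ => p.1) := UF.fst
  have w1 : UF Γ₁ (fun p : ℕ × ℕ × ℕ × τ => p.2.1) := UF.snd
  have w2 : UF Γ₁ (fun p : ℕ × ℕ × ℕ × τ => p.2.2.1) := UF.var IsVar.fst.weak.weak
  have h1 : UP Γ₁ (fun p : ℕ × ℕ × ℕ × τ => cun c p.2.2.2 p.2.2.1 p.2.1 p.1) :=
    m3_cun (τ := ℕ × ℕ × ℕ × τ) c w2 w1 w0
  have h2 : UP Γ₁ (fun p : ℕ × ℕ × τ => ∃ k < p.2.1, cun c p.2.2 p.2.1 p.1 k) :=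
    UP.ex h1 UF.snd
  have h3 : UP Γ₁ (fun p : ℕ × τ => ∃ j < p.1, ∃ k < p.1, cun c p.2 p.1 j k) :=
    UP.ex h2 UF.fst
  have h4 : UP Γ₁ (fun p : ℕ × τ => con c p.2 p.1 ∧
      (clf c p.2 p.1 ∨ ∃ j < p.1, ∃ k < p.1, cun c p.2 p.1 j k)) :=
    (m3_con (τ := ℕ × τ) c UF.fst).and ((m3_clf (τ := ℕ × τ) c UF.fst).or h3)
  have h5 : UP Γ₁ (fun z : τ => ∀ i < 2 * nn z - 1, con c z i ∧
      (clf c z i ∨ ∃ j < i, ∃ k < i, cun c z i j k)) :=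
    UP.all h4 (((UF.const 2).mul unn).sub (UF.const 1))
  have h6 : UP Γ₁ (fun z : τ => ∀ v < nn z, cS c z (2 * nn z - 2) v) := by
    have b1 : UP Γ₁ (fun p : ℕ × τ => cS c p.2 (2 * nn p.2 - 2) p.1) :=
      m3_cS (τ := ℕ × τ) c (((UF.const 2).mul (uinp (τ := ℕ × τ) unn)).sub (UF.const 2)) UF.fst
    exact UP.all b1 unn
  exact m3_cwf.and (h5.and h6)

end Pool.Agent.H.MP_701cec_lc
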