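import Pool.Agent.H.MP_701cec_lc.M2a
import Pool.Agent.H.MP_701cec_lc.M2b
import Pool.Agent.H.MP_701cec_lc.M3

/-!
`CW c` is in NP.
-/

namespace Pool.Agent.H.MP_701cec_lc

open Pool.Agent.H.MP_84f0af_lc
open Pool.Agent.H.MP_c8e747_lc (nn xx zz tr fa no ce)

open Classical in
theorem CW_inNP (c : ℕ) (hc : 1 ≤ c) : MP_701cec_lc.InNP (CW c) := by
  have hE : Emits Bool (fun z : List (Option Bool ⊕ Bool) =>
      if ctest c z then [true] else [false]) :=
    Emits.ite (uctest c) (Emits.sym _) (Emits.sym _)
  obtain ⟨M⟩ := hE.computable (fun b : Bool => [b]) (fun z => decide (ctest c z)) (fun z => by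
    by_cases h : ctest c z <;> simp [h])
  refine ⟨Polynomial.C (2 * (c + 1)) * Polynomial.X, fun p => decide (ctest c (zz p.1 p.2)),
    ⟨?_⟩, fun x => ?_⟩
  · exact
      { tm := M.tm
        inputAlphabet := M.inputAlphabet
        outputAlphabet := M.outputAlphabet
        time := M.time
        outputsFun := fun p => M.outputsFun (zz p.1 p.2) }
  · constructor
    · intro h
      obtain ⟨w, h1, h2⟩ := ctest_complete hc h
      refine ⟨w, ?_, decide_eq_true h2⟩
      rw [Polynomial.eval_mul, Polynomial.eval_X, Polynomial.eval_C]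
      exact h1
    · rintro ⟨w, _, h2⟩
      exact ctest_sound hc (of_decide_eq_true h2)

end Pool.Agent.H.MP_701cec_lc
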