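import Pool.Agent.H.MP_701cec_lc.Graph

/-!
The parameters exist for every `c ≥ 4245`.
-/

namespace Pool.Agent.H.MP_701cec_lc

theorem parx_pow : ∀ m : ℕ, 13 ≤ m → 1150 + 258 * m ≤ 2 ^ m := by
  intro m hm
  induction m, hm using Nat.le_induction with
  | base => norm_num
  | succ k hk ih =>
    rw [pow_succ]
    omega

theorem exists_par_ge (c : ℕ) (hc : 4245 ≤ c) : ∃ P : Par, P.c = c := by
  obtain ⟨L, h1, h2⟩ : ∃ L, 2 ^ L ≤ c ∧ c < 2 ^ (L + 1) :=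
    ⟨Nat.log 2 c, Nat.pow_log_le_self 2 (by omega), Nat.lt_pow_succ_log_self (by norm_num) c⟩
  have hL : 12 ≤ L := by
    by_contra h
    have h3 : 2 ^ (L + 1) ≤ 2 ^ 12 := Nat.pow_le_pow_right (by norm_num) (by omega)
    norm_num at h3
    omega
  have hb : 1149 + 258 * L ≤ c := by
    rcases Nat.lt_or_ge L 13 with h | h
    · have : L = 12 := by omega
      subst this
      omega
    · have := parx_pow L h
      omega
  have hpow : 2 ^ (L + 2) = 2 * 2 ^ (L + 1) := by rw [pow_succ]; ring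
  obtain ⟨p, hp1, hp2⟩ : ∃ p, 142 + 32 * L ≤ p ∧
      ((p = 142 + 32 * L ∧ c % 2 = 1) ∨ (p = 143 + 32 * L ∧ c % 2 = 0)) := by
    rcases Nat.mod_two_eq_zero_or_one c with h | h
    · exact ⟨143 + 32 * L, by omega, Or.inr ⟨rfl, h⟩⟩
    · exact ⟨142 + 32 * L, by omega, Or.inl ⟨rfl, h⟩⟩
  obtain ⟨M, hM⟩ : ∃ M, 2 * M + 3 * p + (47 + 10 * L) = c := by
    refine ⟨(c - 3 * p - (47 + 10 * L)) / 2, ?_⟩
    omega
  refine ⟨⟨M, p, 12 + 3 * L, L, L + 2, ?_, ?_, ?_, ?_, ?_, ?_⟩, ?_⟩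
  · omega
  · omega
  · omega
  · omega
  · omega
  · omega
  · simp only [Par.c, Par.κ]
    omega

end Pool.Agent.H.MP_701cec_lc
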