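import Pool.Agent.H.MP_701cec_lc.Dec

/-!
The chain of the good nodes of a decomposition tree.
-/

namespace Pool.Agent.H.MP_701cec_lc

theorem t2_tc_empty {V : Type} (G : SimpleGraph V) {c : ℕ} (ℓ : V → Fin c) :
    TC G c (∅ : Finset V) :=
  ⟨ℓ, fun u hu => by simp at hu⟩

theorem t2_ext {V : Type} [DecidableEq V] {G : SimpleGraph V} {c : ℕ}
    {good : Finset V → Prop} {A B : Finset V} {ℓA ℓ : V → Fin c} (ch : Chain G c A good)
    (hl : ∀ i, ch.m ≤ i → ch.lab i = ℓA) (hd : Disjoint A B) (hngB : ¬ good B)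
    (htcB : TC G c B) (hg : good (A ∪ B)) (hg0 : ¬ good ∅)
    (h1 : ∀ u ∈ A, ∀ v ∈ A, ℓA u = ℓA v → ℓ u = ℓ v)
    (h3 : ∀ u ∈ A, ∀ v ∈ B, G.Adj u v → ∀ u' ∈ A ∪ B, ∀ v' ∈ A ∪ B,
      ℓ u' = ℓ u → ℓ v' = ℓ v → G.Adj u' v')
    (hctx : ∀ u ∈ A ∪ B, ∀ v ∈ A ∪ B, ℓ u = ℓ v → ∀ w, w ∉ A ∪ B →
      (G.Adj u w ↔ G.Adj v w)) :
    ∃ ch' : Chain G c (A ∪ B) good, ∀ i, ch'.m ≤ i → ch'.lab i = ℓ := by
  classical
  have hAm : ch.S ch.m = A := ch.top _ le_rfl
  obtain ⟨S, hS⟩ : ∃ S : ℕ → Finset V, S = fun i => if i ≤ ch.m then ch.S i else A ∪ B :=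
    ⟨_, rfl⟩
  obtain ⟨lab, hlab⟩ : ∃ lab : ℕ → V → Fin c, lab = fun i => if i ≤ ch.m then ch.lab i else ℓ :=
    ⟨_, rfl⟩
  have S1 : ∀ i, i ≤ ch.m → S i = ch.S i := fun i hi => by rw [hS]; exact if_pos hi
  have S2 : ∀ i, ch.m < i → S i = A ∪ B := fun i hi => by rw [hS]; exact if_neg (by omega)
  have L1 : ∀ i, i ≤ ch.m → lab i = ch.lab i := fun i hi => by rw [hlab]; exact if_pos hi
  have L2 : ∀ i, ch.m < i → lab i = ℓ := fun i hi => by rw [hlab]; exact if_neg (by omega)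
  have hdiff : (A ∪ B) \ A = B := by
    rw [Finset.union_sdiff_left]
    exact Finset.sdiff_eq_self_of_disjoint hd.symm
  refine ⟨⟨ch.m + 1, S, lab, ch.Y0, ch.Z0, ?_, ?_, ?_, ?_, ch.disj, ch.ngY, ch.ngZ, ch.tcY,
    ch.tcZ, ?_, ?_, ?_, ?_, ?_, ?_⟩, ?_⟩
  · intro i
    rcases Nat.lt_or_ge ch.m i with h | h
    · rw [S2 i h]
    · rw [S1 i h]
      exact (ch.sub i).trans Finset.subset_union_left
  · intro i hi
    exact S2 i (by omega)
  · intro i
    rcases Nat.lt_trichotomy i ch.m with h | h | h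
    · rw [S1 i h.le, S1 (i + 1) (by omega)]
      exact ch.mono i
    · rw [S1 i h.le, S2 (i + 1) (by omega), h, hAm]
      exact Finset.subset_union_left
    · rw [S2 i h, S2 (i + 1) (by omega)]
  · rw [S1 0 (Nat.zero_le _)]
    exact ch.zero
  · intro i
    rcases Nat.lt_or_ge ch.m i with h | h
    · rw [S2 i h]
      exact hg
    · rw [S1 i h]
      exact ch.gd i
  · intro i
    rcases Nat.lt_trichotomy i ch.m with h | h | h
    · rw [S1 i h.le, S1 (i + 1) (by omega)]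
      exact ch.ng i
    · rw [S1 i h.le, S2 (i + 1) (by omega), h, hAm, hdiff]
      exact hngB
    · rw [S2 i h, S2 (i + 1) (by omega), Finset.sdiff_self]
      exact hg0
  · intro i
    rcases Nat.lt_trichotomy i ch.m with h | h | h
    · rw [S1 i h.le, S1 (i + 1) (by omega)]
      exact ch.tc i
    · rw [S1 i h.le, S2 (i + 1) (by omega), h, hAm, hdiff]
      exact htcB
    · rw [S2 i h, S2 (i + 1) (by omega), Finset.sdiff_self]
      exact t2_tc_empty G ℓ
  · intro i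
    rcases Nat.lt_or_ge ch.m i with h | h
    · rw [S2 i h, L2 i h]
      exact hctx
    · rw [S1 i h, L1 i h]
      exact ch.out i
  · intro i
    rcases Nat.lt_trichotomy i ch.m with h | h | h
    · rw [S1 i h.le, S1 (i + 1) (by omega), L1 (i + 1) (by omega)]
      exact ch.cross i
    · rw [S1 i h.le, S2 (i + 1) (by omega), L2 (i + 1) (by omega), h, hAm]
      intro u hu v hv hv'
      refine h3 u hu v ?_
      rcases Finset.mem_union.1 hv with h5 | h5
      · exact absurd h5 hv'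
      · exact h5
    · rw [S2 i h, S2 (i + 1) (by omega)]
      intro u _ v hv hv'
      exact absurd hv hv'
  · intro i
    rcases Nat.lt_trichotomy i ch.m with h | h | h
    · rw [S1 i h.le, L1 i h.le, L1 (i + 1) (by omega)]
      exact ch.pers i
    · rw [S1 i h.le, L1 i h.le, L2 (i + 1) (by omega), h, hAm, hl _ le_rfl]
      exact h1
    · rw [L2 i h, L2 (i + 1) (by omega)]
      exact fun u _ v _ h5 => h5
  · intro i hi
    exact L2 i hi

theorem t2_base {V : Type} [DecidableEq V] {G : SimpleGraph V} {c : ℕ}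
    {good : Finset V → Prop} {A B : Finset V} {ℓ : V → Fin c} (hd : Disjoint A B)
    (hngA : ¬ good A) (hngB : ¬ good B) (htcA : TC G c A) (htcB : TC G c B)
    (hg : good (A ∪ B)) (hg0 : ¬ good ∅)
    (hctx : ∀ u ∈ A ∪ B, ∀ v ∈ A ∪ B, ℓ u = ℓ v → ∀ w, w ∉ A ∪ B →
      (G.Adj u w ↔ G.Adj v w)) :
    ∃ ch' : Chain G c (A ∪ B) good, ∀ i, ch'.m ≤ i → ch'.lab i = ℓ := by
  refine ⟨⟨0, fun _ => A ∪ B, fun _ => ℓ, A, B, fun _ => Finset.Subset.refl _, fun _ _ => rfl,
    fun _ => Finset.Subset.refl _, rfl, hd, hngA, hngB, htcA, htcB, fun _ => hg, ?_, ?_,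
    fun _ => hctx, ?_, fun _ _ _ _ _ h => h⟩, fun _ _ => rfl⟩
  · intro _
    rw [Finset.sdiff_self]
    exact hg0
  · intro _
    rw [Finset.sdiff_self]
    exact t2_tc_empty G ℓ
  · intro _ u _ v hv hv'
    exact absurd hv hv'

theorem t2_main {V : Type} [DecidableEq V] (G : SimpleGraph V) (c : ℕ)
    (good : Finset V → Prop)
    (hg2 : ∀ A B, Disjoint A B → good A → ¬ good B) (hg1 : ∀ v, ¬ good {v}) (hg0 : ¬ good ∅)
    {U : Finset V} {ℓ : V → Fin c} (hd : Dec (Fin c) G U ℓ) : good U →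
    (∀ u ∈ U, ∀ v ∈ U, ℓ u = ℓ v → ∀ w, w ∉ U → (G.Adj u w ↔ G.Adj v w)) →
    ∃ ch : Chain G c U good, ∀ i, ch.m ≤ i → ch.lab i = ℓ := by
  induction hd with
  | single v ℓ => exact fun h => absurd h (hg1 v)
  | union S T ℓS ℓT ℓ hS hT hd h1 h2 h3 ihS ihT =>
    intro hg hctx
    have cS : ∀ u ∈ S, ∀ v ∈ S, ℓS u = ℓS v → ∀ w, w ∉ S → (G.Adj u w ↔ G.Adj v w) := by
      intro u hu v hv huv w hw
      have huv' := h1 u hu v hv huv
      have hu' := Finset.mem_union_left T hu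
      have hv' := Finset.mem_union_left T hv
      by_cases hwT : w ∈ T
      · have hw' := Finset.mem_union_right S hwT
        exact ⟨fun h => h3 u hu w hwT h v hv' w hw' huv'.symm rfl,
          fun h => h3 v hv w hwT h u hu' w hw' huv' rfl⟩
      · exact hctx u hu' v hv' huv' w (fun h => (Finset.mem_union.1 h).elim hw hwT)
    have cT : ∀ u ∈ T, ∀ v ∈ T, ℓT u = ℓT v → ∀ w, w ∉ T → (G.Adj u w ↔ G.Adj v w) := by
      intro u hu v hv huv w hw
      have huv' := h2 u hu v hv huv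
      have hu' := Finset.mem_union_right S hu
      have hv' := Finset.mem_union_right S hv
      by_cases hwS : w ∈ S
      · have hw' := Finset.mem_union_left T hwS
        exact ⟨fun h => (h3 w hwS u hu h.symm w hw' v hv' rfl huv'.symm).symm,
          fun h => (h3 w hwS v hv h.symm w hw' u hu' rfl huv').symm⟩
      · exact hctx u hu' v hv' huv' w (fun h => (Finset.mem_union.1 h).elim hwS hw)
    have tS : TC G c S := ⟨ℓS, cS⟩
    have tT : TC G c T := ⟨ℓT, cT⟩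
    by_cases gS : good S
    · obtain ⟨ch, hch⟩ := ihS gS cS
      exact t2_ext ch hch hd (hg2 S T hd gS) tT hg hg0 h1 h3 hctx
    · by_cases gT : good T
      · obtain ⟨ch, hch⟩ := ihT gT cT
        rw [Finset.union_comm] at hg hctx ⊢
        refine t2_ext ch hch hd.symm gS tS hg hg0 h2 ?_ hctx
        intro u hu v hv huv u' hu' v' hv' e1 e2
        rw [Finset.union_comm] at hu' hv'
        exact (h3 v hv u hu huv.symm v' hv' u' hu' e2 e1).symm
      · exact t2_base hd gS gT tS tT hg hg0 hctx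

theorem chain_of_dec {V : Type} [DecidableEq V] (G : SimpleGraph V) (c : ℕ) (U : Finset V)
    (hU : ∀ w, w ∉ U → ∀ v, ¬ G.Adj v w) (good : Finset V → Prop) (hgU : good U)
    (hg2 : ∀ A B, Disjoint A B → good A → ¬ good B) (hg1 : ∀ v, ¬ good {v}) (hg0 : ¬ good ∅)
    {ℓ : V → Fin c} (hd : Dec (Fin c) G U ℓ) : Nonempty (Chain G c U good) := by
  obtain ⟨ch, -⟩ := t2_main G c good hg2 hg1 hg0 hd hgU (fun u _ v _ _ w hw =>
    ⟨fun h => absurd h (hU w hw u), fun h => absurd h (hU w hw v)⟩)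
  exact ⟨ch⟩

end Pool.Agent.H.MP_701cec_lc
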