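import Pool.Agent.H.MP_701cec_lc.Dec

/-!
k-expressions and decomposition trees.
-/

namespace Pool.Agent.H.MP_701cec_lc

/-- the labels of a decomposition tree may be renamed -/
theorem Dec.map {V : Type} [DecidableEq V] {Λ Λ' : Type} {G : SimpleGraph V} {S : Finset V}
    {ℓ : V → Λ} (h : Dec Λ G S ℓ) (φ : Λ → Λ') (hφ : Function.Injective φ) :
    Dec Λ' G S (φ ∘ ℓ) := by
  induction h with
  | single v ℓ => exact Dec.single v _
  | union S T ℓS ℓT ℓ hS hT hd h1 h2 h3 ihS ihT =>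
    refine Dec.union S T (φ ∘ ℓS) (φ ∘ ℓT) (φ ∘ ℓ) ihS ihT hd ?_ ?_ ?_
    · intro u hu v hv e
      exact congrArg φ (h1 u hu v hv (hφ e))
    · intro u hu v hv e
      exact congrArg φ (h2 u hu v hv (hφ e))
    · intro u hu v hv hadj u' hu' v' hv' e1 e2
      exact h3 u hu v hv hadj u' hu' v' hv' (hφ e1) (hφ e2)

theorem t1a_nonempty {k : ℕ} (t : Term k) : Nonempty t.V := by
  induction t with
  | vertex i => exact ⟨()⟩
  | union s t ihs _ => obtain ⟨x⟩ := ihs; exact ⟨Sum.inl x⟩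
  | join i j h t ih => exact ih
  | relabel i j t ih => exact ih

theorem t1a_main {V : Type} [DecidableEq V] (G : SimpleGraph V) {k : ℕ} (t : Term k) :
    ∀ (U : Finset V) (φ : t.V → V), Function.Injective φ → (∀ v, v ∈ U ↔ ∃ x, φ x = v) →
      (∀ x y, t.graph.Adj x y → G.Adj (φ x) (φ y)) →
      (∀ x y, G.Adj (φ x) (φ y) → ¬ t.graph.Adj x y → t.lab x ≠ t.lab y ∧
        ∀ x' y', t.lab x' = t.lab x → t.lab y' = t.lab y → G.Adj (φ x') (φ y')) →
      ∃ ℓ : V → Fin k, Dec (Fin k) G U ℓ ∧ ∀ x y, ℓ (φ x) = ℓ (φ y) → t.lab x = t.lab y := by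
  classical
  induction t with
  | vertex i =>
    intro U φ hφ hU h1 h2
    have hU' : U = {φ ()} := by
      ext v
      rw [hU, Finset.mem_singleton]
      constructor
      · rintro ⟨x, rfl⟩; rfl
      · rintro rfl; exact ⟨(), rfl⟩
    rw [hU']
    exact ⟨fun _ => i, Dec.single _ _, fun x y _ => rfl⟩
  | union s t ihs iht =>
    intro U φ hφ hU h1 h2
    obtain ⟨Us, hUs⟩ : ∃ Us : Finset V, Us = U.filter fun v => ∃ x : s.V, φ (Sum.inl x) = v :=
      ⟨_, rfl⟩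
    obtain ⟨Ut, hUt⟩ : ∃ Ut : Finset V, Ut = U.filter fun v => ∃ x : t.V, φ (Sum.inr x) = v :=
      ⟨_, rfl⟩
    have mUs : ∀ v, v ∈ Us ↔ ∃ x : s.V, φ (Sum.inl x) = v := by
      intro v
      rw [hUs, Finset.mem_filter]
      exact ⟨fun h => h.2, fun h => ⟨(hU v).2 (by obtain ⟨x, hx⟩ := h; exact ⟨_, hx⟩), h⟩⟩
    have mUt : ∀ v, v ∈ Ut ↔ ∃ x : t.V, φ (Sum.inr x) = v := by
      intro v
      rw [hUt, Finset.mem_filter]
      exact ⟨fun h => h.2, fun h => ⟨(hU v).2 (by obtain ⟨x, hx⟩ := h; exact ⟨_, hx⟩), h⟩⟩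
    obtain ⟨ℓs, a1, a2⟩ := ihs Us (fun x => φ (Sum.inl x))
      (fun x y e => Sum.inl_injective (hφ e)) mUs
      (fun x y hxy => h1 (Sum.inl x) (Sum.inl y) hxy)
      (fun x y hxy hn => ⟨(h2 (Sum.inl x) (Sum.inl y) hxy hn).1,
        fun x' y' e1 e2 => (h2 (Sum.inl x) (Sum.inl y) hxy hn).2 (Sum.inl x') (Sum.inl y') e1 e2⟩)
    obtain ⟨ℓt, b1, b2⟩ := iht Ut (fun x => φ (Sum.inr x))
      (fun x y e => Sum.inr_injective (hφ e)) mUt
      (fun x y hxy => h1 (Sum.inr x) (Sum.inr y) hxy)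
      (fun x y hxy hn => ⟨(h2 (Sum.inr x) (Sum.inr y) hxy hn).1,
        fun x' y' e1 e2 => (h2 (Sum.inr x) (Sum.inr y) hxy hn).2 (Sum.inr x') (Sum.inr y') e1 e2⟩)
    obtain ⟨x0⟩ := t1a_nonempty (Term.union s t)
    obtain ⟨ℓ, hℓ⟩ : ∃ ℓ : V → Fin k, ∀ x, ℓ (φ x) = (Term.union s t).lab x :=
      ⟨Function.extend φ (Term.union s t).lab (fun _ => (Term.union s t).lab x0),
        fun x => hφ.extend_apply _ _ x⟩
    have hUU : U = Us ∪ Ut := by
      ext v
      rw [Finset.mem_union, hU, mUs, mUt]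
      constructor
      · rintro ⟨x | x, rfl⟩
        · exact Or.inl ⟨x, rfl⟩
        · exact Or.inr ⟨x, rfl⟩
      · rintro (⟨x, rfl⟩ | ⟨x, rfl⟩)
        · exact ⟨_, rfl⟩
        · exact ⟨_, rfl⟩
    refine ⟨ℓ, ?_, ?_⟩
    · rw [hUU]
      refine Dec.union Us Ut ℓs ℓt ℓ a1 b1 ?_ ?_ ?_ ?_
      · rw [Finset.disjoint_left]
        intro v hv hv'
        obtain ⟨x, hx⟩ := (mUs v).1 hv
        obtain ⟨y, hy⟩ := (mUt v).1 hv'
        have := hφ (hx.trans hy.symm)
        cases this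
      · intro u hu v hv e
        obtain ⟨x, rfl⟩ := (mUs u).1 hu
        obtain ⟨y, rfl⟩ := (mUs v).1 hv
        rw [hℓ, hℓ]
        exact a2 x y e
      · intro u hu v hv e
        obtain ⟨x, rfl⟩ := (mUt u).1 hu
        obtain ⟨y, rfl⟩ := (mUt v).1 hv
        rw [hℓ, hℓ]
        exact b2 x y e
      · intro u hu v hv hadj u' hu' v' hv' e1 e2
        obtain ⟨x, rfl⟩ := (mUs u).1 hu
        obtain ⟨y, rfl⟩ := (mUt v).1 hv
        rw [← hUU, hU] at hu' hv'
        obtain ⟨x', rfl⟩ := hu'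
        obtain ⟨y', rfl⟩ := hv'
        rw [hℓ, hℓ] at e1 e2
        have hn : ¬ (Term.union s t).graph.Adj (Sum.inl x) (Sum.inr y) := by
          intro h
          change (Term.graph s ⊕g Term.graph t).Adj (Sum.inl x) (Sum.inr y) at h
          simp at h
        exact (h2 (Sum.inl x) (Sum.inr y) hadj hn).2 x' y' e1 e2
    · intro x y e
      rw [hℓ, hℓ] at e
      exact e
  | join i j h t ih =>
    intro U φ hφ hU h1 h2
    have hj : ∀ x y : t.V, (Term.join i j h t).graph.Adj x y ↔ (t.graph.Adj x y ∨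
        (x ≠ y ∧ ((t.lab x = i ∧ t.lab y = j) ∨ (t.lab y = i ∧ t.lab x = j)))) := by
      intro x y
      change (Term.graph t ⊔ SimpleGraph.fromRel (fun u v => Term.lab t u = i ∧
        Term.lab t v = j)).Adj x y ↔ _
      rw [SimpleGraph.sup_adj, SimpleGraph.fromRel_adj]
    refine ih U φ hφ hU (fun x y hxy => h1 x y ((hj x y).2 (Or.inl hxy))) ?_
    intro x y hxy hn
    by_cases hJ : (Term.join i j h t).graph.Adj x y
    · have hl : (t.lab x = i ∧ t.lab y = j) ∨ (t.lab y = i ∧ t.lab x = j) := by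
        rcases (hj x y).1 hJ with h' | h'
        · exact absurd h' hn
        · exact h'.2
      have hne : t.lab x ≠ t.lab y := by
        rcases hl with ⟨e1, e2⟩ | ⟨e1, e2⟩
        · rw [e1, e2]; exact h
        · rw [e1, e2]; exact h.symm
      refine ⟨hne, fun x' y' e1 e2 => h1 x' y' ((hj x' y').2 (Or.inr ⟨?_, ?_⟩))⟩
      · rintro rfl
        exact hne (e1.symm.trans e2)
      · rw [e1, e2]
        exact hl
    · exact h2 x y hxy hJ
  | relabel i j t ih =>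
    intro U φ hφ hU h1 h2
    have hl : ∀ x : t.V, (Term.relabel i j t).lab x = if t.lab x = i then j else t.lab x :=
      fun x => rfl
    obtain ⟨ℓ, a1, a2⟩ := ih U φ hφ hU (fun x y hxy => h1 x y hxy) (by
      intro x y hxy hn
      obtain ⟨c1, c2⟩ := h2 x y hxy hn
      refine ⟨fun e => c1 (by rw [hl, hl, e]), fun x' y' e1 e2 => c2 x' y' ?_ ?_⟩
      · rw [hl, hl, e1]
      · rw [hl, hl, e2])
    exact ⟨ℓ, a1, fun x y e => by rw [hl, hl, a2 x y e]⟩

/-- a k-expression for a graph isomorphic to the graph induced by `G` on `U` gives a decomposition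
tree -/
theorem dec_of_term {V : Type} [DecidableEq V] (G : SimpleGraph V) (U : Finset V) {k : ℕ}
    (t : Term k) (φ : t.V → V) (hφ : Function.Injective φ) (hU : ∀ v, v ∈ U ↔ ∃ x, φ x = v)
    (hadj : ∀ x y, t.graph.Adj x y ↔ G.Adj (φ x) (φ y)) :
    ∃ ℓ : V → Fin k, Dec (Fin k) G U ℓ := by
  obtain ⟨ℓ, h, -⟩ := t1a_main G t U φ hφ hU (fun x y h => (hadj x y).1 h)
    (fun x y h hn => absurd ((hadj x y).2 h) hn)
  exact ⟨ℓ, h⟩

end Pool.Agent.H.MP_701cec_lc
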