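import Pool.Agent.H.MP_701cec_lc.UB

/-!
The condition for the cross edges at the union with a tick and its W-column.
-/

namespace Pool.Agent.H.MP_701cec_lc

variable {P : Par} {I : Inst}

theorem u2_K {sc : Sched I} {t : ℕ} {v : Vx P} {i : Fin P.p} (h : mu sc (t + 1) v = .K i) :
    v.1 = .R0 i ∨ v.1 = .R1 i ∨ (v.1 = .A i ∧ v.2 ≠ t) ∨ ∃ e, v.1 = .C e i := by
  obtain ⟨k, s⟩ := v
  rcases k with ⟨j', _ | _⟩ | ⟨j', _ | _⟩ | i' | i' | i' | b' | ⟨e, i'⟩ | ⟨_ | _, b'⟩ | _ |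
    ⟨_ | _ | b, q⟩ | ⟨k, s'⟩ | ⟨e, s'⟩ <;> simp only [mu] at h
  all_goals first | (split_ifs at h <;> simp_all; done) | simp_all

theorem u2_A {sc : Sched I} {t : ℕ} {v : Vx P} {i : Fin P.p} (h : mu sc (t + 1) v = .A i) :
    (v.1 = .A i ∧ v.2 = t) ∨ (v.1 = .C false i ∧ sc.pos v.2 = t + 1) := by
  obtain ⟨k, s⟩ := v
  rcases k with ⟨j', _ | _⟩ | ⟨j', _ | _⟩ | i' | i' | i' | b' | ⟨_ | _, i'⟩ | ⟨_ | _, b'⟩ | _ |
    ⟨_ | _ | b, q⟩ | ⟨k, s'⟩ | ⟨e, s'⟩ <;> simp only [mu] at h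
  all_goals first | (split_ifs at h <;> simp_all; done) | simp_all

theorem u2_N {sc : Sched I} {t : ℕ} {v : Vx P} {i : Fin P.p} (h : mu sc (t + 1) v = .N i) :
    v.1 = .C true i ∧ sc.pos v.2 = t + 1 := by
  obtain ⟨k, s⟩ := v
  rcases k with ⟨j', _ | _⟩ | ⟨j', _ | _⟩ | i' | i' | i' | b' | ⟨_ | _, i'⟩ | ⟨_ | _, b'⟩ | _ |
    ⟨_ | _ | b, q⟩ | ⟨k, s'⟩ | ⟨e, s'⟩ <;> simp only [mu] at h
  all_goals first | (split_ifs at h <;> simp_all; done) | simp_all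

theorem u2_X {sc : Sched I} {t : ℕ} {v : Vx P} {j : Fin P.M} (h : mu sc (t + 1) v = .X j) :
    cls v.1 = some (.X j) := by
  obtain ⟨k, s⟩ := v
  rcases k with ⟨j', _ | _⟩ | ⟨j', _ | _⟩ | i' | i' | i' | b' | ⟨_ | _, i'⟩ | ⟨_ | _, b'⟩ | _ |
    ⟨_ | _ | b, q⟩ | ⟨k, s'⟩ | ⟨e, s'⟩ <;> simp only [mu] at h
  all_goals first | (split_ifs at h <;> simp_all [cls, hX]; done) | simp_all [cls, hX]

theorem u2_Y {sc : Sched I} {t : ℕ} {v : Vx P} {j : Fin P.M} (h : mu sc (t + 1) v = .Y j) :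
    cls v.1 = some (.Y j) := by
  obtain ⟨k, s⟩ := v
  rcases k with ⟨j', _ | _⟩ | ⟨j', _ | _⟩ | i' | i' | i' | b' | ⟨_ | _, i'⟩ | ⟨_ | _, b'⟩ | _ |
    ⟨_ | _ | b, q⟩ | ⟨k, s'⟩ | ⟨e, s'⟩ <;> simp only [mu] at h
  all_goals first | (split_ifs at h <;> simp_all [cls, hX]; done) | simp_all [cls, hX]

theorem u2_s {sc : Sched I} {t : ℕ} {v : Vx P} (h : mu sc (t + 1) v = .s) :
    v.1 = .S ∧ v.2 = t + 1 := by
  obtain ⟨k, s⟩ := v
  rcases k with ⟨j', _ | _⟩ | ⟨j', _ | _⟩ | i' | i' | i' | b' | ⟨_ | _, i'⟩ | ⟨_ | _, b'⟩ | _ |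
    ⟨_ | _ | b, q⟩ | ⟨k, s'⟩ | ⟨e, s'⟩ <;> simp only [mu] at h
  all_goals first | (split_ifs at h <;> simp_all; done) | simp_all

theorem u2_Q {sc : Sched I} {t : ℕ} {v : Vx P} (h : mu sc (t + 1) v = .Q) :
    (v.1 = .S ∧ v.2 ≠ t + 1) ∨ ∃ q, v.1 = .Ob .S0 q := by
  obtain ⟨k, s⟩ := v
  rcases k with ⟨j', _ | _⟩ | ⟨j', _ | _⟩ | i' | i' | i' | b' | ⟨_ | _, i'⟩ | ⟨_ | _, b'⟩ | _ |
    ⟨_ | _ | b, q⟩ | ⟨k, s'⟩ | ⟨e, s'⟩ <;> simp only [mu] at h
  all_goals first | (split_ifs at h <;> simp_all; done) | simp_all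

theorem u2_Th {sc : Sched I} {t : ℕ} {v : Vx P} {b : Fin 5} (h : mu sc (t + 1) v = .Th b) :
    ∃ q, v.1 = .Ob (.Th b) q := by
  obtain ⟨k, s⟩ := v
  rcases k with ⟨j', _ | _⟩ | ⟨j', _ | _⟩ | i' | i' | i' | b' | ⟨_ | _, i'⟩ | ⟨_ | _, b'⟩ | _ |
    ⟨_ | _ | b, q⟩ | ⟨k, s'⟩ | ⟨e, s'⟩ <;> simp only [mu] at h
  all_goals first | (split_ifs at h <;> simp_all; done) | simp_all

theorem u2_La {sc : Sched I} {t : ℕ} {v : Vx P} {m : Fin P.ml} (h : mu sc (t + 1) v = .La m) :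
    ∃ x, v.1 = .La m x := by
  obtain ⟨k, s⟩ := v
  rcases k with ⟨j', _ | _⟩ | ⟨j', _ | _⟩ | i' | i' | i' | b' | ⟨_ | _, i'⟩ | ⟨_ | _, b'⟩ | _ |
    ⟨_ | _ | b, q⟩ | ⟨k, s'⟩ | ⟨e, s'⟩ <;> simp only [mu] at h
  all_goals first | (split_ifs at h <;> simp_all; done) | simp_all

theorem u2_E {sc : Sched I} {t : ℕ} {v : Vx P} {b : Fin P.g} (h : mu sc (t + 1) v = .E (eF b)) :
    v.1 = .F true b ∧ sc.pos v.2 ≠ t + 1 ∧ live sc (t + 1) v.2 := by
  obtain ⟨k, s⟩ := v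
  have hb := b.isLt
  rcases k with ⟨j', _ | _⟩ | ⟨j', _ | _⟩ | i' | i' | i' | b' | ⟨_ | _, i'⟩ | ⟨_ | _, b'⟩ | _ |
    ⟨_ | _ | b, q⟩ | ⟨k, s'⟩ | ⟨e, s'⟩ <;> simp only [mu] at h
  all_goals first | (split_ifs at h <;> simp_all [eF, eF1, eF2, Fin.ext_iff] <;> omega; done) |
    (split_ifs at h <;> simp_all [eF, eF1, eF2, Fin.ext_iff]; done) | simp_all

theorem u2_E1 {sc : Sched I} {t : ℕ} {v : Vx P} {b : Fin P.g}
    (h : mu sc (t + 1) v = .E (eF1 b)) : v.1 = .F false b ∧ sc.pos v.2 = t + 1 := by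
  obtain ⟨k, s⟩ := v
  have hb := b.isLt
  rcases k with ⟨j', _ | _⟩ | ⟨j', _ | _⟩ | i' | i' | i' | b' | ⟨_ | _, i'⟩ | ⟨_ | _, b'⟩ | _ |
    ⟨_ | _ | b, q⟩ | ⟨k, s'⟩ | ⟨e, s'⟩ <;> simp only [mu] at h
  all_goals first | (split_ifs at h <;> simp_all [eF, eF1, eF2, Fin.ext_iff] <;> omega; done) |
    (split_ifs at h <;> simp_all [eF, eF1, eF2, Fin.ext_iff]; done) | simp_all

/-- old neighbours of the tick -/
theorem u2_nS {sc : Sched I} {t s : ℕ} {u : Vx P} (hs : s = t + 1)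
    (hut : time sc u ≤ 2 * t + 1) (h : (GG P I).Adj u (.S, s)) :
    ∃ i, mu sc (t + 1) u = .K i := by
  have hl : ∀ y : L0 P, l0 y ≠ (.S, s) := by
    intro y; cases y <;> simp [l0]
  obtain ⟨k, s'⟩ := u
  subst hs
  obtain ⟨g1, g2, g3, g4⟩ := h
  rcases k with ⟨j', _ | _⟩ | ⟨j', _ | _⟩ | i | i | i | b' | ⟨_ | _, i⟩ | ⟨_ | _, b'⟩ | _ | ⟨o, q⟩ | ⟨k, s'⟩ | ⟨e, s'⟩
  all_goals simp [rule, cls, side, isF, hl] at g4
  all_goals simp [mu, time] at hut ⊢
  all_goals first | omega | (exact ⟨i, by rw [if_neg (by omega)]⟩) | (rw [if_neg (by omega)]; simp)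

/-- old neighbours of a vertex `X` -/
theorem u2_nX {sc : Sched I} {t ω : ℕ} {j : Fin P.M} {u : Vx P}
    (hω : sc.pos ω = t + 1) (ht : t + 1 ≤ I.n)
    (hut : time sc u ≤ 2 * t + 1) (h : (GG P I).Adj u (.X j true, ω)) :
    mu sc (t + 1) u = .Y j := by
  have hl : ∀ y : L0 P, l0 y ≠ (.X j true, ω) := by
    intro y; cases y <;> simp [l0]
  obtain ⟨k, s'⟩ := u
  obtain ⟨g1, g2, g3, g4⟩ := h
  rcases k with ⟨j', _ | _⟩ | ⟨j', _ | _⟩ | i | i | i | b' | ⟨_ | _, i⟩ | ⟨_ | _, b'⟩ | _ | ⟨_ | _ | _, q⟩ | ⟨k, s'⟩ | ⟨e, s'⟩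
  all_goals simp [rule, cls, side, isF, hl] at g4
  all_goals simp [mu, time] at hut ⊢
  all_goals first | exact g4 | exact g4.symm | omega | (exfalso; rcases g4 with rfl | rfl <;> omega) |
    (rcases g4 with rfl | h | rfl <;> first | exact h | exact h.symm | (exfalso; omega))

/-- old neighbours of a vertex `Y` -/
theorem u2_nY {sc : Sched I} {t ω : ℕ} {j : Fin P.M} {u : Vx P}
    (hω : sc.pos ω = t + 1) (ht : t + 1 ≤ I.n)
    (hut : time sc u ≤ 2 * t + 1) (h : (GG P I).Adj u (.Y j true, ω)) :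
    mu sc (t + 1) u = .X j ∨ ∃ i, kY i = j ∧ (mu sc (t + 1) u = .K i ∨ mu sc (t + 1) u = .A i) := by
  have hl : ∀ y : L0 P, l0 y ≠ (.Y j true, ω) := by
    intro y; cases y <;> simp [l0]
  obtain ⟨k, s'⟩ := u
  obtain ⟨g1, g2, g3, g4⟩ := h
  rcases k with ⟨j', _ | _⟩ | ⟨j', _ | _⟩ | i | i | i | b' | ⟨_ | _, i⟩ | ⟨_ | _, b'⟩ | _ | ⟨_ | _ | _, q⟩ | ⟨k, s'⟩ | ⟨e, s'⟩
  all_goals simp [rule, cls, side, isF, hl] at g4
  all_goals simp [mu, time] at hut ⊢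
  all_goals first | exact g4.symm | omega | (exfalso; rcases g4 with rfl | rfl <;> omega) |
    (rcases g4 with (h | rfl) | rfl <;> first | exact h.symm | (exfalso; omega)) |
    (refine Or.inr ⟨i, g4.symm, ?_⟩; split_ifs <;> simp; done) |
    (rcases g4 with (h | rfl) | rfl
     · rw [if_neg (by omega)]
       exact Or.inr ⟨i, h.symm, Or.inl rfl⟩
     · exfalso; omega
     · exfalso; omega)

/-- old neighbours of a vertex `C` -/
theorem u2_nC {sc : Sched I} {t ω : ℕ} {e : Bool} {i : Fin P.p} {u : Vx P}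
    (hω : sc.pos ω = t + 1) (ht : t + 1 ≤ I.n)
    (hut : time sc u ≤ 2 * t + 1) (h : (GG P I).Adj u (.C e i, ω)) :
    mu sc (t + 1) u = .Y (kY i) ∨ mu sc (t + 1) u = .Q ∨
      (∃ b, mu sc (t + 1) u = .Th b ∧ I.wl ω = b.val) ∨
      (∃ m, mu sc (t + 1) u = .La m ∧ Nat.testBit (2 * (ω % (P.c + 1)) + e.toNat) m.val = true) := by
  have hl : ∀ y : L0 P, l0 y ≠ (.C e i, ω) := by
    intro y; cases y <;> simp [l0]
  obtain ⟨k, s'⟩ := u
  obtain ⟨g1, g2, g3, g4⟩ := h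
  rcases k with ⟨j', _ | _⟩ | ⟨j', _ | _⟩ | i | i | i | b' | ⟨_ | _, i⟩ | ⟨_ | _, b'⟩ | _ | ⟨_ | _ | _, q⟩ | ⟨k, s'⟩ | ⟨e, s'⟩
  all_goals simp [rule, cls, side, isF, hl] at g4
  all_goals simp [mu, time] at hut ⊢
  all_goals first | exact g4 | omega | (exfalso; rcases g4 with rfl | rfl <;> omega) |
    (rcases g4 with rfl | h | rfl <;> first | exact h | (exfalso; omega)) |
    exact Or.inr (Or.inl (by omega))

/-- old neighbours of a thread vertex -/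
theorem u2_nF {sc : Sched I} {t ω : ℕ} {e : Bool} {b : Fin P.g} {u : Vx P}
    (hω : sc.pos ω = t + 1) (ht : t + 1 ≤ I.n)
    (hut : time sc u ≤ 2 * t + 1) (h : (GG P I).Adj u (.F e b, ω)) :
    e = false ∧ mu sc (t + 1) u = .E (eF b) ∧ seg I u.2 ∧ ω = u.2 + 1 ∧ sc.pos u.2 < t + 1 := by
  have hl : ∀ y : L0 P, l0 y ≠ (.F e b, ω) := by
    intro y; cases y <;> simp [l0]
  have ho := sc.ord ω
  obtain ⟨k, s'⟩ := u
  obtain ⟨g1, g2, g3, g4⟩ := h
  rcases k with ⟨j', _ | _⟩ | ⟨j', _ | _⟩ | i | i | i | b' | ⟨_ | _, i⟩ | ⟨_ | _, b'⟩ | _ | ⟨_ | _ | _, q⟩ | ⟨k, s'⟩ | ⟨e, s'⟩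
  all_goals simp [rule, cls, side, isF, hl] at g4
  all_goals simp [mu, time, valid] at hut g2 g3 ⊢
  all_goals first | omega | (exfalso; rcases g4 with rfl | rfl <;> omega) | skip
  · exfalso
    obtain ⟨he, hb, hs, hj⟩ := g4
    subst hs
    have := ho ⟨g2, hj⟩
    omega
  · obtain ⟨⟨he, hb⟩, hs, hj⟩ := g4
    subst hb hs
    have hsg : seg I s' := ⟨g3, hj⟩
    have hlv : live sc (t + 1) s' := ⟨hsg, by omega⟩
    rw [if_neg (by omega), if_pos hlv]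
    exact ⟨he, rfl, hsg, rfl, by omega⟩

theorem cross_tick (sc : Sched I) {t : ℕ} (ht : t + 1 ≤ I.n) {u v u' v' : Vx P}
    (hu : valid I u) (hut : time sc u ≤ 2 * t + 1) (hv : valid I v) (hvt : time sc v = 2 * t + 2)
    (hadj : (GG P I).Adj u v) (hu' : valid I u') (hut' : time sc u' ≤ 2 * t + 2)
    (hv' : valid I v') (hvt' : time sc v' ≤ 2 * t + 2)
    (e1 : mu sc (t + 1) u' = mu sc (t + 1) u) (e2 : mu sc (t + 1) v' = mu sc (t + 1) v) :
    (GG P I).Adj u' v' := by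
  obtain ⟨k, s⟩ := v
  rcases k with ⟨j, _ | _⟩ | ⟨j, _ | _⟩ | i | i | i | b | ⟨e, i⟩ | ⟨e, b⟩ | _ | ⟨o, q⟩ | ⟨k, s'⟩ | ⟨e, s'⟩
  all_goals simp only [time] at hvt
  · split_ifs at hvt
    omega
  · -- X
    have hω : sc.pos s = t + 1 := by omega
    rw [u2_nX hω ht hut hadj] at e1
    simp only [mu] at e2
    exact (adj_XY (u2_X e2) (u2_Y e1) hv' hu').symm
  · split_ifs at hvt
    omega
  · -- Y
    have hω : sc.pos s = t + 1 := by omega
    simp only [mu] at e2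
    have h2 := u2_Y e2
    rcases u2_nY hω ht hut hadj with h | ⟨i, rfl, h | h⟩
    · rw [h] at e1
      exact adj_XY (u2_X e1) h2 hu' hv'
    · rw [h] at e1
      refine adj_KY (k := i) ?_ h2 hu' hv'
      rcases u2_K e1 with h | h | ⟨h, -⟩ | ⟨e, h⟩ <;> rw [h] <;> rfl
    · rw [h] at e1
      refine adj_KY (k := i) ?_ h2 hu' hv'
      rcases u2_A e1 with ⟨h, -⟩ | ⟨h, -⟩ <;> rw [h] <;> rfl
  · split_ifs at hvt
    omega
  · split_ifs at hvt
    omega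
  · split_ifs at hvt
    omega
  · omega
  · -- C
    have hω : sc.pos s = t + 1 := by omega
    have hsW : s < I.W := hv
    have hlet := sc.letter s hsW
    have htwo := sc.two s hsW
    rw [hω] at hlet htwo
    have hv2 : (∃ hh : v'.1 = .A i, v'.2 = t ∧ e = false) ∨ v' = (.C e i, s) := by
      cases e with
      | false =>
        have e2' : mu sc (t + 1) v' = .A i := by
          rw [e2]
          simp [mu, hω]
        rcases u2_A e2' with ⟨h1, h2⟩ | ⟨h1, h2⟩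
        · exact Or.inl ⟨h1, h2, rfl⟩
        · right
          have hv'' : v'.2 < I.W := by
            have := hv'
            unfold valid at this
            rw [h1] at this
            exact this
          have := sc.inj v'.2 hv'' s hsW (h2.trans hω.symm)
          exact Prod.ext h1 this
      | true =>
        have e2' : mu sc (t + 1) v' = .N i := by
          rw [e2]
          simp [mu, hω]
        obtain ⟨h1, h2⟩ := u2_N e2'
        right
        have hv'' : v'.2 < I.W := by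
          have := hv'
          unfold valid at this
          rw [h1] at this
          exact this
        have := sc.inj v'.2 hv'' s hsW (h2.trans hω.symm)
        exact Prod.ext h1 this
    have hclsv : cls v'.1 = some (.K i) := by
      rcases hv2 with ⟨h, -, -⟩ | h
      · rw [h]; rfl
      · rw [h]; rfl
    rcases u2_nC hω ht hut hadj with h | h | ⟨b, h, hb⟩ | ⟨m, h, hm⟩
    · rw [h] at e1
      exact (adj_KY hclsv (u2_Y e1) hv' hu').symm
    · rw [h] at e1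
      obtain ⟨k', s'⟩ := u'
      rcases u2_Q e1 with ⟨h1, h2⟩ | ⟨q, h1⟩
      · obtain rfl : k' = .S := h1
        have hu'' : 1 ≤ s' ∧ s' ≤ I.n := hu'
        simp only at h2
        obtain ⟨kv, sv⟩ := v'
        rcases hv2 with ⟨h3, h4, -⟩ | h3
        · obtain rfl : kv = .A i := h3
          simp only at h4
          rw [adj_SA]
          omega
        · rw [h3, adj_SC]
          omega
      · obtain rfl : k' = .Ob .S0 q := h1
        obtain rfl : s' = 0 := hu'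
        rw [adj_S0 hv' hclsv]
        intro i' h'
        rcases hv2 with ⟨h3, -, -⟩ | h3
        · rw [h3] at h'; cases h'
        · rw [h3] at h'; cases h'
    · rw [h] at e1
      obtain ⟨k', s'⟩ := u'
      obtain ⟨q, h1⟩ := u2_Th e1
      obtain rfl : k' = .Ob (.Th b) q := h1
      obtain rfl : s' = 0 := hu'
      obtain ⟨kv, sv⟩ := v'
      rcases hv2 with ⟨h3, h4, -⟩ | h3
      · obtain rfl : kv = .A i := h3
        obtain rfl : sv = t := h4
        rw [adj_ThA]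
        exact ⟨by omega, hlet.trans hb⟩
      · rw [h3, adj_ThC]
        exact ⟨hsW, hb⟩
    · rw [h] at e1
      obtain ⟨k', s'⟩ := u'
      obtain ⟨x, h1⟩ := u2_La e1
      obtain rfl : k' = .La m x := h1
      obtain rfl : s' = 0 := hu'
      obtain ⟨kv, sv⟩ := v'
      rcases hv2 with ⟨h3, h4, -⟩ | h3
      · obtain rfl : kv = .A i := h3
        obtain rfl : sv = t := h4
        rw [adj_LaA (by omega)]
        omega
      · rw [h3, adj_LaC]
        exact ⟨hsW, hm⟩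
  · -- F
    have hω : sc.pos s = t + 1 := by omega
    obtain ⟨rfl, h1, h2, h3, h4⟩ := u2_nF hω ht hut hadj
    rw [h1] at e1
    obtain ⟨a1, a2, a3⟩ := u2_E e1
    have e2' : mu sc (t + 1) v' = .E (eF1 b) := by
      rw [e2]
      simp [mu, hω]
    obtain ⟨b1, b2⟩ := u2_E1 e2'
    obtain ⟨kv, sv⟩ := v'
    obtain ⟨ku, su⟩ := u'
    obtain rfl : kv = .F false b := b1
    obtain rfl : ku = .F true b := a1
    have hsv : sv < I.W := hv'
    have hsu : su < I.W := hu'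
    simp only at b2 a2 a3
    have hsvs : sv = s := sc.inj sv hsv s hv (b2.trans hω.symm)
    subst hsvs
    have hsu' : su = u.2 := by
      by_contra hne
      have hut2 : 2 * sc.pos su ≤ 2 * t + 2 := hut'
      rcases sc.apart su u.2 a3.1 h2 hne with h | h
      · have := a3.2
        omega
      · rw [← h3] at h
        omega
    rw [adj_FF]
    refine ⟨hsu, hsv, rfl, Or.inl ⟨rfl, rfl, ?_, ?_⟩⟩
    · rw [hsu', h3]
    · rw [hsu', h3]
      exact h2.2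
  · -- S
    have hs : s = t + 1 := by omega
    subst hs
    obtain ⟨i, h⟩ := u2_nS rfl hut hadj
    rw [h] at e1
    have e2' : mu sc (t + 1) v' = .s := by
      rw [e2]
      simp [mu]
    obtain ⟨b1, b2⟩ := u2_s e2'
    obtain ⟨kv, sv⟩ := v'
    obtain ⟨ku, su⟩ := u'
    obtain rfl : kv = .S := b1
    obtain rfl : sv = t + 1 := b2
    apply SimpleGraph.Adj.symm
    rcases u2_K e1 with h | h | ⟨h, h'⟩ | ⟨e, h⟩
    · obtain rfl : ku = .R0 i := h
      simp only [time] at hut'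
      rw [adj_SR0]
      split_ifs at hut' <;> omega
    · obtain rfl : ku = .R1 i := h
      have : su ≤ I.n := hu'
      simp only [time] at hut'
      rw [adj_SR1]
      split_ifs at hut' <;> omega
    · obtain rfl : ku = .A i := h
      have : su ≤ I.n := hu'
      simp only at h'
      rw [adj_SA]
      omega
    · obtain rfl : ku = .C e i := h
      have : su < I.W := hu'
      rw [adj_SC]
      omega
  · omega
  · omega
  · omega

end Pool.Agent.H.MP_701cec_lc
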