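import Pool.Agent.H.MP_701cec_lc.UB

/-!
The condition for the cross edges at the union with a U-column.
-/

namespace Pool.Agent.H.MP_701cec_lc

variable {P : Par} {I : Inst}

theorem u3_hX {b b' : Fin (3 * P.g)} (h : (hX b : Fin P.M) = hX b') : b = b' := by
  simp only [hX, Fin.mk.injEq] at h
  exact Fin.ext h

theorem u3_nX {sc : Sched I} {t : ℕ} {v : Vx P} {j : Fin P.M} (h : nu sc t v = .X j) :
    cls v.1 = some (.X j) := by
  obtain ⟨k, s⟩ := v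
  rcases k with ⟨j', _ | _⟩ | ⟨j', _ | _⟩ | i | i | i | b' | ⟨_ | _, i⟩ | ⟨_ | _, b'⟩ | _ | ⟨_ | _ | b, q⟩ | ⟨k, s'⟩ | ⟨e, s'⟩ <;>
    simp only [nu] at h <;> (try split_ifs at h) <;> simp_all [cls, hX]

theorem u3_nY {sc : Sched I} {t : ℕ} {v : Vx P} {j : Fin P.M} (h : nu sc t v = .Y j) :
    cls v.1 = some (.Y j) := by
  obtain ⟨k, s⟩ := v
  rcases k with ⟨j', _ | _⟩ | ⟨j', _ | _⟩ | i | i | i | b' | ⟨_ | _, i⟩ | ⟨_ | _, b'⟩ | _ | ⟨_ | _ | b, q⟩ | ⟨k, s'⟩ | ⟨e, s'⟩ <;>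
    simp only [nu] at h <;> (try split_ifs at h) <;> simp_all [cls]

theorem u3_Yn {sc : Sched I} {t : ℕ} {v : Vx P} {j : Fin P.M} (h : cls v.1 = some (.Y j)) :
    nu sc t v = .Y j := by
  obtain ⟨k, s⟩ := v
  rcases k with ⟨j', _ | _⟩ | ⟨j', _ | _⟩ | i | i | i | b' | ⟨_ | _, i⟩ | ⟨_ | _, b'⟩ | _ | ⟨_ | _ | b, q⟩ | ⟨k, s'⟩ | ⟨e, s'⟩ <;>
    simp_all [cls, nu]

/-- vertices with the labels `K`, `A`, `N` are of class `K` -/
theorem u3_nK {sc : Sched I} {t : ℕ} {v : Vx P} {i : Fin P.p}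
    (h : nu sc t v = .K i ∨ nu sc t v = .A i ∨ nu sc t v = .N i) :
    cls v.1 = some (.K i) := by
  obtain ⟨k, s⟩ := v
  rcases k with ⟨j', _ | _⟩ | ⟨j', _ | _⟩ | i | i | i | b' | ⟨_ | _, i⟩ | ⟨_ | _, b'⟩ | _ | ⟨_ | _ | b, q⟩ | ⟨k, s'⟩ | ⟨e, s'⟩ <;>
    simp only [nu] at h <;> (try split_ifs at h) <;> simp_all [cls]

theorem u3_Kn {sc : Sched I} {t : ℕ} {v : Vx P} {i : Fin P.p} (h : cls v.1 = some (.K i)) :
    nu sc t v = .K i ∨ nu sc t v = .A i ∨ nu sc t v = .N i := by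
  obtain ⟨k, s⟩ := v
  rcases k with ⟨j', _ | _⟩ | ⟨j', _ | _⟩ | i | i | i | b' | ⟨_ | _, i⟩ | ⟨_ | _, b'⟩ | _ | ⟨_ | _ | b, q⟩ | ⟨k, s'⟩ | ⟨e, s'⟩ <;>
    simp only [nu] <;> simp_all [cls] <;> split_ifs <;> simp_all

theorem u3_nN {sc : Sched I} {t : ℕ} {v : Vx P} {i : Fin P.p} (h : nu sc t v = .N i) :
    v = (.A i, t) := by
  obtain ⟨k, s⟩ := v
  rcases k with ⟨j', _ | _⟩ | ⟨j', _ | _⟩ | i | i | i | b' | ⟨_ | _, i⟩ | ⟨_ | _, b'⟩ | _ | ⟨_ | _ | b, q⟩ | ⟨k, s'⟩ | ⟨e, s'⟩ <;>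
    simp only [nu] at h <;> (try split_ifs at h) <;> simp_all

theorem u3_nA {sc : Sched I} {t : ℕ} {v : Vx P} {i : Fin P.p} (h : nu sc t v = .A i) :
    v = (.R1 i, t) ∨ (∃ s, v = (.A i, s) ∧ s + 1 = t) ∨ (∃ s, v = (.C false i, s)) := by
  obtain ⟨k, s⟩ := v
  rcases k with ⟨j', _ | _⟩ | ⟨j', _ | _⟩ | i | i | i | b' | ⟨_ | _, i⟩ | ⟨_ | _, b'⟩ | _ | ⟨_ | _ | b, q⟩ | ⟨k, s'⟩ | ⟨e, s'⟩ <;>
    simp only [nu] at h <;> (try split_ifs at h) <;> simp_all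

theorem u3_ns {sc : Sched I} {t : ℕ} {v : Vx P} (h : nu sc t v = .s) : v = (.S, t) := by
  obtain ⟨k, s⟩ := v
  rcases k with ⟨j', _ | _⟩ | ⟨j', _ | _⟩ | i | i | i | b' | ⟨_ | _, i⟩ | ⟨_ | _, b'⟩ | _ | ⟨_ | _ | b, q⟩ | ⟨k, s'⟩ | ⟨e, s'⟩ <;>
    simp only [nu] at h <;> (try split_ifs at h) <;> simp_all

theorem u3_nQ {sc : Sched I} {t : ℕ} {v : Vx P} (hv : valid I v) (h : nu sc t v = .Q) :
    (∃ s, v = (.S, s) ∧ s ≠ t) ∨ ∃ q, v = (.Ob .S0 q, 0) := by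
  obtain ⟨k, s⟩ := v
  rcases k with ⟨j', _ | _⟩ | ⟨j', _ | _⟩ | i | i | i | b' | ⟨_ | _, i⟩ | ⟨_ | _, b'⟩ | _ | ⟨_ | _ | b, q⟩ | ⟨k, s'⟩ | ⟨e, s'⟩ <;>
    simp only [nu] at h <;> (try split_ifs at h) <;> simp_all [valid]

theorem u3_nMu {sc : Sched I} {t : ℕ} {v : Vx P} (hv : valid I v) (h : nu sc t v = .Mu) :
    ∃ q, v = (.Ob .Mu q, 0) := by
  obtain ⟨k, s⟩ := v
  rcases k with ⟨j', _ | _⟩ | ⟨j', _ | _⟩ | i | i | i | b' | ⟨_ | _, i⟩ | ⟨_ | _, b'⟩ | _ | ⟨_ | _ | b, q⟩ | ⟨k, s'⟩ | ⟨e, s'⟩ <;>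
    simp only [nu] at h <;> (try split_ifs at h) <;> simp_all [valid]

theorem u3_nTh {sc : Sched I} {t : ℕ} {v : Vx P} (hv : valid I v) {b : Fin 5}
    (h : nu sc t v = .Th b) : ∃ q, v = (.Ob (.Th b) q, 0) := by
  obtain ⟨k, s⟩ := v
  rcases k with ⟨j', _ | _⟩ | ⟨j', _ | _⟩ | i | i | i | b' | ⟨_ | _, i⟩ | ⟨_ | _, b'⟩ | _ | ⟨_ | _ | b, q⟩ | ⟨k, s'⟩ | ⟨e, s'⟩ <;>
    simp only [nu] at h <;> (try split_ifs at h) <;> simp_all [valid]

theorem u3_nLa {sc : Sched I} {t : ℕ} {v : Vx P} (hv : valid I v) {k : Fin P.ml}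
    (h : nu sc t v = .La k) : ∃ x, v = (.La k x, 0) := by
  obtain ⟨k, s⟩ := v
  rcases k with ⟨j', _ | _⟩ | ⟨j', _ | _⟩ | i | i | i | b' | ⟨_ | _, i⟩ | ⟨_ | _, b'⟩ | _ | ⟨_ | _ | b, q⟩ | ⟨k, s'⟩ | ⟨e, s'⟩ <;>
    simp only [nu] at h <;> (try split_ifs at h) <;> simp_all [valid]

/-- at a boundary column no thread is live -/
theorem u3_nE {sc : Sched I} {t : ℕ} {v : Vx P} (hbd : I.bd t) (hvt : time sc v ≤ 2 * t + 1)
    {b : Fin (3 * P.g)} (h : nu sc t v = .E b) : v = (.H b, t) := by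
  obtain ⟨k, s⟩ := v
  rcases k with ⟨j', _ | _⟩ | ⟨j', _ | _⟩ | i | i | i | b' | ⟨_ | _, i⟩ | ⟨_ | _, b'⟩ | _ | ⟨_ | _ | b, q⟩ | ⟨k, s'⟩ | ⟨e, s'⟩ <;>
    simp only [nu] at h <;> (try split_ifs at h) <;> try (simp_all; done)
  rename_i hl
  obtain ⟨h1, h2⟩ := hl
  simp only [time] at hvt
  exact (sc.bnd s h1 t hbd (by omega) (by omega)).elim

/-- the tick `t` is complete to the label `K i` -/
theorem u3_sK {sc : Sched I} {t : ℕ} (ht : 1 ≤ t) (htn : t ≤ I.n) {v : Vx P} (hv : valid I v)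
    (hvt : time sc v ≤ 2 * t + 1) {i : Fin P.p} (h : nu sc t v = .K i) :
    (GG P I).Adj (.S, t) v := by
  obtain ⟨k, s⟩ := v
  rcases k with ⟨j', _ | _⟩ | ⟨j', _ | _⟩ | i | i | i | b' | ⟨_ | _, i⟩ | ⟨_ | _, b'⟩ | _ | ⟨_ | _ | b, q⟩ | ⟨k, s'⟩ | ⟨e, s'⟩ <;>
    simp only [nu] at h <;> (try split_ifs at h) <;> try (simp_all; done)
  · rw [adj_SR0]
    simp only [time] at hvt
    split_ifs at hvt <;> omega
  · rw [adj_SR1]
    simp only [valid] at hv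
    omega
  · rw [adj_SA]
    simp only [valid] at hv
    omega
  · rw [adj_SC]
    simp only [valid] at hv
    omega
  · rw [adj_SC]
    simp only [valid] at hv
    omega
  · rw [adj_SC]
    simp only [valid] at hv
    omega

theorem u3_obS0 {v : Vx P} (hv : valid I v) {i : Fin P.p} (hc : cls v.1 = some (.K i))
    (q : Fin (P.δ + 1)) (h : ∀ i, v.1 ≠ .R0 i) : (GG P I).Adj (.Ob .S0 q, 0) v :=
  (adj_S0 hv hc q).2 h

/-- the label `Q` is complete to the label `A i` -/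
theorem u3_QA {sc : Sched I} {t : ℕ} (htn : t ≤ I.n) {u v : Vx P} (hu : valid I u)
    (hv : valid I v) (hut : time sc u ≤ 2 * t + 1) {i : Fin P.p} (h1 : nu sc t u = .Q)
    (h : nu sc t v = .A i) : (GG P I).Adj u v := by
  have hc : cls v.1 = some (.K i) := u3_nK (Or.inr (Or.inl h))
  rcases u3_nQ hu h1 with ⟨s, rfl, hs⟩ | ⟨q, rfl⟩
  · simp only [valid] at hu
    simp only [time] at hut
    rcases u3_nA h with rfl | ⟨s', rfl, hs'⟩ | ⟨s', rfl⟩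
    · rw [adj_SR1]
      omega
    · rw [adj_SA]
      omega
    · rw [adj_SC]
      simp only [valid] at hv
      omega
  · refine u3_obS0 hv hc q ?_
    rcases u3_nA h with rfl | ⟨s', rfl, hs'⟩ | ⟨s', rfl⟩ <;> simp

/-- the labels `s` and `Q` are complete to the label `N i` -/
theorem u3_QN {sc : Sched I} {t : ℕ} (htn : t ≤ I.n) {u v : Vx P} (hu : valid I u)
    (hv : valid I v) (hut : time sc u ≤ 2 * t + 1) {i : Fin P.p}
    (h1 : nu sc t u = .Q ∨ nu sc t u = .s)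
    (h : nu sc t v = .N i) : (GG P I).Adj u v := by
  have hc : cls v.1 = some (.K i) := u3_nK (Or.inr (Or.inr h))
  have hv' := u3_nN h
  subst hv'
  rcases h1 with h1 | h1
  · rcases u3_nQ hu h1 with ⟨s, rfl, hs⟩ | ⟨q, rfl⟩
    · simp only [valid] at hu
      simp only [time] at hut
      rw [adj_SA]
      omega
    · exact u3_obS0 hv hc q (by simp)
  · have := u3_ns h1
    subst this
    simp only [valid] at hu
    rw [adj_SA]
    omega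

/-- a vertex which is attached before the U-column `t + 1` is not in this column -/
theorem u3_side {sc : Sched I} {t : ℕ} {u : Vx P} (hut : time sc u ≤ 2 * t + 2)
    (h : side u.1 = some false) : u.2 ≠ t + 1 := by
  obtain ⟨k, s⟩ := u
  rintro rfl
  rcases k with ⟨j', _ | _⟩ | ⟨j', _ | _⟩ | i | i | i | b' | ⟨_ | _, i⟩ | ⟨_ | _, b'⟩ | _ | ⟨_ | _ | b, q⟩ | ⟨k, s'⟩ | ⟨e, s'⟩ <;>
    simp_all [side, time] <;> omega

/-- the neighbours of `X j` in a U-column -/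
theorem u3_adjX {sc : Sched I} {t : ℕ} {u : Vx P} {j : Fin P.M} (hut : time sc u ≤ 2 * t + 2)
    (ht : t + 1 ≤ I.n)
    (h : (GG P I).Adj u (.X j false, t + 1)) : cls u.1 = some (.Y j) := by
  have h' : ∀ y : L0 P, l0 y ≠ (.X j false, t + 1) := by
    intro y; cases y <;> simp [l0]
  have hs := u3_side hut
  obtain ⟨k, s⟩ := u
  obtain ⟨g1, g2, g3, g4⟩ := h
  rcases k with ⟨j', _ | _⟩ | ⟨j', _ | _⟩ | i | i | i | b' | ⟨_ | _, i⟩ | ⟨_ | _, b'⟩ | _ | ⟨_ | _ | b, q⟩ | ⟨k, s'⟩ | ⟨e, s'⟩ <;>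
    simp_all [rule, cls, side, isF, valid] <;> simp_all [time] <;> omega

theorem u3_l0 {t : ℕ} {k : Kd P} : ∀ y : L0 P, l0 y ≠ (k, t + 1) := by
  intro y; cases y <;> simp [l0]

/-- the neighbours of `Y j` in a U-column -/
theorem u3_adjY {sc : Sched I} {t : ℕ} {u : Vx P} {j : Fin P.M} (hut : time sc u ≤ 2 * t + 2)
    (ht : t + 1 ≤ I.n)
    (h : (GG P I).Adj u (.Y j false, t + 1)) :
    cls u.1 = some (.X j) ∨ ∃ i : Fin P.p, kY i = j ∧ cls u.1 = some (.K i) := by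
  have h' := u3_l0 (P := P) (t := t) (k := .Y j false)
  have hs := u3_side hut
  obtain ⟨k, s⟩ := u
  obtain ⟨g1, g2, g3, g4⟩ := h
  rcases k with ⟨j', _ | _⟩ | ⟨j', _ | _⟩ | i | i | i | b' | ⟨_ | _, i⟩ | ⟨_ | _, b'⟩ | _ | ⟨_ | _ | b, q⟩ | ⟨k, s'⟩ | ⟨e, s'⟩ <;>
    simp_all [rule, cls, side, isF, valid] <;> simp_all [time] <;> omega

/-- the neighbours of `R0 i` in a U-column -/
theorem u3_adjR0 {sc : Sched I} {t : ℕ} {u : Vx P} {i : Fin P.p} (hut : time sc u ≤ 2 * t + 2)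
    (ht : t + 1 ≤ I.n)
    (h : (GG P I).Adj u (.R0 i, t + 1)) :
    cls u.1 = some (.Y (kY i)) ∨ u = (.S, t + 1) := by
  have h' := u3_l0 (P := P) (t := t) (k := .R0 i)
  have hs := u3_side hut
  obtain ⟨k, s⟩ := u
  obtain ⟨g1, g2, g3, g4⟩ := h
  rcases k with ⟨j', _ | _⟩ | ⟨j', _ | _⟩ | i | i | i | b' | ⟨_ | _, i⟩ | ⟨_ | _, b'⟩ | _ | ⟨_ | _ | b, q⟩ | ⟨k, s'⟩ | ⟨e, s'⟩ <;>
    simp_all [rule, cls, side, isF, valid] <;> simp_all [time] <;> omega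

/-- the neighbours of `R1 i` in a U-column -/
theorem u3_adjR1 {sc : Sched I} {t : ℕ} {u : Vx P} {i : Fin P.p} (hut : time sc u ≤ 2 * t + 2)
    (ht : t + 1 ≤ I.n)
    (h : (GG P I).Adj u (.R1 i, t + 1)) :
    cls u.1 = some (.Y (kY i)) ∨ (∃ s, u = (.S, s) ∧ s ≠ t + 1) ∨ ∃ q, u = (.Ob .S0 q, 0) := by
  have h' := u3_l0 (P := P) (t := t) (k := .R1 i)
  have hs := u3_side hut
  obtain ⟨k, s⟩ := u
  obtain ⟨g1, g2, g3, g4⟩ := h
  rcases k with ⟨j', _ | _⟩ | ⟨j', _ | _⟩ | i | i | i | b' | ⟨_ | _, i⟩ | ⟨_ | _, b'⟩ | _ | ⟨_ | _ | b, q⟩ | ⟨k, s'⟩ | ⟨e, s'⟩ <;>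
    simp_all [rule, cls, side, isF, valid] <;> simp_all [time] <;> omega

/-- the neighbours of `A i` in a U-column -/
theorem u3_adjA {sc : Sched I} {t : ℕ} {u : Vx P} {i : Fin P.p} (hut : time sc u ≤ 2 * t + 2)
    (ht : t + 1 ≤ I.n)
    (h : (GG P I).Adj u (.A i, t + 1)) :
    cls u.1 = some (.Y (kY i)) ∨ (∃ s, u = (.S, s)) ∨ (∃ q, u = (.Ob .S0 q, 0)) ∨
      (∃ q, u = (.Ob .Mu q, 0)) ∨ (∃ b q, u = (.Ob (.Th b) q, 0) ∧ I.ul (t + 2) = b.val) ∨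
      ∃ k x, u = (.La k x, 0) := by
  have h' := u3_l0 (P := P) (t := t) (k := .A i)
  have hs := u3_side hut
  obtain ⟨k, s⟩ := u
  obtain ⟨g1, g2, g3, g4⟩ := h
  rcases k with ⟨j', _ | _⟩ | ⟨j', _ | _⟩ | i | i | i | b' | ⟨_ | _, i⟩ | ⟨_ | _, b'⟩ | _ | ⟨_ | _ | b, q⟩ | ⟨k, s'⟩ | ⟨e, s'⟩ <;>
    simp_all [rule, cls, side, isF, valid] <;> simp_all [time] <;> omega

/-- the neighbours of `H b` in a U-column -/
theorem u3_adjH {sc : Sched I} {t : ℕ} {u : Vx P} {b : Fin (3 * P.g)}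
    (hut : time sc u ≤ 2 * t + 2) (ht : t + 1 ≤ I.n)
    (h : (GG P I).Adj u (.H b, t + 1)) :
    cls u.1 = some (.Y (hX b)) ∨ (∃ q, u = (.Ob .Mu q, 0)) := by
  have h' := u3_l0 (P := P) (t := t) (k := .H b)
  have hs := u3_side hut
  obtain ⟨k, s⟩ := u
  obtain ⟨g1, g2, g3, g4⟩ := h
  rcases k with ⟨j', _ | _⟩ | ⟨j', _ | _⟩ | i | i | i | b' | ⟨_ | _, i⟩ | ⟨_ | _, b'⟩ | _ | ⟨_ | _ | b, q⟩ | ⟨k, s'⟩ | ⟨e, s'⟩ <;>
    simp_all [rule, cls, side, isF, valid, hX] <;> simp_all [time] <;> omega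

theorem u3_Xn {sc : Sched I} {t : ℕ} {v : Vx P} {j : Fin P.M} (h : cls v.1 = some (.X j))
    (hs : side v.1 = some false → v.2 ≠ t) :
    nu sc t v = .X j := by
  obtain ⟨k, s⟩ := v
  rcases k with ⟨j', _ | _⟩ | ⟨j', _ | _⟩ | i | i | i | b' | ⟨_ | _, i⟩ | ⟨_ | _, b'⟩ | _ | ⟨_ | _ | b, q⟩ | ⟨k, s'⟩ | ⟨e, s'⟩ <;>
    simp_all [cls, nu, side, hX]

theorem cross_col (sc : Sched I) {t : ℕ} (ht : t + 1 ≤ I.n) {u v u' v' : Vx P}
    (hu : valid I u) (hut : time sc u ≤ 2 * t + 2) (hv : valid I v) (hvt : time sc v = 2 * t + 3)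
    (hadj : (GG P I).Adj u v) (hu' : valid I u') (hut' : time sc u' ≤ 2 * t + 3)
    (hv' : valid I v') (hvt' : time sc v' ≤ 2 * t + 3)
    (e1 : nu sc (t + 1) u' = nu sc (t + 1) u) (e2 : nu sc (t + 1) v' = nu sc (t + 1) v) :
    (GG P I).Adj u' v' := by
  have hut'' : time sc u' ≤ 2 * (t + 1) + 1 := by omega
  have hvt'' : time sc v' ≤ 2 * (t + 1) + 1 := by omega
  obtain ⟨k, s⟩ := v
  rcases k with ⟨j', _ | _⟩ | ⟨j', _ | _⟩ | i | i | i | b' | ⟨e, i⟩ | ⟨e, b'⟩ | _ | ⟨o, q⟩ | ⟨k, s'⟩ | ⟨e, s'⟩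
  · -- X
    have hs : s = t + 1 := by
      simp only [time] at hvt
      split_ifs at hvt <;> omega
    subst hs
    have hj := u3_adjX hut ht hadj
    have f1 := u3_nY (e1.trans (u3_Yn hj))
    have f2 : cls v'.1 = some (.X j') := u3_nX (e2.trans rfl)
    exact (adj_XY f2 f1 hv' hu').symm
  · simp only [time] at hvt
    omega
  · -- Y
    have hs : s = t + 1 := by
      simp only [time] at hvt
      split_ifs at hvt <;> omega
    subst hs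
    have f2 : cls v'.1 = some (.Y j') := u3_nY (e2.trans rfl)
    rcases u3_adjY hut ht hadj with hj | ⟨i, hi, hj⟩
    · have f1 := u3_nX (e1.trans (u3_Xn hj (u3_side hut)))
      exact adj_XY f1 f2 hu' hv'
    · have f1 : cls u'.1 = some (.K i) := by
        apply u3_nK (sc := sc) (t := t + 1)
        rw [e1]
        exact u3_Kn hj
      subst hi
      exact adj_KY f1 f2 hu' hv'
  · simp only [time] at hvt
    omega
  · -- R0
    have hs : s = t + 1 := by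
      simp only [time] at hvt
      split_ifs at hvt <;> omega
    subst hs
    have f2 : nu sc (t + 1) v' = .K i := e2.trans rfl
    rcases u3_adjR0 hut ht hadj with hj | rfl
    · have f1 := u3_nY (e1.trans (u3_Yn hj))
      exact (adj_KY (u3_nK (Or.inl f2)) f1 hv' hu').symm
    · have f1 : u' = (.S, t + 1) := u3_ns (e1.trans (by simp [nu]))
      subst f1
      exact u3_sK (by omega) ht hv' hvt'' f2
  · -- R1
    have hs : s = t + 1 := by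
      simp only [time] at hvt
      split_ifs at hvt <;> omega
    subst hs
    have f2 : nu sc (t + 1) v' = .A i := e2.trans (by simp [nu])
    rcases u3_adjR1 hut ht hadj with hj | ⟨s, rfl, hs⟩ | ⟨q, rfl⟩
    · have f1 := u3_nY (e1.trans (u3_Yn hj))
      exact (adj_KY (u3_nK (Or.inr (Or.inl f2))) f1 hv' hu').symm
    · exact u3_QA ht hu' hv' hut'' (e1.trans (by simp [nu, hs])) f2
    · exact u3_QA ht hu' hv' hut'' (e1.trans (by simp [nu])) f2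
  · -- A
    have hs : s = t + 1 := by
      simp only [time] at hvt
      split_ifs at hvt <;> omega
    subst hs
    have f2 : nu sc (t + 1) v' = .N i := e2.trans (by simp [nu])
    rcases u3_adjA hut ht hadj with hj | ⟨s, rfl⟩ | ⟨q, rfl⟩ | ⟨q, rfl⟩ | ⟨b, q, rfl, hb⟩ | ⟨k, x, rfl⟩
    · have f1 := u3_nY (e1.trans (u3_Yn hj))
      exact (adj_KY (u3_nK (Or.inr (Or.inr f2))) f1 hv' hu').symm
    · refine u3_QN ht hu' hv' hut'' ?_ f2
      rw [e1]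
      by_cases hs : s = t + 1
      · right; simp [nu, hs]
      · left; simp [nu, hs]
    · exact u3_QN ht hu' hv' hut'' (Or.inl (e1.trans (by simp [nu]))) f2
    · obtain ⟨q', rfl⟩ := u3_nMu hu' (e1.trans (by simp [nu]))
      have := u3_nN f2
      subst this
      exact (adj_Mu hv' (a := .K i) rfl q').2 (Or.inl ⟨i, rfl⟩)
    · obtain ⟨q', rfl⟩ := u3_nTh (b := b) hu' (e1.trans (by simp [nu]))
      have := u3_nN f2
      subst this
      exact adj_ThA.2 ⟨ht, hb⟩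
    · obtain ⟨x', rfl⟩ := u3_nLa (k := k) hu' (e1.trans (by simp [nu]))
      have := u3_nN f2
      subst this
      exact (adj_LaA (by omega)).2 ht
  · -- H
    have hs : s = t + 1 := by
      simp only [time] at hvt
      omega
    subst hs
    simp only [valid] at hv
    have f2 : v' = (.H b', t + 1) := u3_nE hv.2.2 hvt'' (e2.trans (by simp [nu]))
    subst f2
    rcases u3_adjH hut ht hadj with hj | ⟨q, rfl⟩
    · have f1 := u3_nY (e1.trans (u3_Yn hj))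
      exact (adj_XY (u := (.H b', t + 1)) rfl f1 hv' hu').symm
    · obtain ⟨q', rfl⟩ := u3_nMu hu' (e1.trans (by simp [nu]))
      exact (adj_Mu hv' (a := .X (hX b')) rfl q').2 (Or.inr ⟨b', rfl⟩)
  · simp only [time] at hvt
    omega
  · simp only [time] at hvt
    omega
  · simp only [time] at hvt
    omega
  · simp only [time] at hvt
    omega
  · simp only [time] at hvt
    omega
  · simp only [time] at hvt
    omega

end Pool.Agent.H.MP_701cec_lc
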