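import Pool.Agent.H.MP_701cec_lc.UB

/-!
The labels are merged from one step to the next, and they are different in each new piece.
-/

namespace Pool.Agent.H.MP_701cec_lc

variable {P : Par} {I : Inst}

theorem u4_mu_eq_lam (sc : Sched I) {t : ℕ} {v : Vx P} (hvt : time sc v ≤ 2 * t + 1) :
    mu sc (t + 1) v = lam sc (t + 1) v := by
  obtain ⟨k, s⟩ := v
  rcases k with ⟨j', _ | _⟩ | ⟨j', _ | _⟩ | i | i | i | b' | ⟨_ | _, i⟩ | ⟨_ | _, b'⟩ | _ | ⟨_ | _ | _, q⟩ | ⟨k, s'⟩ | ⟨e, s'⟩ <;>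
    simp only [time] at hvt <;> simp only [mu, lam]
  · have h : sc.pos s ≠ t + 1 := by omega
    simp [h]
  · have h : sc.pos s ≠ t + 1 := by omega
    simp [h]
  · have h : sc.pos s ≠ t + 1 := by omega
    simp [h]
  · have h : sc.pos s ≠ t + 1 := by omega
    simp [h]
  · have h : s ≠ t + 1 := by omega
    simp [h]

/-- from the labels before the tick to the labels after it -/
theorem lam_mu (sc : Sched I) {t : ℕ} {u v : Vx P} (hu : valid I u) (hut : time sc u ≤ 2 * t + 1)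
    (hv : valid I v) (hvt : time sc v ≤ 2 * t + 1) (e : lam sc (t + 1) u = lam sc (t + 1) v) :
    mu sc (t + 1) u = mu sc (t + 1) v := by
  rw [u4_mu_eq_lam sc hut, u4_mu_eq_lam sc hvt, e]

theorem u4_eF1_inj {b b' : Fin P.g} (h : eF1 b = eF1 b') : b = b' := by
  have := congrArg Fin.val h
  simp only [eF1] at this
  exact Fin.ext (by omega)

theorem u4_eF2_inj {b b' : Fin P.g} (h : eF2 b = eF2 b') : b = b' := by
  have := congrArg Fin.val h
  simp only [eF2] at this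
  exact Fin.ext (by omega)

theorem u4_eF_inj {b b' : Fin P.g} (h : eF b = eF b') : b = b' := by
  have := congrArg Fin.val h
  simp only [eF] at this
  exact Fin.ext (by omega)

theorem u4_12 {b b' : Fin P.g} : eF1 b ≠ eF2 b' := by
  intro h
  have := congrArg Fin.val h
  simp only [eF1, eF2] at this
  have := b.isLt
  omega

theorem u4_01 {b b' : Fin P.g} : eF b ≠ eF1 b' := by
  intro h
  have := congrArg Fin.val h
  simp only [eF1, eF] at this
  have := b.isLt
  omega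

theorem u4_02 {b b' : Fin P.g} : eF b ≠ eF2 b' := by
  intro h
  have := congrArg Fin.val h
  simp only [eF2, eF] at this
  have := b.isLt
  omega

/-- names of the vertices attached with the tick `T` -/
theorem u4_tick (sc : Sched I) {t : ℕ} {v : Vx P} (hv : valid I v) (hvt : time sc v = 2 * t + 2)
    (ht : t + 1 ≤ I.n) :
    v = (.S, t + 1) ∨ ∃ ω < I.W, sc.pos ω = t + 1 ∧ ((∃ j, v = (.X j true, ω)) ∨
      (∃ j, v = (.Y j true, ω)) ∨ (∃ e i, v = (.C e i, ω)) ∨ (∃ e b, v = (.F e b, ω))) := by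
  obtain ⟨k, s⟩ := v
  rcases k with ⟨j', _ | _⟩ | ⟨j', _ | _⟩ | i | i | i | b' | ⟨e, i⟩ | ⟨e, b'⟩ | _ | ⟨o, q⟩ | ⟨k, s'⟩ | ⟨e, s'⟩
  · simp only [time] at hvt; split_ifs at hvt; omega
  · exact Or.inr ⟨s, hv, by simp only [time] at hvt; omega, Or.inl ⟨j', rfl⟩⟩
  · simp only [time] at hvt; split_ifs at hvt; omega
  · exact Or.inr ⟨s, hv, by simp only [time] at hvt; omega, Or.inr (Or.inl ⟨j', rfl⟩)⟩
  · simp only [time] at hvt; split_ifs at hvt; omega
  · simp only [time] at hvt; split_ifs at hvt; omega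
  · simp only [time] at hvt; split_ifs at hvt; omega
  · simp only [time] at hvt; omega
  · exact Or.inr ⟨s, hv, by simp only [time] at hvt; omega, Or.inr (Or.inr (Or.inl ⟨e, i, rfl⟩))⟩
  · exact Or.inr ⟨s, hv, by simp only [time] at hvt; omega, Or.inr (Or.inr (Or.inr ⟨e, b', rfl⟩))⟩
  · refine Or.inl ?_
    have : s = t + 1 := by simp only [time] at hvt; omega
    rw [this]
  · simp only [time] at hvt; omega
  · simp only [time] at hvt; omega
  · simp only [time] at hvt; omega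

/-- the tick and its W-column have pairwise different labels -/
theorem mu_inj (sc : Sched I) {t : ℕ} {u v : Vx P} (hu : valid I u) (hut : time sc u = 2 * t + 2)
    (hv : valid I v) (hvt : time sc v = 2 * t + 2) (ht : t + 1 ≤ I.n)
    (e : mu sc (t + 1) u = mu sc (t + 1) v) : u = v := by
  rcases u4_tick sc hu hut ht with rfl | ⟨ω, hω, hp, hh⟩
  · rcases u4_tick sc hv hvt ht with rfl | ⟨ω', hω', hp', hh'⟩
    · rfl
    · exfalso
      rcases hh' with ⟨j, rfl⟩ | ⟨j, rfl⟩ | ⟨e', i, rfl⟩ | ⟨e', b, rfl⟩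
      · simp [mu] at e
      · simp [mu] at e
      · cases e' <;> simp [mu, hp'] at e
      · cases e' <;> simp [mu, hp'] at e
  · rcases u4_tick sc hv hvt ht with rfl | ⟨ω', hω', hp', hh'⟩
    · exfalso
      rcases hh with ⟨j, rfl⟩ | ⟨j, rfl⟩ | ⟨e', i, rfl⟩ | ⟨e', b, rfl⟩
      · simp [mu] at e
      · simp [mu] at e
      · cases e' <;> simp [mu, hp] at e
      · cases e' <;> simp [mu, hp] at e
    · have hωω : ω = ω' := sc.inj ω hω ω' hω' (hp.trans hp'.symm)
      subst hωω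
      rcases hh with ⟨j, rfl⟩ | ⟨j, rfl⟩ | ⟨e1, i, rfl⟩ | ⟨e1, b, rfl⟩ <;>
        rcases hh' with ⟨j', rfl⟩ | ⟨j', rfl⟩ | ⟨e2, i', rfl⟩ | ⟨e2, b', rfl⟩
      · simpa [mu] using e
      · simp [mu] at e
      · cases e2 <;> simp [mu, hp] at e
      · cases e2 <;> simp [mu, hp] at e
      · simp [mu] at e
      · simpa [mu] using e
      · cases e2 <;> simp [mu, hp] at e
      · cases e2 <;> simp [mu, hp] at e
      · cases e1 <;> simp [mu, hp] at e
      · cases e1 <;> simp [mu, hp] at e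
      · cases e1 <;> cases e2 <;> simp [mu, hp] at e ⊢ <;> exact e
      · cases e1 <;> cases e2 <;> simp [mu, hp] at e
      · cases e1 <;> simp [mu, hp] at e
      · cases e1 <;> simp [mu, hp] at e
      · cases e1 <;> cases e2 <;> simp [mu, hp] at e
      · cases e1 <;> cases e2 <;> simp [mu, hp] at e ⊢
        · exact u4_eF1_inj e
        · exact absurd e u4_12
        · exact absurd e.symm u4_12
        · exact u4_eF2_inj e

/-- names of the vertices attached with the U-column `T` -/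
theorem u4_col (sc : Sched I) {t : ℕ} {v : Vx P} (hvt : time sc v = 2 * t + 3) :
    (∃ j, v = (.X j false, t + 1)) ∨ (∃ j, v = (.Y j false, t + 1)) ∨ (∃ i, v = (.R0 i, t + 1)) ∨
      (∃ i, v = (.R1 i, t + 1)) ∨ (∃ i, v = (.A i, t + 1)) ∨ (∃ b, v = (.H b, t + 1)) := by
  obtain ⟨k, s⟩ := v
  rcases k with ⟨j', _ | _⟩ | ⟨j', _ | _⟩ | i | i | i | b' | ⟨e, i⟩ | ⟨e, b'⟩ | _ | ⟨o, q⟩ | ⟨k, s'⟩ | ⟨e, s'⟩ <;>
    simp only [time] at hvt
  · split_ifs at hvt
    have : s = t + 1 := by omega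
    simp [this]
  · omega
  · split_ifs at hvt
    have : s = t + 1 := by omega
    simp [this]
  · omega
  · split_ifs at hvt
    have : s = t + 1 := by omega
    simp [this]
  · split_ifs at hvt
    have : s = t + 1 := by omega
    simp [this]
  · split_ifs at hvt
    have : s = t + 1 := by omega
    simp [this]
  · have : s = t + 1 := by omega
    simp [this]
  all_goals omega

/-- a U-column has pairwise different labels -/
theorem nu_inj (sc : Sched I) {t : ℕ} {u v : Vx P} (hu : valid I u) (hut : time sc u = 2 * t + 3)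
    (hv : valid I v) (hvt : time sc v = 2 * t + 3) (ht : t + 1 ≤ I.n)
    (e : nu sc (t + 1) u = nu sc (t + 1) v) : u = v := by
  rcases u4_col sc hut with ⟨j, rfl⟩ | ⟨j, rfl⟩ | ⟨j, rfl⟩ | ⟨j, rfl⟩ | ⟨j, rfl⟩ | ⟨j, rfl⟩ <;>
    rcases u4_col sc hvt with ⟨j', rfl⟩ | ⟨j', rfl⟩ | ⟨j', rfl⟩ | ⟨j', rfl⟩ | ⟨j', rfl⟩ | ⟨j', rfl⟩ <;>
    simp_all [nu]

theorem u4_live (sc : Sched I) {t ω ω' : ℕ} (h1 : live sc t ω) (h2 : live sc t ω')
    (g1 : sc.pos ω < t) (g2 : sc.pos ω' < t) : ω = ω' := by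
  by_contra hne
  rcases sc.apart ω ω' h1.1 h2.1 hne with h | h
  · have := h1.2; omega
  · have := h2.2; omega

/-- the labels after the U-column, as a function of the labels before, for all vertices except the
thread vertices `F true` -/
noncomputable def u4_f : Lab P → Lab P
  | .N i => .K i
  | .E _ => .D
  | x => x

theorem u4_mu_nu (sc : Sched I) {t : ℕ} {v : Vx P} (hvt : time sc v ≤ 2 * t + 2)
    (h : ∀ b, v.1 ≠ .F true b) : nu sc (t + 1) v = u4_f (mu sc (t + 1) v) := by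
  obtain ⟨k, s⟩ := v
  rcases k with ⟨j', _ | _⟩ | ⟨j', _ | _⟩ | i | i | i | b' | ⟨_ | _, i⟩ | ⟨_ | _, b'⟩ | _ | ⟨_ | _ | _, q⟩ | ⟨k, s'⟩ | ⟨e, s'⟩ <;>
    simp only [time] at hvt <;> simp only [mu, nu]
  · rfl
  · rfl
  · rfl
  · rfl
  · rfl
  · have hs : s ≠ t + 1 := by split_ifs at hvt <;> omega
    simp [hs, u4_f]
  · have hs : s ≠ t + 1 := by split_ifs at hvt <;> omega
    by_cases h0 : s + 1 = t + 1
    · simp [hs, h0, u4_f]
    · have h1 : s ≠ t := by omega
      simp [hs, h1, u4_f]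
  · have hs : s ≠ t + 1 := by omega
    simp [hs, u4_f]
  · by_cases h0 : sc.pos s = t + 1 <;> simp [h0, u4_f]
  · by_cases h0 : sc.pos s = t + 1 <;> simp [h0, u4_f]
  · by_cases h0 : sc.pos s = t + 1 <;> simp [h0, u4_f]
  · exact absurd rfl (h b')
  · by_cases h0 : s = t + 1 <;> simp [h0, u4_f]
  · rfl
  · rfl
  · rfl
  · rfl
  · rfl

/-- the thread vertices -/
theorem u4_F (sc : Sched I) {t ω : ℕ} {b : Fin P.g} (h : sc.pos ω ≤ t + 1) :
    (sc.pos ω = t + 1 ∧ mu sc (t + 1) ((.F true b, ω) : Vx P) = .E (eF2 b)) ∨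
    (sc.pos ω < t + 1 ∧ live sc (t + 1) ω ∧
      mu sc (t + 1) ((.F true b, ω) : Vx P) = .E (eF b)) ∨
    (¬ live sc (t + 2) ω ∧ mu sc (t + 1) ((.F true b, ω) : Vx P) = .D) := by
  by_cases h0 : sc.pos ω = t + 1
  · exact Or.inl ⟨h0, by simp [mu, h0]⟩
  · by_cases h1 : live sc (t + 1) ω
    · exact Or.inr (Or.inl ⟨by omega, h1, by simp [mu, h0, h1]⟩)
    · refine Or.inr (Or.inr ⟨fun h2 => h1 ⟨h2.1, ?_⟩, by simp [mu, h0, h1]⟩)
      have := h2.2
      omega

theorem u4_E {v : Vx P} {sc : Sched I} {t : ℕ} {b : Fin (3 * P.g)} (hv : ∀ b, v.1 ≠ .F true b)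
    (h : mu sc (t + 1) v = .E b) : ∃ b', b = eF1 b' := by
  obtain ⟨k, s⟩ := v
  rcases k with ⟨j', _ | _⟩ | ⟨j', _ | _⟩ | i | i | i | b' | ⟨_ | _, i⟩ | ⟨_ | _, b'⟩ | _ | ⟨_ | _ | _, q⟩ | ⟨k, s'⟩ | ⟨e, s'⟩ <;>
    simp only [mu] at h <;> (try split_ifs at h) <;> simp_all
  exact ⟨_, h.symm⟩

/-- from the labels after the tick to the labels after the U-column -/
theorem mu_nu (sc : Sched I) {t : ℕ} {u v : Vx P} (hu : valid I u) (hut : time sc u ≤ 2 * t + 2)
    (hv : valid I v) (hvt : time sc v ≤ 2 * t + 2) (e : mu sc (t + 1) u = mu sc (t + 1) v) :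
    nu sc (t + 1) u = nu sc (t + 1) v := by
  by_cases hfu : ∃ b, u.1 = .F true b
  · by_cases hfv : ∃ b, v.1 = .F true b
    · obtain ⟨b, hb⟩ := hfu
      obtain ⟨b', hb'⟩ := hfv
      obtain ⟨k, s⟩ := u
      obtain ⟨k', s'⟩ := v
      simp only at hb hb'
      subst hb hb'
      simp only [time] at hut hvt
      have hW : s < I.W := hu
      have hW' : s' < I.W := hv
      rcases u4_F sc (b := b) (ω := s) (t := t) (by omega) with ⟨a1, a2⟩ | ⟨a1, a3, a2⟩ | ⟨a1, a2⟩ <;>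
        rcases u4_F sc (b := b') (ω := s') (t := t) (by omega) with ⟨c1, c2⟩ | ⟨c1, c3, c2⟩ | ⟨c1, c2⟩ <;>
        rw [a2, c2] at e
      · have h1 := sc.inj s hW s' hW' (a1.trans c1.symm)
        have h2 := u4_eF2_inj (Lab.E.inj e)
        rw [h1, h2]
      · exact absurd (Lab.E.inj e).symm u4_02
      · cases e
      · exact absurd (Lab.E.inj e) u4_02
      · have h1 := u4_live sc a3 c3 a1 c1
        have h2 := u4_eF_inj (Lab.E.inj e)
        rw [h1, h2]
      · cases e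
      · cases e
      · cases e
      · simp [nu, a1, c1]
    · push Not at hfv
      obtain ⟨b, hb⟩ := hfu
      obtain ⟨k, s⟩ := u
      simp only at hb
      subst hb
      simp only [time] at hut
      rw [u4_mu_nu sc hvt hfv]
      rcases u4_F sc (b := b) (ω := s) (t := t) (by omega) with ⟨a1, a2⟩ | ⟨a1, a3, a2⟩ | ⟨a1, a2⟩ <;>
        rw [a2] at e
      · obtain ⟨b', hb'⟩ := u4_E hfv e.symm
        exact absurd hb'.symm u4_12
      · obtain ⟨b', hb'⟩ := u4_E hfv e.symm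
        exact absurd hb' u4_01
      · rw [← e]
        simp [nu, a1, u4_f]
  · push Not at hfu
    by_cases hfv : ∃ b, v.1 = .F true b
    · obtain ⟨b, hb⟩ := hfv
      obtain ⟨k, s⟩ := v
      simp only at hb
      subst hb
      simp only [time] at hvt
      rw [u4_mu_nu sc hut hfu]
      rcases u4_F sc (b := b) (ω := s) (t := t) (by omega) with ⟨a1, a2⟩ | ⟨a1, a3, a2⟩ | ⟨a1, a2⟩ <;>
        rw [a2] at e
      · obtain ⟨b', hb'⟩ := u4_E hfu e
        exact absurd hb'.symm u4_12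
      · obtain ⟨b', hb'⟩ := u4_E hfu e
        exact absurd hb' u4_01
      · rw [e]
        simp [nu, a1, u4_f]
    · push Not at hfv
      rw [u4_mu_nu sc hut hfu, u4_mu_nu sc hvt hfv, e]

/-- the labels before the next tick as a function of the labels after the U-column -/
noncomputable def u4_g : Lab P → Lab P
  | .N i => .A i
  | .A i => .K i
  | .s => .Q
  | x => x

theorem u4_nu_lam (sc : Sched I) {t : ℕ} {v : Vx P}
    (h : ∀ b, v.1 ≠ .H b) : lam sc (t + 2) v = u4_g (nu sc (t + 1) v) := by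
  obtain ⟨k, s⟩ := v
  rcases k with ⟨j', _ | _⟩ | ⟨j', _ | _⟩ | i | i | i | b' | ⟨_ | _, i⟩ | ⟨_ | _, b'⟩ | _ | ⟨_ | _ | _, q⟩ | ⟨k, s'⟩ | ⟨e, s'⟩ <;>
    simp only [lam, nu]
  · rfl
  · rfl
  · rfl
  · rfl
  · rfl
  · by_cases h0 : s = t + 1 <;> simp [h0, u4_g]
  · by_cases h0 : s = t + 1
    · simp [h0, u4_g]
    · have h2 : s + 1 ≠ t + 2 := by omega
      by_cases h1 : s + 1 = t + 1
      · simp [h0, h1, h2, u4_g]
      · have h3 : s ≠ t := by omega
        simp [h0, h3, h2, u4_g]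
  · exact absurd rfl (h b')
  · by_cases h0 : sc.pos s = t + 1 <;> simp [h0, u4_g]
  · by_cases h0 : sc.pos s = t + 1 <;> simp [h0, u4_g]
  · rfl
  · by_cases h0 : live sc (t + 1 + 1) s <;> simp [h0, u4_g]
  · by_cases h0 : s = t + 1 <;> simp [h0, u4_g]
  · rfl
  · rfl
  · rfl
  · rfl
  · rfl

theorem u4_H (sc : Sched I) {t s : ℕ} {b : Fin (3 * P.g)} :
    (s = t + 1 ∧ nu sc (t + 1) ((.H b, s) : Vx P) = .E b) ∨
      nu sc (t + 1) ((.H b, s) : Vx P) = .X (hX b) := by
  by_cases h : s = t + 1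
  · exact Or.inl ⟨h, by simp [nu, h]⟩
  · exact Or.inr (by simp [nu, h])

/-- a label `E` of a vertex which is no `H` needs a live thread, hence no boundary -/
theorem u4_nE (sc : Sched I) {t : ℕ} {v : Vx P} {b : Fin (3 * P.g)} (hvt : time sc v ≤ 2 * t + 3)
    (hv : ∀ b, v.1 ≠ .H b) (hb : I.bd (t + 1)) (h : nu sc (t + 1) v = .E b) : False := by
  obtain ⟨k, s⟩ := v
  rcases k with ⟨j', _ | _⟩ | ⟨j', _ | _⟩ | i | i | i | b' | ⟨_ | _, i⟩ | ⟨_ | _, b'⟩ | _ | ⟨_ | _ | _, q⟩ | ⟨k, s'⟩ | ⟨e, s'⟩ <;>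
    simp only [nu] at h <;> (try split_ifs at h) <;> simp_all
  rename_i hl
  simp only [time] at hvt
  have h2 := hl.2
  exact sc.bnd s hl.1 (t + 1) hb (by omega) (by omega)

/-- from the labels after the U-column to the labels before the next tick -/
theorem nu_lam (sc : Sched I) {t : ℕ} {u v : Vx P} (hu : valid I u) (hut : time sc u ≤ 2 * t + 3)
    (hv : valid I v) (hvt : time sc v ≤ 2 * t + 3) (ht : t + 1 ≤ I.n)
    (e : nu sc (t + 1) u = nu sc (t + 1) v) : lam sc (t + 2) u = lam sc (t + 2) v := by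
  by_cases hfu : ∃ b, u.1 = .H b
  · obtain ⟨b, hb⟩ := hfu
    obtain ⟨k, s⟩ := u
    simp only at hb
    subst hb
    have hbd : I.bd s := hu.2.2
    have l1 : lam sc (t + 2) ((.H b, s) : Vx P) = .X (hX b) := rfl
    rw [l1]
    by_cases hfv : ∃ b, v.1 = .H b
    · obtain ⟨b', hb'⟩ := hfv
      obtain ⟨k', s'⟩ := v
      simp only at hb'
      subst hb'
      have l2 : lam sc (t + 2) ((.H b', s') : Vx P) = .X (hX b') := rfl
      rw [l2]
      rcases u4_H sc (t := t) (s := s) (b := b) with ⟨a1, a2⟩ | a2 <;>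
        rcases u4_H sc (t := t) (s := s') (b := b') with ⟨c1, c2⟩ | c2 <;> rw [a2, c2] at e
      · rw [Lab.E.inj e]
      · cases e
      · cases e
      · exact e
    · push Not at hfv
      rw [u4_nu_lam sc hfv]
      rcases u4_H sc (t := t) (s := s) (b := b) with ⟨a1, a2⟩ | a2 <;> rw [a2] at e
      · exact (u4_nE sc hvt hfv (a1 ▸ hbd) e.symm).elim
      · rw [← e]; rfl
  · push Not at hfu
    by_cases hfv : ∃ b, v.1 = .H b
    · obtain ⟨b, hb⟩ := hfv
      obtain ⟨k, s⟩ := v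
      simp only at hb
      subst hb
      have hbd : I.bd s := hv.2.2
      have l1 : lam sc (t + 2) ((.H b, s) : Vx P) = .X (hX b) := rfl
      rw [l1, u4_nu_lam sc hfu]
      rcases u4_H sc (t := t) (s := s) (b := b) with ⟨a1, a2⟩ | a2 <;> rw [a2] at e
      · exact (u4_nE sc hut hfu (a1 ▸ hbd) e).elim
      · rw [e]; rfl
    · push Not at hfv
      rw [u4_nu_lam sc hfu, u4_nu_lam sc hfv, e]

end Pool.Agent.H.MP_701cec_lc
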