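import Pool.Agent.H.MP_701cec_lc.UB

/-!
The final stage: the vertices `Om` and the unused pairs.
-/

namespace Pool.Agent.H.MP_701cec_lc

variable {P : Par} {I : Inst}

/-- isolated vertices may be added -/
theorem DecR.add_iso {V : Type} [DecidableEq V] {Λ : Type} {G : SimpleGraph V} {S : Finset V}
    {d : Λ} (h : DecR Λ G S (fun _ => d)) (T : Finset V) (hT : ∀ v ∈ T, ∀ u, ¬ G.Adj u v) :
    DecR Λ G (S ∪ T) (fun _ => d) := by
  induction T using Finset.induction_on with
  | empty => simpa using h
  | insert a T ha ih =>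
    have h1 := ih fun v hv => hT v (Finset.mem_insert_of_mem hv)
    by_cases hS : a ∈ S ∪ T
    · have : S ∪ insert a T = S ∪ T := by
        rw [Finset.union_insert, Finset.insert_eq_self.2 hS]
      rw [this]
      exact h1
    · have : S ∪ insert a T = (S ∪ T) ∪ {a} := by
        rw [Finset.union_insert, Finset.union_comm (S ∪ T) {a}, Finset.insert_eq]
      rw [this]
      refine DecR.union h1 (DecR.single a _) (by simpa using hS) ?_
      intro u _ v hv hadj
      rw [Finset.mem_singleton] at hv
      subst hv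
      exact absurd hadj (hT v (Finset.mem_insert_self _ _) u)

/-- the classes and the labels before the final stage -/
theorem lam_cls (sc : Sched I) {u u' : Vx P} {a : Cls P} (hc : cls u.1 = some a)
    (e : lam sc (I.n + 1) u' = lam sc (I.n + 1) u) :
    cls u'.1 = some a ∧ ((isA u'.1 = true ∧ u'.2 = I.n) ↔ (isA u.1 = true ∧ u.2 = I.n)) := by
  obtain ⟨k, s⟩ := u
  obtain ⟨k', s'⟩ := u'
  rcases k with ⟨j, _ | _⟩ | ⟨j, _ | _⟩ | i | i | i | b | ⟨_ | _, i⟩ | ⟨_ | _, b⟩ | _ | ⟨_ | _ | o, q⟩ | ⟨k, x⟩ | ⟨o, x⟩ <;>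
  simp only [cls, Option.some.injEq, reduceCtorEq] at hc <;>
  rcases k' with ⟨j', _ | _⟩ | ⟨j', _ | _⟩ | i' | i' | i' | b' | ⟨_ | _, i'⟩ | ⟨_ | _, b'⟩ | _ | ⟨_ | _ | o', q'⟩ | ⟨k', x'⟩ | ⟨o', x'⟩ <;>
  subst hc <;>
  first
    | (simp [lam, cls, isA, hX] at e ⊢; done)
    | (simp [lam, cls, isA, hX] at e ⊢; exact e)
    | (simp [lam, cls, isA, hX] at e ⊢; split_ifs at e <;> simp_all)

theorem lam_ne_s (sc : Sched I) (t : ℕ) (u : Vx P) : lam sc t u ≠ .s := by
  obtain ⟨k, s⟩ := u
  rcases k with ⟨j, _ | _⟩ | ⟨j, _ | _⟩ | i | i | i | b | ⟨_ | _, i⟩ | ⟨_ | _, b⟩ | _ | ⟨_ | _ | o, q⟩ | ⟨k, x⟩ | ⟨o, x⟩ <;>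
  simp only [lam] <;> (try split_ifs) <;> simp

open Classical in
/-- the vertices `Om` may be added -/
theorem add_om (sc : Sched I) {S : Finset (Vx P)} (hS : ∀ u ∈ S, valid I u)
    (h : DecR (Lab P) (GG P I) S (lam sc (I.n + 1))) (T : Finset (Vx P))
    (hT : ∀ v ∈ T, ∃ e x, v = (Kd.Om e x, 0)) :
    DecR (Lab P) (GG P I) (S ∪ T) (lam sc (I.n + 1)) ∧ ∀ u ∈ S ∪ T, valid I u := by
  induction T using Finset.induction_on with
  | empty => rw [Finset.union_empty]; exact ⟨h, hS⟩
  | insert a T ha ih =>
    obtain ⟨h1, h1v⟩ := ih fun v hv => hT v (Finset.mem_insert_of_mem hv)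
    by_cases haS : a ∈ S ∪ T
    · have : S ∪ insert a T = S ∪ T := by
        rw [Finset.union_insert, Finset.insert_eq_self.2 haS]
      rw [this]
      exact ⟨h1, h1v⟩
    · have : S ∪ insert a T = (S ∪ T) ∪ {a} := by
        rw [Finset.union_insert, Finset.union_comm (S ∪ T) {a}, Finset.insert_eq]
      rw [this]
      obtain ⟨o, x, rfl⟩ := hT a (Finset.mem_insert_self _ _)
      constructor
      · have h2 : DecR (Lab P) (GG P I) ((S ∪ T) ∪ {(Kd.Om o x, 0)})
            (fun v => if v = (Kd.Om o x, 0) then .s else lam sc (I.n + 1) v) := by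
          refine DecR.union (h1.coarsen ?_) (DecR.single _ _) (by simpa using haS) ?_
          · intro u hu v hv e
            have hu' : u ≠ (Kd.Om o x, 0) := fun h => haS (h ▸ hu)
            have hv' : v ≠ (Kd.Om o x, 0) := fun h => haS (h ▸ hv)
            simp only [hu', hv', if_false]
            exact e
          · intro u hu v hv hadj u' hu' v' hv' e1 e2
            rw [Finset.mem_singleton] at hv
            subst hv
            have hne : u ≠ (Kd.Om o x, 0) := fun h => haS (h ▸ hu)
            simp only [hne, if_false, if_true] at e1 e2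
            have hv'' : v' = (Kd.Om o x, 0) := by
              by_contra hc
              rw [if_neg hc] at e2
              exact lam_ne_s sc _ _ e2
            have hu'' : u' ≠ (Kd.Om o x, 0) := by
              intro hc
              rw [if_pos hc] at e1
              exact lam_ne_s sc _ _ e1.symm
            rw [if_neg hu''] at e1
            subst hv''
            have hval' : valid I u' := by
              rcases Finset.mem_union.1 hu' with h | h
              · exact h1v u' h
              · exact absurd (Finset.mem_singleton.1 h) hu''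
            cases hc : cls u.1 with
            | none => exact absurd hadj.symm (adj_Om_none hc)
            | some a =>
              obtain ⟨c1, c2⟩ := lam_cls sc hc e1
              have h3 := (adj_Om (h1v u hu) hc).1 hadj.symm
              refine ((adj_Om hval' c1).2 ⟨h3.1, ?_⟩).symm
              rintro ⟨g1, g2, g3⟩
              exact h3.2 ⟨g1, (c2.1 ⟨g2, g3⟩)⟩
        refine h2.coarsen ?_
        intro u _ v _ e
        beta_reduce at e
        by_cases hu : u = (Kd.Om o x, 0) <;> by_cases hv : v = (Kd.Om o x, 0)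
        · rw [hu, hv]
        · rw [if_pos hu, if_neg hv] at e
          exact absurd e.symm (lam_ne_s sc _ _)
        · rw [if_neg hu, if_pos hv] at e
          exact absurd e (lam_ne_s sc _ _)
        · rwa [if_neg hu, if_neg hv] at e
      · intro u hu
        rcases Finset.mem_union.1 hu with h | h
        · exact h1v u h
        · rw [Finset.mem_singleton] at h
          subst h
          rfl

theorem final_stage (sc : Sched I) (hn : 1 ≤ I.n)
    (h : DecR (Lab P) (GG P I) (St P sc (2 * I.n + 1)) (lam sc (I.n + 1))) :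
    DecR (Lab P) (GG P I) (UU P I) (fun _ => Lab.D) := by
  classical
  have hval : ∀ u ∈ St P sc (2 * I.n + 1), valid I u := by
    intro u hu
    unfold St at hu
    rw [Finset.mem_filter] at hu
    exact hu.2.1
  obtain ⟨h1, -⟩ := add_om sc hval h
    ((UU P I).filter fun v => ∃ e x, v = (Kd.Om e x, 0)) (fun v hv => (Finset.mem_filter.1 hv).2)
  have h2 : DecR (Lab P) (GG P I) (St P sc (2 * I.n + 1) ∪
      ((UU P I).filter fun v => ∃ e x, v = (Kd.Om e x, 0))) (fun _ => Lab.D) :=
    h1.coarsen fun _ _ _ _ _ => rfl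
  have h3 := h2.add_iso ((UU P I).filter fun v => ¬ valid I v) (fun v hv u hadj =>
    (Finset.mem_filter.1 hv).2 hadj.2.2.1)
  convert h3 using 1
  ext v
  simp only [Finset.mem_union, Finset.mem_filter, St]
  constructor
  · intro hv
    by_cases hval' : valid I v
    · left
      have : (time sc v ≤ 2 * I.n + 1) ∨ ∃ e x, v = (Kd.Om e x, 0) := by
        obtain ⟨k, s⟩ := v
        have hp : s < I.W → sc.pos s ≤ I.n := sc.le s
        rcases k with ⟨j, _ | _⟩ | ⟨j, _ | _⟩ | i | i | i | b | ⟨_ | _, i⟩ | ⟨_ | _, b⟩ | _ | ⟨_ | _ | o, q⟩ | ⟨k, x⟩ | ⟨o, x⟩ <;>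
        simp only [valid] at hval' <;> simp [time] <;> first | omega | (split_ifs <;> omega)
      rcases this with h | h
      · exact Or.inl ⟨hv, hval', h⟩
      · exact Or.inr ⟨hv, h⟩
    · exact Or.inr ⟨hv, hval'⟩
  · rintro ((h | h) | h)
    · exact h.1
    · exact h.1
    · exact h.1

end Pool.Agent.H.MP_701cec_lc
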