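import Pool.Agent.H.MP_701cec_lc.U1
import Pool.Agent.H.MP_701cec_lc.U2
import Pool.Agent.H.MP_701cec_lc.U3
import Pool.Agent.H.MP_701cec_lc.U4
import Pool.Agent.H.MP_701cec_lc.U5
import Pool.Agent.H.MP_701cec_lc.T1a
import Pool.Agent.H.MP_701cec_lc.Base

/-!
The upper bound: a schedule gives a decomposition tree.
-/

namespace Pool.Agent.H.MP_701cec_lc

variable {P : Par} {I : Inst}

theorem u6_mem_St {sc : Sched I} {r : ℕ} {v : Vx P} :
    v ∈ St P sc r ↔ valid I v ∧ time sc v ≤ r := by
  classical
  unfold St
  rw [Finset.mem_filter]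
  exact ⟨fun h => h.2, fun h => ⟨mem_UU h.1, h⟩⟩

/-- one step of the construction -/
theorem u6_step (sc : Sched I) {r : ℕ} {ℓ : Vx P → Lab P}
    (h : DecR (Lab P) (GG P I) (St P sc r) ℓ) (hne : ∃ v : Vx P, valid I v ∧ time sc v = r + 1)
    (hinj : ∀ u v : Vx P, valid I u → time sc u = r + 1 → valid I v → time sc v = r + 1 →
      ℓ u = ℓ v → u = v)
    (hcross : ∀ u v u' v' : Vx P, valid I u → time sc u ≤ r → valid I v → time sc v = r + 1 →
      (GG P I).Adj u v → valid I u' → time sc u' ≤ r + 1 → valid I v' → time sc v' ≤ r + 1 →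
      ℓ u' = ℓ u → ℓ v' = ℓ v → (GG P I).Adj u' v') :
    DecR (Lab P) (GG P I) (St P sc (r + 1)) ℓ := by
  classical
  set Z : Finset (Vx P) := (UU P I).filter fun v => valid I v ∧ time sc v = r + 1 with hZ
  have memZ : ∀ v, v ∈ Z ↔ valid I v ∧ time sc v = r + 1 := by
    intro v
    rw [hZ, Finset.mem_filter]
    exact ⟨fun h => h.2, fun h => ⟨mem_UU h.1, h⟩⟩
  have hU : St P sc r ∪ Z = St P sc (r + 1) := by
    ext v
    rw [Finset.mem_union, u6_mem_St, memZ, u6_mem_St]
    constructor
    · rintro (⟨h1, h2⟩ | ⟨h1, h2⟩)
      · exact ⟨h1, by omega⟩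
      · exact ⟨h1, by omega⟩
    · rintro ⟨h1, h2⟩
      rcases Nat.lt_or_ge r (time sc v) with h3 | h3
      · exact Or.inr ⟨h1, by omega⟩
      · exact Or.inl ⟨h1, h3⟩
  rw [← hU]
  refine DecR.union h (DecR.inj ?_ ?_) ?_ ?_
  · obtain ⟨v, hv⟩ := hne
    exact ⟨v, (memZ v).2 hv⟩
  · intro u hu v hv e
    rw [memZ] at hu hv
    exact hinj u v hu.1 hu.2 hv.1 hv.2 e
  · rw [Finset.disjoint_left]
    intro v hv hv'
    rw [u6_mem_St] at hv
    rw [memZ] at hv'
    omega
  · intro u hu v hv hadj u' hu' v' hv' e1 e2
    rw [u6_mem_St] at hu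
    rw [memZ] at hv
    rw [hU, u6_mem_St] at hu' hv'
    exact hcross u v u' v' hu.1 hu.2 hv.1 hv.2 hadj hu'.1 hu'.2 hv'.1 hv'.2 e1 e2

/-- the sweep -/
theorem u6_sweep (sc : Sched I) (t : ℕ) (ht : t ≤ I.n) :
    DecR (Lab P) (GG P I) (St P sc (2 * t + 1)) (lam sc (t + 1)) := by
  induction t with
  | zero => exact stage1 sc
  | succ t ih =>
    have h1 := ih (by omega)
    have h2 : DecR (Lab P) (GG P I) (St P sc (2 * t + 1)) (mu sc (t + 1)) := by
      refine h1.coarsen ?_
      intro u hu v hv e
      rw [u6_mem_St] at hu hv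
      exact lam_mu sc hu.1 hu.2 hv.1 hv.2 e
    have h3 : DecR (Lab P) (GG P I) (St P sc (2 * t + 2)) (mu sc (t + 1)) := by
      refine u6_step sc (r := 2 * t + 1) h2 ⟨(Kd.S, t + 1), ⟨by omega, ht⟩, ?_⟩ ?_ ?_
      · show 2 * (t + 1) = 2 * t + 1 + 1
        omega
      · intro u v hu hut hv hvt e
        exact mu_inj sc hu hut hv hvt ht e
      · intro u v u' v' hu hut hv hvt hadj hu' hut' hv' hvt' e1 e2
        exact cross_tick sc ht hu hut hv hvt hadj hu' hut' hv' hvt' e1 e2
    have h4 : DecR (Lab P) (GG P I) (St P sc (2 * t + 2)) (nu sc (t + 1)) := by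
      refine h3.coarsen ?_
      intro u hu v hv e
      rw [u6_mem_St] at hu hv
      exact mu_nu sc hu.1 hu.2 hv.1 hv.2 e
    have h5 : DecR (Lab P) (GG P I) (St P sc (2 * t + 3)) (nu sc (t + 1)) := by
      refine u6_step sc (r := 2 * t + 2) h4
        ⟨(Kd.X ⟨0, by have := P.M_pos; omega⟩ false, t + 1), ht, ?_⟩ ?_ ?_
      · show (if t + 1 = 0 then 0 else 2 * (t + 1) + 1) = 2 * t + 2 + 1
        rw [if_neg (by omega)]
        omega
      · intro u v hu hut hv hvt e
        exact nu_inj sc hu hut hv hvt ht e
      · intro u v u' v' hu hut hv hvt hadj hu' hut' hv' hvt' e1 e2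
        exact cross_col sc ht hu hut hv hvt hadj hu' hut' hv' hvt' e1 e2
    have h6 : DecR (Lab P) (GG P I) (St P sc (2 * t + 3)) (lam sc (t + 2)) := by
      refine h5.coarsen ?_
      intro u hu v hv e
      rw [u6_mem_St] at hu hv
      exact nu_lam sc hu.1 hu.2 hv.1 hv.2 ht e
    have e1 : 2 * (t + 1) + 1 = 2 * t + 3 := by ring
    rw [e1]
    exact h6

/-- the numbers of the labels -/
def u6_num : Lab P → ℕ
  | .X j => j.val
  | .Y j => P.M + j.val
  | .K i => 2 * P.M + i.val
  | .A i => 2 * P.M + P.p + i.val
  | .N i => 2 * P.M + 2 * P.p + i.val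
  | .Q => 2 * P.M + 3 * P.p
  | .s => 2 * P.M + 3 * P.p + 1
  | .Mu => 2 * P.M + 3 * P.p + 2
  | .D => 2 * P.M + 3 * P.p + 3
  | .Th b => 2 * P.M + 3 * P.p + 4 + b.val
  | .La k => 2 * P.M + 3 * P.p + 9 + k.val
  | .E b => 2 * P.M + 3 * P.p + 9 + P.ml + b.val

theorem u6_num_lt (x : Lab P) : u6_num x < P.c := by
  have h := P.hM
  have h' := P.hp
  unfold Par.c Par.κ
  cases x with
  | X j => have := j.isLt; simp only [u6_num]; omega
  | Y j => have := j.isLt; simp only [u6_num]; omega
  | K j => have := j.isLt; simp only [u6_num]; omega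
  | A j => have := j.isLt; simp only [u6_num]; omega
  | N j => have := j.isLt; simp only [u6_num]; omega
  | Q => simp only [u6_num]; omega
  | s => simp only [u6_num]; omega
  | Mu => simp only [u6_num]; omega
  | D => simp only [u6_num]; omega
  | Th j => have := j.isLt; simp only [u6_num]; omega
  | La j => have := j.isLt; simp only [u6_num]; omega
  | E j => have := j.isLt; simp only [u6_num]; omega

/-- the number of the sort of a label -/
def u6_sort : Lab P → ℕ
  | .X _ => 0
  | .Y _ => 1
  | .K _ => 2
  | .A _ => 3
  | .N _ => 4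
  | .Q => 5
  | .s => 6
  | .Mu => 7
  | .D => 8
  | .Th _ => 9
  | .La _ => 10
  | .E _ => 11

theorem u6_num_inj : Function.Injective (u6_num : Lab P → ℕ) := by
  intro x y h
  cases x with
  | X j =>
    have := j.isLt
    cases y <;> simp only [u6_num] at h <;> first | omega | (congr 1; exact Fin.ext (by omega))
  | Y j =>
    have := j.isLt
    cases y with
    | X k => have := k.isLt; simp only [u6_num] at h; omega
    | Y k => simp only [u6_num] at h; congr 1; exact Fin.ext (by omega)
    | _ => simp only [u6_num] at h; omega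
  | K j =>
    have := j.isLt
    cases y with
    | X k => have := k.isLt; simp only [u6_num] at h; omega
    | Y k => have := k.isLt; simp only [u6_num] at h; omega
    | K k => simp only [u6_num] at h; congr 1; exact Fin.ext (by omega)
    | _ => simp only [u6_num] at h; omega
  | A j =>
    have := j.isLt
    cases y with
    | X k => have := k.isLt; simp only [u6_num] at h; omega
    | Y k => have := k.isLt; simp only [u6_num] at h; omega
    | K k => have := k.isLt; simp only [u6_num] at h; omega
    | A k => simp only [u6_num] at h; congr 1; exact Fin.ext (by omega)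
    | _ => simp only [u6_num] at h; omega
  | N j =>
    have := j.isLt
    cases y with
    | X k => have := k.isLt; simp only [u6_num] at h; omega
    | Y k => have := k.isLt; simp only [u6_num] at h; omega
    | K k => have := k.isLt; simp only [u6_num] at h; omega
    | A k => have := k.isLt; simp only [u6_num] at h; omega
    | N k => simp only [u6_num] at h; congr 1; exact Fin.ext (by omega)
    | _ => simp only [u6_num] at h; omega
  | Q =>
    cases y with
    | X k => have := k.isLt; simp only [u6_num] at h; omega
    | Y k => have := k.isLt; simp only [u6_num] at h; omega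
    | K k => have := k.isLt; simp only [u6_num] at h; omega
    | A k => have := k.isLt; simp only [u6_num] at h; omega
    | N k => have := k.isLt; simp only [u6_num] at h; omega
    | Q => rfl
    | _ => simp only [u6_num] at h; omega
  | s =>
    cases y with
    | X k => have := k.isLt; simp only [u6_num] at h; omega
    | Y k => have := k.isLt; simp only [u6_num] at h; omega
    | K k => have := k.isLt; simp only [u6_num] at h; omega
    | A k => have := k.isLt; simp only [u6_num] at h; omega
    | N k => have := k.isLt; simp only [u6_num] at h; omega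
    | s => rfl
    | _ => simp only [u6_num] at h; omega
  | Mu =>
    cases y with
    | X k => have := k.isLt; simp only [u6_num] at h; omega
    | Y k => have := k.isLt; simp only [u6_num] at h; omega
    | K k => have := k.isLt; simp only [u6_num] at h; omega
    | A k => have := k.isLt; simp only [u6_num] at h; omega
    | N k => have := k.isLt; simp only [u6_num] at h; omega
    | Mu => rfl
    | _ => simp only [u6_num] at h; omega
  | D =>
    cases y with
    | X k => have := k.isLt; simp only [u6_num] at h; omega
    | Y k => have := k.isLt; simp only [u6_num] at h; omega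
    | K k => have := k.isLt; simp only [u6_num] at h; omega
    | A k => have := k.isLt; simp only [u6_num] at h; omega
    | N k => have := k.isLt; simp only [u6_num] at h; omega
    | D => rfl
    | _ => simp only [u6_num] at h; omega
  | Th j =>
    have := j.isLt
    cases y with
    | X k => have := k.isLt; simp only [u6_num] at h; omega
    | Y k => have := k.isLt; simp only [u6_num] at h; omega
    | K k => have := k.isLt; simp only [u6_num] at h; omega
    | A k => have := k.isLt; simp only [u6_num] at h; omega
    | N k => have := k.isLt; simp only [u6_num] at h; omega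
    | Th k => simp only [u6_num] at h; congr 1; exact Fin.ext (by omega)
    | _ => simp only [u6_num] at h; omega
  | La j =>
    have := j.isLt
    cases y with
    | X k => have := k.isLt; simp only [u6_num] at h; omega
    | Y k => have := k.isLt; simp only [u6_num] at h; omega
    | K k => have := k.isLt; simp only [u6_num] at h; omega
    | A k => have := k.isLt; simp only [u6_num] at h; omega
    | N k => have := k.isLt; simp only [u6_num] at h; omega
    | Th k => have := k.isLt; simp only [u6_num] at h; omega
    | La k => simp only [u6_num] at h; congr 1; exact Fin.ext (by omega)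
    | _ => simp only [u6_num] at h; omega
  | E j =>
    have := j.isLt
    cases y with
    | X k => have := k.isLt; simp only [u6_num] at h; omega
    | Y k => have := k.isLt; simp only [u6_num] at h; omega
    | K k => have := k.isLt; simp only [u6_num] at h; omega
    | A k => have := k.isLt; simp only [u6_num] at h; omega
    | N k => have := k.isLt; simp only [u6_num] at h; omega
    | Th k => have := k.isLt; simp only [u6_num] at h; omega
    | La k => have := k.isLt; simp only [u6_num] at h; omega
    | E k => simp only [u6_num] at h; congr 1; exact Fin.ext (by omega)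
    | _ => simp only [u6_num] at h; omega

theorem dec_of_sched (sc : Sched I) (hn : 1 ≤ I.n) :
    ∃ ℓ : Vx P → Fin P.c, Dec (Fin P.c) (GG P I) (UU P I) ℓ := by
  obtain ⟨ℓ₀, h, -⟩ := final_stage sc hn (u6_sweep sc I.n le_rfl)
  refine ⟨_, h.map (fun x => ⟨u6_num x, u6_num_lt x⟩) ?_⟩
  intro x y hxy
  exact u6_num_inj (Fin.mk.inj_iff.1 hxy)

end Pool.Agent.H.MP_701cec_lc
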