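import Pool.Agent.H.MP_701cec_lc.T1c
import Pool.Agent.H.MP_701cec_lc.T2
import Pool.Agent.H.MP_701cec_lc.L10
import Pool.Agent.H.MP_701cec_lc.U6
import Pool.Agent.H.MP_701cec_lc.B1
import Pool.Agent.H.MP_701cec_lc.B2
import Pool.Agent.H.MP_701cec_lc.B3
import Pool.Agent.H.MP_701cec_lc.B4
import Pool.Agent.H.MP_701cec_lc.B5
import Pool.Agent.H.MP_701cec_lc.H3
import Pool.Agent.H.MP_701cec_lc.ParX
import Pool.Agent.H.MP_701cec_lc.Enc

/-!
CW c is NP-hard for each large c.
-/

namespace Pool.Agent.H.MP_701cec_lc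

open Pool.Agent.H.MP_84f0af_lc Turing

theorem good_UU (P : Par) (I : Inst) : good P (UU P I) := by
  classical
  unfold good
  rw [Finset.filter_eq_empty_iff.2]
  · simp
  · intro x _ h
    exact h (mem_UU (valid_l0 x))

theorem card_L0 (P : Par) : 2 * P.δ + 2 ≤ Fintype.card (L0 P) := by
  classical
  have h1 : Fintype.card (Fin P.M) ≤ Fintype.card (L0 P) :=
    Fintype.card_le_of_injective (fun j => L0.X j) (fun a b h => by simpa using h)
  have h2 := P.hM
  have h3 := P.hp
  simp at h1
  omega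

theorem good_disj (P : Par) (A B : Finset (Vx P)) (h : Disjoint A B) (hA : good P A) :
    ¬ good P B := by
  classical
  intro hB
  unfold good at hA hB
  have h1 : (Finset.univ : Finset (L0 P)) ⊆ (Finset.univ.filter fun x : L0 P => l0 x ∉ A) ∪
      (Finset.univ.filter fun x : L0 P => l0 x ∉ B) := by
    intro x _
    rw [Finset.mem_union, Finset.mem_filter, Finset.mem_filter]
    by_cases hx : l0 x ∈ A
    · exact Or.inr ⟨Finset.mem_univ _, fun hx' => Finset.disjoint_left.1 h hx hx'⟩
    · exact Or.inl ⟨Finset.mem_univ _, hx⟩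
  have h2 := (Finset.card_le_card h1).trans (Finset.card_union_le _ _)
  have h3 := card_L0 P
  rw [Finset.card_univ] at h2
  omega

theorem good_single (P : Par) (v : Vx P) : ¬ good P {v} := by
  classical
  intro hg
  unfold good at hg
  have h1 : (Finset.univ : Finset (L0 P)) ⊆
      (Finset.univ.filter fun x : L0 P => l0 x ∉ ({v} : Finset (Vx P))) ∪
      (Finset.univ.filter fun x : L0 P => l0 x = v) := by
    intro x _
    rw [Finset.mem_union, Finset.mem_filter, Finset.mem_filter, Finset.mem_singleton]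
    by_cases hx : l0 x = v
    · exact Or.inr ⟨Finset.mem_univ _, hx⟩
    · exact Or.inl ⟨Finset.mem_univ _, hx⟩
  have h2 := (Finset.card_le_card h1).trans (Finset.card_union_le _ _)
  have h3 := card_L0 P
  have h4 : (Finset.univ.filter fun x : L0 P => l0 x = v).card ≤ 1 := by
    rw [Finset.card_le_one]
    intro a ha b hb
    rw [Finset.mem_filter] at ha hb
    exact l0_inj (ha.2.trans hb.2.symm)
  rw [Finset.card_univ] at h2
  omega

theorem good_empty (P : Par) : ¬ good P ∅ := by
  classical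
  intro hg
  unfold good at hg
  have h3 := card_L0 P
  rw [Finset.filter_true_of_mem (by simp), Finset.card_univ] at hg
  omega

theorem err_lt_K (P : Par) : 2 * (P.r1 + 5) < P.K := by
  unfold Par.K Par.err
  nlinarith [Nat.zero_le P.c, Nat.zero_le P.r1]

/-- the main equivalence for one instance -/
theorem main_iff (P : Par) (F : CF) (hN : 0 < F.N) :
    (∃ ℓ : Vx P → Fin P.c, Dec (Fin P.c) (GG P (F.bi.blow P.K)) (UU P (F.bi.blow P.K)) ℓ) ↔
      F.Sat := by
  constructor
  · rintro ⟨ℓ, hd⟩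
    by_cases hm : F.m = 0
    · exact ⟨fun _ => true, fun j hj => by omega⟩
    · have hm : 0 < F.m := Nat.pos_of_ne_zero hm
      have ok := ok_blow P F hN hm
      obtain ⟨ch⟩ := chain_of_dec (GG P (F.bi.blow P.K)) P.c (UU P (F.bi.blow P.K))
        (fun w hw v hadj => hw (mem_UU hadj.2.2.1)) (good P) (good_UU P _) (good_disj P)
        (good_single P) (good_empty P) hd
      obtain ⟨s⟩ := wsched_of_chain ok ch
      obtain ⟨w⟩ := bw_of_wsched F.bi (err_lt_K P) (fun z _ => bi_wl F z) (bi_mono F hN hm) s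
      exact sat_of_bw F hN hm w
  · intro h
    obtain ⟨s⟩ := bsched_of_sat F h
    have hK : 0 < P.K := by have := err_lt_K P; omega
    obtain ⟨s'⟩ := sched_of_bsched F.bi hK s
    exact dec_of_sched s' (by unfold BI.blow; simp)

theorem vxOf_inj (P : Par) : Function.Injective (vxOf P) := by
  intro u v h
  unfold vxOf at h
  rw [Prod.mk.injEq] at h
  have h1 := (Fintype.equivFin (Kd P)).symm.injective h.1
  rw [Fin.mk.injEq] at h1
  rw [← Nat.div_add_mod u (nK P), ← Nat.div_add_mod v (nK P), h.2, h1]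

theorem vxOf_surj (P : Par) (v : Vx P) : ∃ u, vxOf P u = v ∧ u / nK P = v.2 := by
  obtain ⟨k, s⟩ := v
  have hp := nK_pos P
  have hk : (Fintype.equivFin (Kd P) k).val < nK P := (Fintype.equivFin (Kd P) k).isLt
  refine ⟨nK P * s + (Fintype.equivFin (Kd P) k).val, ?_, ?_⟩
  · unfold vxOf
    have e1 : (nK P * s + (Fintype.equivFin (Kd P) k).val) % nK P =
        (Fintype.equivFin (Kd P) k).val := by
      rw [Nat.mul_add_mod, Nat.mod_eq_of_lt hk]
    have e2 : (nK P * s + (Fintype.equivFin (Kd P) k).val) / nK P = s := by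
      rw [Nat.mul_add_div hp, Nat.div_eq_of_lt hk, add_zero]
    rw [Prod.mk.injEq]
    refine ⟨?_, e2⟩
    have e3 : (⟨(nK P * s + (Fintype.equivFin (Kd P) k).val) % nK P, Nat.mod_lt _ hp⟩ :
        Fin (Fintype.card (Kd P))) = Fintype.equivFin (Kd P) k := Fin.ext e1
    exact (congrArg (Fintype.equivFin (Kd P)).symm e3).trans (Equiv.symm_apply_apply _ _)
  · rw [Nat.mul_add_div hp, Nat.div_eq_of_lt hk, add_zero]

/-- `CW c` is NP-hard for each `c ≥ 4245` -/
theorem main (c : ℕ) (hc : 4245 ≤ c) : NPHard (CW c) := by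
  classical
  obtain ⟨P, rfl⟩ := exists_par_ge c hc
  intro Γ hΓ L hL
  obtain ⟨Y, hYN, hY⟩ := np_uc L hL (Option Bool)
  have hK : 0 < P.K := by have := err_lt_K P; omega
  obtain ⟨X, hX⟩ := Y.ui P.K hK
  let R : List Γ → ℕ → ℕ → Prop := fun x u v => (GG P (X.I x)).Adj (vxOf P u) (vxOf P v)
  let n : List Γ → ℕ := fun x => nK P * ((X.I x).n + 1 + (X.I x).W)
  have hn : UF (Option Bool) n :=
    (UF.const (nK P)).mul ((X.hn.add (UF.const 1)).add X.hW)
  have hE : Emits (Option Bool) (fun x => MP_701cec_lc.encode (mkG (R x) (n x))) :=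
    emits_code hn (X.adj P)
  refine ⟨fun x => encode (mkG (R x) (n x)), hE.computable id _ (fun x => rfl), fun x => ?_⟩
  have hnx : 0 < n x := Nat.mul_pos (nK_pos P) (by omega)
  rw [hY x, encode_mem hnx, ← main_iff P (Y.F x) (hYN x), ← hX x]
  have hcpos : 0 < P.c := by
    have := P.hM
    unfold Par.c Par.κ
    omega
  rw [cw_le_iff hnx (mkG (R x) (n x)) (GG P (X.I x)) (UU P (X.I x)) (fun u => vxOf P u.val)
    (fun u v h => Fin.ext (vxOf_inj P h)) ?_ ?_ hcpos]
  · intro v
    constructor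
    · intro hv
      obtain ⟨u, hu, hu'⟩ := vxOf_surj P v
      have h1 : v.2 < (X.I x).n + 1 + (X.I x).W := by
        unfold UU at hv
        rw [Finset.mem_product] at hv
        exact Finset.mem_range.1 hv.2
      refine ⟨⟨u, ?_⟩, hu⟩
      rw [← hu'] at h1
      have := (Nat.div_lt_iff_lt_mul (nK_pos P)).1 h1
      rw [mul_comm] at this
      exact this
    · rintro ⟨u, rfl⟩
      unfold UU
      rw [Finset.mem_product]
      refine ⟨Finset.mem_univ _, Finset.mem_range.2 ?_⟩
      show u.val / nK P < _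
      rw [Nat.div_lt_iff_lt_mul (nK_pos P), mul_comm]
      exact u.isLt
  · intro u v
    unfold mkG
    rw [SimpleGraph.fromRel_adj]
    constructor
    · rintro ⟨-, h | h⟩
      · exact h
      · exact h.symm
    · intro h
      refine ⟨?_, Or.inl h⟩
      rintro rfl
      exact h.ne rfl

end Pool.Agent.H.MP_701cec_lc
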