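import Pool.Agent.H.MP_701cec_lc.Main
import Pool.Agent.H.MP_701cec_lc.M4

/-!
CW c is NP-complete for each c ≥ 4245.
-/

namespace Pool.Agent.H.MP_701cec_lc

/-- A language is NP-complete: it is in NP and NP-hard. -/
def NPComplete {Γ : Type} (L : Set (List Γ)) : Prop := InNP L ∧ NPHard L

theorem CW_complete (c : ℕ) (hc : 4245 ≤ c) : NPComplete (CW c) :=
  ⟨CW_inNP c (by omega), main c hc⟩

end Pool.Agent.H.MP_701cec_lc
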