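import Pool.Agent.H.MP_701cec_lc.Graph

/-!
The parameters exist for every `c ≥ 4246`.
-/

namespace Pool.Agent.H.MP_701cec_lc

theorem par_pow : ∀ l : ℕ, 14 ≤ l → 258 * l + 892 ≤ 2 ^ (l - 1) := by
  intro l hl
  induction l, hl using Nat.le_induction with
  | base => norm_num
  | succ k hk ih =>
    have h : 2 ^ (k + 1 - 1) = 2 * 2 ^ (k - 1) := by
      obtain ⟨j, rfl⟩ : ∃ j, k = j + 1 := ⟨k - 1, by omega⟩
      simp only [Nat.add_sub_cancel]
      rw [pow_succ]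
      ring
    rw [h]
    omega

theorem exists_par (c : ℕ) (hc : 4246 ≤ c) : ∃ P : Par, P.c = c := by
  obtain ⟨l, hl, h1, h2, h3⟩ : ∃ l, 1 ≤ l ∧ c < 2 ^ l ∧ 2 ^ (l - 1) ≤ c ∧ 258 * l + 892 ≤ c := by
    refine ⟨Nat.log 2 c + 1, by omega, Nat.lt_pow_succ_log_self (by norm_num) c, ?_, ?_⟩
    · simp only [Nat.add_sub_cancel]
      exact Nat.pow_log_le_self 2 (by omega)
    · by_cases h : Nat.log 2 c + 1 ≤ 13
      · omega
      · have hk := par_pow (Nat.log 2 c + 1) (by omega)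
        simp only [Nat.add_sub_cancel] at hk
        exact hk.trans (Nat.pow_log_le_self 2 (by omega))
  have hpow : 2 ^ (l + 1) = 2 * 2 ^ l := by rw [pow_succ]; ring
  have hpow' : 2 ^ (l - 1 + 1) = 2 ^ l := by rw [Nat.sub_add_cancel hl]
  obtain ⟨p, hp1, hp2, hp3⟩ : ∃ p, 110 + 32 * l ≤ p ∧ p ≤ 111 + 32 * l ∧
      (c + p + (37 + 10 * l)) % 2 = 0 := by
    rcases Nat.mod_two_eq_zero_or_one c with h | h
    · exact ⟨111 + 32 * l, by omega, by omega, by omega⟩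
    · exact ⟨110 + 32 * l, by omega, by omega, by omega⟩
  obtain ⟨M, hM⟩ : ∃ M, 2 * M + 3 * p + (37 + 10 * l) = c := by
    refine ⟨(c - 3 * p - (37 + 10 * l)) / 2, ?_⟩
    omega
  refine ⟨⟨M, p, 9 + 3 * l, l - 1, l + 1, ?_, ?_, ?_, ?_, ?_, ?_⟩, ?_⟩
  · omega
  · omega
  · omega
  · omega
  · omega
  · omega
  · simp only [Par.c, Par.κ]
    omega

theorem exists_par' : ∃ c₀ : ℕ, ∀ c, c₀ ≤ c → ∃ P : Par, P.c = c :=
  ⟨4246, fun c hc => exists_par c hc⟩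

end Pool.Agent.H.MP_701cec_lc
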