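import Pool.Agent.H.MP_701cec_lc.UB
import Pool.Agent.H.MP_701cec_lc.Base

/-!
The initial stage: `L0` and the vertices `La`.
-/

namespace Pool.Agent.H.MP_701cec_lc

variable {P : Par} {I : Inst}

theorem u1_card_obs : Fintype.card (Obs × Fin (P.δ + 1)) ≤ Fintype.card (Fin (3 * P.g)) := by
  have h : Fintype.card Obs = 7 := by decide
  rw [Fintype.card_prod, h, Fintype.card_fin, Fintype.card_fin]
  exact P.hob

/-- a numbering of the observers -/
noncomputable def u1_idx (P : Par) : (Obs × Fin (P.δ + 1)) ↪ Fin (3 * P.g) :=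
  (Function.Embedding.nonempty_of_card_le (u1_card_obs (P := P))).some

/-- the labels during the initial stage -/
noncomputable def u1_lab (v : Vx P) : Lab P :=
  match v.1 with
  | .X j _ => .X j
  | .Y j _ => .Y j
  | .R0 i => .K i
  | .R1 i => .N i
  | .A i => .A i
  | .Ob o q => .E (u1_idx P (o, q))
  | .La k _ => .La k
  | _ => .D

/-- the vertex `La` -/
def u1_la (q : Fin P.ml × Finset (L0 P)) : Vx P := (.La q.1 q.2, 0)

theorem u1_la_inj : Function.Injective (u1_la : _ → Vx P) := by
  rintro ⟨a, b⟩ ⟨c, d⟩ h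
  simp only [u1_la, Prod.mk.injEq, Kd.La.injEq, and_true] at h
  rw [h.1, h.2]

theorem u1_lab_l0_inj {x y : L0 P} (h : u1_lab (l0 x) = u1_lab (l0 y)) : x = y := by
  cases x <;> cases y <;> simp_all [l0, u1_lab]

theorem u1_lab_ne (x : L0 P) (q : Fin P.ml × Finset (L0 P)) :
    u1_lab (u1_la q) ≠ u1_lab (l0 x) := by
  cases x <;> simp [l0, u1_lab, u1_la]

theorem u1_l0_ne_la (x : L0 P) (q : Fin P.ml × Finset (L0 P)) : l0 x ≠ u1_la q := by
  cases x <;> simp [l0, u1_la]

theorem u1_la_la (q q' : Fin P.ml × Finset (L0 P)) : ¬ (GG P I).Adj (u1_la q) (u1_la q') := by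
  have h : ∀ (x : L0 P) (r : Fin P.ml) (s : Finset (L0 P)), l0 x ≠ (.La r s, 0) := by
    intro x r s; cases x <;> simp [l0]
  simp [adj_def, rule, cls, side, isF, isCol, valid, h, u1_la]

open Classical in
/-- the set of the initial stage with the vertices `La` in `T` -/
noncomputable def u1_set (T : Finset (Fin P.ml × Finset (L0 P))) : Finset (Vx P) :=
  Finset.univ.image (l0 : L0 P → Vx P) ∪ T.image u1_la

theorem u1_mem {T : Finset (Fin P.ml × Finset (L0 P))} {v : Vx P} :
    v ∈ u1_set T ↔ (∃ x, l0 x = v) ∨ ∃ q ∈ T, u1_la q = v := by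
  classical
  simp [u1_set]

theorem u1_lab_s {T : Finset (Fin P.ml × Finset (L0 P))} {v : Vx P} (h : v ∈ u1_set T) :
    u1_lab v ≠ .s := by
  rcases u1_mem.1 h with ⟨x, rfl⟩ | ⟨q, -, rfl⟩
  · cases x <;> simp [l0, u1_lab]
  · simp [u1_la, u1_lab]

theorem u1_nonempty : (Finset.univ.image (l0 : L0 P → Vx P)).Nonempty := by
  have h := P.M_pos
  exact ⟨l0 (.X ⟨0, by omega⟩), Finset.mem_image_of_mem _ (Finset.mem_univ _)⟩

theorem u1_dec (T : Finset (Fin P.ml × Finset (L0 P))) :
    DecR (Lab P) (GG P I) (u1_set T) u1_lab := by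
  classical
  induction T using Finset.induction_on with
  | empty =>
    have e : u1_set (∅ : Finset (Fin P.ml × Finset (L0 P))) = Finset.univ.image l0 := by
      simp [u1_set]
    rw [e]
    refine DecR.inj u1_nonempty ?_
    intro u hu v hv h
    obtain ⟨x, -, rfl⟩ := Finset.mem_image.1 hu
    obtain ⟨y, -, rfl⟩ := Finset.mem_image.1 hv
    rw [u1_lab_l0_inj h]
  | insert a T ha ih =>
    have hna : u1_la a ∉ u1_set T := by
      rw [u1_mem]
      rintro (⟨x, hx⟩ | ⟨q, hq, hqa⟩)
      · exact u1_l0_ne_la x a hx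
      · exact ha (u1_la_inj hqa ▸ hq)
    have e : u1_set (insert a T) = u1_set T ∪ {u1_la a} := by
      ext v
      simp only [u1_mem, Finset.mem_union, Finset.mem_singleton, Finset.mem_insert]
      constructor
      · rintro (h | ⟨q, rfl | hq, rfl⟩)
        · exact Or.inl (Or.inl h)
        · exact Or.inr rfl
        · exact Or.inl (Or.inr ⟨q, hq, rfl⟩)
      · rintro ((h | ⟨q, hq, rfl⟩) | rfl)
        · exact Or.inl h
        · exact Or.inr ⟨q, Or.inr hq, rfl⟩
        · exact Or.inr ⟨a, Or.inl rfl, rfl⟩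
    rw [e]
    set ℓ' : Vx P → Lab P := Function.update u1_lab (u1_la a) .s with hℓ'
    have h1 : ∀ v ∈ u1_set T, ℓ' v = u1_lab v := by
      intro v hv
      rw [hℓ', Function.update_of_ne]
      rintro rfl
      exact hna hv
    have h2 : ℓ' (u1_la a) = .s := by rw [hℓ', Function.update_self]
    have hS : DecR (Lab P) (GG P I) (u1_set T) ℓ' :=
      ih.coarsen fun u hu v hv h => by rw [h1 u hu, h1 v hv, h]
    have key : DecR (Lab P) (GG P I) (u1_set T ∪ {u1_la a}) ℓ' := by
      refine DecR.union hS (DecR.single _ _) (by simpa using hna) ?_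
      intro u hu v hv hadj u' hu' v' hv' e1 e2
      rw [Finset.mem_singleton] at hv
      subst hv
      rw [h2] at e2
      rw [h1 u hu] at e1
      have hv'a : v' = u1_la a := by
        rcases Finset.mem_union.1 hv' with h | h
        · exact absurd ((h1 v' h).symm.trans e2) (u1_lab_s h)
        · exact Finset.mem_singleton.1 h
      have hu'S : u' ∈ u1_set T := by
        rcases Finset.mem_union.1 hu' with h | h
        · exact h
        · rw [Finset.mem_singleton.1 h, h2] at e1
          exact absurd e1.symm (u1_lab_s hu)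
      rw [h1 u' hu'S] at e1
      have huu : u' = u := by
        rcases u1_mem.1 hu with ⟨x, rfl⟩ | ⟨q, -, rfl⟩
        · rcases u1_mem.1 hu'S with ⟨y, rfl⟩ | ⟨q', -, rfl⟩
          · rw [u1_lab_l0_inj e1]
          · exact absurd e1 (u1_lab_ne x q')
        · exact absurd hadj (u1_la_la q a)
      rw [huu, hv'a]
      exact hadj
    refine key.coarsen ?_
    intro u hu v hv h
    rcases Finset.mem_union.1 hu with hu | hu
    · rcases Finset.mem_union.1 hv with hv | hv
      · rw [h1 u hu, h1 v hv] at h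
        exact h
      · rw [Finset.mem_singleton.1 hv, h2, h1 u hu] at h
        exact absurd h (u1_lab_s hu)
    · rcases Finset.mem_union.1 hv with hv | hv
      · rw [Finset.mem_singleton.1 hu, h2, h1 v hv] at h
        exact absurd h.symm (u1_lab_s hv)
      · rw [Finset.mem_singleton.1 hu, Finset.mem_singleton.1 hv]

theorem u1_St (sc : Sched I) : St P sc 1 = u1_set Finset.univ := by
  classical
  ext v
  rw [u1_mem]
  simp only [St, Finset.mem_filter]
  constructor
  · rintro ⟨-, hv, ht⟩
    obtain ⟨k, s⟩ := v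
    rcases k with ⟨j', _ | _⟩ | ⟨j', _ | _⟩ | i | i | i | b' | ⟨e, i⟩ | ⟨e, b'⟩ | _ | ⟨o, q⟩ | ⟨k, s'⟩ | ⟨e, s'⟩
    · refine Or.inl ⟨.X j', ?_⟩
      simp only [time] at ht
      split_ifs at ht with h0
      · rw [h0]; rfl
      · omega
    · have := sc.two s hv
      simp only [time] at ht
      omega
    · refine Or.inl ⟨.Y j', ?_⟩
      simp only [time] at ht
      split_ifs at ht with h0
      · rw [h0]; rfl
      · omega
    · have := sc.two s hv
      simp only [time] at ht
      omega
    · refine Or.inl ⟨.R0 i, ?_⟩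
      simp only [time] at ht
      split_ifs at ht with h0
      · rw [h0]; rfl
      · omega
    · refine Or.inl ⟨.R1 i, ?_⟩
      simp only [time] at ht
      split_ifs at ht with h0
      · rw [h0]; rfl
      · omega
    · refine Or.inl ⟨.A i, ?_⟩
      simp only [time] at ht
      split_ifs at ht with h0
      · rw [h0]; rfl
      · omega
    · have h1 : 1 ≤ s := hv.1
      simp only [time] at ht
      omega
    · have := sc.two s hv
      simp only [time] at ht
      omega
    · have := sc.two s hv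
      simp only [time] at ht
      omega
    · have h1 : 1 ≤ s := hv.1
      simp only [time] at ht
      omega
    · have h1 : s = 0 := hv
      exact Or.inl ⟨.Ob o q, by rw [h1]; rfl⟩
    · have h1 : s = 0 := hv
      exact Or.inr ⟨(k, s'), Finset.mem_univ _, by rw [h1]; rfl⟩
    · simp only [time] at ht
      omega
  · rintro (⟨x, rfl⟩ | ⟨q, -, rfl⟩)
    · refine ⟨mem_UU (valid_l0 x), valid_l0 x, ?_⟩
      cases x <;> simp [l0, time]
    · have hv : valid I (u1_la q) := by simp [u1_la, valid]
      refine ⟨mem_UU hv, hv, ?_⟩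
      simp [u1_la, time]

theorem stage1 (sc : Sched I) : DecR (Lab P) (GG P I) (St P sc 1) (lam sc 1) := by
  rw [u1_St]
  refine (u1_dec Finset.univ).coarsen ?_
  intro u hu v hv h
  rcases u1_mem.1 hu with ⟨x, rfl⟩ | ⟨q, -, rfl⟩
  · rcases u1_mem.1 hv with ⟨y, rfl⟩ | ⟨q', -, rfl⟩
    · rw [u1_lab_l0_inj h]
    · exact absurd h.symm (u1_lab_ne x q')
  · rcases u1_mem.1 hv with ⟨y, rfl⟩ | ⟨q', -, rfl⟩
    · exact absurd h (u1_lab_ne y q)
    · simp only [u1_la, u1_lab, Lab.La.injEq] at h
      simp only [u1_la, lam, h]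

end Pool.Agent.H.MP_701cec_lc
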