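import Pool.Agent.H.MP_701cec_lc.Adj

/-!
Definitions for the upper bound: labels, schedules, stages, and label functions; and the basic
rules for decompositions with final labels.
-/

namespace Pool.Agent.H.MP_701cec_lc

/-- `DecR Λ G S ℓ`: a decomposition tree for `S`, whose labels can be merged to `ℓ`. -/
def DecR {V : Type} [DecidableEq V] (Λ : Type) (G : SimpleGraph V) (S : Finset V) (ℓ : V → Λ) :
    Prop :=
  ∃ ℓ₀ : V → Λ, Dec Λ G S ℓ₀ ∧ ∀ u ∈ S, ∀ v ∈ S, ℓ₀ u = ℓ₀ v → ℓ u = ℓ v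

section
variable {V : Type} [DecidableEq V] {Λ : Type} {G : SimpleGraph V}

theorem DecR.coarsen {S : Finset V} {ℓ ℓ' : V → Λ} (h : DecR Λ G S ℓ)
    (hc : ∀ u ∈ S, ∀ v ∈ S, ℓ u = ℓ v → ℓ' u = ℓ' v) : DecR Λ G S ℓ' := by
  obtain ⟨ℓ₀, h1, h2⟩ := h
  exact ⟨ℓ₀, h1, fun u hu v hv e => hc u hu v hv (h2 u hu v hv e)⟩

theorem DecR.union {S T : Finset V} {ℓ : V → Λ} (hS : DecR Λ G S ℓ) (hT : DecR Λ G T ℓ)
    (hd : Disjoint S T)
    (h3 : ∀ u ∈ S, ∀ v ∈ T, G.Adj u v → ∀ u' ∈ S ∪ T, ∀ v' ∈ S ∪ T,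
        ℓ u' = ℓ u → ℓ v' = ℓ v → G.Adj u' v') : DecR Λ G (S ∪ T) ℓ := by
  obtain ⟨ℓS, a1, a2⟩ := hS
  obtain ⟨ℓT, b1, b2⟩ := hT
  exact ⟨ℓ, Dec.union S T ℓS ℓT ℓ a1 b1 hd a2 b2 h3, fun u _ v _ e => e⟩

theorem DecR.single (v : V) (ℓ : V → Λ) : DecR Λ G {v} ℓ :=
  ⟨ℓ, Dec.single v ℓ, fun _ _ _ _ e => e⟩

/-- sets with pairwise different labels -/
theorem DecR.inj {S : Finset V} (hne : S.Nonempty) {ℓ : V → Λ}
    (hi : ∀ u ∈ S, ∀ v ∈ S, ℓ u = ℓ v → u = v) : DecR Λ G S ℓ := by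
  classical
  induction S using Finset.induction_on with
  | empty => exact absurd hne (by simp)
  | insert a S ha ih =>
    by_cases hS : S.Nonempty
    · have h1 := ih hS (fun u hu v hv => hi u (Finset.mem_insert_of_mem hu) v
        (Finset.mem_insert_of_mem hv))
      have h2 : DecR Λ G ({a} ∪ S) ℓ := by
        refine DecR.union (DecR.single a ℓ) h1 (by simpa using ha) ?_
        intro u hu v hv hadj u' hu' v' hv' e1 e2
        have k : ∀ x, x ∈ ({a} ∪ S : Finset V) → x ∈ insert a S := fun x hx => by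
          simpa [Finset.mem_insert] using hx
        have f1 := hi u' (k _ hu') u (k _ (Finset.mem_union_left _ hu)) e1
        have f2 := hi v' (k _ hv') v (k _ (Finset.mem_union_right _ hv)) e2
        rw [f1, f2]
        exact hadj
      rw [Finset.insert_eq]
      exact h2
    · rw [Finset.not_nonempty_iff_eq_empty] at hS
      subst hS
      simpa using DecR.single (G := G) a ℓ

end

/-- The labels. -/
inductive Lab (P : Par) : Type
  | X (j : Fin P.M)
  | Y (j : Fin P.M)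
  | K (i : Fin P.p)
  | A (i : Fin P.p)
  | N (i : Fin P.p)
  | Q
  | s
  | Mu
  | D
  | Th (b : Fin 5)
  | La (k : Fin P.ml)
  | E (b : Fin (3 * P.g))
  deriving DecidableEq, Fintype

/-- the W-columns `ω`, `ω + 1` exist and belong to the same job -/
def seg (I : Inst) (ω : ℕ) : Prop := ω + 1 < I.W ∧ I.jb (ω + 1) = I.jb ω

/-- Schedules: the W-column `ω` is attached together with the tick `pos ω`. -/
structure Sched (I : Inst) where
  pos : ℕ → ℕ
  two : ∀ ω < I.W, 2 ≤ pos ω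
  le : ∀ ω < I.W, pos ω ≤ I.n
  inj : ∀ ω < I.W, ∀ ω' < I.W, pos ω = pos ω' → ω = ω'
  letter : ∀ ω < I.W, I.ul (pos ω) = I.wl ω
  ord : ∀ ω, seg I ω → pos ω < pos (ω + 1)
  apart : ∀ ω ω', seg I ω → seg I ω' → ω ≠ ω' → pos (ω + 1) ≤ pos ω' ∨ pos (ω' + 1) ≤ pos ω
  bnd : ∀ ω, seg I ω → ∀ β, I.bd β → pos ω ≤ β → β < pos (ω + 1) → False

section
variable {P : Par} {I : Inst}

/-- the time at which a vertex is attached -/
def time (sc : Sched I) (v : Vx P) : ℕ :=
  match v.1 with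
  | .X _ false => if v.2 = 0 then 0 else 2 * v.2 + 1
  | .Y _ false => if v.2 = 0 then 0 else 2 * v.2 + 1
  | .R0 _ => if v.2 = 0 then 0 else 2 * v.2 + 1
  | .R1 _ => if v.2 = 0 then 0 else 2 * v.2 + 1
  | .A _ => if v.2 = 0 then 0 else 2 * v.2 + 1
  | .H _ => 2 * v.2 + 1
  | .X _ true => 2 * sc.pos v.2
  | .Y _ true => 2 * sc.pos v.2
  | .C _ _ => 2 * sc.pos v.2
  | .F _ _ => 2 * sc.pos v.2
  | .S => 2 * v.2
  | .Ob _ _ => 0
  | .La _ _ => 1
  | .Om _ _ => 2 * I.n + 2

open Classical in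
/-- the valid vertices which are attached up to time `r` -/
noncomputable def St (P : Par) {I : Inst} (sc : Sched I) (r : ℕ) : Finset (Vx P) :=
  (UU P I).filter fun v => valid I v ∧ time sc v ≤ r

/-- the thread vertices `F true b` of the W-column `ω` wait for a tick `≥ t` -/
def live (sc : Sched I) (t ω : ℕ) : Prop := seg I ω ∧ t ≤ sc.pos (ω + 1)

/-- thread labels -/
def eF (b : Fin P.g) : Fin (3 * P.g) := ⟨b.val, by have := b.isLt; omega⟩
def eF1 (b : Fin P.g) : Fin (3 * P.g) := ⟨P.g + b.val, by have := b.isLt; omega⟩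
def eF2 (b : Fin P.g) : Fin (3 * P.g) := ⟨2 * P.g + b.val, by have := b.isLt; omega⟩
/-- the row of a vertex `H b` -/
def hX (b : Fin (3 * P.g)) : Fin P.M := ⟨b.val, lt_of_lt_of_le b.isLt P.g_le_M⟩

open Classical in
/-- the labels before the tick `t` (everything of time `< 2 t` is attached) -/
noncomputable def lam (sc : Sched I) (t : ℕ) (v : Vx P) : Lab P :=
  match v.1 with
  | .X j _ => .X j
  | .Y j _ => .Y j
  | .R0 i => .K i
  | .R1 i => .K i
  | .A i => if v.2 + 1 = t then .A i else .K i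
  | .H b => .X (hX b)
  | .C _ i => .K i
  | .F false _ => .D
  | .F true b => if live sc t v.2 then .E (eF b) else .D
  | .S => .Q
  | .Ob .S0 _ => .Q
  | .Ob .Mu _ => .Mu
  | .Ob (.Th b) _ => .Th b
  | .La k _ => .La k
  | .Om _ _ => .D

open Classical in
/-- the labels right after the union with the tick `t` and the W-column of this tick -/
noncomputable def mu (sc : Sched I) (t : ℕ) (v : Vx P) : Lab P :=
  match v.1 with
  | .X j _ => .X j
  | .Y j _ => .Y j
  | .R0 i => .K i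
  | .R1 i => .K i
  | .A i => if v.2 + 1 = t then .A i else .K i
  | .H b => .X (hX b)
  | .C e i => if sc.pos v.2 = t then (if e then .N i else .A i) else .K i
  | .F false b => if sc.pos v.2 = t then .E (eF1 b) else .D
  | .F true b => if sc.pos v.2 = t then .E (eF2 b) else if live sc t v.2 then .E (eF b) else .D
  | .S => if v.2 = t then .s else .Q
  | .Ob .S0 _ => .Q
  | .Ob .Mu _ => .Mu
  | .Ob (.Th b) _ => .Th b
  | .La k _ => .La k
  | .Om _ _ => .D

open Classical in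
/-- the labels right after the union with the U-column `t` -/
noncomputable def nu (sc : Sched I) (t : ℕ) (v : Vx P) : Lab P :=
  match v.1 with
  | .X j _ => .X j
  | .Y j _ => .Y j
  | .R0 i => .K i
  | .R1 i => if v.2 = t then .A i else .K i
  | .A i => if v.2 = t then .N i else if v.2 + 1 = t then .A i else .K i
  | .H b => if v.2 = t then .E b else .X (hX b)
  | .C e i => if sc.pos v.2 = t then (if e then .K i else .A i) else .K i
  | .F false _ => .D
  | .F true b => if live sc (t + 1) v.2 then .E (eF b) else .D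
  | .S => if v.2 = t then .s else .Q
  | .Ob .S0 _ => .Q
  | .Ob .Mu _ => .Mu
  | .Ob (.Th b) _ => .Th b
  | .La k _ => .La k
  | .Om _ _ => .D

end

end Pool.Agent.H.MP_701cec_lc
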